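import Pool.Agent.Lib.MP_7587db.Coupling

set_option autoImplicit false
set_option linter.unusedSectionVars false
set_option linter.unusedVariables false

namespace Pool.Agent.Lib.MP_7587db

open Finset Function Filter MeasureTheory ProbabilityTheory

section as

variable {Ω : Type} [MeasurableSpace Ω] {μ : Measure Ω} [IsProbabilityMeasure μ]
  {X : (Σ n : ℕ, Fin n × Fin n) → Ω → Bool} {c : ℝ}

/-- the configuration at size `n` -/
def cf (X : (Σ n : ℕ, Fin n × Fin n) → Ω → Bool) (n : ℕ) (ω : Ω) : Fin n × Fin n → Bool :=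
  fun p => X ⟨n, p⟩ ω

/-- the edge probability at size `n` -/
noncomputable def pn (c : ℝ) (n : ℕ) : ℝ := min 1 (c / (n : ℝ))

lemma pn_nonneg (hc : 0 ≤ c) (n : ℕ) : 0 ≤ pn c n := le_min zero_le_one (by positivity)

lemma pn_le_one (n : ℕ) : pn c n ≤ 1 := min_le_left _ _

lemma law_point (hc : 0 ≤ c) (hi : iIndepFun X μ)
    (hm : ∀ i, Measurable (X i))
    (hp : ∀ i, μ {ω | X i ω = true} = ENNReal.ofReal (min 1 (c / (i.1 : ℝ)))) (n : ℕ)
    (x : Fin n × Fin n → Bool) :
    μ {ω | cf X n ω = x} = ENNReal.ofReal (bP (fun _ => pn c n) x) := by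
  have hinj : Function.Injective (fun p : Fin n × Fin n => (⟨n, p⟩ : Σ n : ℕ, Fin n × Fin n)) := by
    intro a b hab
    simpa using hab
  have hi' := hi.precomp hinj
  have hset : {ω | cf X n ω = x} =
      ⋂ p ∈ (univ : Finset (Fin n × Fin n)), (fun ω => X ⟨n, p⟩ ω) ⁻¹' {x p} := by
    ext ω
    simp [cf, funext_iff]
  rw [hset, hi'.measure_inter_preimage_eq_mul univ
    (sets := fun p => {x p}) (fun p _ => measurableSet_singleton _)]
  unfold bP
  rw [ENNReal.ofReal_prod_of_nonneg (fun p _ => bw_nonneg (pn_nonneg hc n) (pn_le_one n) _)]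
  refine Finset.prod_congr rfl fun p _ => ?_
  have h1 : μ ((fun ω => X ⟨n, p⟩ ω) ⁻¹' {true}) = ENNReal.ofReal (pn c n) := hp ⟨n, p⟩
  cases hx : x p
  · have h2 : (fun ω => X ⟨n, p⟩ ω) ⁻¹' {false} = ((fun ω => X ⟨n, p⟩ ω) ⁻¹' {true})ᶜ := by
      ext ω
      simp
    rw [h2, prob_compl_eq_one_sub (hm _ (measurableSet_singleton _)), h1, bw_false,
      ENNReal.ofReal_sub _ (pn_nonneg hc n), ENNReal.ofReal_one]
  · rw [h1, bw_true]

lemma prob_le (hc : 0 ≤ c) (hi : iIndepFun X μ)
    (hm : ∀ i, Measurable (X i))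
    (hp : ∀ i, μ {ω | X i ω = true} = ENNReal.ofReal (min 1 (c / (i.1 : ℝ)))) (n : ℕ)
    (P : Set (Fin n × Fin n → Bool)) (G : (Fin n × Fin n → Bool) → ℝ) (hG0 : ∀ x, 0 ≤ G x)
    (hG : ∀ x ∈ P, 1 ≤ G x) :
    μ {ω | cf X n ω ∈ P} ≤ ENNReal.ofReal (bE (fun _ => pn c n) G) := by
  classical
  have hsub : {ω | cf X n ω ∈ P} ⊆
      ⋃ x ∈ (univ.filter (fun x => x ∈ P) : Finset (Fin n × Fin n → Bool)), {ω | cf X n ω = x} := by
    intro ω hω
    simp only [Set.mem_iUnion]
    exact ⟨cf X n ω, by simpa using hω, rfl⟩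
  refine (measure_mono hsub).trans ((measure_biUnion_finset_le _ _).trans ?_)
  simp only [law_point hc hi hm hp]
  rw [← ENNReal.ofReal_sum_of_nonneg
    (fun x _ => bP_nonneg (fun _ => pn_nonneg hc n) (fun _ => pn_le_one n) x)]
  refine ENNReal.ofReal_le_ofReal ?_
  unfold bE
  have h0 : ∀ x : Fin n × Fin n → Bool, 0 ≤ bP (fun _ => pn c n) x := fun x =>
    bP_nonneg (fun _ => pn_nonneg hc n) (fun _ => pn_le_one n) x
  calc ∑ x ∈ univ.filter (fun x => x ∈ P), bP (fun _ => pn c n) x
      ≤ ∑ x ∈ univ.filter (fun x => x ∈ P), bP (fun _ => pn c n) x * G x :=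
        Finset.sum_le_sum fun x hx => by
          have := hG x (by simpa using hx)
          exact le_mul_of_one_le_right (h0 x) this
    _ ≤ ∑ x, bP (fun _ => pn c n) x * G x :=
        Finset.sum_le_sum_of_subset_of_nonneg (Finset.subset_univ _)
          fun x _ _ => mul_nonneg (h0 x) (hG0 x)

lemma tail_bound {ι : Type*} [Fintype ι] [DecidableEq ι] {p : ι → ℝ} (h0 : ∀ i, 0 ≤ p i)
    (h1 : ∀ i, p i ≤ 1) {D θ P s : ℝ} (hD : 0 ≤ D) (hθ0 : 0 ≤ θ) (hθ : θ * D ≤ 1)
    (hP : ∑ i, p i ≤ P) {f : (ι → Bool) → ℝ} (hf : BDiff D f) :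
    bE p (fun x => Real.exp (θ * (|f x - bE p f| - s))) ≤
      2 * Real.exp (θ ^ 2 * D ^ 2 * P - θ * s) := by
  have habs : |θ| * D ≤ 1 := by rwa [abs_of_nonneg hθ0]
  have habs' : |(-θ)| * D ≤ 1 := by rwa [abs_neg]
  have m1 := mgf_bound h0 h1 hD habs hf
  have m2 := mgf_bound h0 h1 hD habs' hf
  rw [neg_sq] at m2
  have hE : Real.exp (θ ^ 2 * D ^ 2 * ∑ i, p i) ≤ Real.exp (θ ^ 2 * D ^ 2 * P) :=
    Real.exp_le_exp.2 (mul_le_mul_of_nonneg_left hP (by positivity))
  have hle : bE p (fun x => Real.exp (θ * (|f x - bE p f| - s))) ≤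
      bE p (fun x => Real.exp (-(θ * s)) * (Real.exp (θ * (f x - bE p f)) +
        Real.exp (-θ * (f x - bE p f)))) := by
    refine bE_mono h0 h1 fun x => ?_
    have a2 : Real.exp (θ * (|f x - bE p f| - s)) =
        Real.exp (-(θ * s)) * Real.exp (θ * |f x - bE p f|) := by
      rw [← Real.exp_add]; congr 1; ring
    rw [a2]
    refine mul_le_mul_of_nonneg_left ?_ (Real.exp_pos _).le
    rcases abs_cases (f x - bE p f) with h | h
    · rw [h.1]; linarith [Real.exp_pos (-θ * (f x - bE p f))]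
    · rw [h.1]
      have : θ * -(f x - bE p f) = -θ * (f x - bE p f) := by ring
      rw [this]; linarith [Real.exp_pos (θ * (f x - bE p f))]
  rw [bE_mul_left, bE_add] at hle
  refine hle.trans ?_
  calc Real.exp (-(θ * s)) * (bE p (fun x => Real.exp (θ * (f x - bE p f))) +
      bE p (fun x => Real.exp (-θ * (f x - bE p f))))
      ≤ Real.exp (-(θ * s)) * (Real.exp (θ ^ 2 * D ^ 2 * P) + Real.exp (θ ^ 2 * D ^ 2 * P)) :=
        mul_le_mul_of_nonneg_left (add_le_add (m1.trans hE) (m2.trans hE)) (Real.exp_pos _).le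
    _ = 2 * (Real.exp (-(θ * s)) * Real.exp (θ ^ 2 * D ^ 2 * P)) := by ring
    _ = _ := by rw [← Real.exp_add]; congr 2; ring

lemma sum_pn_le (hc : 0 ≤ c) (n : ℕ) : ∑ _ : Fin n × Fin n, pn c n ≤ c * n := by
  simp only [Finset.sum_const, Finset.card_univ, Fintype.card_prod, Fintype.card_fin, nsmul_eq_mul]
  push_cast
  rcases Nat.eq_zero_or_pos n with h | h
  · subst h; simp
  · have hn : (0 : ℝ) < n := by exact_mod_cast h
    calc (n : ℝ) * n * pn c n ≤ (n : ℝ) * n * (c / n) :=
          mul_le_mul_of_nonneg_left (min_le_right _ _) (by positivity)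
      _ = c * n := by field_simp

/-- almost sure concentration for functions with bounded differences -/
theorem conc_ae (hc : 0 < c) (hi : iIndepFun X μ) (hm : ∀ i, Measurable (X i))
    (hp : ∀ i, μ {ω | X i ω = true} = ENNReal.ofReal (min 1 (c / (i.1 : ℝ))))
    {D : ℝ} (hD : 0 < D) (f : ∀ n : ℕ, (Fin n × Fin n → Bool) → ℝ) (hf : ∀ n, BDiff D (f n)) :
    ∀ᵐ ω ∂μ, Tendsto (fun n : ℕ => (f n (cf X n ω) - bE (fun _ => pn c n) (f n)) / (n : ℝ))
      atTop (nhds 0) := by
  have key : ∀ m : ℕ, ∀ᵐ ω ∂μ, ∀ᶠ n : ℕ in atTop,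
      |f n (cf X n ω) - bE (fun _ => pn c n) (f n)| < 1 / ((m : ℝ) + 1) * n := by
    intro m
    set ε : ℝ := 1 / ((m : ℝ) + 1) with hε
    have hε0 : 0 < ε := by positivity
    set θ : ℝ := min (1 / D) (ε / (2 * D ^ 2 * c)) with hθ
    have hθ0 : 0 < θ := lt_min (by positivity) (by positivity)
    have hθD : θ * D ≤ 1 := by
      calc θ * D ≤ 1 / D * D := mul_le_mul_of_nonneg_right (min_le_left _ _) hD.le
        _ = 1 := by field_simp
    have hθ2 : θ * D ^ 2 * c ≤ ε / 2 := by
      calc θ * D ^ 2 * c = θ * (D ^ 2 * c) := by ring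
        _ ≤ ε / (2 * D ^ 2 * c) * (D ^ 2 * c) :=
          mul_le_mul_of_nonneg_right (min_le_right _ _) (by positivity)
        _ = ε / 2 := by field_simp
    have hbound : ∀ n : ℕ, μ {ω | cf X n ω ∈ {x | 1 / ((m : ℝ) + 1) * n ≤
        |f n x - bE (fun _ => pn c n) (f n)|}} ≤
        ENNReal.ofReal (2 * (Real.exp (-(θ * ε / 2))) ^ n) := by
      intro n
      refine (prob_le hc.le hi hm hp n _ (fun x => Real.exp (θ * (|f n x - bE (fun _ => pn c n) (f n)|
        - ε * n))) (fun x => (Real.exp_pos _).le) (fun x hx => ?_)).trans ?_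
      · rw [← Real.exp_zero]
        refine Real.exp_le_exp.2 (mul_nonneg hθ0.le ?_)
        have : ε * n ≤ |f n x - bE (fun _ => pn c n) (f n)| := hx
        linarith
      · refine ENNReal.ofReal_le_ofReal ?_
        refine (tail_bound (fun _ => pn_nonneg hc.le n) (fun _ => pn_le_one n) hD.le hθ0.le hθD
          (sum_pn_le hc.le n) (hf n)).trans ?_
        rw [← Real.exp_nat_mul]
        refine mul_le_mul_of_nonneg_left (Real.exp_le_exp.2 ?_) (by norm_num)
        have hn : (0 : ℝ) ≤ n := Nat.cast_nonneg n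
        have h3 : θ ^ 2 * D ^ 2 * (c * n) ≤ θ * n * (ε / 2) := by
          calc θ ^ 2 * D ^ 2 * (c * n) = θ * n * (θ * D ^ 2 * c) := by ring
            _ ≤ θ * n * (ε / 2) := mul_le_mul_of_nonneg_left hθ2 (by positivity)
        nlinarith
    have hsum : ∑' n : ℕ, μ {ω | cf X n ω ∈ {x | 1 / ((m : ℝ) + 1) * n ≤
        |f n x - bE (fun _ => pn c n) (f n)|}} ≠ ⊤ := by
      have hs : Summable (fun n : ℕ => 2 * (Real.exp (-(θ * ε / 2))) ^ n) := by
        refine (summable_geometric_of_lt_one (Real.exp_pos _).le ?_).mul_left 2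
        rw [← Real.exp_zero]
        exact Real.exp_lt_exp.2 (by have : 0 < θ * ε := by positivity
                                    linarith)
      have := hs.tsum_ofReal_ne_top
      exact ne_top_of_le_ne_top this (ENNReal.tsum_le_tsum hbound)
    have := ae_eventually_notMem hsum
    filter_upwards [this] with ω hω
    filter_upwards [hω] with n hn
    exact not_le.1 hn
  rw [← ae_all_iff] at key
  filter_upwards [key] with ω hω
  rw [Metric.tendsto_atTop]
  intro ε hε
  obtain ⟨m, hm'⟩ := exists_nat_one_div_lt hε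
  obtain ⟨N, hN⟩ := (hω m).exists_forall_of_atTop
  refine ⟨max N 1, fun n hn => ?_⟩
  have h1 := hN n ((le_max_left _ _).trans hn)
  have hn0 : (0 : ℝ) < n := by exact_mod_cast (le_max_right N 1).trans hn
  rw [Real.dist_eq, sub_zero, abs_div, abs_of_pos hn0, div_lt_iff₀ hn0]
  calc |f n (cf X n ω) - bE (fun _ => pn c n) (f n)| < 1 / ((m : ℝ) + 1) * n := h1
    _ < ε * n := mul_lt_mul_of_pos_right hm' hn0

end as

section mask

variable {ι : Type*} [Fintype ι] [DecidableEq ι]

/-- masking a configuration -/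
def mask (S : ι → Bool) (x : ι → Bool) : ι → Bool := fun i => S i && x i

lemma bE_mask (p : ι → ℝ) (S : ι → Bool) (F : (ι → Bool) → ℝ) :
    bE p (fun x => F (mask S x)) = bE (fun i => if S i = true then p i else 0) F := by
  classical
  let e : {i // S i = true} → ι := fun i => i.1
  have he : Function.Injective e := Subtype.val_injective
  let G : ({i // S i = true} → Bool) → ℝ := fun y =>
    F (fun i => if h : S i = true then y ⟨i, h⟩ else false)
  have h1 : ∀ x : ι → Bool, F (mask S x) = G (x ∘ e) := by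
    intro x
    simp only [G]
    congr 1
    funext i
    by_cases h : S i = true
    · simp [mask, h, e]
    · simp [mask, h]
  have h2 : bE (fun i => if S i = true then p i else 0) F =
      bE (fun i => if S i = true then p i else 0) (fun x => G (x ∘ e)) := by
    refine bE_congr_supp fun x hx => ?_
    rw [← h1]
    congr 1
    funext i
    by_cases h : S i = true
    · simp [mask, h]
    · have := hx i (by simp [h])
      simp [mask, h, this]
  simp only [h1]
  rw [h2, bE_marginal e he, bE_marginal e he]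
  congr 1
  funext i
  simp [e, i.2]

lemma BDiff_mask {D : ℝ} (hD : 0 ≤ D) {F : (ι → Bool) → ℝ} (hF : BDiff D F) (S : ι → Bool) :
    BDiff D (fun x => F (mask S x)) := by
  intro i x
  by_cases h : S i = true
  · have e1 : ∀ b, mask S (update x i b) = update (mask S x) i b := by
      intro b
      funext j
      by_cases hj : j = i
      · subst hj; simp [mask, h]
      · simp [mask, hj]
    have : bD i (fun x => F (mask S x)) x = bD i F (mask S x) := by
      simp only [bD, e1]
    rw [this]; exact hF i _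
  · have e1 : ∀ b, mask S (update x i b) = mask S x := by
      intro b
      funext j
      by_cases hj : j = i
      · subst hj; simp [mask, h]
      · simp [mask, hj]
    have : bD i (fun x => F (mask S x)) x = 0 := by
      simp only [bD, e1, sub_self]
    rw [this, abs_zero]; exact hD

end mask

end Pool.Agent.Lib.MP_7587db
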