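import Pool.Agent.Lib.MP_7587db.Virtual

set_option autoImplicit false
set_option linter.unusedSectionVars false

namespace Pool.Agent.Lib.MP_7587db

open Finset Function

section psd

variable {V : Type*} [Fintype V] [DecidableEq V] {k : ℕ} [NeZero k]

/-- a positive semidefinite matrix is a Gram matrix -/
lemma exists_gram {k : ℕ} (B : Matrix (Fin k) (Fin k) ℝ) (hB : B.PosSemidef) :
    ∃ b : Fin k → Fin k → ℝ, ∀ i j, B i j = ∑ l, b l i * b l j := by
  open scoped MatrixOrder in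
  obtain ⟨C, hC⟩ := CStarAlgebra.nonneg_iff_eq_star_mul_self.mp hB.nonneg
  refine ⟨C, fun i j => ?_⟩
  rw [hC]
  simp [Matrix.mul_apply, Matrix.star_eq_conjTranspose]

lemma gram_pow_nonneg {W : (V → Fin k) → ℝ} (hW : ∀ σ, 0 < W σ) (b : Fin k → Fin k → ℝ) (r : ℕ) :
    ∀ z : V → ℝ, 0 ≤ ∑ u, ∑ v, z u * z v *
      (gE W (fun σ => ∑ l, b l (σ u) * b l (σ v))) ^ r := by
  induction r with
  | zero =>
    intro z
    simp only [pow_zero, mul_one]
    have : ∑ u, ∑ v, z u * z v = (∑ u, z u) ^ 2 := by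
      rw [sq, Finset.sum_mul_sum]
    rw [this]; positivity
  | succ r ih =>
    intro z
    set R : V → V → ℝ := fun u v => gE W (fun σ => ∑ l, b l (σ u) * b l (σ v)) with hR
    have hZ := sum_W_pos hW
    have e1 : ∀ u v, R u v = ∑ σ, ∑ l, (W σ / ∑ τ, W τ) * (b l (σ u) * b l (σ v)) := by
      intro u v
      simp only [hR, gE]
      rw [Finset.sum_div]
      refine Finset.sum_congr rfl fun σ _ => ?_
      rw [Finset.mul_sum, Finset.sum_div]
      refine Finset.sum_congr rfl fun l _ => ?_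
      ring
    have e2 : ∑ u, ∑ v, z u * z v * R u v ^ (r + 1) =
        ∑ σ, ∑ l, (W σ / ∑ τ, W τ) * ∑ u, ∑ v, (z u * b l (σ u)) * (z v * b l (σ v)) * R u v ^ r := by
      have s1 : ∀ u v, z u * z v * R u v ^ (r + 1) =
          ∑ σ, ∑ l, (W σ / ∑ τ, W τ) * ((z u * b l (σ u)) * (z v * b l (σ v)) * R u v ^ r) := by
        intro u v
        rw [pow_succ]
        nth_rewrite 2 [e1 u v]
        rw [Finset.mul_sum, Finset.mul_sum]
        refine Finset.sum_congr rfl fun σ _ => ?_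
        rw [Finset.mul_sum, Finset.mul_sum]
        refine Finset.sum_congr rfl fun l _ => ?_
        ring
      simp only [s1]
      have s2 : ∀ u, ∑ v, ∑ σ, ∑ l, (W σ / ∑ τ, W τ) *
          ((z u * b l (σ u)) * (z v * b l (σ v)) * R u v ^ r) =
          ∑ σ, ∑ l, ∑ v, (W σ / ∑ τ, W τ) *
          ((z u * b l (σ u)) * (z v * b l (σ v)) * R u v ^ r) := by
        intro u
        rw [Finset.sum_comm]
        refine Finset.sum_congr rfl fun σ _ => ?_
        rw [Finset.sum_comm]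
      simp only [s2]
      rw [Finset.sum_comm]
      refine Finset.sum_congr rfl fun σ _ => ?_
      rw [Finset.sum_comm]
      refine Finset.sum_congr rfl fun l _ => ?_
      rw [Finset.mul_sum]
      refine Finset.sum_congr rfl fun u _ => ?_
      rw [Finset.mul_sum]
    rw [e2]
    refine Finset.sum_nonneg fun σ _ => Finset.sum_nonneg fun l _ => ?_
    refine mul_nonneg (div_nonneg (hW σ).le hZ.le) ?_
    exact ih (fun u => z u * b l (σ u))

/-- negativity of the logarithmic kernel -/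
lemma log_kernel_nonpos {W : (V → Fin k) → ℝ} (hW : ∀ σ, 0 < W σ) (b : Fin k → Fin k → ℝ)
    (hb : ∀ u v, |gE W (fun σ => ∑ l, b l (σ u) * b l (σ v))| < 1) (z : V → ℝ) :
    ∑ u, ∑ v, z u * z v * Real.log (1 - gE W (fun σ => ∑ l, b l (σ u) * b l (σ v))) ≤ 0 := by
  have h1 : HasSum (fun n : ℕ => ∑ u, ∑ v, z u * z v *
      ((gE W (fun σ => ∑ l, b l (σ u) * b l (σ v))) ^ (n + 1) / ((n : ℝ) + 1)))
      (∑ u, ∑ v, z u * z v * (-Real.log (1 - gE W (fun σ => ∑ l, b l (σ u) * b l (σ v))))) :=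
    hasSum_sum fun u _ => hasSum_sum fun v _ =>
      (Real.hasSum_pow_div_log_of_abs_lt_one (hb u v)).mul_left _
  have h2 : 0 ≤ ∑ u, ∑ v, z u * z v *
      (-Real.log (1 - gE W (fun σ => ∑ l, b l (σ u) * b l (σ v)))) := by
    refine h1.nonneg fun n => ?_
    have e : ∑ u, ∑ v, z u * z v *
        ((gE W (fun σ => ∑ l, b l (σ u) * b l (σ v))) ^ (n + 1) / ((n : ℝ) + 1)) =
        (∑ u, ∑ v, z u * z v *
        (gE W (fun σ => ∑ l, b l (σ u) * b l (σ v))) ^ (n + 1)) / ((n : ℝ) + 1) := by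
      rw [Finset.sum_div]
      refine Finset.sum_congr rfl fun u _ => ?_
      rw [Finset.sum_div]
      refine Finset.sum_congr rfl fun v _ => ?_
      ring
    rw [e]
    exact div_nonneg (gram_pow_nonneg hW b (n + 1) z) (by positivity)
  have h3 : ∑ u, ∑ v, z u * z v *
      (-Real.log (1 - gE W (fun σ => ∑ l, b l (σ u) * b l (σ v)))) =
      - ∑ u, ∑ v, z u * z v * Real.log (1 - gE W (fun σ => ∑ l, b l (σ u) * b l (σ v))) := by
    simp only [mul_neg, Finset.sum_neg_distrib]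
  linarith

end psd

section key

variable {V : Type*} [Fintype V] [DecidableEq V] {k : ℕ} [NeZero k]

lemma bE_resample {q : V → ℝ} (h0 : ∀ u, 0 ≤ q u) (h1 : ∀ u, q u ≤ 1) {M : ℝ}
    {φ : (V → Bool) → ℝ} (hφ : ∀ ξ, |φ ξ| ≤ M) (v : V) :
    |bE q φ - bE q (fun ξ => φ (update ξ v false))| ≤ 2 * M * q v := by
  rw [bE_split q v φ, ← bE_sub]
  refine (abs_bE_le h0 h1 _).trans (bE_le_of_le h0 h1 fun ξ => ?_)
  have e : q v * φ (update ξ v true) + (1 - q v) * φ (update ξ v false) - φ (update ξ v false) =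
      q v * (φ (update ξ v true) - φ (update ξ v false)) := by ring
  rw [e, abs_mul, abs_of_nonneg (h0 v)]
  have h2 := abs_sub (φ (update ξ v true)) (φ (update ξ v false))
  have h3 := hφ (update ξ v true)
  have h4 := hφ (update ξ v false)
  have h5 : |φ (update ξ v true) - φ (update ξ v false)| ≤ 2 * M := by linarith
  calc q v * |φ (update ξ v true) - φ (update ξ v false)| ≤ q v * (2 * M) :=
        mul_le_mul_of_nonneg_left h5 (h0 v)
    _ = 2 * M * q v := by ring

/-- indicator of a bit -/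
def ind (b : Bool) : ℝ := cond b 1 0

@[simp] lemma ind_true : ind true = 1 := rfl
@[simp] lemma ind_false : ind false = 0 := rfl

lemma ind_nonneg (b : Bool) : 0 ≤ ind b := by cases b <;> simp

lemma ind_sq (b : Bool) : ind b * ind b = ind b := by cases b <;> simp

lemma bE_two_marks (q : V → ℝ) {u v : V} (huv : u ≠ v) (φ : (V → Bool) → ℝ) :
    bE q (fun ξ => ind (ξ u) * ind (ξ v) * φ ξ) =
      q u * q v * bE q (fun ξ => φ (update (update ξ v true) u true)) := by
  rw [bE_split q u]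
  have e1 : (fun ξ : V → Bool => q u * (ind (update ξ u true u) * ind (update ξ u true v) *
      φ (update ξ u true)) + (1 - q u) * (ind (update ξ u false u) * ind (update ξ u false v) *
      φ (update ξ u false))) = fun ξ => q u * (ind (ξ v) * φ (update ξ u true)) := by
    funext ξ
    simp only [update_self, ind_true, ind_false, update_of_ne huv.symm]
    ring
  rw [e1, bE_mul_left, bE_split q v]
  have e2 : (fun ξ : V → Bool => q v * (ind (update ξ v true v) * φ (update (update ξ v true) u true)) +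
      (1 - q v) * (ind (update ξ v false v) * φ (update (update ξ v false) u true))) =
      fun ξ => q v * φ (update (update ξ v true) u true) := by
    funext ξ
    simp
  rw [e2, bE_mul_left]
  ring

/-- the log-expectation of an edge weight -/
noncomputable def XX (α g : Fin k → ℝ) (A : Fin k → Fin k → ℝ) (ω : V × V → Bool) (u v : V)
    (ξ : V → Bool) : ℝ := Real.log (gE (GW 0 α g A ω ξ 0) (fun σ => A (σ u) (σ v)))

/-- the log-expectation of the reduced edge weight `1 - B` -/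
noncomputable def LL (α g : Fin k → ℝ) (A : Fin k → Fin k → ℝ) (b : Fin k → Fin k → ℝ)
    (ω : V × V → Bool) (u v : V) (ξ : V → Bool) : ℝ :=
  Real.log (gE (GW 0 α g A ω ξ 0) (fun σ => 1 - ∑ l, b l (σ u) * b l (σ v)))

/-- hypotheses: `A = g gᵀ ∘ (1 - B)` with `B` a Gram matrix, and bounds -/
structure AntiHyp (α g : Fin k → ℝ) (A : Fin k → Fin k → ℝ) (b : Fin k → Fin k → ℝ) (D : ℝ) :
    Prop where
  hα : ∀ i, 0 < α i
  hD : 0 < D
  hA1 : ∀ i j, Real.exp (-D) ≤ A i j
  hA2 : ∀ i j, A i j ≤ Real.exp D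
  hg1 : ∀ i, Real.exp (-D) ≤ g i
  hg2 : ∀ i, g i ≤ Real.exp D
  hAg : ∀ i j, A i j = g i * g j * (1 - ∑ l, b l i * b l j)

variable {α g : Fin k → ℝ} {A : Fin k → Fin k → ℝ} {b : Fin k → Fin k → ℝ} {D : ℝ}

lemma AntiHyp.hA (H : AntiHyp α g A b D) : ∀ i j, 0 < A i j := fun i j =>
  (Real.exp_pos _).trans_le (H.hA1 i j)

lemma AntiHyp.hg (H : AntiHyp α g A b D) : ∀ i, 0 < g i := fun i =>
  (Real.exp_pos _).trans_le (H.hg1 i)

lemma AntiHyp.one_sub (H : AntiHyp α g A b D) (i j : Fin k) :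
    Real.exp (-(3 * D)) ≤ 1 - ∑ l, b l i * b l j ∧ 1 - ∑ l, b l i * b l j ≤ Real.exp (3 * D) := by
  have hgi := H.hg i
  have hgj := H.hg j
  have e : 1 - ∑ l, b l i * b l j = A i j / (g i * g j) := by
    rw [H.hAg i j]; field_simp
  rw [e]
  have hgg1 : Real.exp (-(2 * D)) ≤ g i * g j := by
    have : Real.exp (-(2 * D)) = Real.exp (-D) * Real.exp (-D) := by
      rw [← Real.exp_add]; congr 1; ring
    rw [this]
    exact mul_le_mul (H.hg1 i) (H.hg1 j) (Real.exp_pos _).le hgi.le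
  have hgg2 : g i * g j ≤ Real.exp (2 * D) := by
    have : Real.exp (2 * D) = Real.exp D * Real.exp D := by
      rw [← Real.exp_add]; congr 1; ring
    rw [this]
    exact mul_le_mul (H.hg2 i) (H.hg2 j) hgj.le (Real.exp_pos _).le
  have hpos : 0 < g i * g j := mul_pos hgi hgj
  constructor
  · rw [le_div_iff₀ hpos]
    calc Real.exp (-(3 * D)) * (g i * g j) ≤ Real.exp (-(3 * D)) * Real.exp (2 * D) :=
          mul_le_mul_of_nonneg_left hgg2 (Real.exp_pos _).le
      _ = Real.exp (-D) := by rw [← Real.exp_add]; congr 1; ring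
      _ ≤ A i j := H.hA1 i j
  · rw [div_le_iff₀ hpos]
    calc A i j ≤ Real.exp D := H.hA2 i j
      _ = Real.exp (3 * D) * Real.exp (-(2 * D)) := by rw [← Real.exp_add]; congr 1; ring
      _ ≤ Real.exp (3 * D) * (g i * g j) := mul_le_mul_of_nonneg_left hgg1 (Real.exp_pos _).le

lemma AntiHyp.abs_B_le (H : AntiHyp α g A b D) (i j : Fin k) :
    |∑ l, b l i * b l j| ≤ 1 - Real.exp (-(3 * D)) := by
  set ρ := 1 - Real.exp (-(3 * D)) with hρ
  have hii : ∀ i, ∑ l, b l i ^ 2 ≤ ρ := by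
    intro i
    have := (H.one_sub i i).1
    have e : ∑ l, b l i ^ 2 = ∑ l, b l i * b l i := Finset.sum_congr rfl fun l _ => by ring
    rw [e, hρ]; linarith
  have hcs := Finset.sum_mul_sq_le_sq_mul_sq Finset.univ (fun l => b l i) (fun l => b l j)
  have h0 : ∀ i, 0 ≤ ∑ l, b l i ^ 2 := fun i => Finset.sum_nonneg fun l _ => sq_nonneg _
  have hρ0 : 0 ≤ ρ := (h0 i).trans (hii i)
  have h2 : (∑ l, b l i * b l j) ^ 2 ≤ ρ ^ 2 := by
    refine hcs.trans ?_
    calc (∑ l, b l i ^ 2) * ∑ l, b l j ^ 2 ≤ ρ * ρ :=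
          mul_le_mul (hii i) (hii j) (h0 j) hρ0
      _ = ρ ^ 2 := by ring
  exact abs_le_of_sq_le_sq h2 hρ0

lemma AntiHyp.abs_gE_B_lt (H : AntiHyp α g A b D) (ω : V × V → Bool) (ξ : V → Bool) (u v : V) :
    |gE (GW 0 α g A ω ξ 0) (fun σ => ∑ l, b l (σ u) * b l (σ v))| < 1 := by
  have hW := GW_pos (V := V) (sf := 0) H.hα H.hg H.hA ω ξ 0
  have h1 : |gE (GW 0 α g A ω ξ 0) (fun σ => ∑ l, b l (σ u) * b l (σ v))| ≤
      1 - Real.exp (-(3 * D)) := by
    rw [abs_le]
    constructor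
    · exact le_gE hW fun σ => (abs_le.1 (H.abs_B_le _ _)).1
    · exact gE_le hW fun σ => (abs_le.1 (H.abs_B_le _ _)).2
  linarith [Real.exp_pos (-(3 * D))]

lemma AntiHyp.LL_eq (H : AntiHyp α g A b D) (ω : V × V → Bool) (u v : V) (ξ : V → Bool) :
    LL α g A b ω u v ξ =
      Real.log (1 - gE (GW 0 α g A ω ξ 0) (fun σ => ∑ l, b l (σ u) * b l (σ v))) := by
  unfold LL
  rw [gE_sub, gE_const (GW_pos (V := V) (sf := 0) H.hα H.hg H.hA ω ξ 0)]

lemma AntiHyp.abs_LL_le (H : AntiHyp α g A b D) (ω : V × V → Bool) (u v : V) (ξ : V → Bool) :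
    |LL α g A b ω u v ξ| ≤ 3 * D :=
  abs_log_gE_le (GW_pos (V := V) (sf := 0) H.hα H.hg H.hA ω ξ 0) (fun σ => (H.one_sub _ _).1)
    (fun σ => (H.one_sub _ _).2)

lemma AntiHyp.abs_XX_le (H : AntiHyp α g A b D) (ω : V × V → Bool) (u v : V) (ξ : V → Bool) :
    |XX α g A ω u v ξ| ≤ D :=
  abs_log_gE_le (GW_pos (V := V) (sf := 0) H.hα H.hg H.hA ω ξ 0) (fun σ => H.hA1 _ _) (fun σ => H.hA2 _ _)

lemma AntiHyp.abs_bD_FF_le (H : AntiHyp α g A b D) (ω : V × V → Bool) (u : V) (ξ : V → Bool) :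
    |bD u (FF 0 α g A 0 ω) ξ| ≤ D := by
  rw [FF_bD H.hα H.hg H.hA]
  exact abs_log_gE_le (GW_pos (V := V) (sf := 0) H.hα H.hg H.hA ω _ 0) (fun σ => H.hg1 _) (fun σ => H.hg2 _)

/-- the edge term decomposes when both endpoints are unmarked -/
lemma AntiHyp.XX_decomp (H : AntiHyp α g A b D) (ω : V × V → Bool) {u v : V} (huv : u ≠ v)
    (ξ : V → Bool) :
    XX α g A ω u v (update (update ξ v false) u false) =
      bD u (bD v (FF 0 α g A 0 ω)) ξ + bD u (FF 0 α g A 0 ω) (update ξ v false) +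
      bD v (FF 0 α g A 0 ω) (update ξ u false) +
      LL α g A b ω u v (update (update ξ v true) u true) := by
  set f := FF 0 α g A 0 ω with hf
  set ξ00 := update (update ξ v false) u false with hξ00
  set ξ11 := update (update ξ v true) u true with hξ11
  have hW := GW_pos (V := V) (sf := 0) H.hα H.hg H.hA ω ξ00 0
  have hc : update (update ξ v true) u false = update (update ξ u false) v true :=
    update_comm huv.symm _ _ _
  have hc2 : update (update ξ v false) u false = update (update ξ u false) v false :=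
    update_comm huv.symm _ _ _
  have hc3 : update (update ξ v true) u true = update (update ξ u true) v true :=
    update_comm huv.symm _ _ _
  have hc4 : update (update ξ v false) u true = update (update ξ u true) v false :=
    update_comm huv.symm _ _ _
  have hW11 : GW 0 α g A ω ξ11 0 = fun σ => GW 0 α g A ω ξ00 0 σ * (g (σ u) * g (σ v)) := by
    funext σ
    rw [hξ11, GW_update, hc, GW_update, ← hc2, ← hξ00]
    ring
  have hggpos : ∀ σ : V → Fin k, 0 < g (σ u) * g (σ v) := fun σ => mul_pos (H.hg _) (H.hg _)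
  have e1 : f ξ11 - f ξ00 = Real.log (gE (GW 0 α g A ω ξ00 0) (fun σ => g (σ u) * g (σ v))) := by
    rw [hf, FF_eq, FF_eq, hW11]
    exact log_sum_tilt hW hggpos
  have e2 : LL α g A b ω u v ξ11 =
      Real.log (gE (GW 0 α g A ω ξ00 0) (fun σ => A (σ u) (σ v))) -
      Real.log (gE (GW 0 α g A ω ξ00 0) (fun σ => g (σ u) * g (σ v))) := by
    unfold LL
    rw [hW11, gE_tilt hW hggpos]
    have e3 : gE (GW 0 α g A ω ξ00 0) (fun σ => g (σ u) * g (σ v) *
        (1 - ∑ l, b l (σ u) * b l (σ v))) = gE (GW 0 α g A ω ξ00 0) (fun σ => A (σ u) (σ v)) :=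
      gE_congr _ fun σ => (H.hAg _ _).symm
    rw [e3, Real.log_div (gE_pos hW fun σ => H.hA _ _).ne' (gE_pos hW hggpos).ne']
  have e4 : bD u (bD v f) ξ + bD u f (update ξ v false) + bD v f (update ξ u false) =
      f ξ11 - f ξ00 := by
    simp only [bD]
    rw [hξ11, hξ00, hc3, hc2, hc4]
    ring
  have e5 : XX α g A ω u v ξ00 = Real.log (gE (GW 0 α g A ω ξ00 0) (fun σ => A (σ u) (σ v))) := rfl
  rw [e5, e4, e1, e2]
  ring

/-- off-diagonal comparison -/
lemma AntiHyp.offdiag (H : AntiHyp α g A b D) (ω : V × V → Bool) {u v : V} (huv : u ≠ v)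
    {q : V → ℝ} (h0 : ∀ u, 0 < q u) (h1 : ∀ u, q u ≤ 1) :
    |bE q (XX α g A ω u v) - (bE q (bD u (bD v (FF 0 α g A 0 ω))) + bE q (bD u (FF 0 α g A 0 ω)) +
      bE q (bD v (FF 0 α g A 0 ω)) +
      bE q (fun ξ => ind (ξ u) * ind (ξ v) * LL α g A b ω u v ξ) / (q u * q v))| ≤
      4 * D * (q u + q v) := by
  have hq0 : ∀ u, 0 ≤ q u := fun u => (h0 u).le
  set f := FF 0 α g A 0 ω with hf
  have r1 := bE_resample hq0 h1 (φ := XX α g A ω u v) (H.abs_XX_le ω u v) u
  have r2 := bE_resample hq0 h1 (φ := fun ξ => XX α g A ω u v (update ξ u false))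
    (fun ξ => H.abs_XX_le ω u v _) v
  have r3 := bE_resample hq0 h1 (φ := bD u f) (H.abs_bD_FF_le ω u) v
  have r4 := bE_resample hq0 h1 (φ := bD v f) (H.abs_bD_FF_le ω v) u
  have e1 : bE q (fun ξ => XX α g A ω u v (update (update ξ v false) u false)) =
      bE q (bD u (bD v f)) + bE q (fun ξ => bD u f (update ξ v false)) +
      bE q (fun ξ => bD v f (update ξ u false)) +
      bE q (fun ξ => LL α g A b ω u v (update (update ξ v true) u true)) := by
    rw [← bE_add, ← bE_add, ← bE_add]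
    congr 1
    funext ξ
    exact H.XX_decomp ω huv ξ
  have e2 : bE q (fun ξ => ind (ξ u) * ind (ξ v) * LL α g A b ω u v ξ) / (q u * q v) =
      bE q (fun ξ => LL α g A b ω u v (update (update ξ v true) u true)) := by
    rw [bE_two_marks q huv]
    have := (h0 u).ne'
    have := (h0 v).ne'
    field_simp
  rw [e2]
  have a1 := abs_le.1 r1
  have a2 := abs_le.1 r2
  have a3 := abs_le.1 r3
  have a4 := abs_le.1 r4
  rw [abs_le]
  constructor <;> linarith [a1.1, a1.2, a2.1, a2.2, a3.1, a3.2, a4.1, a4.2]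

/-- diagonal comparison -/
lemma AntiHyp.diag (H : AntiHyp α g A b D) (ω : V × V → Bool) (u : V)
    {q : V → ℝ} (h0 : ∀ u, 0 < q u) (h1 : ∀ u, q u ≤ 1) :
    |bE q (XX α g A ω u u) - (bE q (bD u (bD u (FF 0 α g A 0 ω))) + bE q (bD u (FF 0 α g A 0 ω)) +
      bE q (bD u (FF 0 α g A 0 ω)) +
      bE q (fun ξ => ind (ξ u) * ind (ξ u) * LL α g A b ω u u ξ) / (q u * q u))| ≤
      3 * D + 3 * D / q u := by
  have hq0 : ∀ u, 0 ≤ q u := fun u => (h0 u).le
  set f := FF 0 α g A 0 ω with hf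
  have e1 : bE q (bD u (bD u f)) = 0 := by
    have : bD u (bD u f) = fun _ => 0 := by
      funext ξ
      simp only [bD, update_idem]; ring
    rw [this, bE_const]
  have b1 : |bE q (XX α g A ω u u)| ≤ D :=
    (abs_bE_le hq0 h1 _).trans (bE_le_of_le hq0 h1 fun ξ => H.abs_XX_le ω u u ξ)
  have b2 : |bE q (bD u f)| ≤ D :=
    (abs_bE_le hq0 h1 _).trans (bE_le_of_le hq0 h1 fun ξ => H.abs_bD_FF_le ω u ξ)
  have b3 : |bE q (fun ξ => ind (ξ u) * ind (ξ u) * LL α g A b ω u u ξ)| ≤ 3 * D * q u := by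
    refine (abs_bE_le hq0 h1 _).trans ?_
    have : bE q (fun ξ => |ind (ξ u) * ind (ξ u) * LL α g A b ω u u ξ|) ≤
        bE q (fun ξ => 3 * D * cond (ξ u) (1 : ℝ) 0) := by
      refine bE_mono hq0 h1 fun ξ => ?_
      rw [ind_sq, abs_mul, abs_of_nonneg (ind_nonneg _), mul_comm]
      exact mul_le_mul_of_nonneg_right (H.abs_LL_le ω u u ξ) (ind_nonneg _)
    refine this.trans (le_of_eq ?_)
    rw [bE_mul_left, bE_indicator]
  have b4 : |bE q (fun ξ => ind (ξ u) * ind (ξ u) * LL α g A b ω u u ξ) / (q u * q u)| ≤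
      3 * D / q u := by
    rw [abs_div, abs_of_pos (mul_pos (h0 u) (h0 u)), div_le_div_iff₀ (mul_pos (h0 u) (h0 u)) (h0 u)]
    calc |bE q (fun ξ => ind (ξ u) * ind (ξ u) * LL α g A b ω u u ξ)| * q u
        ≤ 3 * D * q u * q u := mul_le_mul_of_nonneg_right b3 (hq0 u)
      _ = 3 * D * (q u * q u) := by ring
  rw [e1]
  have a1 := abs_le.1 b1
  have a2 := abs_le.1 b2
  have a4 := abs_le.1 b4
  rw [abs_le]
  constructor <;> linarith [a1.1, a1.2, a2.1, a2.2, a4.1, a4.2]

/-- the main one-sided inequality at fixed `ω` and mark probabilities -/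
lemma AntiHyp.main_ineq (H : AntiHyp α g A b D) (ω : V × V → Bool) {y : V → ℝ} (hy : ∑ u, y u = 0)
    {q : V → ℝ} (h0 : ∀ u, 0 < q u) (h1 : ∀ u, q u ≤ 1) :
    ∑ u, ∑ v, y u * y v * bE q (XX α g A ω u v) ≤
      (∑ u, ∑ v, y u * y v * bE q (bD u (bD v (FF 0 α g A 0 ω)))) +
      4 * D * (∑ u, ∑ v, |y u * y v| * (q u + q v)) +
      ∑ u, y u ^ 2 * (3 * D + 3 * D / q u) := by
  have hq0 : ∀ u, 0 ≤ q u := fun u => (h0 u).le
  have hD := H.hD
  set f := FF 0 α g A 0 ω with hf
  set Lq : V → V → ℝ := fun u v =>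
    bE q (fun ξ => ind (ξ u) * ind (ξ v) * LL α g A b ω u v ξ) / (q u * q v) with hLq
  have hterm : ∀ u v, y u * y v * bE q (XX α g A ω u v) ≤
      y u * y v * bE q (bD u (bD v f)) + y u * y v * bE q (bD u f) + y u * y v * bE q (bD v f) +
      y u * y v * Lq u v + 4 * D * (|y u * y v| * (q u + q v)) +
      (if u = v then y u ^ 2 * (3 * D + 3 * D / q u) else 0) := by
    intro u v
    by_cases huv : u = v
    · subst huv
      have := abs_le.1 (H.diag ω u h0 h1)
      simp only [if_true]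
      have hy2 : 0 ≤ y u * y u := mul_self_nonneg _
      have h3 := mul_le_mul_of_nonneg_left this.2 hy2
      have h4 : 0 ≤ 4 * D * (|y u * y u| * (q u + q u)) := by
        have := hq0 u
        positivity
      have h5 : y u ^ 2 = y u * y u := sq (y u)
      rw [h5]
      simp only [hLq]
      linarith
    · simp only [huv, if_false, add_zero]
      have h3 := H.offdiag ω huv h0 h1
      have h4 : y u * y v * (bE q (XX α g A ω u v) - (bE q (bD u (bD v f)) + bE q (bD u f) +
          bE q (bD v f) + Lq u v)) ≤ |y u * y v| * (4 * D * (q u + q v)) := by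
        refine (le_abs_self _).trans ?_
        rw [abs_mul]
        exact mul_le_mul_of_nonneg_left h3 (abs_nonneg _)
      linarith
  have hsum := Finset.sum_le_sum (s := Finset.univ) fun u _ =>
    Finset.sum_le_sum (s := Finset.univ) fun v _ => hterm u v
  refine hsum.trans ?_
  simp only [Finset.sum_add_distrib]
  have z1 : ∑ u, ∑ v, y u * y v * bE q (bD u f) = 0 := by
    have : ∀ u, ∑ v, y u * y v * bE q (bD u f) = y u * bE q (bD u f) * ∑ v, y v := by
      intro u
      rw [Finset.mul_sum]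
      exact Finset.sum_congr rfl fun v _ => by ring
    simp only [this, hy, mul_zero, Finset.sum_const_zero]
  have z2 : ∑ u, ∑ v, y u * y v * bE q (bD v f) = 0 := by
    rw [Finset.sum_comm]
    have : ∀ v, ∑ u, y u * y v * bE q (bD v f) = y v * bE q (bD v f) * ∑ u, y u := by
      intro v
      rw [Finset.mul_sum]
      exact Finset.sum_congr rfl fun u _ => by ring
    simp only [this, hy, mul_zero, Finset.sum_const_zero]
  have z3 : ∑ u, ∑ v, y u * y v * Lq u v ≤ 0 := by
    have e : ∑ u, ∑ v, y u * y v * Lq u v =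
        bE q (fun ξ => ∑ u, ∑ v, (y u * ind (ξ u) / q u) * (y v * ind (ξ v) / q v) *
          LL α g A b ω u v ξ) := by
      rw [bE_sum]
      refine Finset.sum_congr rfl fun u _ => ?_
      rw [bE_sum]
      refine Finset.sum_congr rfl fun v _ => ?_
      simp only [hLq]
      rw [← mul_div_assoc, ← bE_mul_left, div_eq_mul_inv, ← bE_mul_right]
      congr 1
      funext ξ
      have := (h0 u).ne'
      have := (h0 v).ne'
      field_simp
    rw [e]
    refine bE_le_of_le hq0 h1 fun ξ => ?_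
    have hk := log_kernel_nonpos (GW_pos (V := V) (sf := 0) H.hα H.hg H.hA ω ξ 0) b
      (fun u v => H.abs_gE_B_lt ω ξ u v) (fun u => y u * ind (ξ u) / q u)
    simpa only [H.LL_eq] using hk
  have z4 : ∑ u, ∑ v, (if u = v then y u ^ 2 * (3 * D + 3 * D / q u) else 0) =
      ∑ u, y u ^ 2 * (3 * D + 3 * D / q u) := by
    refine Finset.sum_congr rfl fun u _ => ?_
    simp
  have z5 : ∑ u, ∑ v, 4 * D * (|y u * y v| * (q u + q v)) =
      4 * D * (∑ u, ∑ v, |y u * y v| * (q u + q v)) := by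
    rw [Finset.mul_sum]
    refine Finset.sum_congr rfl fun u _ => ?_
    rw [Finset.mul_sum]
  rw [z1, z2, z4, z5]
  linarith

end key

end Pool.Agent.Lib.MP_7587db
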