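import Pool.Agent.Lib.MP_7587db.Model

set_option autoImplicit false
set_option linter.unusedSectionVars false

namespace Pool.Agent.Lib.MP_7587db

open Finset Function

section phi

variable {k : ℕ} [NeZero k]

/-- mean log-partition function of the homogeneous directed model on `V` -/
noncomputable def Phi (V : Type*) [Fintype V] [DecidableEq V] (c : ℝ) (α : Fin k → ℝ)
    (A : Fin k → Fin k → ℝ) : ℝ :=
  bE (fun _ : V × V => c / (2 * Fintype.card V)) (lZ (fun _ i => α i) A)

lemma Phi_equiv {V V' : Type*} [Fintype V] [DecidableEq V] [Fintype V'] [DecidableEq V']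
    (e : V ≃ V') (c : ℝ) (α : Fin k → ℝ) (A : Fin k → Fin k → ℝ) :
    Phi V c α A = Phi V' c α A := by
  unfold Phi
  rw [bE_equiv (Equiv.prodCongr e e) (fun _ : V' × V' => c / (2 * (Fintype.card V' : ℝ)))]
  have hcard : Fintype.card V = Fintype.card V' := Fintype.card_congr e
  have h1 : (fun _ : V' × V' => c / (2 * (Fintype.card V' : ℝ))) ∘ (Equiv.prodCongr e e) =
      fun _ : V × V => c / (2 * (Fintype.card V : ℝ)) := by
    funext x; simp [hcard]
  rw [h1]
  congr 1
  funext ω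
  have := lZ_relabel (k := k) e.symm (fun _ i => α i) A ω
  rw [← this]
  rfl

lemma sum_lZ_pos {V : Type*} [Fintype V] [DecidableEq V] {a : V → Fin k → ℝ}
    {A : Fin k → Fin k → ℝ} (ha : ∀ u i, 0 < a u i) (hA : ∀ i j, 0 < A i j)
    (ω : V × V → Bool) : 0 < ∑ σ, PW a A ω σ := sum_W_pos (PW_pos ha hA ω)

/-- factorisation over two components -/
lemma lZ_sum_type {V₁ V₂ : Type*} [Fintype V₁] [DecidableEq V₁] [Fintype V₂] [DecidableEq V₂]
    {a : V₁ ⊕ V₂ → Fin k → ℝ} {A : Fin k → Fin k → ℝ} (ha : ∀ u i, 0 < a u i)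
    (hA : ∀ i j, 0 < A i j) (ω : (V₁ ⊕ V₂) × (V₁ ⊕ V₂) → Bool)
    (h : ∀ x y, ω (Sum.inl x, Sum.inr y) = false ∧ ω (Sum.inr y, Sum.inl x) = false) :
    lZ a A ω = lZ (fun x => a (Sum.inl x)) A (fun e => ω (Sum.inl e.1, Sum.inl e.2)) +
      lZ (fun x => a (Sum.inr x)) A (fun e => ω (Sum.inr e.1, Sum.inr e.2)) := by
  unfold lZ
  rw [← Real.log_mul (sum_lZ_pos (fun _ _ => ha _ _) hA _).ne' (sum_lZ_pos (fun _ _ => ha _ _) hA _).ne']
  congr 1
  rw [← Equiv.sum_comp (Equiv.sumArrowEquivProdArrow V₁ V₂ (Fin k)).symm, Fintype.sum_prod_type,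
    Finset.sum_mul_sum]
  refine Finset.sum_congr rfl fun σ _ => Finset.sum_congr rfl fun τ _ => ?_
  have h1 : (Equiv.sumArrowEquivProdArrow V₁ V₂ (Fin k)).symm (σ, τ) = Sum.elim σ τ := rfl
  rw [h1]
  unfold PW
  simp only [Fintype.prod_prod_type, Fintype.prod_sum_type, Sum.elim_inl, Sum.elim_inr,
    (h _ _).1, (h _ _).2, cond_false, Finset.prod_const_one, mul_one, one_mul]
  ring

/-- factorisation over equal blocks -/
lemma lZ_block {J X : Type*} [Fintype J] [DecidableEq J] [Fintype X] [DecidableEq X]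
    {α : Fin k → ℝ} {A : Fin k → Fin k → ℝ} (hα : ∀ i, 0 < α i)
    (hA : ∀ i j, 0 < A i j) (ω : (J × X) × (J × X) → Bool)
    (h : ∀ u v : J × X, u.1 ≠ v.1 → ω (u, v) = false) :
    lZ (fun _ i => α i) A ω = ∑ j, lZ (fun _ i => α i) A (fun e : X × X => ω ((j, e.1), (j, e.2))) := by
  unfold lZ
  rw [← Real.log_prod (fun j _ => (sum_lZ_pos (fun _ _ => hα _) hA _).ne')]
  congr 1
  rw [Fintype.prod_sum, ← Equiv.sum_comp (Equiv.curry J X (Fin k)).symm]
  refine Finset.sum_congr rfl fun σ _ => ?_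
  unfold PW
  rw [Finset.prod_mul_distrib, Fintype.prod_prod_type]
  congr 1
  rw [Fintype.prod_prod_type, Fintype.prod_prod_type]
  refine Finset.prod_congr rfl fun j _ => ?_
  rw [Fintype.prod_prod_type]
  refine Finset.prod_congr rfl fun x _ => ?_
  rw [Fintype.prod_prod_type, Finset.prod_eq_single j]
  · rfl
  · intro j' _ hj'
    refine Finset.prod_eq_one fun y _ => ?_
    rw [h (j, x) (j', y) (fun hh => hj' hh.symm)]
    rfl
  · intro hj; exact absurd (Finset.mem_univ j) hj

/-- the block diagonal model decouples -/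
lemma bE_block {J X : Type*} [Fintype J] [DecidableEq J] [Fintype X] [DecidableEq X]
    {α : Fin k → ℝ} {A : Fin k → Fin k → ℝ} (hα : ∀ i, 0 < α i)
    (hA : ∀ i j, 0 < A i j) (c : ℝ) :
    bE (fun e : (J × X) × (J × X) => if e.1.1 = e.2.1 then c / (2 * (Fintype.card X : ℝ)) else 0)
      (lZ (fun _ i => α i) A) = Fintype.card J * Phi X c α A := by
  have h1 : bE (fun e : (J × X) × (J × X) => if e.1.1 = e.2.1 then c / (2 * (Fintype.card X : ℝ)) else 0)
      (lZ (fun _ i => α i) A) =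
      bE (fun e : (J × X) × (J × X) => if e.1.1 = e.2.1 then c / (2 * (Fintype.card X : ℝ)) else 0)
      (fun ω => ∑ j, lZ (fun _ i => α i) A (fun e : X × X => ω ((j, e.1), (j, e.2)))) := by
    refine bE_congr_supp fun ω hω => lZ_block hα hA ω fun u v huv => ?_
    exact hω (u, v) (by simp [huv])
  rw [h1, bE_sum]
  have h2 : ∀ j : J, bE (fun e : (J × X) × (J × X) =>
      if e.1.1 = e.2.1 then c / (2 * (Fintype.card X : ℝ)) else 0)
      (fun ω => lZ (fun _ i => α i) A (fun e : X × X => ω ((j, e.1), (j, e.2)))) = Phi X c α A := by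
    intro j
    have hinj : Function.Injective (fun e : X × X => ((j, e.1), (j, e.2))) := by
      intro a b hab
      simp only [Prod.mk.injEq, true_and] at hab
      exact Prod.ext hab.1 hab.2
    have := bE_marginal (fun e : X × X => ((j, e.1), (j, e.2))) hinj
      (fun e : (J × X) × (J × X) => if e.1.1 = e.2.1 then c / (2 * (Fintype.card X : ℝ)) else 0)
      (lZ (fun _ i => α i) A)
    have e2 : (fun e : (J × X) × (J × X) => if e.1.1 = e.2.1 then c / (2 * (Fintype.card X : ℝ)) else 0) ∘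
        (fun e : X × X => ((j, e.1), (j, e.2))) = fun _ => c / (2 * (Fintype.card X : ℝ)) := by
      funext e; simp
    rw [e2] at this
    exact this
  rw [Finset.sum_congr rfl fun j _ => h2 j]
  simp

/-- crude bound on the log-partition function -/
lemma abs_lZ_le {V : Type*} [Fintype V] [DecidableEq V] {α : Fin k → ℝ}
    {A : Fin k → Fin k → ℝ} (hα : ∀ i, 0 < α i) {D : ℝ}
    (hA1 : ∀ i j, Real.exp (-D) ≤ A i j) (hA2 : ∀ i j, A i j ≤ Real.exp D)
    (ω : V × V → Bool) :
    |lZ (fun _ i => α i) A ω| ≤ Fintype.card V * |Real.log (∑ i, α i)| +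
      D * ∑ e, cond (ω e) (1 : ℝ) 0 := by
  have hA : ∀ i j, 0 < A i j := fun i j => (Real.exp_pos _).trans_le (hA1 i j)
  have hsum : ∑ σ : V → Fin k, ∏ u, α (σ u) = (∑ i, α i) ^ Fintype.card V := by
    rw [← Fintype.prod_sum (fun (_ : V) (i : Fin k) => α i)]
    simp
  have hS : 0 < ∑ i, α i := Finset.sum_pos (fun i _ => hα i) Finset.univ_nonempty
  have hprod : ∀ σ : V → Fin k, 0 < ∏ u, α (σ u) := fun σ => Finset.prod_pos fun u _ => hα _
  have hedge1 : ∀ σ : V → Fin k, Real.exp (-(D * ∑ e, cond (ω e) (1 : ℝ) 0)) ≤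
      ∏ e : V × V, cond (ω e) (A (σ e.1) (σ e.2)) 1 := by
    intro σ
    rw [Finset.mul_sum, ← Finset.sum_neg_distrib, Real.exp_sum]
    refine Finset.prod_le_prod (fun e _ => (Real.exp_pos _).le) fun e _ => ?_
    cases ω e
    · simp
    · simpa using hA1 _ _
  have hedge2 : ∀ σ : V → Fin k, ∏ e : V × V, cond (ω e) (A (σ e.1) (σ e.2)) 1 ≤
      Real.exp (D * ∑ e, cond (ω e) (1 : ℝ) 0) := by
    intro σ
    rw [Finset.mul_sum, Real.exp_sum]
    refine Finset.prod_le_prod (fun e _ => ?_) fun e _ => ?_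
    · cases ω e
      · simp
      · exact (hA _ _).le
    · cases ω e
      · simp
      · simpa using hA2 _ _
  set E := D * ∑ e, cond (ω e) (1 : ℝ) 0 with hE
  have hZpos := sum_lZ_pos (k := k) (V := V) (a := fun _ i => α i) (fun _ _ => hα _) hA ω
  have hup : ∑ σ, PW (fun _ i => α i) A ω σ ≤ (∑ i, α i) ^ Fintype.card V * Real.exp E := by
    rw [← hsum, Finset.sum_mul]
    refine Finset.sum_le_sum fun σ _ => ?_
    unfold PW
    exact mul_le_mul_of_nonneg_left (hedge2 σ) (hprod σ).le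
  have hlow : (∑ i, α i) ^ Fintype.card V * Real.exp (-E) ≤ ∑ σ, PW (fun _ i => α i) A ω σ := by
    rw [← hsum, Finset.sum_mul]
    refine Finset.sum_le_sum fun σ _ => ?_
    unfold PW
    exact mul_le_mul_of_nonneg_left (hedge1 σ) (hprod σ).le
  have hn : (0 : ℝ) ≤ Fintype.card V := Nat.cast_nonneg _
  have l1 : Real.log ((∑ i, α i) ^ Fintype.card V * Real.exp E) =
      Fintype.card V * Real.log (∑ i, α i) + E := by
    rw [Real.log_mul (pow_pos hS _).ne' (Real.exp_pos _).ne', Real.log_pow, Real.log_exp]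
  have l2 : Real.log ((∑ i, α i) ^ Fintype.card V * Real.exp (-E)) =
      Fintype.card V * Real.log (∑ i, α i) - E := by
    rw [Real.log_mul (pow_pos hS _).ne' (Real.exp_pos _).ne', Real.log_pow, Real.log_exp]
    ring
  have u1 : lZ (fun _ i => α i) A ω ≤ Fintype.card V * Real.log (∑ i, α i) + E := by
    rw [← l1]; exact Real.log_le_log hZpos hup
  have u2 : Fintype.card V * Real.log (∑ i, α i) - E ≤ lZ (fun _ i => α i) A ω := by
    rw [← l2]; exact Real.log_le_log (by positivity) hlow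
  have u3 := mul_le_mul_of_nonneg_left (le_abs_self (Real.log (∑ i, α i))) hn
  have u4 := mul_le_mul_of_nonneg_left (neg_abs_le (Real.log (∑ i, α i))) hn
  rw [abs_le]
  constructor <;> linarith

lemma abs_Phi_le {V : Type*} [Fintype V] [DecidableEq V] [Nonempty V] {α : Fin k → ℝ}
    {A : Fin k → Fin k → ℝ} (hα : ∀ i, 0 < α i) {D : ℝ}
    (hA1 : ∀ i j, Real.exp (-D) ≤ A i j) (hA2 : ∀ i j, A i j ≤ Real.exp D)
    {c : ℝ} (hc : 0 ≤ c) (hcV : c ≤ 2 * Fintype.card V) :
    |Phi V c α A| ≤ (|Real.log (∑ i, α i)| + D * c / 2) * Fintype.card V := by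
  have hV : (0 : ℝ) < Fintype.card V := by exact_mod_cast Fintype.card_pos
  have h0 : ∀ e : V × V, 0 ≤ (fun _ : V × V => c / (2 * (Fintype.card V : ℝ))) e := fun e => by
    positivity
  have h1 : ∀ e : V × V, (fun _ : V × V => c / (2 * (Fintype.card V : ℝ))) e ≤ 1 := fun e => by
    simp only
    rw [div_le_one (by positivity)]; exact hcV
  unfold Phi
  refine (abs_bE_le h0 h1 _).trans ((bE_mono h0 h1 (fun ω => abs_lZ_le hα hA1 hA2 ω)).trans
    (le_of_eq ?_))
  rw [bE_add, bE_const, bE_mul_left, bE_sum]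
  simp only [bE_indicator, Finset.sum_const, Finset.card_univ, Fintype.card_prod, nsmul_eq_mul]
  push_cast
  field_simp

/-- adding one vertex changes the mean log-partition function by a bounded amount -/
lemma Phi_succ {X : Type*} [Fintype X] [DecidableEq X] [Nonempty X] {α : Fin k → ℝ}
    {A : Fin k → Fin k → ℝ} (hα : ∀ i, 0 < α i) {D : ℝ} (hD : 0 ≤ D)
    (hA1 : ∀ i j, Real.exp (-D) ≤ A i j) (hA2 : ∀ i j, A i j ≤ Real.exp D)
    {c : ℝ} (hc : 0 ≤ c) (hcX : c ≤ 2 * Fintype.card X) :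
    |Phi (X ⊕ Unit) c α A - Phi X c α A| ≤ 2 * D * c + |Real.log (∑ i, α i)| := by
  have hA : ∀ i j, 0 < A i j := fun i j => (Real.exp_pos _).trans_le (hA1 i j)
  have hX : (1 : ℝ) ≤ Fintype.card X := by exact_mod_cast Fintype.card_pos
  have hX0 : (0 : ℝ) < Fintype.card X := by linarith
  set n : ℝ := (Fintype.card X : ℝ) with hn
  let p : (X ⊕ Unit) × (X ⊕ Unit) → ℝ := fun e =>
    Sum.elim (fun _ => Sum.elim (fun _ => c / (2 * n)) (fun _ => 0) e.2) (fun _ => 0) e.1
  let q : (X ⊕ Unit) × (X ⊕ Unit) → ℝ := fun _ => c / (2 * (n + 1))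
  have hq : Phi (X ⊕ Unit) c α A = bE q (lZ (fun _ i => α i) A) := by
    unfold Phi
    congr 1
    funext e
    simp [q, hn]
  have hp0 : ∀ e, 0 ≤ p e := by
    rintro ⟨x | x, y | y⟩ <;> simp only [p, Sum.elim_inl, Sum.elim_inr, le_refl]
    positivity
  have hp1 : ∀ e, p e ≤ 1 := by
    rintro ⟨x | x, y | y⟩ <;> simp only [p, Sum.elim_inl, Sum.elim_inr, zero_le_one]
    rw [div_le_one (by positivity)]; exact hcX
  have hq0 : ∀ e, 0 ≤ q e := fun e => by simp only [q]; positivity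
  have hq1 : ∀ e, q e ≤ 1 := fun e => by
    simp only [q]; rw [div_le_one (by positivity)]; linarith
  have hlip := bE_lipschitz hp0 hp1 hq0 hq1 (D := D) (f := lZ (V := X ⊕ Unit) (fun _ i => α i) A)
    (lZ_BDiff (fun _ _ => hα _) hA1 hA2)
  have hsumpq : ∑ e, |q e - p e| ≤ 2 * c := by
    have e1 : ∑ e, |q e - p e| = n * n * |c / (2 * (n + 1)) - c / (2 * n)| +
        (2 * n + 1) * |c / (2 * (n + 1))| := by
      simp only [Fintype.sum_prod_type, Fintype.sum_sum_type, p, q, Sum.elim_inl, Sum.elim_inr,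
        Finset.sum_const, Finset.card_univ, nsmul_eq_mul, sub_zero, Fintype.card_unit]
      push_cast
      ring
    rw [e1]
    have a1 : |c / (2 * (n + 1)) - c / (2 * n)| = c / (2 * n * (n + 1)) := by
      have : c / (2 * (n + 1)) - c / (2 * n) = -(c / (2 * n * (n + 1))) := by
        field_simp; ring
      rw [this, abs_neg, abs_of_nonneg (by positivity)]
    rw [a1, abs_of_nonneg (by positivity)]
    have a2 : n * n * (c / (2 * n * (n + 1))) + (2 * n + 1) * (c / (2 * (n + 1))) =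
        c * ((3 * n + 1) / (2 * (n + 1))) := by
      field_simp; ring
    rw [a2]
    have a3 : (3 * n + 1) / (2 * (n + 1)) ≤ 2 := by
      rw [div_le_iff₀ (by positivity)]; linarith
    nlinarith
  have hdec : bE p (lZ (fun _ i => α i) A) = Phi X c α A + Real.log (∑ i, α i) := by
    have e1 : bE p (lZ (fun _ i => α i) A) =
        bE p (fun ω => lZ (fun _ i => α i) A (fun e : X × X => ω (Sum.inl e.1, Sum.inl e.2)) +
          Real.log (∑ i, α i)) := by
      refine bE_congr_supp fun ω hω => ?_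
      rw [lZ_sum_type (fun _ _ => hα _) hA ω (fun x y => ⟨hω _ rfl, hω _ rfl⟩)]
      congr 1
      have hu : (fun e : Unit × Unit => ω (Sum.inr e.1, Sum.inr e.2)) = fun _ => false := by
        funext e
        exact hω _ rfl
      rw [hu]
      unfold lZ PW
      simp only [cond_false, Finset.prod_const_one, mul_one]
      rw [← Fintype.prod_sum (fun (_ : Unit) (i : Fin k) => α i)]
      simp
    rw [e1, bE_add, bE_const]
    congr 1
    have hinj : Function.Injective (fun e : X × X =>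
        ((Sum.inl e.1 : X ⊕ Unit), (Sum.inl e.2 : X ⊕ Unit))) := by
      intro a b hab
      simp only [Prod.mk.injEq, Sum.inl.injEq] at hab
      exact Prod.ext hab.1 hab.2
    exact bE_marginal (fun e : X × X => ((Sum.inl e.1 : X ⊕ Unit), (Sum.inl e.2 : X ⊕ Unit)))
      hinj p (lZ (fun _ i => α i) A)
  rw [hq]
  have e3 : bE q (lZ (fun _ i => α i) A) - Phi X c α A =
      (bE q (lZ (fun _ i => α i) A) - bE p (lZ (fun _ i => α i) A)) + Real.log (∑ i, α i) := by
    rw [hdec]; ring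
  rw [e3]
  refine (abs_add_le _ _).trans (add_le_add ?_ le_rfl)
  refine hlip.trans ?_
  calc D * ∑ e, |q e - p e| ≤ D * (2 * c) := mul_le_mul_of_nonneg_left hsumpq hD
    _ = 2 * D * c := by ring

end phi

end Pool.Agent.Lib.MP_7587db
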