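import Pool.Agent.Lib.MP_7587db.Anti
import Pool.Agent.Lib.MP_7587db.Phi

set_option autoImplicit false
set_option linter.unusedSectionVars false
set_option linter.unusedVariables false

namespace Pool.Agent.Lib.MP_7587db

open Finset Function

section general

variable {V : Type*} [Fintype V] [DecidableEq V] {k : ℕ} [NeZero k]

/-- the path of mark probabilities -/
noncomputable def qP (q0 y : V → ℝ) (β τ : ℝ) : V → ℝ := fun u => q0 u + τ * (β * y u)

lemma hasDerivAt_qP (q0 y : V → ℝ) (β τ : ℝ) (F : (V → Bool) → ℝ) :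
    HasDerivAt (fun τ => bE (qP q0 y β τ) F) (∑ u, (β * y u) * bE (qP q0 y β τ) (bD u F)) τ := by
  refine hasDerivAt_bE (p := fun τ => qP q0 y β τ) (p' := fun u => β * y u) (t := τ) ?_ F
  intro u
  simpa [qP] using ((hasDerivAt_id τ).mul_const (β * y u)).const_add (q0 u)

lemma continuous_qP (q0 y : V → ℝ) (β : ℝ) (F : (V → Bool) → ℝ) :
    Continuous (fun τ => bE (qP q0 y β τ) F) :=
  continuous_iff_continuousAt.2 fun τ => (hasDerivAt_qP q0 y β τ F).continuousAt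

/-- averaged log-partition function over the marks -/
noncomputable def fh2 (α g : Fin k → ℝ) (A : Fin k → Fin k → ℝ) (q0 y : V → ℝ) (β : ℝ)
    (ω : V × V → Bool) : ℝ :=
  ∫ τ in (0 : ℝ)..1, bE (qP q0 y β τ) (FF 0 α g A 0 ω)

/-- averaged edge term -/
noncomputable def Q2 (α g : Fin k → ℝ) (A : Fin k → Fin k → ℝ) (q0 y : V → ℝ) (β : ℝ)
    (e : V × V) (ω : V × V → Bool) : ℝ :=
  ∫ τ in (0 : ℝ)..1, bE (qP q0 y β τ) (XX α g A ω e.1 e.2)

variable {α g : Fin k → ℝ} {A : Fin k → Fin k → ℝ} {b : Fin k → Fin k → ℝ} {D : ℝ}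

lemma AntiHyp.bD_fh2 (H : AntiHyp α g A b D) (q0 y : V → ℝ) (β : ℝ) (e : V × V)
    (ω : V × V → Bool) :
    bD e (fh2 α g A q0 y β) ω = Q2 α g A q0 y β e (update ω e false) := by
  unfold bD fh2 Q2
  rw [← intervalIntegral.integral_sub
    ((continuous_qP q0 y β _).intervalIntegrable _ _)
    ((continuous_qP q0 y β _).intervalIntegrable _ _)]
  congr 1
  funext τ
  rw [← bE_sub]
  congr 1
  funext ξ
  exact lZ_bD (aP_pos H.hα H.hg 0 ξ) H.hA ω e

lemma AntiHyp.abs_Q2_le (H : AntiHyp α g A b D) {q0 y : V → ℝ} {β : ℝ}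
    (h0 : ∀ τ : ℝ, 0 ≤ τ → τ ≤ 1 → ∀ u, 0 ≤ qP q0 y β τ u)
    (h1 : ∀ τ : ℝ, 0 ≤ τ → τ ≤ 1 → ∀ u, qP q0 y β τ u ≤ 1) (e : V × V) (ω : V × V → Bool) :
    |Q2 α g A q0 y β e ω| ≤ D := by
  have := intervalIntegral.norm_integral_le_of_norm_le_const (a := (0 : ℝ)) (b := 1) (C := D)
    (f := fun τ => bE (qP q0 y β τ) (XX α g A ω e.1 e.2)) (fun τ hτ => by
      rw [Set.uIoc_of_le zero_le_one] at hτ
      rw [Real.norm_eq_abs]
      exact (abs_bE_le (h0 τ hτ.1.le hτ.2) (h1 τ hτ.1.le hτ.2) _).trans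
        (bE_le_of_le (h0 τ hτ.1.le hτ.2) (h1 τ hτ.1.le hτ.2) fun ξ => H.abs_XX_le ω _ _ ξ))
  rw [Real.norm_eq_abs, sub_zero, abs_one, mul_one] at this
  exact this

lemma AntiHyp.bD_fh2_sub (H : AntiHyp α g A b D) {q0 y : V → ℝ} {β : ℝ}
    (h0 : ∀ τ : ℝ, 0 ≤ τ → τ ≤ 1 → ∀ u, 0 ≤ qP q0 y β τ u)
    (h1 : ∀ τ : ℝ, 0 ≤ τ → τ ≤ 1 → ∀ u, qP q0 y β τ u ≤ 1) (e : V × V) (ω : V × V → Bool) :
    |bD e (fh2 α g A q0 y β) ω - Q2 α g A q0 y β e ω| ≤ 2 * D * cond (ω e) (1 : ℝ) 0 := by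
  rw [H.bD_fh2]
  cases hb : ω e
  · have : update ω e false = ω := by rw [← hb]; exact update_eq_self e ω
    rw [this]; simp
  · have a1 := H.abs_Q2_le h0 h1 e (update ω e false)
    have a2 := H.abs_Q2_le h0 h1 e ω
    have a3 := abs_sub (Q2 α g A q0 y β e (update ω e false)) (Q2 α g A q0 y β e ω)
    simp only [cond_true, mul_one]
    linarith

/-- the second differences integrate to a boundary term -/
lemma integral_second (q0 y : V → ℝ) (β : ℝ) (f : (V → Bool) → ℝ) :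
    β * ∫ τ in (0 : ℝ)..1, (∑ u, ∑ v, y u * y v * bE (qP q0 y β τ) (bD u (bD v f))) =
      (∑ v, y v * bE (qP q0 y β 1) (bD v f)) - ∑ v, y v * bE (qP q0 y β 0) (bD v f) := by
  have hder : ∀ τ ∈ Set.uIcc (0 : ℝ) 1, HasDerivAt
      (fun τ => ∑ v, y v * bE (qP q0 y β τ) (bD v f))
      (β * ∑ u, ∑ v, y u * y v * bE (qP q0 y β τ) (bD u (bD v f))) τ := by
    intro τ _
    have h1 : HasDerivAt (fun τ => ∑ v, y v * bE (qP q0 y β τ) (bD v f))
        (∑ v, y v * ∑ u, (β * y u) * bE (qP q0 y β τ) (bD u (bD v f))) τ :=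
      HasDerivAt.fun_sum fun v _ => (hasDerivAt_qP q0 y β τ (bD v f)).const_mul (y v)
    have h2 : (∑ v, y v * ∑ u, (β * y u) * bE (qP q0 y β τ) (bD u (bD v f))) =
        β * ∑ u, ∑ v, y u * y v * bE (qP q0 y β τ) (bD u (bD v f)) := by
      rw [Finset.sum_comm (f := fun u v => y u * y v * bE (qP q0 y β τ) (bD u (bD v f))),
        Finset.mul_sum]
      refine Finset.sum_congr rfl fun v _ => ?_
      rw [Finset.mul_sum, Finset.mul_sum]
      refine Finset.sum_congr rfl fun u _ => ?_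
      ring
    rw [h2] at h1
    exact h1
  have hcont : Continuous (fun τ => β * ∑ u, ∑ v, y u * y v * bE (qP q0 y β τ) (bD u (bD v f))) := by
    refine continuous_const.mul (continuous_finsetSum _ fun u _ => continuous_finsetSum _ fun v _ => ?_)
    exact continuous_const.mul (continuous_qP q0 y β _)
  have := intervalIntegral.integral_eq_sub_of_hasDerivAt hder (hcont.intervalIntegrable _ _)
  rw [intervalIntegral.integral_const_mul] at this
  exact this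

/-- the integrated main inequality -/
lemma AntiHyp.int_ineq (H : AntiHyp α g A b D) (ω : V × V → Bool) {y : V → ℝ} (hy : ∑ u, y u = 0)
    {q0 qm qM : V → ℝ} {β : ℝ} (hβ : 0 < β) (hm : ∀ u, 0 < qm u) (hM : ∀ u, qM u ≤ 1)
    (h0 : ∀ τ : ℝ, 0 ≤ τ → τ ≤ 1 → ∀ u, qm u ≤ qP q0 y β τ u)
    (h1 : ∀ τ : ℝ, 0 ≤ τ → τ ≤ 1 → ∀ u, qP q0 y β τ u ≤ qM u) :
    ∑ u, ∑ v, y u * y v * Q2 α g A q0 y β (u, v) ω ≤
      2 * D * (∑ u, |y u|) / β + 4 * D * (∑ u, ∑ v, |y u * y v| * (qM u + qM v)) +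
      ∑ u, y u ^ 2 * (3 * D + 3 * D / qm u) := by
  have hD := H.hD
  set f := FF 0 α g A 0 ω with hf
  have e1 : ∑ u, ∑ v, y u * y v * Q2 α g A q0 y β (u, v) ω =
      ∫ τ in (0 : ℝ)..1, (∑ u, ∑ v, y u * y v * bE (qP q0 y β τ) (XX α g A ω u v)) := by
    have hc : ∀ u v, Continuous (fun τ => y u * y v * bE (qP q0 y β τ) (XX α g A ω u v)) :=
      fun u v => continuous_const.mul (continuous_qP q0 y β _)
    rw [intervalIntegral.integral_finsetSum (fun u _ =>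
      (continuous_finsetSum _ fun v _ => hc u v).intervalIntegrable _ _)]
    refine Finset.sum_congr rfl fun u _ => ?_
    rw [intervalIntegral.integral_finsetSum (fun v _ => (hc u v).intervalIntegrable _ _)]
    refine Finset.sum_congr rfl fun v _ => ?_
    rw [intervalIntegral.integral_const_mul]
    rfl
  rw [e1]
  set K : ℝ := 4 * D * (∑ u, ∑ v, |y u * y v| * (qM u + qM v)) +
      ∑ u, y u ^ 2 * (3 * D + 3 * D / qm u) with hK
  have hpt : ∀ τ ∈ Set.Icc (0 : ℝ) 1,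
      (∑ u, ∑ v, y u * y v * bE (qP q0 y β τ) (XX α g A ω u v)) ≤
      (∑ u, ∑ v, y u * y v * bE (qP q0 y β τ) (bD u (bD v f))) + K := by
    intro τ hτ
    have hq0 : ∀ u, 0 < qP q0 y β τ u := fun u => (hm u).trans_le (h0 τ hτ.1 hτ.2 u)
    have hq1 : ∀ u, qP q0 y β τ u ≤ 1 := fun u => (h1 τ hτ.1 hτ.2 u).trans (hM u)
    have h := H.main_ineq ω hy hq0 hq1
    have k1 : ∑ u, ∑ v, |y u * y v| * (qP q0 y β τ u + qP q0 y β τ v) ≤
        ∑ u, ∑ v, |y u * y v| * (qM u + qM v) := by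
      refine Finset.sum_le_sum fun u _ => Finset.sum_le_sum fun v _ => ?_
      exact mul_le_mul_of_nonneg_left (add_le_add (h1 τ hτ.1 hτ.2 u) (h1 τ hτ.1 hτ.2 v))
        (abs_nonneg _)
    have k2 : ∑ u, y u ^ 2 * (3 * D + 3 * D / qP q0 y β τ u) ≤
        ∑ u, y u ^ 2 * (3 * D + 3 * D / qm u) := by
      refine Finset.sum_le_sum fun u _ => ?_
      refine mul_le_mul_of_nonneg_left ?_ (sq_nonneg _)
      have : 3 * D / qP q0 y β τ u ≤ 3 * D / qm u :=
        div_le_div_of_nonneg_left (by positivity) (hm u) (h0 τ hτ.1 hτ.2 u)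
      linarith
    have k3 := mul_le_mul_of_nonneg_left k1 (by positivity : 0 ≤ 4 * D)
    linarith
  have hcA : Continuous (fun τ => ∑ u, ∑ v, y u * y v * bE (qP q0 y β τ) (XX α g A ω u v)) :=
    continuous_finsetSum _ fun u _ => continuous_finsetSum _ fun v _ =>
      continuous_const.mul (continuous_qP q0 y β _)
  have hcB : Continuous (fun τ => ∑ u, ∑ v, y u * y v * bE (qP q0 y β τ) (bD u (bD v f))) :=
    continuous_finsetSum _ fun u _ => continuous_finsetSum _ fun v _ =>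
      continuous_const.mul (continuous_qP q0 y β _)
  have hcBK : Continuous (fun τ => (∑ u, ∑ v, y u * y v * bE (qP q0 y β τ) (bD u (bD v f))) + K) :=
    hcB.add continuous_const
  have hint := intervalIntegral.integral_mono_on (μ := MeasureTheory.volume)
    (zero_le_one : (0 : ℝ) ≤ 1)
    (hcA.intervalIntegrable _ _) (hcBK.intervalIntegrable _ _) hpt
  refine hint.trans ?_
  have e2 : ∫ τ in (0 : ℝ)..1, ((∑ u, ∑ v, y u * y v * bE (qP q0 y β τ) (bD u (bD v f))) + K) =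
      (∫ τ in (0 : ℝ)..1, ∑ u, ∑ v, y u * y v * bE (qP q0 y β τ) (bD u (bD v f))) + K := by
    have hKi : IntervalIntegrable (fun _ : ℝ => K) MeasureTheory.volume 0 1 :=
      continuous_const.intervalIntegrable _ _
    rw [intervalIntegral.integral_add (hcB.intervalIntegrable _ _) hKi,
      intervalIntegral.integral_const]
    simp
  rw [e2]
  have e3 := integral_second q0 y β f
  have hbd : ∀ τ : ℝ, 0 ≤ τ → τ ≤ 1 → |∑ v, y v * bE (qP q0 y β τ) (bD v f)| ≤ D * ∑ u, |y u| := by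
    intro τ ht0 ht1
    rw [Finset.mul_sum]
    refine (Finset.abs_sum_le_sum_abs _ _).trans (Finset.sum_le_sum fun v _ => ?_)
    rw [abs_mul, mul_comm]
    refine mul_le_mul_of_nonneg_right ?_ (abs_nonneg _)
    have hq0 : ∀ u, 0 ≤ qP q0 y β τ u := fun u => ((hm u).trans_le (h0 τ ht0 ht1 u)).le
    have hq1 : ∀ u, qP q0 y β τ u ≤ 1 := fun u => (h1 τ ht0 ht1 u).trans (hM u)
    exact (abs_bE_le hq0 hq1 _).trans (bE_le_of_le hq0 hq1 fun ξ => H.abs_bD_FF_le ω v ξ)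
  have a1 := (abs_le.1 (hbd 1 zero_le_one le_rfl)).2
  have a0 := (abs_le.1 (hbd 0 le_rfl zero_le_one)).1
  have e4 : ∫ τ in (0 : ℝ)..1, ∑ u, ∑ v, y u * y v * bE (qP q0 y β τ) (bD u (bD v f)) ≤
      2 * D * (∑ u, |y u|) / β := by
    rw [le_div_iff₀ hβ, mul_comm]
    linarith
  linarith

/-- marks cost little -/
lemma AntiHyp.fh2_approx (H : AntiHyp α g A b D) {q0 y qM : V → ℝ} {β : ℝ}
    (h0 : ∀ τ : ℝ, 0 ≤ τ → τ ≤ 1 → ∀ u, 0 ≤ qP q0 y β τ u)
    (h1 : ∀ τ : ℝ, 0 ≤ τ → τ ≤ 1 → ∀ u, qP q0 y β τ u ≤ qM u) (hM : ∀ u, qM u ≤ 1)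
    (ω : V × V → Bool) :
    |fh2 α g A q0 y β ω - lZ (fun _ i => α i) A ω| ≤ D * ∑ u, qM u := by
  have hlZ : lZ (fun _ i => α i) A ω = bE (fun _ : V => (0 : ℝ)) (FF 0 α g A 0 ω) := by
    rw [bE_zero _ (fun _ => rfl)]
    unfold FF
    congr 1
    funext u i
    simp [aP]
  have hB : BDiff D (FF 0 α g A 0 ω) := fun u ξ => H.abs_bD_FF_le ω u ξ
  have e1 : lZ (fun _ i => α i) A ω = ∫ _ in (0 : ℝ)..1, lZ (fun _ i => α i) A ω := by
    rw [intervalIntegral.integral_const, sub_zero, one_smul]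
  rw [e1]
  unfold fh2
  rw [← intervalIntegral.integral_sub ((continuous_qP q0 y β _).intervalIntegrable _ _)
    (continuous_const.intervalIntegrable _ _)]
  have := intervalIntegral.norm_integral_le_of_norm_le_const (a := (0 : ℝ)) (b := 1)
    (C := D * ∑ u, qM u)
    (f := fun τ => bE (qP q0 y β τ) (FF 0 α g A 0 ω) - lZ (fun _ i => α i) A ω) (fun τ hτ => by
      rw [Set.uIoc_of_le zero_le_one] at hτ
      rw [Real.norm_eq_abs, hlZ]
      have hl := bE_lipschitz (p := fun _ : V => (0 : ℝ)) (q := qP q0 y β τ) (fun _ => le_rfl)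
        (fun _ => zero_le_one) (h0 τ hτ.1.le hτ.2)
        (fun u => (h1 τ hτ.1.le hτ.2 u).trans (hM u)) hB
      refine hl.trans (mul_le_mul_of_nonneg_left (Finset.sum_le_sum fun u _ => ?_) H.hD.le)
      rw [sub_zero, abs_of_nonneg (h0 τ hτ.1.le hτ.2 u)]
      exact h1 τ hτ.1.le hτ.2 u)
  rw [Real.norm_eq_abs, sub_zero, abs_one, mul_one] at this
  exact this

end general

end Pool.Agent.Lib.MP_7587db
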