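import Pool.Agent.Lib.MP_7587db.Anti2

set_option autoImplicit false
set_option linter.unusedSectionVars false
set_option linter.unusedVariables false

namespace Pool.Agent.Lib.MP_7587db

open Finset Function

section two

variable {V₁ V₂ : Type*} [Fintype V₁] [DecidableEq V₁] [Fintype V₂] [DecidableEq V₂]
  {k : ℕ} [NeZero k]

/-- the weight vector of the two-block interpolation -/
noncomputable def yv (u : V₁ ⊕ V₂) : ℝ :=
  Sum.elim (fun _ => 1 / (Fintype.card V₁ : ℝ)) (fun _ => -(1 / (Fintype.card V₂ : ℝ))) u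

/-- function constant on the two blocks -/
def two (a b : ℝ) (u : V₁ ⊕ V₂) : ℝ := Sum.elim (fun _ => a) (fun _ => b) u

@[simp] lemma two_inl (a b : ℝ) (x : V₁) : two a b (Sum.inl x : V₁ ⊕ V₂) = a := rfl
@[simp] lemma two_inr (a b : ℝ) (x : V₂) : two a b (Sum.inr x : V₁ ⊕ V₂) = b := rfl
@[simp] lemma yv_inl (x : V₁) : yv (Sum.inl x : V₁ ⊕ V₂) = 1 / (Fintype.card V₁ : ℝ) := rfl
@[simp] lemma yv_inr (x : V₂) : yv (Sum.inr x : V₁ ⊕ V₂) = -(1 / (Fintype.card V₂ : ℝ)) := rfl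

/-- edge probabilities of the two-block interpolation -/
noncomputable def pt2 (c t : ℝ) : (V₁ ⊕ V₂) × (V₁ ⊕ V₂) → ℝ
  | (Sum.inl _, Sum.inl _) => t * (c / (2 * ((Fintype.card V₁ : ℝ) + Fintype.card V₂))) +
      (1 - t) * (c / (2 * (Fintype.card V₁ : ℝ)))
  | (Sum.inr _, Sum.inr _) => t * (c / (2 * ((Fintype.card V₁ : ℝ) + Fintype.card V₂))) +
      (1 - t) * (c / (2 * (Fintype.card V₂ : ℝ)))
  | (Sum.inl _, Sum.inr _) => t * (c / (2 * ((Fintype.card V₁ : ℝ) + Fintype.card V₂))) +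
      (1 - t) * 0
  | (Sum.inr _, Sum.inl _) => t * (c / (2 * ((Fintype.card V₁ : ℝ) + Fintype.card V₂))) +
      (1 - t) * 0

/-- rate of the interpolation -/
noncomputable def kap (V₁ V₂ : Type*) [Fintype V₁] [Fintype V₂] (c : ℝ) : ℝ :=
  c / 2 * ((Fintype.card V₁ : ℝ) * Fintype.card V₂ / ((Fintype.card V₁ : ℝ) + Fintype.card V₂))

variable [Nonempty V₁] [Nonempty V₂]

lemma card_pos1 : (0 : ℝ) < Fintype.card V₁ := by exact_mod_cast Fintype.card_pos

lemma hasDerivAt_mix (a b t : ℝ) : HasDerivAt (fun t : ℝ => t * a + (1 - t) * b) (a - b) t := by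
  have h1 : HasDerivAt (fun t : ℝ => t * a) (1 * a) t := (hasDerivAt_id t).mul_const a
  have h2 : HasDerivAt (fun t : ℝ => (1 - t) * b) ((-1) * b) t :=
    ((hasDerivAt_id t).const_sub 1).mul_const b
  exact (h1.add h2).congr_deriv (by ring)

lemma hasDerivAt_pt2 (c t : ℝ) (e : (V₁ ⊕ V₂) × (V₁ ⊕ V₂)) :
    HasDerivAt (fun t => pt2 c t e) (-(kap V₁ V₂ c * (yv e.1 * yv e.2))) t := by
  have h1 := card_pos1 (V₁ := V₁)
  have h2 := card_pos1 (V₁ := V₂)
  rcases e with ⟨u | u, v | v⟩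
  · have := hasDerivAt_mix (c / (2 * ((Fintype.card V₁ : ℝ) + Fintype.card V₂)))
      (c / (2 * (Fintype.card V₁ : ℝ))) t
    simp only [pt2, yv_inl, kap]
    convert this using 1
    field_simp
    ring
  · have := hasDerivAt_mix (c / (2 * ((Fintype.card V₁ : ℝ) + Fintype.card V₂))) 0 t
    simp only [pt2, yv_inl, yv_inr, kap]
    convert this using 1
    field_simp
    ring
  · have := hasDerivAt_mix (c / (2 * ((Fintype.card V₁ : ℝ) + Fintype.card V₂))) 0 t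
    simp only [pt2, yv_inl, yv_inr, kap]
    convert this using 1
    field_simp
    ring
  · have := hasDerivAt_mix (c / (2 * ((Fintype.card V₁ : ℝ) + Fintype.card V₂)))
      (c / (2 * (Fintype.card V₂ : ℝ))) t
    simp only [pt2, yv_inr, kap]
    convert this using 1
    field_simp
    ring

lemma pt2_nonneg {c t : ℝ} (hc : 0 ≤ c) (ht0 : 0 ≤ t) (ht1 : t ≤ 1)
    (e : (V₁ ⊕ V₂) × (V₁ ⊕ V₂)) : 0 ≤ pt2 c t e := by
  have h1 := card_pos1 (V₁ := V₁)
  have h2 := card_pos1 (V₁ := V₂)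
  have ht2 : 0 ≤ 1 - t := by linarith
  rcases e with ⟨u | u, v | v⟩ <;> simp only [pt2] <;> positivity

lemma pt2_le {c t : ℝ} (hc : 0 ≤ c) (ht0 : 0 ≤ t) (ht1 : t ≤ 1)
    (e : (V₁ ⊕ V₂) × (V₁ ⊕ V₂)) : pt2 c t e ≤ c / 2 * |yv e.1| := by
  have h1 := card_pos1 (V₁ := V₁)
  have h2 := card_pos1 (V₁ := V₂)
  have ht2 : 0 ≤ 1 - t := by linarith
  have a1 : c / (2 * ((Fintype.card V₁ : ℝ) + Fintype.card V₂)) ≤
      c / 2 * (1 / (Fintype.card V₁ : ℝ)) := by
    rw [div_mul_div_comm, mul_one]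
    exact div_le_div_of_nonneg_left hc (by positivity) (by linarith)
  have a2 : c / (2 * ((Fintype.card V₁ : ℝ) + Fintype.card V₂)) ≤
      c / 2 * (1 / (Fintype.card V₂ : ℝ)) := by
    rw [div_mul_div_comm, mul_one]
    exact div_le_div_of_nonneg_left hc (by positivity) (by linarith)
  have b1 : c / (2 * (Fintype.card V₁ : ℝ)) = c / 2 * (1 / (Fintype.card V₁ : ℝ)) := by
    rw [div_mul_div_comm, mul_one]
  have b2 : c / (2 * (Fintype.card V₂ : ℝ)) = c / 2 * (1 / (Fintype.card V₂ : ℝ)) := by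
    rw [div_mul_div_comm, mul_one]
  have p1 : 0 ≤ c / 2 * (1 / (Fintype.card V₁ : ℝ)) := by positivity
  have p2 : 0 ≤ c / 2 * (1 / (Fintype.card V₂ : ℝ)) := by positivity
  rcases e with ⟨u | u, v | v⟩ <;> simp only [pt2, yv_inl, yv_inr, abs_neg]
  · rw [abs_of_pos (by positivity), b1]
    nlinarith [mul_le_mul_of_nonneg_left a1 ht0]
  · rw [abs_of_pos (by positivity)]
    nlinarith [mul_le_mul_of_nonneg_left a1 ht0, mul_nonneg ht2 p1]
  · rw [abs_of_pos (by positivity)]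
    nlinarith [mul_le_mul_of_nonneg_left a2 ht0, mul_nonneg ht2 p2]
  · rw [abs_of_pos (by positivity), b2]
    nlinarith [mul_le_mul_of_nonneg_left a2 ht0]

lemma pt2_le_one {c t : ℝ} (hc : 0 ≤ c) (hc1 : c ≤ 2 * Fintype.card V₁)
    (hc2 : c ≤ 2 * Fintype.card V₂) (ht0 : 0 ≤ t) (ht1 : t ≤ 1)
    (e : (V₁ ⊕ V₂) × (V₁ ⊕ V₂)) : pt2 c t e ≤ 1 := by
  have h1 := card_pos1 (V₁ := V₁)
  have h2 := card_pos1 (V₁ := V₂)
  refine (pt2_le hc ht0 ht1 e).trans ?_
  rcases e with ⟨u | u, v | v⟩ <;> simp only [yv_inl, yv_inr, abs_neg] <;>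
    rw [abs_of_pos (by positivity), div_mul_div_comm, mul_one, div_le_one (by positivity)] <;>
    assumption

lemma sum_yv : ∑ u : V₁ ⊕ V₂, yv u = 0 := by
  have h1 := card_pos1 (V₁ := V₁)
  have h2 := card_pos1 (V₁ := V₂)
  simp only [Fintype.sum_sum_type, yv_inl, yv_inr, Finset.sum_const, Finset.card_univ,
    nsmul_eq_mul]
  field_simp
  ring

lemma sum_abs_yv_mul (a b : ℝ) : ∑ u : V₁ ⊕ V₂, |yv u| * two a b u = a + b := by
  have h1 := card_pos1 (V₁ := V₁)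
  have h2 := card_pos1 (V₁ := V₂)
  simp only [Fintype.sum_sum_type, yv_inl, yv_inr, two_inl, two_inr, Finset.sum_const,
    Finset.card_univ, nsmul_eq_mul, abs_neg]
  rw [abs_of_pos (by positivity), abs_of_pos (by positivity)]
  field_simp

lemma sum_abs_yv : ∑ u : V₁ ⊕ V₂, |yv u| = 2 := by
  have := sum_abs_yv_mul (V₁ := V₁) (V₂ := V₂) 1 1
  have h : ∀ u : V₁ ⊕ V₂, |yv u| * two 1 1 u = |yv u| := by
    rintro (u | u) <;> simp
  simp only [h] at this
  rw [this]; norm_num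

lemma sum_sq_yv_mul (a b : ℝ) : ∑ u : V₁ ⊕ V₂, yv u ^ 2 * two a b u =
    a / Fintype.card V₁ + b / Fintype.card V₂ := by
  have h1 := card_pos1 (V₁ := V₁)
  have h2 := card_pos1 (V₁ := V₂)
  simp only [Fintype.sum_sum_type, yv_inl, yv_inr, two_inl, two_inr, Finset.sum_const,
    Finset.card_univ, nsmul_eq_mul]
  field_simp

lemma sum_pair_two (a b : ℝ) :
    ∑ u : V₁ ⊕ V₂, ∑ v : V₁ ⊕ V₂, |yv u * yv v| * (two a b u + two a b v) = 4 * (a + b) := by
  have e : ∀ u v : V₁ ⊕ V₂, |yv u * yv v| * (two a b u + two a b v) =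
      (|yv u| * two a b u) * |yv v| + |yv u| * (|yv v| * two a b v) := by
    intro u v; rw [abs_mul]; ring
  simp only [e, Finset.sum_add_distrib, ← Finset.mul_sum, ← Finset.sum_mul, sum_abs_yv_mul,
    sum_abs_yv]
  ring

/-- the two-block model at time zero decouples -/
lemma bE_pt2_zero {α : Fin k → ℝ} {A : Fin k → Fin k → ℝ} (hα : ∀ i, 0 < α i)
    (hA : ∀ i j, 0 < A i j) (c : ℝ) :
    bE (pt2 (V₁ := V₁) (V₂ := V₂) c 0) (lZ (fun _ i => α i) A) =
      Phi V₁ c α A + Phi V₂ c α A := by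
  have e1 : bE (pt2 (V₁ := V₁) (V₂ := V₂) c 0) (lZ (fun _ i => α i) A) =
      bE (pt2 (V₁ := V₁) (V₂ := V₂) c 0)
        (fun ω => lZ (fun _ i => α i) A (fun e : V₁ × V₁ => ω (Sum.inl e.1, Sum.inl e.2)) +
          lZ (fun _ i => α i) A (fun e : V₂ × V₂ => ω (Sum.inr e.1, Sum.inr e.2))) := by
    refine bE_congr_supp fun ω hω => ?_
    exact lZ_sum_type (fun _ _ => hα _) hA ω
      (fun x y => ⟨hω _ (by simp [pt2]), hω _ (by simp [pt2])⟩)
  rw [e1, bE_add]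
  have hinj1 : Function.Injective (fun e : V₁ × V₁ =>
      ((Sum.inl e.1 : V₁ ⊕ V₂), (Sum.inl e.2 : V₁ ⊕ V₂))) := by
    intro a b hab
    simp only [Prod.mk.injEq, Sum.inl.injEq] at hab
    exact Prod.ext hab.1 hab.2
  have hinj2 : Function.Injective (fun e : V₂ × V₂ =>
      ((Sum.inr e.1 : V₁ ⊕ V₂), (Sum.inr e.2 : V₁ ⊕ V₂))) := by
    intro a b hab
    simp only [Prod.mk.injEq, Sum.inr.injEq] at hab
    exact Prod.ext hab.1 hab.2
  have m1 := bE_marginal (fun e : V₁ × V₁ => ((Sum.inl e.1 : V₁ ⊕ V₂), (Sum.inl e.2 : V₁ ⊕ V₂)))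
    hinj1 (pt2 c 0) (lZ (fun _ i => α i) A)
  have m2 := bE_marginal (fun e : V₂ × V₂ => ((Sum.inr e.1 : V₁ ⊕ V₂), (Sum.inr e.2 : V₁ ⊕ V₂)))
    hinj2 (pt2 c 0) (lZ (fun _ i => α i) A)
  have f1 : (pt2 c 0) ∘ (fun e : V₁ × V₁ => ((Sum.inl e.1 : V₁ ⊕ V₂), (Sum.inl e.2 : V₁ ⊕ V₂))) =
      fun _ => c / (2 * (Fintype.card V₁ : ℝ)) := by
    funext e; simp [pt2]
  have f2 : (pt2 c 0) ∘ (fun e : V₂ × V₂ => ((Sum.inr e.1 : V₁ ⊕ V₂), (Sum.inr e.2 : V₁ ⊕ V₂))) =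
      fun _ => c / (2 * (Fintype.card V₂ : ℝ)) := by
    funext e; simp [pt2]
  rw [f1] at m1
  rw [f2] at m2
  unfold Phi
  rw [← m1, ← m2]
  rfl

lemma bE_pt2_one (α : Fin k → ℝ) (A : Fin k → Fin k → ℝ) (c : ℝ) :
    bE (pt2 (V₁ := V₁) (V₂ := V₂) c 1) (lZ (fun _ i => α i) A) = Phi (V₁ ⊕ V₂) c α A := by
  unfold Phi
  congr 1
  funext e
  rcases e with ⟨u | u, v | v⟩ <;> simp [pt2]

variable {α g : Fin k → ℝ} {A : Fin k → Fin k → ℝ} {b : Fin k → Fin k → ℝ} {D : ℝ}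

/-- superadditivity up to the square root of the smaller size -/
lemma AntiHyp.superadd (H : AntiHyp α g A b D) {c : ℝ} (hc : 0 ≤ c)
    (hc1 : c ≤ 2 * Fintype.card V₁) (h12 : Fintype.card V₁ ≤ Fintype.card V₂) :
    Phi V₁ c α A + Phi V₂ c α A - D * (28 * c + c ^ 2 + 4) * Real.sqrt (Fintype.card V₁) ≤
      Phi (V₁ ⊕ V₂) c α A := by
  have hD := H.hD
  have h1 := card_pos1 (V₁ := V₁)
  have h2 := card_pos1 (V₁ := V₂)
  have h12' : (Fintype.card V₁ : ℝ) ≤ Fintype.card V₂ := by exact_mod_cast h12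
  have hc2 : c ≤ 2 * Fintype.card V₂ := by linarith
  set n₁ : ℝ := (Fintype.card V₁ : ℝ) with hn1
  set n₂ : ℝ := (Fintype.card V₂ : ℝ) with hn2
  have hn11 : 1 ≤ n₁ := by rw [hn1]; exact_mod_cast Fintype.card_pos
  set r := Real.sqrt n₁ with hr
  have hr1 : 1 ≤ r := Real.one_le_sqrt.2 hn11
  have hr0 : 0 < r := by linarith
  have hr2 : r ^ 2 = n₁ := Real.sq_sqrt h1.le
  set s := 1 / (2 * r) with hs
  have hs0 : 0 < s := by positivity
  have h2s : 2 * s ≤ 1 := by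
    rw [hs]
    have : 2 * (1 / (2 * r)) = 1 / r := by field_simp
    rw [this, div_le_one hr0]; exact hr1
  have hsn : s * n₁ = r / 2 := by
    rw [hs, ← hr2]; field_simp
  set ρ := n₁ / n₂ with hρ
  have hρ0 : 0 < ρ := by positivity
  have hρ1 : ρ ≤ 1 := by rw [hρ, div_le_one h2]; exact h12'
  set β := s * n₁ with hβ
  have hβ0 : 0 < β := by positivity
  set q0 : V₁ ⊕ V₂ → ℝ := two s (2 * s * ρ) with hq0
  set qm : V₁ ⊕ V₂ → ℝ := two s (s * ρ) with hqm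
  set qM : V₁ ⊕ V₂ → ℝ := two (2 * s) (2 * s * ρ) with hqM
  have hyv1 : β * (1 / n₁) = s := by rw [hβ]; field_simp
  have hyv2 : β * (-(1 / n₂)) = -(s * ρ) := by rw [hβ, hρ]; field_simp
  have hm0 : ∀ u, 0 < qm u := by
    rintro (u | u) <;> simp only [hqm, two_inl, two_inr] <;> positivity
  have hMle : ∀ u, qM u ≤ 1 := by
    rintro (u | u) <;> simp only [hqM, two_inl, two_inr]
    · exact h2s
    · calc 2 * s * ρ ≤ 2 * s * 1 := mul_le_mul_of_nonneg_left hρ1 (by positivity)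
        _ ≤ 1 := by linarith
  have hlow : ∀ τ : ℝ, 0 ≤ τ → τ ≤ 1 → ∀ u, qm u ≤ qP q0 yv β τ u := by
    intro τ ht0 ht1
    rintro (u | u) <;> simp only [hqm, hq0, qP, two_inl, two_inr, yv_inl, yv_inr]
    · rw [← hn1, hyv1]; nlinarith
    · rw [← hn2, hyv2]
      have : 0 ≤ s * ρ := by positivity
      nlinarith
  have hup : ∀ τ : ℝ, 0 ≤ τ → τ ≤ 1 → ∀ u, qP q0 yv β τ u ≤ qM u := by
    intro τ ht0 ht1
    rintro (u | u) <;> simp only [hqM, hq0, qP, two_inl, two_inr, yv_inl, yv_inr]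
    · rw [← hn1, hyv1]; nlinarith
    · rw [← hn2, hyv2]
      have : 0 ≤ s * ρ := by positivity
      nlinarith
  have hP0 : ∀ τ : ℝ, 0 ≤ τ → τ ≤ 1 → ∀ u, 0 ≤ qP q0 yv β τ u := fun τ a b u =>
    (hm0 u).le.trans (hlow τ a b u)
  have hP1 : ∀ τ : ℝ, 0 ≤ τ → τ ≤ 1 → ∀ u, qP q0 yv β τ u ≤ 1 := fun τ a b u =>
    (hup τ a b u).trans (hMle u)
  set κ := kap V₁ V₂ c with hκ
  have hκ0 : 0 ≤ κ := by rw [hκ]; unfold kap; positivity
  have hκ1 : κ ≤ c / 2 * n₁ := by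
    rw [hκ]; unfold kap
    refine mul_le_mul_of_nonneg_left ?_ (by positivity)
    rw [div_le_iff₀ (by positivity), ← hn1, ← hn2]
    nlinarith
  -- pointwise bound on the quadratic form
  have hpw : ∀ ω : (V₁ ⊕ V₂) × (V₁ ⊕ V₂) → Bool,
      κ * ∑ u, ∑ v, yv u * yv v * Q2 α g A q0 yv β (u, v) ω ≤ D * (27.5 * c) * r := by
    intro ω
    have h := H.int_ineq ω sum_yv hβ0 hm0 hMle hlow hup
    rw [sum_abs_yv, hqM, sum_pair_two] at h
    have e1 : ∑ u : V₁ ⊕ V₂, yv u ^ 2 * (3 * D + 3 * D / qm u) =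
        (3 * D + 3 * D / s) / n₁ + (3 * D + 3 * D / (s * ρ)) / n₂ := by
      rw [hn1, hn2, ← sum_sq_yv_mul]
      refine Finset.sum_congr rfl fun u _ => ?_
      congr 1
      rcases u with u | u <;> simp [hqm]
    rw [e1] at h
    have h3 := mul_le_mul_of_nonneg_left h hκ0
    refine h3.trans ?_
    have t1 : κ * (2 * D * 2 / β) ≤ 4 * c * D * r := by
      have : 2 * D * 2 / β = 8 * D / r := by rw [hsn]; field_simp; ring
      rw [this]
      calc κ * (8 * D / r) ≤ c / 2 * n₁ * (8 * D / r) :=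
            mul_le_mul_of_nonneg_right hκ1 (by positivity)
        _ = 4 * c * D * r := by rw [← hr2]; field_simp; ring
    have t2 : κ * (4 * D * (4 * (2 * s + 2 * s * ρ))) ≤ 16 * c * D * r := by
      have : 4 * D * (4 * (2 * s + 2 * s * ρ)) ≤ 32 * D / r := by
        have hh : 2 * s + 2 * s * ρ ≤ 2 / r := by
          have : 2 * s * ρ ≤ 2 * s * 1 := mul_le_mul_of_nonneg_left hρ1 (by positivity)
          have e : 2 * s = 1 / r := by rw [hs]; field_simp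
          have e2 : 2 / r = 1 / r + 1 / r := by ring
          rw [e2, ← e]; linarith
        calc 4 * D * (4 * (2 * s + 2 * s * ρ)) ≤ 4 * D * (4 * (2 / r)) := by
              refine mul_le_mul_of_nonneg_left ?_ (by positivity)
              linarith
          _ = 32 * D / r := by ring
      calc κ * (4 * D * (4 * (2 * s + 2 * s * ρ))) ≤ κ * (32 * D / r) :=
            mul_le_mul_of_nonneg_left this hκ0
        _ ≤ c / 2 * n₁ * (32 * D / r) := mul_le_mul_of_nonneg_right hκ1 (by positivity)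
        _ = 16 * c * D * r := by rw [← hr2]; field_simp; ring
    have t3 : κ * ((3 * D + 3 * D / s) / n₁ + (3 * D + 3 * D / (s * ρ)) / n₂) ≤
        3 / 2 * c * D + 6 * c * D * r := by
      have e2 : (3 * D + 3 * D / s) / n₁ + (3 * D + 3 * D / (s * ρ)) / n₂ =
          3 * D * (1 / n₁ + 1 / n₂) + 2 * (3 * D / s) / n₁ := by
        rw [hρ]; field_simp; ring
      rw [e2, mul_add]
      have e3 : κ * (3 * D * (1 / n₁ + 1 / n₂)) = 3 / 2 * c * D := by
        rw [hκ]; unfold kap; rw [← hn1, ← hn2]; field_simp; ring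
      have e4 : κ * (2 * (3 * D / s) / n₁) ≤ 6 * c * D * r := by
        have e5 : 2 * (3 * D / s) / n₁ = 12 * D / r := by
          rw [hs, ← hr2]; field_simp; ring
        rw [e5]
        calc κ * (12 * D / r) ≤ c / 2 * n₁ * (12 * D / r) :=
              mul_le_mul_of_nonneg_right hκ1 (by positivity)
          _ = 6 * c * D * r := by rw [← hr2]; field_simp; ring
      rw [e3]; linarith
    have t4 : 3 / 2 * c * D ≤ 3 / 2 * c * D * r := le_mul_of_one_le_right (by positivity) hr1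
    rw [mul_add, mul_add]
    nlinarith
  -- lower bound on the derivative
  have hderiv : ∀ t : ℝ, 0 ≤ t → t ≤ 1 →
      -(D * (27.5 * c + c ^ 2) * r) ≤
      ∑ e : (V₁ ⊕ V₂) × (V₁ ⊕ V₂), -(κ * (yv e.1 * yv e.2)) *
        bE (pt2 c t) (bD e (fh2 α g A q0 yv β)) := by
    intro t ht0 ht1
    have hp0 := pt2_nonneg (V₁ := V₁) (V₂ := V₂) hc ht0 ht1
    have hp1 := pt2_le_one (V₁ := V₁) (V₂ := V₂) hc hc1 hc2 ht0 ht1
    have a1 : |∑ e : (V₁ ⊕ V₂) × (V₁ ⊕ V₂), -(κ * (yv e.1 * yv e.2)) *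
        bE (pt2 c t) (bD e (fh2 α g A q0 yv β)) -
        ∑ e : (V₁ ⊕ V₂) × (V₁ ⊕ V₂), -(κ * (yv e.1 * yv e.2)) *
        bE (pt2 c t) (Q2 α g A q0 yv β e)| ≤ c ^ 2 * D := by
      rw [← Finset.sum_sub_distrib]
      refine (Finset.abs_sum_le_sum_abs _ _).trans ?_
      have hb : ∀ e ∈ (Finset.univ : Finset ((V₁ ⊕ V₂) × (V₁ ⊕ V₂))),
          |-(κ * (yv e.1 * yv e.2)) * bE (pt2 c t) (bD e (fh2 α g A q0 yv β)) -
          -(κ * (yv e.1 * yv e.2)) * bE (pt2 c t) (Q2 α g A q0 yv β e)| ≤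
          κ * c * D * (yv e.1 ^ 2 * |yv e.2|) := by
        intro e _
        rw [← mul_sub, abs_mul, abs_neg, abs_mul, abs_mul, abs_of_nonneg hκ0, ← bE_sub]
        have b1 : |bE (pt2 c t) (fun ω => bD e (fh2 α g A q0 yv β) ω - Q2 α g A q0 yv β e ω)| ≤
            2 * D * (c / 2 * |yv e.1|) := by
          refine (abs_bE_le hp0 hp1 _).trans ?_
          refine (bE_mono hp0 hp1 (fun ω => H.bD_fh2_sub hP0 hP1 e ω)).trans ?_
          rw [bE_mul_left, bE_indicator]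
          exact mul_le_mul_of_nonneg_left (pt2_le hc ht0 ht1 e) (by positivity)
        have b2 := mul_le_mul_of_nonneg_left b1
          (by positivity : 0 ≤ κ * (|yv e.1| * |yv e.2|))
        refine b2.trans (le_of_eq ?_)
        have : yv e.1 ^ 2 = |yv e.1| * |yv e.1| := by rw [← sq, sq_abs]
        rw [this]
        ring
      refine (Finset.sum_le_sum hb).trans (le_of_eq ?_)
      rw [← Finset.mul_sum, Fintype.sum_prod_type]
      simp only [← Finset.mul_sum, ← Finset.sum_mul, sum_abs_yv]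
      have e5 : ∑ u : V₁ ⊕ V₂, yv u ^ 2 = 1 / n₁ + 1 / n₂ := by
        rw [hn1, hn2, ← sum_sq_yv_mul]
        refine Finset.sum_congr rfl fun u _ => ?_
        rcases u with u | u <;> simp
      rw [e5, hκ]; unfold kap; rw [← hn1, ← hn2]; field_simp; ring
    have a2 : -(D * (27.5 * c) * r) ≤ ∑ e : (V₁ ⊕ V₂) × (V₁ ⊕ V₂), -(κ * (yv e.1 * yv e.2)) *
        bE (pt2 c t) (Q2 α g A q0 yv β e) := by
      have e1 : ∑ e : (V₁ ⊕ V₂) × (V₁ ⊕ V₂), -(κ * (yv e.1 * yv e.2)) *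
          bE (pt2 c t) (Q2 α g A q0 yv β e) =
          bE (pt2 c t) (fun ω => -(κ * ∑ u, ∑ v, yv u * yv v * Q2 α g A q0 yv β (u, v) ω)) := by
        rw [bE_neg, bE_mul_left, bE_sum, Fintype.sum_prod_type, Finset.mul_sum,
          ← Finset.sum_neg_distrib]
        refine Finset.sum_congr rfl fun u _ => ?_
        rw [bE_sum, Finset.mul_sum, ← Finset.sum_neg_distrib]
        refine Finset.sum_congr rfl fun v _ => ?_
        rw [bE_mul_left]
        ring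
      rw [e1]
      refine le_bE_of_le hp0 hp1 fun ω => ?_
      linarith [hpw ω]
    have a3 := (abs_le.1 a1).1
    have a4 : c ^ 2 * D ≤ D * c ^ 2 * r := by
      rw [mul_comm (c ^ 2) D]
      exact le_mul_of_one_le_right (by positivity) hr1
    nlinarith
  -- integrate
  have hder : ∀ t : ℝ, HasDerivAt
      (fun t : ℝ => bE (pt2 (V₁ := V₁) (V₂ := V₂) c t) (fh2 α g A q0 yv β))
      (∑ e : (V₁ ⊕ V₂) × (V₁ ⊕ V₂), -(κ * (yv e.1 * yv e.2)) *
        bE (pt2 c t) (bD e (fh2 α g A q0 yv β))) t := fun t =>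
    hasDerivAt_bE (p := fun t => pt2 c t) (p' := fun e => -(κ * (yv e.1 * yv e.2)))
      (t := t) (fun e => hasDerivAt_pt2 c t e) _
  obtain ⟨t, ht, hmv⟩ := exists_hasDerivAt_eq_slope
    (fun t : ℝ => bE (pt2 (V₁ := V₁) (V₂ := V₂) c t) (fh2 α g A q0 yv β)) _
    (zero_lt_one : (0 : ℝ) < 1) (fun t _ => (hder t).continuousAt.continuousWithinAt)
    (fun t _ => hder t)
  have hslope := hderiv t ht.1.le ht.2.le
  rw [hmv, sub_zero, div_one] at hslope
  -- endpoints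
  have happ : ∀ t : ℝ, 0 ≤ t → t ≤ 1 →
      |bE (pt2 (V₁ := V₁) (V₂ := V₂) c t) (fh2 α g A q0 yv β) -
        bE (pt2 (V₁ := V₁) (V₂ := V₂) c t) (lZ (fun _ i => α i) A)| ≤ 2 * D * r := by
    intro t ht0 ht1
    have hp0 := pt2_nonneg (V₁ := V₁) (V₂ := V₂) hc ht0 ht1
    have hp1 := pt2_le_one (V₁ := V₁) (V₂ := V₂) hc hc1 hc2 ht0 ht1
    rw [← bE_sub]
    refine (abs_bE_le hp0 hp1 _).trans (bE_le_of_le hp0 hp1 fun ω => ?_)
    refine (H.fh2_approx hP0 hup hMle ω).trans (le_of_eq ?_)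
    have : ∑ u, qM u = 2 * r := by
      simp only [hqM, Fintype.sum_sum_type, two_inl, two_inr, Finset.sum_const,
        Finset.card_univ, nsmul_eq_mul]
      rw [← hn1, ← hn2, hρ]
      have : n₁ * (2 * s) + n₂ * (2 * s * (n₁ / n₂)) = 4 * (s * n₁) := by
        field_simp; ring
      rw [this, ← hβ, hsn]; ring
    rw [this]; ring
  have z1 := abs_le.1 (happ 1 zero_le_one le_rfl)
  have z0 := abs_le.1 (happ 0 le_rfl zero_le_one)
  rw [bE_pt2_one] at z1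
  rw [bE_pt2_zero H.hα H.hA] at z0
  have hcr : 0 ≤ D * c * r := by positivity
  have efin : D * (28 * c + c ^ 2 + 4) * r =
      D * (27.5 * c + c ^ 2) * r + 0.5 * (D * c * r) + 4 * (D * r) := by ring
  have e2 : 2 * D * r = 2 * (D * r) := by ring
  rw [e2] at z1 z0
  linarith [z1.1, z1.2, z0.1, z0.2]

end two

end Pool.Agent.Lib.MP_7587db
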