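import Mathlib

set_option autoImplicit false
set_option linter.unusedSectionVars false

namespace Pool.Agent.Lib.MP_7587db

open Filter

lemma mult_dense (L n₁ : ℕ) (hL : 2 ≤ L) (hn : 1 ≤ n₁) :
    ∃ N₀ : ℕ, ∀ N ≥ N₀, ∃ i j : ℕ, n₁ * L ^ i * (L + 1) ^ j ≤ N ∧
      L * N ≤ (L + 1) * (n₁ * L ^ i * (L + 1) ^ j) := by
  have hgrow : ∀ K : ℕ, L ^ 2 ≤ K → L ^ (K + 1) ≤ (L + 1) ^ K := by
    intro K hK
    have h1 : (1 : ℝ) + K * (1 / (L : ℝ)) ≤ (1 + 1 / (L : ℝ)) ^ K :=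
      one_add_mul_le_pow (by
        have : (0 : ℝ) ≤ 1 / (L : ℝ) := by positivity
        linarith) K
    have hLpos : (0 : ℝ) < L := by exact_mod_cast (by omega : 0 < L)
    have h2 : (L : ℝ) ≤ 1 + K * (1 / (L : ℝ)) := by
      have : (L : ℝ) ^ 2 ≤ K := by exact_mod_cast hK
      have h3 : (L : ℝ) ≤ K * (1 / (L : ℝ)) := by
        rw [mul_one_div, le_div_iff₀ hLpos]; nlinarith
      linarith
    have h4 : ((L : ℝ)) ^ (K + 1) ≤ ((L : ℝ) + 1) ^ K := by
      calc (L : ℝ) ^ (K + 1) = L * (L : ℝ) ^ K := by ring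
        _ ≤ (1 + 1 / (L : ℝ)) ^ K * (L : ℝ) ^ K :=
            mul_le_mul_of_nonneg_right (h2.trans h1) (by positivity)
        _ = ((L : ℝ) + 1) ^ K := by
            rw [← mul_pow]; congr 1; field_simp
    exact_mod_cast h4
  refine ⟨n₁ * L ^ (L ^ 2), fun N hN => ?_⟩
  -- choose K
  have hex : ∃ K, N < n₁ * L ^ (K + 1) := by
    refine ⟨N, ?_⟩
    have : N < L ^ N := Nat.lt_pow_self (by omega)
    calc N < L ^ N := this
      _ ≤ L ^ (N + 1) := Nat.pow_le_pow_right (by omega) (by omega)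
      _ ≤ n₁ * L ^ (N + 1) := Nat.le_mul_of_pos_left _ hn
  classical
  let K := Nat.find hex
  have hK1 : N < n₁ * L ^ (K + 1) := Nat.find_spec hex
  have hK2 : L ^ 2 ≤ K := by
    by_contra hlt
    push Not at hlt
    have : n₁ * L ^ (K + 1) ≤ n₁ * L ^ (L ^ 2) :=
      Nat.mul_le_mul_left _ (Nat.pow_le_pow_right (by omega) (by omega))
    omega
  have hK3 : n₁ * L ^ K ≤ N := by
    by_contra hlt
    push Not at hlt
    have hKpos : 1 ≤ K := le_trans (by nlinarith) hK2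
    have : N < n₁ * L ^ ((K - 1) + 1) := by
      rwa [Nat.sub_add_cancel hKpos]
    have := Nat.find_min hex (m := K - 1) (by
      change K - 1 < K
      omega)
    exact this (by assumption)
  -- choose j
  let x : ℕ → ℕ := fun j => n₁ * L ^ (K - j) * (L + 1) ^ j
  have hxK : N < x K := by
    have : x K = n₁ * (L + 1) ^ K := by simp [x]
    rw [this]
    exact lt_of_lt_of_le hK1 (Nat.mul_le_mul_left _ (hgrow K hK2))
  have hexj : ∃ j, N < x j := ⟨K, hxK⟩
  let j := Nat.find hexj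
  have hj1 : N < x j := Nat.find_spec hexj
  have hjK : j ≤ K := Nat.find_min' hexj hxK
  have hj0 : 1 ≤ j := by
    by_contra h0
    have hj0' : j = 0 := by omega
    rw [hj0'] at hj1
    simp only [x, Nat.sub_zero, pow_zero, mul_one] at hj1
    omega
  have hjm : x (j - 1) ≤ N := by
    have := Nat.find_min hexj (m := j - 1) (by
      change j - 1 < j
      omega)
    omega
  refine ⟨K - (j - 1), j - 1, hjm, ?_⟩
  have hrel : L * x j = (L + 1) * x (j - 1) := by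
    obtain ⟨j', hj'⟩ : ∃ j', j = j' + 1 := ⟨j - 1, by omega⟩
    simp only [x, hj', Nat.add_sub_cancel]
    have : K - j' = (K - (j' + 1)) + 1 := by omega
    rw [this, pow_succ, pow_succ]
    ring
  have : L * N ≤ L * x j := Nat.mul_le_mul_left _ hj1.le
  rw [hrel] at this
  exact this

theorem tendsto_of_almost_mul (b : ℕ → ℝ) (C δ : ℝ) (hδ : 0 < δ) (hb : ∀ n, |b n| ≤ C)
    (hstep : ∀ m n : ℕ, 1 ≤ m → m ≤ n → b m ≤ b n + C * ((n : ℝ) - m) / m)
    (hL : ∀ L : ℕ, 2 ≤ L → ∃ CL : ℝ, ∃ n₀ : ℕ, ∀ n ≥ n₀,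
      b n ≤ b (L * n) + CL * (n : ℝ) ^ (-δ)) :
    ∃ l, Tendsto b atTop (nhds l) := by
  have hC : 0 ≤ C := (abs_nonneg _).trans (hb 0)
  have hbu : IsBoundedUnder (· ≤ ·) atTop b :=
    isBoundedUnder_of ⟨C, fun n => (abs_le.1 (hb n)).2⟩
  have hbl : IsBoundedUnder (· ≥ ·) atTop b :=
    isBoundedUnder_of ⟨-C, fun n => (abs_le.1 (hb n)).1⟩
  refine ⟨limsup b atTop, ?_⟩
  set β := limsup b atTop with hβ
  -- lower bound
  have hlow : ∀ ε > 0, ∀ᶠ N in atTop, β - ε ≤ b N := by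
    intro ε hε
    -- choose L
    obtain ⟨L, hL2, hLC⟩ : ∃ L : ℕ, 2 ≤ L ∧ C / L ≤ ε / 4 := by
      obtain ⟨L, hL⟩ := exists_nat_gt (max 2 (4 * C / ε))
      have h1 : (2 : ℝ) < L := lt_of_le_of_lt (le_max_left _ _) hL
      have h2 : 4 * C / ε < L := lt_of_le_of_lt (le_max_right _ _) hL
      refine ⟨L, by exact_mod_cast h1.le, ?_⟩
      rw [div_le_iff₀ (by linarith)]
      rw [div_lt_iff₀ hε] at h2
      linarith
    obtain ⟨C1, n1, h1⟩ := hL L hL2
    obtain ⟨C2, n2, h2⟩ := hL (L + 1) (by omega)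
    set C' := max (max C1 C2) 0 with hC'
    have hC'0 : 0 ≤ C' := le_max_right _ _
    have hq : (2 : ℝ) ^ (-δ) < 1 := Real.rpow_lt_one_of_one_lt_of_neg (by norm_num) (by linarith)
    set κ := C' / (1 - (2 : ℝ) ^ (-δ)) with hκ
    have hκ0 : 0 ≤ κ := div_nonneg hC'0 (by linarith)
    have hκC : κ * (1 - (2 : ℝ) ^ (-δ)) = C' := by
      rw [hκ]; field_simp [(by linarith : (1 - (2 : ℝ) ^ (-δ)) ≠ 0)]
    -- monotonicity of the potential
    have hpot : ∀ M : ℕ, 2 ≤ M → ∀ m : ℕ, 1 ≤ m → b m ≤ b (M * m) + C' * (m : ℝ) ^ (-δ) →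
        b m - κ * (m : ℝ) ^ (-δ) ≤ b (M * m) - κ * ((M * m : ℕ) : ℝ) ^ (-δ) := by
      intro M hM m hm h
      have hm0 : (0 : ℝ) < m := by exact_mod_cast hm
      have hM0 : (0 : ℝ) < M := by exact_mod_cast (by omega : 0 < M)
      have e1 : ((M * m : ℕ) : ℝ) ^ (-δ) ≤ (2 : ℝ) ^ (-δ) * (m : ℝ) ^ (-δ) := by
        rw [← Real.mul_rpow (by norm_num) hm0.le]
        refine Real.rpow_le_rpow_of_nonpos (by positivity) ?_ (by linarith)
        push_cast
        have : (2 : ℝ) ≤ M := by exact_mod_cast hM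
        nlinarith
      have e2 : 0 ≤ (m : ℝ) ^ (-δ) := Real.rpow_nonneg hm0.le _
      have e3 : κ * ((M * m : ℕ) : ℝ) ^ (-δ) ≤ κ * ((2 : ℝ) ^ (-δ) * (m : ℝ) ^ (-δ)) :=
        mul_le_mul_of_nonneg_left e1 hκ0
      have e4 : C' * (m : ℝ) ^ (-δ) = κ * (m : ℝ) ^ (-δ) - κ * ((2 : ℝ) ^ (-δ) * (m : ℝ) ^ (-δ)) := by
        rw [← hκC]; ring
      linarith
    -- choose the starting point
    have hlim : Tendsto (fun n : ℕ => κ * (n : ℝ) ^ (-δ)) atTop (nhds 0) := by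
      have := (tendsto_rpow_neg_atTop hδ).comp tendsto_natCast_atTop_atTop
      simpa using this.const_mul κ
    have hev : ∀ᶠ n : ℕ in atTop, κ * (n : ℝ) ^ (-δ) < ε / 4 :=
      hlim.eventually_lt_const (by linarith)
    have hfreq : ∃ᶠ n in atTop, β - ε / 4 < b n :=
      frequently_lt_of_lt_limsup hbl.isCoboundedUnder_flip (by linarith)
    obtain ⟨n₁, hn1b, hn1κ, hn1ge⟩ := (hfreq.and_eventually
      (hev.and (eventually_ge_atTop (max (max n1 n2) 1)))).exists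
    have hn11 : n1 ≤ n₁ := le_trans (le_trans (le_max_left _ _) (le_max_left _ _)) hn1ge
    have hn12 : n2 ≤ n₁ := le_trans (le_trans (le_max_right _ _) (le_max_left _ _)) hn1ge
    have hn1 : 1 ≤ n₁ := le_trans (le_max_right _ _) hn1ge
    -- all products
    have hprod : ∀ i j : ℕ, b n₁ - κ * (n₁ : ℝ) ^ (-δ) ≤
        b (n₁ * L ^ i * (L + 1) ^ j) - κ * ((n₁ * L ^ i * (L + 1) ^ j : ℕ) : ℝ) ^ (-δ) := by
      have hstepA : ∀ (M : ℕ) (CM : ℝ) (nM : ℕ), 2 ≤ M → CM ≤ C' → nM ≤ n₁ →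
          (∀ n ≥ nM, b n ≤ b (M * n) + CM * (n : ℝ) ^ (-δ)) → ∀ m : ℕ, n₁ ≤ m →
          b m - κ * (m : ℝ) ^ (-δ) ≤ b (M * m) - κ * ((M * m : ℕ) : ℝ) ^ (-δ) := by
        intro M CM nM hM hCM hnM h m hm
        refine hpot M hM m (hn1.trans hm) ?_
        refine (h m (hnM.trans hm)).trans ?_
        have : CM * (m : ℝ) ^ (-δ) ≤ C' * (m : ℝ) ^ (-δ) :=
          mul_le_mul_of_nonneg_right hCM (Real.rpow_nonneg (by positivity) _)
        linarith
      have hge : ∀ i j : ℕ, n₁ ≤ n₁ * L ^ i * (L + 1) ^ j := by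
        intro i j
        have h1 : 1 ≤ L ^ i := Nat.one_le_pow _ _ (by omega)
        have h2 : 1 ≤ (L + 1) ^ j := Nat.one_le_pow _ _ (by omega)
        calc n₁ = n₁ * 1 * 1 := by ring
          _ ≤ n₁ * L ^ i * (L + 1) ^ j := Nat.mul_le_mul (Nat.mul_le_mul_left _ h1) h2
      intro i j
      induction j with
      | zero =>
        induction i with
        | zero => simp
        | succ i ih =>
          refine ih.trans ?_
          have := hstepA L C1 n1 hL2 ((le_max_left _ _).trans (le_max_left _ _)) hn11 h1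
            (n₁ * L ^ i * (L + 1) ^ 0) (hge i 0)
          have e : L * (n₁ * L ^ i * (L + 1) ^ 0) = n₁ * L ^ (i + 1) * (L + 1) ^ 0 := by ring
          rwa [e] at this
      | succ j ih =>
        refine ih.trans ?_
        have := hstepA (L + 1) C2 n2 (by omega) ((le_max_right _ _).trans (le_max_left _ _)) hn12 h2
          (n₁ * L ^ i * (L + 1) ^ j) (hge i j)
        have e : (L + 1) * (n₁ * L ^ i * (L + 1) ^ j) = n₁ * L ^ i * (L + 1) ^ (j + 1) := by ring
        rwa [e] at this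
    obtain ⟨N₀, hN₀⟩ := mult_dense L n₁ hL2 hn1
    filter_upwards [eventually_ge_atTop N₀] with N hN
    obtain ⟨i, j, hij1, hij2⟩ := hN₀ N hN
    set m := n₁ * L ^ i * (L + 1) ^ j with hm
    have hmpos : 1 ≤ m := by
      have h1 : 1 ≤ L ^ i := Nat.one_le_pow _ _ (by omega)
      have h2 : 1 ≤ (L + 1) ^ j := Nat.one_le_pow _ _ (by omega)
      calc 1 = 1 * 1 * 1 := by ring
        _ ≤ n₁ * L ^ i * (L + 1) ^ j := Nat.mul_le_mul (Nat.mul_le_mul hn1 h1) h2
    have hm0 : (0 : ℝ) < m := by exact_mod_cast hmpos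
    have hL0 : (0 : ℝ) < L := by exact_mod_cast (by omega : 0 < L)
    have hs := hstep m N hmpos hij1
    have hr : C * ((N : ℝ) - m) / m ≤ C / L := by
      rw [div_le_div_iff₀ hm0 hL0]
      have : (L : ℝ) * N ≤ (L + 1) * m := by exact_mod_cast hij2
      nlinarith
    have hp := hprod i j
    rw [← hm] at hp
    have hk : 0 ≤ κ * ((m : ℕ) : ℝ) ^ (-δ) := mul_nonneg hκ0 (Real.rpow_nonneg hm0.le _)
    linarith
  -- upper bound
  have hup : ∀ ε > 0, ∀ᶠ N in atTop, b N ≤ β + ε := by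
    intro ε hε
    have := eventually_lt_of_limsup_lt (f := atTop) (u := b) (b := β + ε) (by linarith) hbu
    exact this.mono fun _ h => h.le
  rw [Metric.tendsto_atTop]
  intro ε hε
  obtain ⟨N, hN⟩ := ((hlow (ε / 2) (by linarith)).and (hup (ε / 2) (by linarith))).exists_forall_of_atTop
  refine ⟨N, fun n hn => ?_⟩
  have := hN n hn
  rw [Real.dist_eq, abs_lt]
  constructor <;> linarith [this.1, this.2]

end Pool.Agent.Lib.MP_7587db
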