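import Pool.Agent.Lib.MP_7587db.Attr2
import Pool.Agent.Lib.MP_7587db.Phi
import Pool.Agent.Lib.MP_7587db.Seq

set_option autoImplicit false
set_option linter.unusedSectionVars false
set_option linter.unusedVariables false

namespace Pool.Agent.Lib.MP_7587db

open Finset Function Filter

section

variable {V : Type*} [Fintype V] [DecidableEq V] {k : ℕ} [NeZero k]

lemma Msum_nonneg {sf : Fin k → ℝ} (h0 : ∀ i, 0 ≤ sf i) (σ : V → Fin k) : 0 ≤ Msum sf σ :=
  Finset.sum_nonneg fun u _ => h0 _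

lemma Msum_le {sf : Fin k → ℝ} {S : ℝ} (h1 : ∀ i, sf i ≤ S) (σ : V → Fin k) :
    Msum sf σ ≤ S * Fintype.card V := by
  unfold Msum
  refine (Finset.sum_le_sum fun u _ => (h1 (σ u) : sv sf u σ ≤ S)).trans (le_of_eq ?_)
  simp [mul_comm]

lemma aP_zero (sf α : Fin k → ℝ) :
    aP (V := V) sf α (fun _ => 1) 0 (fun _ => false) = fun _ i => α i := by
  funext u i
  simp [aP]

lemma FF_field {sf α : Fin k → ℝ} {A : Fin k → Fin k → ℝ} {S : ℝ} (hα : ∀ i, 0 < α i)
    (hs0 : ∀ i, 0 ≤ sf i) (hs1 : ∀ i, sf i ≤ S) (hS : 0 ≤ S)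
    (hA : ∀ i j, 0 < A i j) (ω : V × V → Bool) {l s : ℝ} (hl : 0 ≤ l) (hls : l ≤ s) :
    |FF sf α (fun _ => 1) A l ω (fun _ => false) - lZ (fun _ i => α i) A ω| ≤
      s * (S * Fintype.card V) := by
  have h1 : lZ (fun _ i => α i) A ω =
      Real.log (∑ σ, GW sf α (fun _ => 1) A ω (fun _ => false) 0 σ) := by
    rw [← aP_zero (V := V) sf α]; rfl
  have h2 : FF sf α (fun _ => 1) A l ω (fun _ => false) =
      Real.log (∑ σ, GW sf α (fun _ => 1) A ω (fun _ => false) 0 σ * Real.exp (l * Msum sf σ)) := by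
    rw [FF_eq, GW_exp]
  have hpos := GW_pos (V := V) (sf := sf) hα (fun _ => one_pos) hA ω (fun _ => false) 0
  rw [h1, h2, log_sum_tilt hpos (fun σ => Real.exp_pos _)]
  have hN : 0 ≤ S * Fintype.card V := by positivity
  refine abs_log_gE_le hpos (fun σ => Real.exp_le_exp.2 ?_) (fun σ => Real.exp_le_exp.2 ?_)
  · have := mul_nonneg hl (Msum_nonneg hs0 σ)
    have := mul_nonneg (hl.trans hls) hN
    linarith
  · exact mul_le_mul hls (Msum_le hs1 σ) (Msum_nonneg hs0 σ) (hl.trans hls)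

lemma fhat_approx {sf α : Fin k → ℝ} {A : Fin k → Fin k → ℝ} {S : ℝ} (hα : ∀ i, 0 < α i)
    (hs0 : ∀ i, 0 ≤ sf i) (hs1 : ∀ i, sf i ≤ S) (hS : 0 ≤ S)
    (hA : ∀ i j, 0 < A i j) (ω : V × V → Bool) {s : ℝ} (hs : 0 ≤ s) :
    |fhat sf α A s ω - s * lZ (fun _ i => α i) A ω| ≤ s * (s * (S * Fintype.card V)) := by
  have h1 : s * lZ (fun _ i => α i) A ω = ∫ _ in (0 : ℝ)..s, lZ (fun _ i => α i) A ω := by
    rw [intervalIntegral.integral_const, sub_zero, smul_eq_mul]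
  unfold fhat
  rw [h1, ← intervalIntegral.integral_sub
    ((continuous_FF hα (fun _ => one_pos) hA _ _).intervalIntegrable _ _)
    (continuous_const.intervalIntegrable _ _)]
  have := intervalIntegral.norm_integral_le_of_norm_le_const (a := (0 : ℝ)) (b := s)
    (C := s * (S * Fintype.card V))
    (f := fun l => FF sf α (fun _ => 1) A l ω (fun _ => false) - lZ (fun _ i => α i) A ω)
    (fun l hl => by
      rw [Set.uIoc_of_le hs] at hl
      rw [Real.norm_eq_abs]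
      exact FF_field hα hs0 hs1 hS hA ω hl.1.le hl.2)
  rw [Real.norm_eq_abs, sub_zero, abs_of_nonneg hs] at this
  linarith

end

section

variable {k : ℕ} [NeZero k]

lemma Assoc.S_nonneg {𝓦 : Set (Fin k → ℝ)} {A : Fin k → Fin k → ℝ} {sf : Fin k → ℝ} {S : ℝ}
    (H : Assoc 𝓦 A sf S) : 0 ≤ S := (H.s_nonneg 0).trans (H.s_le 0)

lemma interp_Phi {J X : Type} [Fintype J] [DecidableEq J] [Fintype X] [DecidableEq X]
    [Nonempty J] [Nonempty X] {𝓦 : Set (Fin k → ℝ)} {sf α : Fin k → ℝ} {S : ℝ}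
    {A : Fin k → Fin k → ℝ} (H : Assoc 𝓦 A sf S) (hαW : α ∈ 𝓦)
    {D : ℝ} (hD : 0 < D) (hA1 : ∀ i j, Real.exp (-D) ≤ A i j)
    (hA2 : ∀ i j, A i j ≤ Real.exp D) {c : ℝ} (hc : 0 ≤ c)
    (hcX : c ≤ 2 * Fintype.card X) {K : ℕ} (hK : 1 ≤ K)
    {s h : ℝ} (hs : 0 < s) (h0 : 0 < h) (h1 : h ≤ 1) :
    s * |Phi (J × X) c α A - Fintype.card J * Phi X c α A| ≤
      errB D c s h S k K (Fintype.card J) (Fintype.card X) +
      2 * (s * (s * (S * (Fintype.card J * Fintype.card X)))) := by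
  have hA := H.posA
  have hα := H.pos α hαW
  have e1 : Phi (J × X) c α A = bE (pt J X c 1) (lZ (fun _ i => α i) A) := by
    unfold Phi
    congr 1
    funext e
    simp [pt, Fintype.card_prod]
  have e0 : (Fintype.card J : ℝ) * Phi X c α A = bE (pt J X c 0) (lZ (fun _ i => α i) A) := by
    rw [← bE_block hα hA c]
    congr 1
    funext e
    simp only [pt, pd]
    ring
  have hF := interp_fhat (J := J) (X := X) H hαW hD hA1 hA2 hc hcX hK hs.le h0 h1
  have happ : ∀ t : ℝ, 0 ≤ t → t ≤ 1 → |bE (pt J X c t) (fhat sf α A s) -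
      s * bE (pt J X c t) (lZ (fun _ i => α i) A)| ≤
      s * (s * (S * (Fintype.card J * Fintype.card X))) := by
    intro t ht0 ht1
    have hp0 := pt_nonneg (J := J) (X := X) hc ht0 ht1
    have hp1 := pt_le_one (J := J) (X := X) hc hcX ht0 ht1
    rw [← bE_mul_left, ← bE_sub]
    refine (abs_bE_le hp0 hp1 _).trans (bE_le_of_le hp0 hp1 fun ω => ?_)
    have := fhat_approx (V := J × X) hα H.s_nonneg H.s_le H.S_nonneg hA ω hs.le
    rw [Fintype.card_prod] at this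
    push_cast at this
    exact this
  rw [e1, e0, ← abs_of_pos hs, ← abs_mul, abs_of_pos hs]
  have a1 := abs_le.1 (happ 1 zero_le_one le_rfl)
  have a0 := abs_le.1 (happ 0 le_rfl zero_le_one)
  have a2 := abs_le.1 hF
  rw [abs_le]
  constructor <;> nlinarith [a1.1, a1.2, a0.1, a0.2, a2.1, a2.2]

/-- mean log-partition function on `n` vertices -/
noncomputable def aN (c : ℝ) (α : Fin k → ℝ) (A : Fin k → Fin k → ℝ) (n : ℕ) : ℝ :=
  Phi (Fin n) c α A

lemma aN_mul (c : ℝ) (α : Fin k → ℝ) (A : Fin k → Fin k → ℝ) (L n : ℕ) :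
    aN c α A (L * n) = Phi (Fin L × Fin n) c α A :=
  (Phi_equiv finProdFinEquiv c α A).symm

lemma aN_succ_le {α : Fin k → ℝ} {A : Fin k → Fin k → ℝ} (hα : ∀ i, 0 < α i) {D : ℝ} (hD : 0 ≤ D)
    (hA1 : ∀ i j, Real.exp (-D) ≤ A i j) (hA2 : ∀ i j, A i j ≤ Real.exp D)
    {c : ℝ} (hc : 0 ≤ c) {n : ℕ} (hn : 1 ≤ n) (hcn : c ≤ 2 * n) :
    |aN c α A (n + 1) - aN c α A n| ≤ 2 * D * c + |Real.log (∑ i, α i)| := by
  have : Nonempty (Fin n) := ⟨⟨0, hn⟩⟩
  have e : (Fin n ⊕ Unit) ≃ Fin (n + 1) :=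
    (Equiv.sumCongr (Equiv.refl _) finOneEquiv.symm).trans finSumFinEquiv
  have := Phi_succ (X := Fin n) hα hD hA1 hA2 hc (by simpa using hcn)
  rw [Phi_equiv e] at this
  exact this

lemma abs_aN_le {α : Fin k → ℝ} {A : Fin k → Fin k → ℝ} (hα : ∀ i, 0 < α i) {D : ℝ}
    (hA1 : ∀ i j, Real.exp (-D) ≤ A i j) (hA2 : ∀ i j, A i j ≤ Real.exp D)
    {c : ℝ} (hc : 0 ≤ c) {n : ℕ} (hn : 1 ≤ n) (hcn : c ≤ 2 * n) :
    |aN c α A n| ≤ (|Real.log (∑ i, α i)| + D * c / 2) * n := by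
  have : Nonempty (Fin n) := ⟨⟨0, hn⟩⟩
  have := abs_Phi_le (V := Fin n) hα hA1 hA2 hc (by simpa using hcn)
  simpa [aN] using this

/-- near-additivity in powers -/
lemma near_add {𝓦 : Set (Fin k → ℝ)} {sf α : Fin k → ℝ} {S : ℝ}
    {A : Fin k → Fin k → ℝ} (H : Assoc 𝓦 A sf S) (hαW : α ∈ 𝓦)
    {D : ℝ} (hD : 0 < D) (hA1 : ∀ i j, Real.exp (-D) ≤ A i j)
    (hA2 : ∀ i j, A i j ≤ Real.exp D) {c : ℝ} (hc : 0 ≤ c) (L : ℕ) (hL : 1 ≤ L) :
    ∃ C : ℝ, ∀ K n : ℕ, 1 ≤ K → K ^ (4 * k + 6) ≤ n → c ≤ 2 * n →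
      |aN c α A (L * n) - L * aN c α A n| ≤ C * (n / K) := by
  set L' : ℝ := (L : ℝ) with hL'
  have hL1 : (1 : ℝ) ≤ L' := by rw [hL']; exact_mod_cast hL
  refine ⟨c ^ 2 * D * L' / 2 + c * L' / 2 * (k * S * Real.exp (2 * D)) +
    c * L' / 2 * 2 ^ k * (4 * D * Real.sqrt (1 + c * L' / 2)) +
    c * L' * 2 ^ k * (Real.exp (4 * D) * S) + c * L' * (2 * Real.exp (2 * D)) + 2 * (S * L'), ?_⟩
  intro K n hK hKn hcn
  have hS := H.S_nonneg
  have hn : 1 ≤ n := le_trans (Nat.one_le_pow _ _ hK) hKn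
  have : Nonempty (Fin n) := ⟨⟨0, hn⟩⟩
  have : Nonempty (Fin L) := ⟨⟨0, hL⟩⟩
  set y : ℝ := (K : ℝ) with hy
  set x : ℝ := (n : ℝ) with hx
  have hy1 : (1 : ℝ) ≤ y := by rw [hy]; exact_mod_cast hK
  have hy0 : (0 : ℝ) < y := by linarith
  have hx1 : (1 : ℝ) ≤ x := by rw [hx]; exact_mod_cast hn
  have hx0 : (0 : ℝ) < x := by linarith
  have hyx : y ^ (4 * k + 6) ≤ x := by
    rw [hy, hx]; exact_mod_cast hKn
  set r := Real.sqrt x with hr
  have hr2 : r ^ 2 = x := Real.sq_sqrt hx0.le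
  have hr0 : 0 < r := Real.sqrt_pos.2 hx0
  have hyr : y ^ (2 * k + 3) ≤ r := by
    rw [hr]
    apply Real.le_sqrt_of_sq_le
    rw [← pow_mul]
    have : (2 * k + 3) * 2 = 4 * k + 6 := by ring
    rw [this]; exact hyx
  -- apply the interpolation bound
  have hmain := interp_Phi (J := Fin L) (X := Fin n) H hαW hD hA1 hA2 hc (by simpa using hcn) hK
    (s := 1 / y) (h := 1 / y ^ (k + 2)) (by positivity) (by positivity)
    (by rw [div_le_one (by positivity)]; exact one_le_pow₀ hy1)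
  rw [← aN_mul] at hmain
  simp only [Fintype.card_fin] at hmain
  rw [← hL', ← hx] at hmain
  have hPhi : Phi (Fin n) c α A = aN c α A n := rfl
  rw [hPhi] at hmain
  have hmul : |aN c α A (L * n) - L' * aN c α A n| ≤
      y * (errB D c (1 / y) (1 / y ^ (k + 2)) S k K L n +
      2 * (1 / y * (1 / y * (S * (L' * x))))) := by
    have : |aN c α A (L * n) - L' * aN c α A n| =
      y * (1 / y * |aN c α A (L * n) - L' * aN c α A n|) := by field_simp
    rw [this]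
    exact mul_le_mul_of_nonneg_left hmain hy0.le
  refine hmul.trans ?_
  unfold errB
  rw [← hL', ← hx, ← hy]
  -- individual terms
  have q1 : 1 ≤ x / y := by
    rw [le_div_iff₀ hy0, one_mul]
    calc y = y ^ 1 := by ring
      _ ≤ y ^ (4 * k + 6) := pow_le_pow_right₀ hy1 (by omega)
      _ ≤ x := hyx
  have q2 : y ≤ x / y := by
    rw [le_div_iff₀ hy0]
    calc y * y = y ^ 2 := by ring
      _ ≤ y ^ (4 * k + 6) := pow_le_pow_right₀ hy1 (by omega)
      _ ≤ x := hyx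
  have q3 : y ^ k * y ^ (k + 2) * r ≤ x / y := by
    rw [le_div_iff₀ hy0]
    calc y ^ k * y ^ (k + 2) * r * y = y ^ (2 * k + 3) * r := by ring
      _ ≤ r * r := mul_le_mul_of_nonneg_right hyr hr0.le
      _ = x := by rw [← hr2]; ring
  have hK1 : (y + 1) ^ k ≤ 2 ^ k * y ^ k := by
    rw [← mul_pow]
    exact pow_le_pow_left₀ (by linarith) (by linarith) k
  have hsq : Real.sqrt (1 + c * (L' * x) / 2) ≤ Real.sqrt (1 + c * L' / 2) * r := by
    rw [hr, ← Real.sqrt_mul (by positivity)]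
    apply Real.sqrt_le_sqrt
    nlinarith [mul_nonneg hc (mul_nonneg (by linarith : (0:ℝ) ≤ L') (by linarith : (0:ℝ) ≤ x))]
  set G := Real.sqrt (1 + c * L' / 2) with hG
  have hG0 : 0 ≤ G := Real.sqrt_nonneg _
  have t1 : y * (c ^ 2 * D * (1 / y) * L' / 2) ≤ c ^ 2 * D * L' / 2 * (x / y) := by
    have : y * (c ^ 2 * D * (1 / y) * L' / 2) = c ^ 2 * D * L' / 2 * 1 := by field_simp
    rw [this]
    exact mul_le_mul_of_nonneg_left q1 (by positivity)
  have t2 : y * (c * L' / 2 * (k * S * Real.exp (2 * D))) ≤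
      c * L' / 2 * (k * S * Real.exp (2 * D)) * (x / y) := by
    rw [mul_comm]
    exact mul_le_mul_of_nonneg_left q2 (by positivity)
  have t3 : y * (c / (2 * L') * (L' ^ 2 * (y + 1) ^ k * (1 / (1 / y ^ (k + 2)) *
      (1 / y * (4 * D * Real.sqrt (1 + c * (L' * x) / 2)))))) ≤
      c * L' / 2 * 2 ^ k * (4 * D * G) * (x / y) := by
    have e : y * (c / (2 * L') * (L' ^ 2 * (y + 1) ^ k * (1 / (1 / y ^ (k + 2)) *
      (1 / y * (4 * D * Real.sqrt (1 + c * (L' * x) / 2)))))) =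
      c * L' / 2 * ((y + 1) ^ k * (y ^ (k + 2) * (4 * D * Real.sqrt (1 + c * (L' * x) / 2)))) := by
      field_simp
    rw [e]
    have e2 : (y + 1) ^ k * (y ^ (k + 2) * (4 * D * Real.sqrt (1 + c * (L' * x) / 2))) ≤
        (2 ^ k * y ^ k) * (y ^ (k + 2) * (4 * D * (G * r))) := by
      refine mul_le_mul hK1 ?_ (by positivity) (by positivity)
      refine mul_le_mul_of_nonneg_left ?_ (by positivity)
      exact mul_le_mul_of_nonneg_left hsq (by positivity)
    calc c * L' / 2 * ((y + 1) ^ k * (y ^ (k + 2) * (4 * D * Real.sqrt (1 + c * (L' * x) / 2))))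
        ≤ c * L' / 2 * ((2 ^ k * y ^ k) * (y ^ (k + 2) * (4 * D * (G * r)))) :=
          mul_le_mul_of_nonneg_left e2 (by positivity)
      _ = c * L' / 2 * 2 ^ k * (4 * D * G) * (y ^ k * y ^ (k + 2) * r) := by ring
      _ ≤ _ := mul_le_mul_of_nonneg_left q3 (by positivity)
  have t4 : y * (c / (2 * L') * (L' ^ 2 * (y + 1) ^ k * (1 / (1 / y ^ (k + 2)) *
      (2 * x * ((1 / y ^ (k + 2)) ^ 2 * Real.exp (4 * D) * S))))) ≤
      c * L' * 2 ^ k * (Real.exp (4 * D) * S) * (x / y) := by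
    have e : y * (c / (2 * L') * (L' ^ 2 * (y + 1) ^ k * (1 / (1 / y ^ (k + 2)) *
      (2 * x * ((1 / y ^ (k + 2)) ^ 2 * Real.exp (4 * D) * S))))) =
      c * L' * (Real.exp (4 * D) * S) * x * ((y + 1) ^ k * (y / y ^ (k + 2))) := by
      field_simp
    rw [e]
    have e2 : (y + 1) ^ k * (y / y ^ (k + 2)) ≤ 2 ^ k * y ^ k * (y / y ^ (k + 2)) :=
      mul_le_mul_of_nonneg_right hK1 (by positivity)
    have e3 : 2 ^ k * y ^ k * (y / y ^ (k + 2)) = 2 ^ k * (1 / y) := by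
      rw [pow_add y k 2]
      field_simp
    rw [e3] at e2
    calc c * L' * (Real.exp (4 * D) * S) * x * ((y + 1) ^ k * (y / y ^ (k + 2)))
        ≤ c * L' * (Real.exp (4 * D) * S) * x * (2 ^ k * (1 / y)) :=
          mul_le_mul_of_nonneg_left e2 (by positivity)
      _ = _ := by ring
  have t5 : y * (1 / y * (c * L' * x * (2 * Real.exp (2 * D) / y))) =
      c * L' * (2 * Real.exp (2 * D)) * (x / y) := by field_simp
  have t6 : y * (2 * (1 / y * (1 / y * (S * (L' * x))))) = 2 * (S * L') * (x / y) := by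
    field_simp
  have total : y * (c ^ 2 * D * (1 / y) * L' / 2 + c * L' / 2 * (k * S * Real.exp (2 * D)) +
      c / (2 * L') * (L' ^ 2 * (y + 1) ^ k * (1 / (1 / y ^ (k + 2)) *
      (1 / y * (4 * D * Real.sqrt (1 + c * (L' * x) / 2)) +
        2 * x * ((1 / y ^ (k + 2)) ^ 2 * Real.exp (4 * D) * S)))) +
      1 / y * (c * L' * x * (2 * Real.exp (2 * D) / y)) + 2 * (1 / y * (1 / y * (S * (L' * x))))) =
      y * (c ^ 2 * D * (1 / y) * L' / 2) + y * (c * L' / 2 * (k * S * Real.exp (2 * D))) +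
      y * (c / (2 * L') * (L' ^ 2 * (y + 1) ^ k * (1 / (1 / y ^ (k + 2)) *
      (1 / y * (4 * D * Real.sqrt (1 + c * (L' * x) / 2)))))) +
      y * (c / (2 * L') * (L' ^ 2 * (y + 1) ^ k * (1 / (1 / y ^ (k + 2)) *
      (2 * x * ((1 / y ^ (k + 2)) ^ 2 * Real.exp (4 * D) * S))))) +
      y * (1 / y * (c * L' * x * (2 * Real.exp (2 * D) / y))) +
      y * (2 * (1 / y * (1 / y * (S * (L' * x))))) := by ring
  rw [total, t5, t6]
  linarith

/-- almost-multiplicativity implies convergence -/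
theorem conv_of_mul {α : Fin k → ℝ} {A : Fin k → Fin k → ℝ}
    (hα : ∀ i, 0 < α i) {D : ℝ} (hD : 0 < D) (hA1 : ∀ i j, Real.exp (-D) ≤ A i j)
    (hA2 : ∀ i j, A i j ≤ Real.exp D) {c : ℝ} (hc : 0 ≤ c) {δ : ℝ} (hδ0 : 0 < δ)
    (hmul : ∀ L : ℕ, 2 ≤ L → ∃ C : ℝ, 0 ≤ C ∧ ∀ n : ℕ, 1 ≤ n → c ≤ 2 * n →
      L * aN c α A n ≤ aN c α A (L * n) + C * ((n : ℝ) * (n : ℝ) ^ (-δ))) :
    ∃ l, Tendsto (fun n : ℕ => aN c α A n / n) atTop (nhds l) := by
  -- threshold for the sizes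
  obtain ⟨m₀, hm₀⟩ := exists_nat_ge (c / 2)
  set n₀ := max m₀ 1 with hn₀
  have hn₀1 : 1 ≤ n₀ := le_max_right _ _
  have hn₀c : ∀ n, n₀ ≤ n → c ≤ 2 * (n : ℝ) := by
    intro n hn
    have : (m₀ : ℝ) ≤ n := by exact_mod_cast (le_max_left _ _).trans hn
    linarith
  set B := |Real.log (∑ i, α i)| + D * c / 2 with hB
  have hB0 : 0 ≤ B := by positivity
  set S := 2 * D * c + |Real.log (∑ i, α i)| with hS
  have hS0 : 0 ≤ S := by positivity
  -- shifted sequence: b n = a n / n for large n, constant-free before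
  let b : ℕ → ℝ := fun n => if n₀ ≤ n then aN c α A n / n else aN c α A n₀ / n₀
  have hlarge : ∀ n, n₀ ≤ n → b n = aN c α A n / n := fun n hn => by simp [b, hn]
  have hbound : ∀ n, |b n| ≤ B := by
    have h1 : ∀ n, n₀ ≤ n → |aN c α A n / n| ≤ B := by
      intro n hn
      have hn1 : 1 ≤ n := hn₀1.trans hn
      have hn0 : (0 : ℝ) < n := by exact_mod_cast hn1
      rw [abs_div, abs_of_pos hn0, div_le_iff₀ hn0]
      exact abs_aN_le hα hA1 hA2 hc hn1 (hn₀c n hn)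
    intro n
    by_cases hn : n₀ ≤ n
    · rw [hlarge n hn]; exact h1 n hn
    · simp only [b, hn, if_false]; exact h1 n₀ le_rfl
  have hdiff : ∀ m n, n₀ ≤ m → m ≤ n → |aN c α A n - aN c α A m| ≤ S * ((n : ℝ) - m) := by
    intro m n hm hmn
    induction n, hmn using Nat.le_induction with
    | base => simp
    | succ n hn ih =>
      have h2 := aN_succ_le (α := α) (A := A) hα hD.le hA1 hA2 hc (hn₀1.trans (hm.trans hn))
        (hn₀c n (hm.trans hn))
      have : aN c α A (n + 1) - aN c α A m =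
        (aN c α A (n + 1) - aN c α A n) + (aN c α A n - aN c α A m) := by ring
      rw [this]
      refine (abs_add_le _ _).trans ?_
      push_cast
      linarith
  have hstepL : ∀ m n, n₀ ≤ m → m ≤ n → b m ≤ b n + (S + B) * ((n : ℝ) - m) / m := by
    intro m n hm hmn
    rw [hlarge m hm, hlarge n (hm.trans hmn)]
    have hm0 : (0 : ℝ) < m := by exact_mod_cast hn₀1.trans hm
    have hn0 : (0 : ℝ) < n := by exact_mod_cast hn₀1.trans (hm.trans hmn)
    have h1 := hdiff m n hm hmn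
    have h2 : |aN c α A n / n| ≤ B := by
      have := hbound n
      rwa [hlarge n (hm.trans hmn)] at this
    have hnm : (0 : ℝ) ≤ (n : ℝ) - m := by
      have : (m : ℝ) ≤ n := by exact_mod_cast hmn
      linarith
    have h3 : aN c α A m / m = aN c α A n / n - (aN c α A n - aN c α A m) / m +
        (aN c α A n / n) * (((n : ℝ) - m) / m) := by
      field_simp
      ring
    rw [h3]
    have h4 : -(aN c α A n - aN c α A m) / m ≤ S * ((n : ℝ) - m) / m := by
      refine div_le_div_of_nonneg_right ?_ hm0.le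
      linarith [neg_abs_le (aN c α A n - aN c α A m)]
    have h5 : (aN c α A n / n) * (((n : ℝ) - m) / m) ≤ B * (((n : ℝ) - m) / m) :=
      mul_le_mul_of_nonneg_right ((le_abs_self _).trans h2) (by positivity)
    have h6 : -(aN c α A n - aN c α A m) / m = - ((aN c α A n - aN c α A m) / m) := by ring
    rw [h6] at h4
    have h7 : (S + B) * ((n : ℝ) - m) / m = S * ((n : ℝ) - m) / m + B * (((n : ℝ) - m) / m) := by
      ring
    rw [h7]
    linarith
  -- the constant for all m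
  set Cst := max (S + B) (2 * B * n₀) with hCst
  have hstep : ∀ m n : ℕ, 1 ≤ m → m ≤ n → b m ≤ b n + (B + Cst) * ((n : ℝ) - m) / m := by
    intro m n hm1 hmn
    have hm0 : (0 : ℝ) < m := by exact_mod_cast hm1
    have hnm : (0 : ℝ) ≤ (n : ℝ) - m := by
      have : (m : ℝ) ≤ n := by exact_mod_cast hmn
      linarith
    by_cases hm : n₀ ≤ m
    · refine (hstepL m n hm hmn).trans ?_
      have : (S + B) * ((n : ℝ) - m) / m ≤ (B + Cst) * ((n : ℝ) - m) / m := by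
        refine div_le_div_of_nonneg_right (mul_le_mul_of_nonneg_right ?_ hnm) hm0.le
        have := le_max_left (S + B) (2 * B * n₀)
        linarith
      linarith
    · by_cases hn : n₀ ≤ n
      · -- n - m ≥ 1
        have hmlt : m < n := lt_of_lt_of_le (not_le.1 hm) hn
        have h1 : (1 : ℝ) ≤ (n : ℝ) - m := by
          have : (m : ℝ) + 1 ≤ n := by exact_mod_cast hmlt
          linarith
        have h2 := abs_le.1 (hbound m)
        have h3 := abs_le.1 (hbound n)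
        have h4 : 2 * B ≤ (B + Cst) * ((n : ℝ) - m) / m := by
          rw [le_div_iff₀ hm0]
          have hmn0 : (m : ℝ) ≤ n₀ := by exact_mod_cast (not_le.1 hm).le
          have h5 : 2 * B * m ≤ 2 * B * n₀ := mul_le_mul_of_nonneg_left hmn0 (by linarith)
          have h6 : 2 * B * n₀ ≤ Cst := le_max_right _ _
          have h7 : 0 ≤ B + Cst := by
            have : 0 ≤ 2 * B * n₀ := by positivity
            linarith
          nlinarith
        linarith [h2.2, h3.1]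
      · have e1 : b m = b n := by simp [b, hm, hn]
        rw [e1]
        have : 0 ≤ (B + Cst) * ((n : ℝ) - m) / m := by
          have : 0 ≤ Cst := (by positivity : 0 ≤ S + B).trans (le_max_left _ _)
          positivity
        linarith
  have hmulL : ∀ L : ℕ, 2 ≤ L → ∃ CL : ℝ, ∃ n₁ : ℕ, ∀ n ≥ n₁,
      b n ≤ b (L * n) + CL * (n : ℝ) ^ (-δ) := by
    intro L hL
    obtain ⟨C, hC0, hC⟩ := hmul L hL
    refine ⟨C, n₀, fun n hn => ?_⟩
    have hn1 : 1 ≤ n := hn₀1.trans hn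
    have hn0 : (0 : ℝ) < n := by exact_mod_cast hn1
    have hL0 : (0 : ℝ) < L := by exact_mod_cast (by omega : 0 < L)
    have hLn : n₀ ≤ L * n := hn.trans (Nat.le_mul_of_pos_left _ (by omega))
    rw [hlarge n hn, hlarge (L * n) hLn]
    have h6 := hC n hn1 (hn₀c n hn)
    have h7 : aN c α A n / n ≤ aN c α A (L * n) / ((L * n : ℕ) : ℝ) + C * (n : ℝ) ^ (-δ) / L := by
      push_cast
      have : aN c α A n / n = (L * aN c α A n) / (L * n) := by field_simp
      rw [this]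
      have h8 : aN c α A (L * n) / (L * n) + C * (n : ℝ) ^ (-δ) / L =
        (aN c α A (L * n) + C * ((n : ℝ) * (n : ℝ) ^ (-δ))) / (L * n) := by field_simp
      rw [h8]
      exact div_le_div_of_nonneg_right h6 (by positivity)
    have h9 : C * (n : ℝ) ^ (-δ) / L ≤ C * (n : ℝ) ^ (-δ) := by
      have hL1 : (1 : ℝ) ≤ L := by exact_mod_cast (by omega : 1 ≤ L)
      exact div_le_self (by positivity) hL1
    linarith
  have hCst0 : 0 ≤ Cst := (by positivity : 0 ≤ S + B).trans (le_max_left _ _)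
  obtain ⟨l, hl⟩ := tendsto_of_almost_mul b (B + Cst) δ hδ0
    (fun n => (hbound n).trans (by linarith)) hstep hmulL
  refine ⟨l, hl.congr' ?_⟩
  filter_upwards [eventually_ge_atTop n₀] with n hn
  exact hlarge n hn

/-- convergence of the mean free energy of the directed model, attractive case -/
theorem Assoc.conv_aN {𝓦 : Set (Fin k → ℝ)} {sf α : Fin k → ℝ} {S : ℝ}
    {A : Fin k → Fin k → ℝ} (H : Assoc 𝓦 A sf S) (hαW : α ∈ 𝓦)
    {D : ℝ} (hD : 0 < D) (hA1 : ∀ i j, Real.exp (-D) ≤ A i j)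
    (hA2 : ∀ i j, A i j ≤ Real.exp D) {c : ℝ} (hc : 0 ≤ c) :
    ∃ l, Tendsto (fun n : ℕ => aN c α A n / n) atTop (nhds l) := by
  set δ : ℝ := 1 / (4 * k + 6) with hδ
  have hδ0 : 0 < δ := by positivity
  refine conv_of_mul (H.pos α hαW) hD hA1 hA2 hc hδ0 fun L hL => ?_
  obtain ⟨C, hC⟩ := near_add H hαW hD hA1 hA2 hc L (by omega)
  refine ⟨2 * |C|, by positivity, fun n hn1 hcn => ?_⟩
  have hn0 : (0 : ℝ) < n := by exact_mod_cast hn1
  have hL0 : (0 : ℝ) < L := by exact_mod_cast (by omega : 0 < L)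
  set K := ⌊(n : ℝ) ^ δ⌋₊ with hK
  have hnδ : (1 : ℝ) ≤ (n : ℝ) ^ δ := Real.one_le_rpow (by exact_mod_cast hn1) hδ0.le
  have hK1 : 1 ≤ K := by
    rw [hK]; exact (Nat.one_le_floor_iff _).2 hnδ
  have hK0 : (0 : ℝ) < K := by exact_mod_cast hK1
  have hKle : (K : ℝ) ≤ (n : ℝ) ^ δ := Nat.floor_le (by positivity)
  have hKpow : K ^ (4 * k + 6) ≤ n := by
    have h1 : (K : ℝ) ^ (4 * k + 6) ≤ ((n : ℝ) ^ δ) ^ (4 * k + 6) :=
      pow_le_pow_left₀ hK0.le hKle _
    have h2 : ((n : ℝ) ^ δ) ^ (4 * k + 6) = n := by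
      rw [← Real.rpow_natCast, ← Real.rpow_mul hn0.le, hδ]
      push_cast
      rw [one_div, inv_mul_cancel₀ (by positivity), Real.rpow_one]
    rw [h2] at h1
    exact_mod_cast h1
  have h3 := hC K n hK1 hKpow hcn
  have h4 : (n : ℝ) ^ δ ≤ 2 * K := by
    have := Nat.lt_floor_add_one ((n : ℝ) ^ δ)
    have h5 : (1 : ℝ) ≤ K := by exact_mod_cast hK1
    rw [← hK] at this
    linarith
  have h5 : (1 : ℝ) / K ≤ 2 * (n : ℝ) ^ (-δ) := by
    rw [Real.rpow_neg hn0.le, div_le_iff₀ hK0]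
    have hpos : 0 < (n : ℝ) ^ δ := by positivity
    calc (1 : ℝ) = ((n : ℝ) ^ δ)⁻¹ * (n : ℝ) ^ δ := by field_simp
      _ ≤ ((n : ℝ) ^ δ)⁻¹ * (2 * K) := mul_le_mul_of_nonneg_left h4 (by positivity)
      _ = 2 * ((n : ℝ) ^ δ)⁻¹ * K := by ring
  have h6 : L * aN c α A n ≤ aN c α A (L * n) + |C| * (n / K) := by
    have := (abs_le.1 h3).1
    have h7 : C * (n / K) ≤ |C| * (n / K) := mul_le_mul_of_nonneg_right (le_abs_self C) (by positivity)
    linarith
  have h7 : |C| * ((n : ℝ) / K) ≤ 2 * |C| * ((n : ℝ) * (n : ℝ) ^ (-δ)) := by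
    calc |C| * ((n : ℝ) / K) = |C| * ((n : ℝ) * (1 / K)) := by ring
      _ ≤ |C| * ((n : ℝ) * (2 * (n : ℝ) ^ (-δ))) := by
          refine mul_le_mul_of_nonneg_left ?_ (abs_nonneg _)
          exact mul_le_mul_of_nonneg_left h5 hn0.le
      _ = 2 * |C| * ((n : ℝ) * (n : ℝ) ^ (-δ)) := by ring
  linarith

end

end Pool.Agent.Lib.MP_7587db
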