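import Pool.Agent.Lib.MP_7587db.Anti3
import Pool.Agent.Lib.MP_7587db.AttrMain

set_option autoImplicit false
set_option linter.unusedSectionVars false
set_option linter.unusedVariables false

namespace Pool.Agent.Lib.MP_7587db

open Finset Function Filter

section

variable {k : ℕ} [NeZero k] {α g : Fin k → ℝ} {A : Fin k → Fin k → ℝ}
  {b : Fin k → Fin k → ℝ} {D : ℝ}

lemma AntiHyp.aN_add (H : AntiHyp α g A b D) {c : ℝ} (hc : 0 ≤ c) {m n : ℕ} (hm : 1 ≤ m)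
    (hmn : m ≤ n) (hcm : c ≤ 2 * m) :
    aN c α A m + aN c α A n - D * (28 * c + c ^ 2 + 4) * Real.sqrt m ≤ aN c α A (m + n) := by
  have : Nonempty (Fin m) := ⟨⟨0, hm⟩⟩
  have : Nonempty (Fin n) := ⟨⟨0, hm.trans hmn⟩⟩
  have h := H.superadd (V₁ := Fin m) (V₂ := Fin n) hc (by simpa using hcm) (by simpa using hmn)
  rw [Phi_equiv finSumFinEquiv] at h
  simpa [aN] using h

lemma AntiHyp.aN_mul_le (H : AntiHyp α g A b D) {c : ℝ} (hc : 0 ≤ c) {n : ℕ} (hn : 1 ≤ n)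
    (hcn : c ≤ 2 * n) (L : ℕ) :
    (L + 1 : ℕ) * aN c α A n ≤ aN c α A ((L + 1) * n) +
      L * (D * (28 * c + c ^ 2 + 4) * Real.sqrt n) := by
  induction L with
  | zero => simp
  | succ L ih =>
    have h := H.aN_add hc hn (Nat.le_mul_of_pos_left n (Nat.succ_pos L)) hcn
    have e : n + (L + 1) * n = (L + 1 + 1) * n := by ring
    rw [e] at h
    push_cast at ih ⊢
    linarith

theorem AntiHyp.conv_aN (H : AntiHyp α g A b D) {c : ℝ} (hc : 0 ≤ c) :
    ∃ l, Tendsto (fun n : ℕ => aN c α A n / n) atTop (nhds l) := by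
  have hD := H.hD
  refine conv_of_mul H.hα H.hD H.hA1 H.hA2 hc (δ := 1 / 2) (by norm_num) fun L hL => ?_
  refine ⟨((L - 1 : ℕ) : ℝ) * (D * (28 * c + c ^ 2 + 4)), by positivity, fun n hn hcn => ?_⟩
  have h := H.aN_mul_le hc hn hcn (L - 1)
  have e : L - 1 + 1 = L := by omega
  rw [e] at h
  have hn0 : (0 : ℝ) < n := by exact_mod_cast hn
  have e2 : (n : ℝ) * (n : ℝ) ^ (-(1 / 2) : ℝ) = Real.sqrt n := by
    rw [Real.sqrt_eq_rpow]
    nth_rewrite 1 [← Real.rpow_one (n : ℝ)]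
    rw [← Real.rpow_add hn0]
    norm_num
  rw [e2]
  linarith

end

end Pool.Agent.Lib.MP_7587db
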