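import Pool.Agent.Lib.MP_7587db.Virtual

set_option autoImplicit false
set_option linter.unusedSectionVars false

namespace Pool.Agent.Lib.MP_7587db

open Finset Function

section net

variable {k : ℕ}

/-- grid of site weights between `exp (-D)` and `exp D` -/
noncomputable def thetaN (D : ℝ) (K : ℕ) (τ : Fin k → Fin (K + 1)) : Fin k → ℝ :=
  fun i => Real.exp (-D) + (Real.exp D - Real.exp (-D)) * (((τ i : ℕ) : ℝ) / K)

lemma exp_neg_le_exp {D : ℝ} (hD : 0 ≤ D) : Real.exp (-D) ≤ Real.exp D :=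
  Real.exp_le_exp.2 (by linarith)

lemma thetaN_ge {D : ℝ} (hD : 0 ≤ D) {K : ℕ} (τ : Fin k → Fin (K + 1)) (i : Fin k) :
    Real.exp (-D) ≤ thetaN D K τ i := by
  unfold thetaN
  have h1 := exp_neg_le_exp hD
  have h2 : 0 ≤ (((τ i : ℕ) : ℝ) / K) := by positivity
  nlinarith [mul_nonneg (sub_nonneg.2 h1) h2]

lemma thetaN_le {D : ℝ} (hD : 0 ≤ D) {K : ℕ} (hK : 1 ≤ K) (τ : Fin k → Fin (K + 1)) (i : Fin k) :
    thetaN D K τ i ≤ Real.exp D := by
  unfold thetaN
  have h1 := exp_neg_le_exp hD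
  have hK0 : (0 : ℝ) < K := by exact_mod_cast hK
  have h2 : (((τ i : ℕ) : ℝ) / K) ≤ 1 := by
    rw [div_le_one hK0]
    exact_mod_cast Nat.lt_succ_iff.1 (τ i).isLt
  nlinarith [mul_le_mul_of_nonneg_left h2 (sub_nonneg.2 h1)]

lemma exists_thetaN {D : ℝ} (hD : 0 < D) {K : ℕ} (hK : 1 ≤ K) (r : Fin k → ℝ)
    (h1 : ∀ i, Real.exp (-D) ≤ r i) (h2 : ∀ i, r i ≤ Real.exp D) :
    ∃ τ : Fin k → Fin (K + 1), ∀ i, |r i - thetaN D K τ i| ≤ Real.exp D / K := by
  have hK0 : (0 : ℝ) < K := by exact_mod_cast hK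
  have hWpos : 0 < Real.exp D - Real.exp (-D) := by
    have : Real.exp (-D) < Real.exp D := Real.exp_lt_exp.2 (by linarith)
    linarith
  set W := Real.exp D - Real.exp (-D) with hW
  have hx0 : ∀ i, 0 ≤ (r i - Real.exp (-D)) / W * K := fun i =>
    mul_nonneg (div_nonneg (by linarith [h1 i]) hWpos.le) hK0.le
  have hx1 : ∀ i, (r i - Real.exp (-D)) / W * K ≤ K := fun i => by
    have : (r i - Real.exp (-D)) / W ≤ 1 := by
      rw [div_le_one hWpos, hW]; linarith [h2 i]
    nlinarith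
  refine ⟨fun i => ⟨⌊(r i - Real.exp (-D)) / W * K⌋₊, ?_⟩, fun i => ?_⟩
  · have : ⌊(r i - Real.exp (-D)) / W * K⌋₊ ≤ K := by
      have := Nat.floor_le_floor (hx1 i)
      simpa using this
    omega
  · unfold thetaN
    simp only
    set x := (r i - Real.exp (-D)) / W with hx
    have hr : r i = Real.exp (-D) + W * x := by
      rw [hx]; field_simp; ring
    have f1 : ((⌊x * K⌋₊ : ℕ) : ℝ) ≤ x * K := Nat.floor_le (hx0 i)
    have f2 : x * K < (⌊x * K⌋₊ : ℕ) + 1 := Nat.lt_floor_add_one _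
    have e : r i - (Real.exp (-D) + W * (((⌊x * K⌋₊ : ℕ) : ℝ) / K)) =
        W * (x * K - (⌊x * K⌋₊ : ℕ)) / K := by
      rw [hr]; field_simp; ring
    rw [← hW, e, abs_div, abs_mul, abs_of_pos hWpos, abs_of_pos hK0]
    refine div_le_div_of_nonneg_right ?_ hK0.le
    have : |x * K - ((⌊x * K⌋₊ : ℕ) : ℝ)| ≤ 1 := by
      rw [abs_le]; constructor <;> linarith
    have hWle : W ≤ Real.exp D := by rw [hW]; linarith [Real.exp_pos (-D)]
    calc W * |x * K - ((⌊x * K⌋₊ : ℕ) : ℝ)| ≤ W * 1 := mul_le_mul_of_nonneg_left this hWpos.le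
      _ ≤ Real.exp D := by rw [mul_one]; exact hWle

/-- a weight of the class `𝓦` close to the grid point `τ` (or the constant one) -/
noncomputable def thW (𝓦 : Set (Fin k → ℝ)) (D : ℝ) (K : ℕ) (τ : Fin k → Fin (K + 1)) :
    Fin k → ℝ := by
  classical
  exact if h : ∃ r : Fin k → ℝ, r ∈ 𝓦 ∧ (∀ i, Real.exp (-D) ≤ r i) ∧ (∀ i, r i ≤ Real.exp D) ∧
    ∀ i, |r i - thetaN D K τ i| ≤ Real.exp D / K then h.choose else fun _ => 1

lemma thW_mem {𝓦 : Set (Fin k → ℝ)} (h1 : (fun _ : Fin k => (1 : ℝ)) ∈ 𝓦) (D : ℝ) (K : ℕ)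
    (τ : Fin k → Fin (K + 1)) : thW 𝓦 D K τ ∈ 𝓦 := by
  unfold thW
  split_ifs with h
  · exact h.choose_spec.1
  · exact h1

lemma thW_ge {𝓦 : Set (Fin k → ℝ)} {D : ℝ} (hD : 0 ≤ D) (K : ℕ)
    (τ : Fin k → Fin (K + 1)) (i : Fin k) : Real.exp (-D) ≤ thW 𝓦 D K τ i := by
  unfold thW
  split_ifs with h
  · exact h.choose_spec.2.1 i
  · rw [← Real.exp_zero]; exact Real.exp_le_exp.2 (by linarith)

lemma thW_le {𝓦 : Set (Fin k → ℝ)} {D : ℝ} (hD : 0 ≤ D) (K : ℕ)
    (τ : Fin k → Fin (K + 1)) (i : Fin k) : thW 𝓦 D K τ i ≤ Real.exp D := by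
  unfold thW
  split_ifs with h
  · exact h.choose_spec.2.2.1 i
  · rw [← Real.exp_zero]; exact Real.exp_le_exp.2 (by linarith)

lemma exists_thW {𝓦 : Set (Fin k → ℝ)} {D : ℝ} (hD : 0 < D) {K : ℕ} (hK : 1 ≤ K) (r : Fin k → ℝ)
    (hr : r ∈ 𝓦) (h1 : ∀ i, Real.exp (-D) ≤ r i) (h2 : ∀ i, r i ≤ Real.exp D) :
    ∃ τ : Fin k → Fin (K + 1), ∀ i, |r i - thW 𝓦 D K τ i| ≤ 2 * (Real.exp D / K) := by
  obtain ⟨τ, hτ⟩ := exists_thetaN hD hK r h1 h2
  refine ⟨τ, fun i => ?_⟩
  have hex : ∃ r : Fin k → ℝ, r ∈ 𝓦 ∧ (∀ i, Real.exp (-D) ≤ r i) ∧ (∀ i, r i ≤ Real.exp D) ∧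
      ∀ i, |r i - thetaN D K τ i| ≤ Real.exp D / K := ⟨r, hr, h1, h2, hτ⟩
  have e : thW 𝓦 D K τ = hex.choose := by unfold thW; rw [dif_pos hex]
  rw [e]
  have a1 := abs_le.1 (hτ i)
  have a2 := abs_le.1 (hex.choose_spec.2.2.2 i)
  rw [abs_le]
  constructor <;> linarith [a1.1, a1.2, a2.1, a2.2]

end net

section blocks

variable {J X : Type*} [Fintype J] [DecidableEq J] [Fintype X] [DecidableEq X] {k : ℕ}

/-- the `j`-th block of vertices -/
def blk (X : Type*) [Fintype X] (j : J) : Finset (J × X) := univ.filter (fun v => v.1 = j)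

lemma card_blk (j : J) : (blk X j).card = Fintype.card X := by
  have : blk X j = ({j} : Finset J) ×ˢ (Finset.univ : Finset X) := by
    ext ⟨a, x⟩
    simp [blk, eq_comm]
  rw [this, Finset.card_product]
  simp

/-- time derivative of the edge probabilities -/
noncomputable def pd (J X : Type*) [Fintype J] [DecidableEq J] [Fintype X] (c : ℝ) :
    (J × X) × (J × X) → ℝ := fun e =>
  c / (2 * (Fintype.card J * Fintype.card X)) -
    (if e.1.1 = e.2.1 then c / (2 * Fintype.card X) else 0)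

/-- interpolating edge probabilities: `t = 1` is homogeneous, `t = 0` is block diagonal -/
noncomputable def pt (J X : Type*) [Fintype J] [DecidableEq J] [Fintype X] (c t : ℝ) :
    (J × X) × (J × X) → ℝ := fun e =>
  c / (2 * (Fintype.card J * Fintype.card X)) - (1 - t) * pd J X c e

lemma hasDerivAt_pt (c t : ℝ) (e : (J × X) × (J × X)) :
    HasDerivAt (fun t => pt J X c t e) (pd J X c e) t := by
  unfold pt
  have := (((hasDerivAt_id t).const_sub 1).mul_const (pd J X c e)).const_sub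
    (c / (2 * (Fintype.card J * Fintype.card X)))
  simpa using this

lemma block_sum [Nonempty J] [Nonempty X] (c : ℝ) (Y : (J × X) → (J × X) → ℝ) :
    ∑ e, pd J X c e * Y e.1 e.2 = c / (2 * (Fintype.card J * Fintype.card X)) *
      ∑ v, ∑ j, ((∑ u ∈ blk X j, Y u v) - ∑ u ∈ blk X v.1, Y u v) := by
  have hJ : (0 : ℝ) < Fintype.card J := by exact_mod_cast Fintype.card_pos
  have hX : (0 : ℝ) < Fintype.card X := by exact_mod_cast Fintype.card_pos
  rw [Fintype.sum_prod_type_right, Finset.mul_sum]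
  refine Finset.sum_congr rfl fun v _ => ?_
  simp only [pd, sub_mul, Finset.sum_sub_distrib, Finset.sum_const, Finset.card_univ, nsmul_eq_mul]
  have h1 : ∑ j, ∑ u ∈ blk X j, Y u v = ∑ u, Y u v := by
    unfold blk
    exact Finset.sum_fiberwise Finset.univ (fun u : J × X => u.1) (fun u => Y u v)
  have h2 : ∑ u : J × X, (if u.1 = v.1 then c / (2 * (Fintype.card X : ℝ)) else 0) * Y u v =
      c / (2 * (Fintype.card X : ℝ)) * ∑ u ∈ blk X v.1, Y u v := by
    unfold blk
    rw [Finset.sum_filter, Finset.mul_sum]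
    refine Finset.sum_congr rfl fun u _ => ?_
    split_ifs <;> ring
  rw [h1, h2, ← Finset.mul_sum]
  field_simp

lemma pd_abs_le {c : ℝ} (hc : 0 ≤ c) [Nonempty J] [Nonempty X] (e : (J × X) × (J × X)) :
    |pd J X c e| ≤ c / (2 * Fintype.card X) := by
  have hJ : (1 : ℝ) ≤ Fintype.card J := by exact_mod_cast Fintype.card_pos
  have hX : (0 : ℝ) < Fintype.card X := by exact_mod_cast Fintype.card_pos
  have h1 : c / (2 * ((Fintype.card J : ℝ) * Fintype.card X)) ≤ c / (2 * Fintype.card X) := by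
    refine div_le_div_of_nonneg_left hc (by positivity) ?_
    nlinarith
  have h0 : 0 ≤ c / (2 * ((Fintype.card J : ℝ) * Fintype.card X)) := by positivity
  unfold pd
  split_ifs
  · rw [abs_le]; constructor <;> linarith
  · rw [sub_zero, abs_of_nonneg h0]; exact h1

lemma sum_pd (c : ℝ) [Nonempty J] [Nonempty X] : ∑ e, pd J X c e = 0 := by
  have := block_sum (J := J) (X := X) c (fun _ _ => 1)
  simp only [mul_one] at this
  rw [this]
  simp [card_blk]

lemma sum_pt (c t : ℝ) [Nonempty J] [Nonempty X] :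
    ∑ e, pt J X c t e = c * (Fintype.card J * Fintype.card X) / 2 := by
  have hJ : (0 : ℝ) < Fintype.card J := by exact_mod_cast Fintype.card_pos
  have hX : (0 : ℝ) < Fintype.card X := by exact_mod_cast Fintype.card_pos
  unfold pt
  rw [Finset.sum_sub_distrib, ← Finset.mul_sum, sum_pd]
  simp only [Finset.sum_const, Finset.card_univ, Fintype.card_prod, nsmul_eq_mul]
  push_cast
  field_simp
  ring

lemma pt_nonneg {c t : ℝ} (hc : 0 ≤ c) (ht0 : 0 ≤ t) (ht1 : t ≤ 1) (e : (J × X) × (J × X)) :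
    0 ≤ pt J X c t e := by
  unfold pt pd
  have h0 : 0 ≤ c / (2 * ((Fintype.card J : ℝ) * Fintype.card X)) := by positivity
  have h1 : 0 ≤ c / (2 * (Fintype.card X : ℝ)) := by positivity
  split_ifs
  · have : c / (2 * ((Fintype.card J : ℝ) * Fintype.card X)) - (1 - t) *
        (c / (2 * ((Fintype.card J : ℝ) * Fintype.card X)) - c / (2 * (Fintype.card X : ℝ))) =
        t * (c / (2 * ((Fintype.card J : ℝ) * Fintype.card X))) +
        (1 - t) * (c / (2 * (Fintype.card X : ℝ))) := by ring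
    rw [this]
    have h3 : 0 ≤ 1 - t := by linarith
    positivity
  · have : c / (2 * ((Fintype.card J : ℝ) * Fintype.card X)) - (1 - t) *
        (c / (2 * ((Fintype.card J : ℝ) * Fintype.card X)) - 0) =
        t * (c / (2 * ((Fintype.card J : ℝ) * Fintype.card X))) := by ring
    rw [this]; positivity

lemma pt_le_one {c t : ℝ} (hc : 0 ≤ c) [Nonempty J] [Nonempty X]
    (hcX : c ≤ 2 * Fintype.card X) (ht0 : 0 ≤ t) (ht1 : t ≤ 1)
    (e : (J × X) × (J × X)) : pt J X c t e ≤ 1 := by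
  have hJ : (1 : ℝ) ≤ Fintype.card J := by exact_mod_cast Fintype.card_pos
  have hX : (0 : ℝ) < Fintype.card X := by exact_mod_cast Fintype.card_pos
  have h1 : c / (2 * ((Fintype.card J : ℝ) * Fintype.card X)) ≤ 1 := by
    rw [div_le_one (by positivity)]; nlinarith
  have h2 : c / (2 * (Fintype.card X : ℝ)) ≤ 1 := by
    rw [div_le_one (by positivity)]; exact hcX
  unfold pt pd
  split_ifs
  · have : c / (2 * ((Fintype.card J : ℝ) * Fintype.card X)) - (1 - t) *
        (c / (2 * ((Fintype.card J : ℝ) * Fintype.card X)) - c / (2 * (Fintype.card X : ℝ))) =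
        t * (c / (2 * ((Fintype.card J : ℝ) * Fintype.card X))) +
        (1 - t) * (c / (2 * (Fintype.card X : ℝ))) := by ring
    rw [this]
    have h3 : 0 ≤ 1 - t := by linarith
    nlinarith [mul_le_mul_of_nonneg_left h1 ht0, mul_le_mul_of_nonneg_left h2 h3]
  · have : c / (2 * ((Fintype.card J : ℝ) * Fintype.card X)) - (1 - t) *
        (c / (2 * ((Fintype.card J : ℝ) * Fintype.card X)) - 0) =
        t * (c / (2 * ((Fintype.card J : ℝ) * Fintype.card X))) := by ring
    rw [this]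
    have h0 : 0 ≤ c / (2 * ((Fintype.card J : ℝ) * Fintype.card X)) := by positivity
    nlinarith

variable [NeZero k]

/-- the block averages have the same law -/
lemma blk_symm (sf α w : Fin k → ℝ) (A : Fin k → Fin k → ℝ) (c t h l : ℝ) (j j' : J) :
    bE (pt J X c t) (fun ω => bE (PT h (blk X j)) (FF sf α w A l ω)) =
    bE (pt J X c t) (fun ω => bE (PT h (blk X j')) (FF sf α w A l ω)) := by
  let pe : J × X ≃ J × X := Equiv.prodCongr (Equiv.swap j j') (Equiv.refl X)
  let ppe : (J × X) × (J × X) ≃ (J × X) × (J × X) := Equiv.prodCongr pe pe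
  rw [bE_equiv ppe (pt J X c t) (fun ω => bE (PT h (blk X j')) (FF sf α w A l ω))]
  have h1 : pt J X c t ∘ ppe = pt J X c t := by
    funext e
    have : (ppe e).1.1 = (ppe e).2.1 ↔ e.1.1 = e.2.1 := by
      simp [ppe, pe]
    simp only [Function.comp_apply, pt, pd, this]
  rw [h1]
  congr 1
  funext ω
  rw [bE_equiv pe (PT h (blk X j')) (FF sf α w A l (ω ∘ ppe.symm))]
  have h2 : PT h (blk X j') ∘ pe = PT h (blk X j) := by
    funext u
    have : pe u ∈ blk X j' ↔ u ∈ blk X j := by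
      simp only [blk, Finset.mem_filter, Finset.mem_univ, true_and, pe, Equiv.prodCongr_apply,
        Prod.map_fst]
      constructor
      · intro h
        have := congrArg (Equiv.swap j j') h
        simpa using this
      · intro h; rw [h]; simp
    simp only [Function.comp_apply, PT, this]
  rw [h2]
  congr 1
  funext ξ
  unfold FF
  have h3 := lZ_relabel pe.symm (aP sf α w l ξ) A ω
  rw [← h3]
  rfl


/-- pointwise bound for the time derivative of the interpolation -/
lemma pointwise_bound {J X : Type} [Fintype J] [DecidableEq J] [Fintype X] [DecidableEq X]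
    [Nonempty J] [Nonempty X] {𝓦 : Set (Fin k → ℝ)} {A : Fin k → Fin k → ℝ} {sf α : Fin k → ℝ}
    {S : ℝ} (H : Assoc 𝓦 A sf S) (hαW : α ∈ 𝓦)
    {D : ℝ} (hD : 0 < D) (hA1 : ∀ i j, Real.exp (-D) ≤ A i j)
    (hA2 : ∀ i j, A i j ≤ Real.exp D) {c : ℝ} (hc : 0 ≤ c) {K : ℕ} (hK : 1 ≤ K)
    (ω : (J × X) × (J × X) → Bool) {l : ℝ} (hl : 0 ≤ l) :
    |∑ e, pd J X c e * Real.log (gE (GW sf α (fun _ => 1) A ω (fun _ => false) l)
        (fun σ => A (σ e.1) (σ e.2)))| ≤
      c / (2 * Fintype.card X) * (k * Real.exp (2 * D)) *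
        (∑ v, cov (GW sf α (fun _ => 1) A ω (fun _ => false) l) (sv sf v) (Msum sf)) +
      c / (2 * Fintype.card J) * (∑ j : J, ∑ j' : J, ∑ τ : Fin k → Fin (K + 1),
        |mU sf α (thW 𝓦 D K τ) A ω (blk X j) l - mU sf α (thW 𝓦 D K τ) A ω (blk X j') l|) +
      c * Fintype.card J * Fintype.card X * (2 * Real.exp (2 * D) / K) := by
  have hA := H.posA
  have hα := H.pos α hαW
  have hJ : (0 : ℝ) < Fintype.card J := by exact_mod_cast Fintype.card_pos
  have hX : (0 : ℝ) < Fintype.card X := by exact_mod_cast Fintype.card_pos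
  have hK0 : (0 : ℝ) < K := by exact_mod_cast hK
  set W := GW sf α (fun _ => 1) A ω (fun _ => false) l with hWdef
  have hW : ∀ σ, 0 < W σ := GW_pos hα (fun _ => one_pos) hA ω _ l
  have hd : Dec sf W := H.GW_Dec hαW H.one ω _ hl
  have hrW : ∀ v, rv A W v ∈ 𝓦 := fun v => H.msg (J × X) _ ω v (H.aP_mem hαW H.one hl _)
  have hWθ : ∀ τ, GW sf α (thW 𝓦 D K τ) A ω (fun _ => false) l = W := fun τ =>
    GW_false_eq sf α _ _ A ω l
  set Y : (J × X) → (J × X) → ℝ := fun u v => Real.log (gE W (fun σ => A (σ u) (σ v))) with hY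
  set Z : (J × X) → (J × X) → ℝ := fun u v => Real.log (gE W (fun σ => rv A W v (σ u))) with hZ
  have hr1 : ∀ v i, Real.exp (-D) ≤ rv A W v i := fun v i => le_gE hW fun σ => hA1 _ _
  have hr2 : ∀ v i, rv A W v i ≤ Real.exp D := fun v i => gE_le hW fun σ => hA2 _ _
  -- first part
  have p1 : |∑ e, pd J X c e * Y e.1 e.2 - ∑ e, pd J X c e * Z e.1 e.2| ≤
      c / (2 * Fintype.card X) * (k * Real.exp (2 * D)) * (∑ v, cov W (sv sf v) (Msum sf)) := by
    rw [← Finset.sum_sub_distrib]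
    refine (Finset.abs_sum_le_sum_abs _ _).trans ?_
    have e1 : ∑ v, cov W (sv sf v) (Msum sf) = ∑ e : (J × X) × (J × X), cov W (sv sf e.1) (sv sf e.2) := by
      rw [Fintype.sum_prod_type (fun e : (J × X) × (J × X) => cov W (sv sf e.1) (sv sf e.2))]
      refine Finset.sum_congr rfl fun v _ => ?_
      exact cov_sum_right W Finset.univ (fun u : J × X => sv sf u) (sv sf v)
    rw [e1, Finset.mul_sum]
    refine Finset.sum_le_sum fun e _ => ?_
    rw [← mul_sub, abs_mul, mul_assoc]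
    refine mul_le_mul (pd_abs_le hc e) ?_ (abs_nonneg _) (by positivity)
    exact edge_approx hW hd hA1 hA2 e.1 e.2
  -- second part
  set G : J → J → ℝ := fun j j' => ∑ τ : Fin k → Fin (K + 1),
        |mU sf α (thW 𝓦 D K τ) A ω (blk X j) l - mU sf α (thW 𝓦 D K τ) A ω (blk X j') l| with hG
  have p2a : ∀ (v : J × X) (j j' : J), |(∑ u ∈ blk X j, Z u v) - ∑ u ∈ blk X j', Z u v| ≤
      G j j' + 2 * (Fintype.card X * (2 * Real.exp (2 * D) / K)) := by
    intro v j j'
    obtain ⟨τ, hτ⟩ := exists_thW hD hK (rv A W v) (hrW v) (hr1 v) (hr2 v)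
    have hs : ∀ j : J, |(∑ u ∈ blk X j, Z u v) - mU sf α (thW 𝓦 D K τ) A ω (blk X j) l| ≤
        Fintype.card X * (2 * Real.exp (2 * D) / K) := by
      intro j
      unfold mU
      rw [hWθ, ← Finset.sum_sub_distrib]
      refine (Finset.abs_sum_le_sum_abs _ _).trans ?_
      have : ∀ u ∈ blk X j, |Z u v - Real.log (gE W (fun σ => thW 𝓦 D K τ (σ u)))| ≤
          2 * Real.exp (2 * D) / K := by
        intro u _
        refine (abs_log_sub_log_le (Real.exp_pos (-D)) (le_gE hW fun σ => hr1 v _)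
          (le_gE hW fun σ => thW_ge hD.le K τ _)).trans ?_
        rw [div_le_iff₀ (Real.exp_pos _)]
        have h5 : |gE W (fun σ => rv A W v (σ u)) - gE W (fun σ => thW 𝓦 D K τ (σ u))| ≤
            2 * (Real.exp D / K) := by
          rw [← gE_sub, abs_le]
          constructor
          · refine le_gE hW fun σ => ?_
            exact (abs_le.1 (hτ (σ u))).1
          · refine gE_le hW fun σ => ?_
            exact (abs_le.1 (hτ (σ u))).2
        refine h5.trans (le_of_eq ?_)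
        have : Real.exp D = Real.exp (2 * D) * Real.exp (-D) := by
          rw [← Real.exp_add]; congr 1; ring
        rw [this]; ring
      refine (Finset.sum_le_sum this).trans ?_
      rw [Finset.sum_const, card_blk, nsmul_eq_mul]
    have hG1 : |mU sf α (thW 𝓦 D K τ) A ω (blk X j) l - mU sf α (thW 𝓦 D K τ) A ω (blk X j') l| ≤
        G j j' := by
      rw [hG]
      exact Finset.single_le_sum (f := fun τ => |mU sf α (thW 𝓦 D K τ) A ω (blk X j) l -
        mU sf α (thW 𝓦 D K τ) A ω (blk X j') l|) (fun τ _ => abs_nonneg _) (Finset.mem_univ τ)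
    have a1 := abs_le.1 (hs j)
    have a2 := abs_le.1 (hs j')
    have a3 := abs_le.1 hG1
    rw [abs_le]
    constructor <;> linarith [a1.1, a1.2, a2.1, a2.2, a3.1, a3.2]
  have p2 : |∑ e, pd J X c e * Z e.1 e.2| ≤
      c / (2 * Fintype.card J) * (∑ j : J, ∑ j' : J, G j j') +
      c * Fintype.card J * Fintype.card X * (2 * Real.exp (2 * D) / K) := by
    rw [block_sum, abs_mul, abs_of_nonneg (by positivity)]
    have hb : |∑ v : J × X, ∑ j : J, ((∑ u ∈ blk X j, Z u v) - ∑ u ∈ blk X v.1, Z u v)| ≤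
        ∑ v : J × X, ∑ j : J, (G j v.1 + 2 * (Fintype.card X * (2 * Real.exp (2 * D) / K))) := by
      refine (Finset.abs_sum_le_sum_abs _ _).trans (Finset.sum_le_sum fun v _ => ?_)
      refine (Finset.abs_sum_le_sum_abs _ _).trans (Finset.sum_le_sum fun j _ => ?_)
      exact p2a v j v.1
    refine (mul_le_mul_of_nonneg_left hb (by positivity)).trans (le_of_eq ?_)
    have e3 : ∑ v : J × X, ∑ j : J, (G j v.1 + 2 * (Fintype.card X * (2 * Real.exp (2 * D) / K))) =
        Fintype.card X * (∑ j : J, ∑ j' : J, G j j') + Fintype.card X * Fintype.card J *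
          (Fintype.card J * (2 * (Fintype.card X * (2 * Real.exp (2 * D) / K)))) := by
      rw [Fintype.sum_prod_type]
      simp only [Finset.sum_const, Finset.card_univ, nsmul_eq_mul, Finset.sum_add_distrib]
      rw [← Finset.mul_sum, Finset.sum_add_distrib, Finset.sum_comm]
      simp only [Finset.sum_const, Finset.card_univ, nsmul_eq_mul]
      ring
    rw [e3]
    field_simp
  have hfin : ∑ e, pd J X c e * Y e.1 e.2 = (∑ e, pd J X c e * Y e.1 e.2 -
      ∑ e, pd J X c e * Z e.1 e.2) + ∑ e, pd J X c e * Z e.1 e.2 := by ring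
  have : |∑ e, pd J X c e * Y e.1 e.2| ≤
      c / (2 * Fintype.card X) * (k * Real.exp (2 * D)) * (∑ v, cov W (sv sf v) (Msum sf)) +
      (c / (2 * Fintype.card J) * (∑ j : J, ∑ j' : J, G j j') +
      c * Fintype.card J * Fintype.card X * (2 * Real.exp (2 * D) / K)) := by
    rw [hfin]
    exact (abs_add_le _ _).trans (add_le_add p1 p2)
  linarith

end blocks

end Pool.Agent.Lib.MP_7587db
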