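import Pool.Agent.Lib.MP_7587db.Attr

set_option autoImplicit false
set_option linter.unusedSectionVars false

namespace Pool.Agent.Lib.MP_7587db

open Finset Function

section interp

variable {V : Type*} [Fintype V] [DecidableEq V] {k : ℕ} [NeZero k]

lemma Hfun_BDiff {sf α w : Fin k → ℝ} {A : Fin k → Fin k → ℝ} (hα : ∀ i, 0 < α i)
    (hw : ∀ i, 0 < w i) {D : ℝ} (hA1 : ∀ i j, Real.exp (-D) ≤ A i j)
    (hA2 : ∀ i j, A i j ≤ Real.exp D) {h : ℝ} (h0 : 0 ≤ h) (h1 : h ≤ 1) (U : Finset V) (l : ℝ) :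
    BDiff D (fun ω => bE (PT h U) (FF sf α w A l ω)) := by
  intro e ω
  have : bD e (fun ω => bE (PT h U) (FF sf α w A l ω)) ω =
      bE (PT h U) (fun ξ => bD e (lZ (aP sf α w l ξ) A) ω) := by
    simp only [bD, ← bE_sub]
    rfl
  rw [this]
  refine (abs_bE_le (PT_nonneg h0 U) (PT_le_one h1 U) _).trans ?_
  refine bE_le_of_le (PT_nonneg h0 U) (PT_le_one h1 U) fun ξ => ?_
  exact lZ_BDiff (aP_pos hα hw l ξ) hA1 hA2 e ω

lemma int_le3 {s : ℝ} (hs : 0 ≤ s) {f g1 g2 g3 : ℝ → ℝ} (hf : Continuous f) (h1 : Continuous g1)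
    (h2 : Continuous g2) (h3 : Continuous g3) (h : ∀ l, 0 ≤ l → f l ≤ g1 l + g2 l + g3 l) :
    ∫ l in (0 : ℝ)..s, f l ≤ (∫ l in (0 : ℝ)..s, g1 l) + (∫ l in (0 : ℝ)..s, g2 l) +
      ∫ l in (0 : ℝ)..s, g3 l := by
  have h12 : Continuous (fun l => g1 l + g2 l) := h1.add h2
  have h123 : Continuous (fun l => g1 l + g2 l + g3 l) := h12.add h3
  have e1 : ∫ l in (0 : ℝ)..s, (g1 l + g2 l + g3 l) = (∫ l in (0 : ℝ)..s, (g1 l + g2 l)) +
      ∫ l in (0 : ℝ)..s, g3 l :=
    intervalIntegral.integral_add (h12.intervalIntegrable _ _) (h3.intervalIntegrable _ _)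
  have e2 : ∫ l in (0 : ℝ)..s, (g1 l + g2 l) = (∫ l in (0 : ℝ)..s, g1 l) +
      ∫ l in (0 : ℝ)..s, g2 l :=
    intervalIntegral.integral_add (h1.intervalIntegrable _ _) (h2.intervalIntegrable _ _)
  rw [← e2, ← e1]
  exact intervalIntegral.integral_mono_on hs (hf.intervalIntegrable _ _)
    (h123.intervalIntegrable _ _) (fun l hl => h l hl.1)

/-- integrated log-partition function over the field -/
noncomputable def fhat (sf α : Fin k → ℝ) (A : Fin k → Fin k → ℝ) (s : ℝ) (ω : V × V → Bool) : ℝ :=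
  ∫ l in (0 : ℝ)..s, FF sf α (fun _ => 1) A l ω (fun _ => false)

/-- integrated edge term -/
noncomputable def Qe (sf α : Fin k → ℝ) (A : Fin k → Fin k → ℝ) (s : ℝ) (e : V × V)
    (ω : V × V → Bool) : ℝ :=
  ∫ l in (0 : ℝ)..s, Real.log (gE (GW sf α (fun _ => 1) A ω (fun _ => false) l)
        (fun σ => A (σ e.1) (σ e.2)))

lemma bD_fhat {sf α : Fin k → ℝ} {A : Fin k → Fin k → ℝ} (hα : ∀ i, 0 < α i)
    (hA : ∀ i j, 0 < A i j) (s : ℝ) (e : V × V) (ω : V × V → Bool) :
    bD e (fhat sf α A s) ω = Qe sf α A s e (update ω e false) := by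
  unfold bD fhat Qe
  rw [← intervalIntegral.integral_sub
    ((continuous_FF hα (fun _ => one_pos) hA _ _).intervalIntegrable _ _)
    ((continuous_FF hα (fun _ => one_pos) hA _ _).intervalIntegrable _ _)]
  congr 1
  funext l
  exact lZ_bD (aP_pos hα (fun _ => one_pos) l _) hA ω e

lemma abs_Qe_le {sf α : Fin k → ℝ} {A : Fin k → Fin k → ℝ} (hα : ∀ i, 0 < α i)
    {D : ℝ} (hA1 : ∀ i j, Real.exp (-D) ≤ A i j)
    (hA2 : ∀ i j, A i j ≤ Real.exp D) {s : ℝ} (hs : 0 ≤ s) (e : V × V) (ω : V × V → Bool) :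
    |Qe sf α A s e ω| ≤ D * s := by
  have hA : ∀ i j, 0 < A i j := fun i j => (Real.exp_pos _).trans_le (hA1 i j)
  have := intervalIntegral.norm_integral_le_of_norm_le_const (a := (0 : ℝ)) (b := s) (C := D)
    (f := fun l => Real.log (gE (GW sf α (fun _ => 1) A ω (fun _ => false) l)
        (fun σ => A (σ e.1) (σ e.2)))) (fun l _ => by
      rw [Real.norm_eq_abs]
      exact abs_log_gE_le (GW_pos hα (fun _ => one_pos) hA _ _ l) (fun σ => hA1 _ _)
        (fun σ => hA2 _ _))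
  rw [Real.norm_eq_abs, sub_zero, abs_of_nonneg hs] at this
  exact this

lemma bD_fhat_sub {sf α : Fin k → ℝ} {A : Fin k → Fin k → ℝ} (hα : ∀ i, 0 < α i)
    {D : ℝ} (hA1 : ∀ i j, Real.exp (-D) ≤ A i j)
    (hA2 : ∀ i j, A i j ≤ Real.exp D) {s : ℝ} (hs : 0 ≤ s) (e : V × V) (ω : V × V → Bool) :
    |bD e (fhat sf α A s) ω - Qe sf α A s e ω| ≤ 2 * D * s * cond (ω e) (1 : ℝ) 0 := by
  have hA : ∀ i j, 0 < A i j := fun i j => (Real.exp_pos _).trans_le (hA1 i j)
  rw [bD_fhat hα hA]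
  cases hb : ω e
  · have : update ω e false = ω := by rw [← hb]; exact update_eq_self e ω
    rw [this]; simp
  · have h1 := abs_Qe_le (sf := sf) hα hA1 hA2 hs e (update ω e false)
    have h2 := abs_Qe_le (sf := sf) hα hA1 hA2 hs e ω
    have h3 := abs_sub (Qe sf α A s e (update ω e false)) (Qe sf α A s e ω)
    simp only [cond_true, mul_one]
    linarith

end interp

section main

variable {J X : Type} [Fintype J] [DecidableEq J] [Fintype X] [DecidableEq X] {k : ℕ} [NeZero k]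
  {𝓦 : Set (Fin k → ℝ)} {sf : Fin k → ℝ} {S : ℝ}

/-- the total error of the interpolation -/
noncomputable def errB (D c s h S : ℝ) (k K L n : ℕ) : ℝ :=
  c ^ 2 * D * s * L / 2 + c * L / 2 * (k * S * Real.exp (2 * D)) +
  c / (2 * L) * (L ^ 2 * (K + 1 : ℝ) ^ k * (1 / h *
    (s * (4 * D * Real.sqrt (1 + c * (L * n) / 2)) + 2 * n * (h ^ 2 * Real.exp (4 * D) * S)))) +
  s * (c * L * n * (2 * Real.exp (2 * D) / K))

lemma bE_mU_diff [Nonempty J] [Nonempty X] {α w : Fin k → ℝ} {A : Fin k → Fin k → ℝ}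
    (H : Assoc 𝓦 A sf S) (hαW : α ∈ 𝓦) (hwW : w ∈ 𝓦)
    {D : ℝ} (hD : 0 < D) (hw1 : ∀ i, Real.exp (-D) ≤ w i)
    (hw2 : ∀ i, w i ≤ Real.exp D) (hA1 : ∀ i j, Real.exp (-D) ≤ A i j)
    (hA2 : ∀ i j, A i j ≤ Real.exp D) {c : ℝ} (hc : 0 ≤ c)
    (hcX : c ≤ 2 * Fintype.card X) {t : ℝ} (ht0 : 0 ≤ t) (ht1 : t ≤ 1)
    {s h : ℝ} (hs : 0 ≤ s) (h0 : 0 < h) (h1 : h ≤ 1) (j j' : J) :
    bE (pt J X c t) (fun ω => ∫ l in (0 : ℝ)..s, |mU sf α w A ω (blk X j) l - mU sf α w A ω (blk X j') l|) ≤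
      1 / h * (s * (4 * D * Real.sqrt (1 + c * (Fintype.card J * Fintype.card X) / 2)) +
        2 * Fintype.card X * (h ^ 2 * Real.exp (4 * D) * S)) := by
  have hA := H.posA
  have hα := H.pos α hαW
  have hw := H.pos w hwW
  have hp0 := pt_nonneg (J := J) (X := X) hc ht0 ht1
  have hp1 := pt_le_one (J := J) (X := X) hc hcX ht0 ht1
  rw [one_div, le_inv_mul_iff₀ h0, ← bE_mul_left]
  have step1 : bE (pt J X c t) (fun ω => h * ∫ l in (0 : ℝ)..s,
      |mU sf α w A ω (blk X j) l - mU sf α w A ω (blk X j') l|) ≤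
      bE (pt J X c t) (fun ω => (∫ l in (0 : ℝ)..s,
        |bE (PT h (blk X j)) (FF sf α w A l ω) - bE (PT h (blk X j')) (FF sf α w A l ω)|) +
      2 * Fintype.card X * (h ^ 2 * Real.exp (4 * D) * S)) :=
    bE_mono hp0 hp1 fun ω => mU_compare H hαW hwW hw1 hw2 ω h0 h1 hs _ _ (card_blk j) (card_blk j')
  refine step1.trans ?_
  rw [bE_add, bE_const]
  refine add_le_add ?_ le_rfl
  have cH : ∀ (U : Finset (J × X)) (ω : (J × X) × (J × X) → Bool),
      Continuous (fun l => bE (PT h U) (FF sf α w A l ω)) := fun U ω =>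
    continuous_bE _ fun ξ => continuous_FF hα hw hA ω ξ
  rw [← integral_bE (pt J X c t) (f := fun l ω => |bE (PT h (blk X j)) (FF sf α w A l ω) -
    bE (PT h (blk X j')) (FF sf α w A l ω)|) (fun ω => ((cH _ ω).sub (cH _ ω)).abs)]
  have hP1 : (1 : ℝ) ≤ 1 + c * (Fintype.card J * Fintype.card X) / 2 := by
    have : 0 ≤ c * ((Fintype.card J : ℝ) * Fintype.card X) / 2 := by positivity
    linarith
  have hP : ∑ e, pt J X c t e ≤ 1 + c * (Fintype.card J * Fintype.card X) / 2 := by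
    rw [sum_pt]; linarith
  have hpt : ∀ l : ℝ, bE (pt J X c t) (fun ω => |bE (PT h (blk X j)) (FF sf α w A l ω) -
      bE (PT h (blk X j')) (FF sf α w A l ω)|) ≤
      4 * D * Real.sqrt (1 + c * (Fintype.card J * Fintype.card X) / 2) := by
    intro l
    have c1 := l1_concentration hp0 hp1 hD hP1 hP (Hfun_BDiff (sf := sf) hα hw hA1 hA2 h0.le h1 (blk X j) l)
    have c2 := l1_concentration hp0 hp1 hD hP1 hP (Hfun_BDiff (sf := sf) hα hw hA1 hA2 h0.le h1 (blk X j') l)
    have hsym := blk_symm (J := J) (X := X) sf α w A c t h l j j'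
    rw [← hsym] at c2
    have : bE (pt J X c t) (fun ω => |bE (PT h (blk X j)) (FF sf α w A l ω) -
        bE (PT h (blk X j')) (FF sf α w A l ω)|) ≤
        bE (pt J X c t) (fun ω => |bE (PT h (blk X j)) (FF sf α w A l ω) -
          bE (pt J X c t) (fun ω => bE (PT h (blk X j)) (FF sf α w A l ω))| +
          |bE (PT h (blk X j')) (FF sf α w A l ω) -
          bE (pt J X c t) (fun ω => bE (PT h (blk X j)) (FF sf α w A l ω))|) := by
      refine bE_mono hp0 hp1 fun ω => ?_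
      have := abs_sub (bE (PT h (blk X j)) (FF sf α w A l ω) -
          bE (pt J X c t) (fun ω => bE (PT h (blk X j)) (FF sf α w A l ω)))
          (bE (PT h (blk X j')) (FF sf α w A l ω) -
          bE (pt J X c t) (fun ω => bE (PT h (blk X j)) (FF sf α w A l ω)))
      simpa using this
    rw [bE_add] at this
    linarith
  have hint := intervalIntegral.integral_mono_on (μ := MeasureTheory.volume) (a := (0 : ℝ)) (b := s) hs
    ((continuous_bE (pt J X c t) (f := fun l ω => |bE (PT h (blk X j)) (FF sf α w A l ω) -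
    bE (PT h (blk X j')) (FF sf α w A l ω)|)
      (fun ω => ((cH _ ω).sub (cH _ ω)).abs)).intervalIntegrable _ _)
    ((continuous_const (y := 4 * D * Real.sqrt (1 + c * (Fintype.card J * Fintype.card X) / 2))
      ).intervalIntegrable _ _) (fun l _ => hpt l)
  refine hint.trans (le_of_eq ?_)
  rw [intervalIntegral.integral_const, sub_zero, smul_eq_mul]

lemma sum_Qe_bound [Nonempty J] [Nonempty X] {α : Fin k → ℝ} {A : Fin k → Fin k → ℝ}
    (H : Assoc 𝓦 A sf S) (hαW : α ∈ 𝓦)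
    {D : ℝ} (hD : 0 < D) (hA1 : ∀ i j, Real.exp (-D) ≤ A i j)
    (hA2 : ∀ i j, A i j ≤ Real.exp D) {c : ℝ} (hc : 0 ≤ c) {K : ℕ} (hK : 1 ≤ K)
    {s : ℝ} (hs : 0 ≤ s) (ω : (J × X) × (J × X) → Bool) :
    |∑ e, pd J X c e * Qe sf α A s e ω| ≤
      c * Fintype.card J / 2 * (k * S * Real.exp (2 * D)) +
      c / (2 * Fintype.card J) * (∑ j : J, ∑ j' : J, ∑ τ : Fin k → Fin (K + 1),
        ∫ l in (0 : ℝ)..s,
        |mU sf α (thW 𝓦 D K τ) A ω (blk X j) l - mU sf α (thW 𝓦 D K τ) A ω (blk X j') l|) +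
      s * (c * Fintype.card J * Fintype.card X * (2 * Real.exp (2 * D) / K)) := by
  have hA := H.posA
  have hα := H.pos α hαW
  have hJ : (0 : ℝ) < Fintype.card J := by exact_mod_cast Fintype.card_pos
  have hX : (0 : ℝ) < Fintype.card X := by exact_mod_cast Fintype.card_pos
  have hθ : ∀ τ : Fin k → Fin (K + 1), ∀ i, 0 < thW 𝓦 D K τ i := fun τ i =>
    (Real.exp_pos _).trans_le (thW_ge hD.le K τ i)
  have cL : ∀ e : (J × X) × (J × X), Continuous (fun l => Real.log (gE (GW sf α (fun _ => 1) A ω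
      (fun _ => false) l) (fun σ => A (σ e.1) (σ e.2)))) := fun e =>
    continuous_log_gE_GW hα (fun _ => one_pos) hA ω _ (fun σ => hA _ _)
  have cm : ∀ (U : Finset (J × X)) (τ : Fin k → Fin (K + 1)),
      Continuous (fun l => mU sf α (thW 𝓦 D K τ) A ω U l) := fun U τ =>
    continuous_finsetSum _ fun u _ => continuous_log_gE_GW hα (hθ τ) hA ω _ (fun σ => hθ τ _)
  have cc : ∀ v : J × X, Continuous (fun l => cov (GW sf α (fun _ => 1) A ω (fun _ => false) l)
      (sv sf v) (Msum sf)) := fun v => continuous_cov_GW hα (fun _ => one_pos) hA ω _ _ _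
  have e1 : ∑ e, pd J X c e * Qe sf α A s e ω = ∫ l in (0 : ℝ)..s, ∑ e, pd J X c e *
      Real.log (gE (GW sf α (fun _ => 1) A ω (fun _ => false) l) (fun σ => A (σ e.1) (σ e.2))) := by
    rw [intervalIntegral.integral_finsetSum]
    · refine Finset.sum_congr rfl fun e _ => ?_
      rw [intervalIntegral.integral_const_mul]; rfl
    · intro e _
      exact (continuous_const.mul (cL e)).intervalIntegrable _ _
  rw [e1]
  refine (intervalIntegral.abs_integral_le_integral_abs hs).trans ?_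
  have cA : Continuous (fun l => |∑ e, pd J X c e *
      Real.log (gE (GW sf α (fun _ => 1) A ω (fun _ => false) l) (fun σ => A (σ e.1) (σ e.2)))|) :=
    (continuous_finsetSum _ fun e _ => continuous_const.mul (cL e)).abs
  have cB1 : Continuous (fun l => c / (2 * Fintype.card X) * (k * Real.exp (2 * D)) *
        (∑ v, cov (GW sf α (fun _ => 1) A ω (fun _ => false) l) (sv sf v) (Msum sf))) :=
    continuous_const.mul (continuous_finsetSum _ fun v _ => cc v)
  have cB2' : ∀ (j j' : J) (τ : Fin k → Fin (K + 1)), Continuous (fun l =>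
      |mU sf α (thW 𝓦 D K τ) A ω (blk X j) l - mU sf α (thW 𝓦 D K τ) A ω (blk X j') l|) :=
    fun j j' τ => ((cm _ τ).sub (cm _ τ)).abs
  have cB2 : Continuous (fun l => c / (2 * Fintype.card J) * (∑ j : J, ∑ j' : J,
      ∑ τ : Fin k → Fin (K + 1),
        |mU sf α (thW 𝓦 D K τ) A ω (blk X j) l - mU sf α (thW 𝓦 D K τ) A ω (blk X j') l|)) :=
    continuous_const.mul (continuous_finsetSum _ fun j _ => continuous_finsetSum _ fun j' _ =>
      continuous_finsetSum _ fun τ _ => cB2' j j' τ)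
  have cB3 : Continuous (fun _ : ℝ => c * Fintype.card J * Fintype.card X *
    (2 * Real.exp (2 * D) / K)) := continuous_const
  refine (int_le3 hs cA cB1 cB2 cB3
    (fun l hl => pointwise_bound H hαW hD hA1 hA2 hc hK ω hl)).trans ?_
  refine add_le_add (add_le_add ?_ ?_) ?_
  · rw [intervalIntegral.integral_const_mul, intervalIntegral.integral_finsetSum
      (fun v _ => (cc v).intervalIntegrable _ _)]
    have : ∑ v : J × X, ∫ l in (0 : ℝ)..s, cov (GW sf α (fun _ => 1) A ω (fun _ => false) l)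
        (sv sf v) (Msum sf) ≤ ∑ v : J × X, S :=
      Finset.sum_le_sum fun v _ =>
        integral_cov_GW hα (fun _ => one_pos) hA H.s_nonneg H.s_le ω _ v s
    refine (mul_le_mul_of_nonneg_left this (by positivity)).trans (le_of_eq ?_)
    simp only [Finset.sum_const, Finset.card_univ, Fintype.card_prod, nsmul_eq_mul]
    push_cast
    field_simp
  · rw [intervalIntegral.integral_const_mul]
    refine mul_le_mul_of_nonneg_left (le_of_eq ?_) (by positivity)
    rw [intervalIntegral.integral_finsetSum (fun j _ => (continuous_finsetSum _ fun j' _ =>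
      continuous_finsetSum _ fun τ _ => cB2' j j' τ).intervalIntegrable _ _)]
    refine Finset.sum_congr rfl fun j _ => ?_
    rw [intervalIntegral.integral_finsetSum (fun j' _ => (continuous_finsetSum _ fun τ _ =>
      cB2' j j' τ).intervalIntegrable _ _)]
    refine Finset.sum_congr rfl fun j' _ => ?_
    rw [intervalIntegral.integral_finsetSum (fun τ _ => (cB2' j j' τ).intervalIntegrable _ _)]
  · rw [intervalIntegral.integral_const, sub_zero, smul_eq_mul]

lemma deriv_bound [Nonempty J] [Nonempty X] {α : Fin k → ℝ} {A : Fin k → Fin k → ℝ}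
    (H : Assoc 𝓦 A sf S) (hαW : α ∈ 𝓦)
    {D : ℝ} (hD : 0 < D) (hA1 : ∀ i j, Real.exp (-D) ≤ A i j)
    (hA2 : ∀ i j, A i j ≤ Real.exp D) {c : ℝ} (hc : 0 ≤ c)
    (hcX : c ≤ 2 * Fintype.card X) {t : ℝ} (ht0 : 0 ≤ t) (ht1 : t ≤ 1)
    {K : ℕ} (hK : 1 ≤ K)
    {s h : ℝ} (hs : 0 ≤ s) (h0 : 0 < h) (h1 : h ≤ 1) :
    |∑ e, pd J X c e * bE (pt J X c t) (bD e (fhat sf α A s))| ≤
      errB D c s h S k K (Fintype.card J) (Fintype.card X) := by
  have hA := H.posA
  have hα := H.pos α hαW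
  have hJ : (0 : ℝ) < Fintype.card J := by exact_mod_cast Fintype.card_pos
  have hX : (0 : ℝ) < Fintype.card X := by exact_mod_cast Fintype.card_pos
  have hp0 := pt_nonneg (J := J) (X := X) hc ht0 ht1
  have hp1 := pt_le_one (J := J) (X := X) hc hcX ht0 ht1
  have a1 : |∑ e, pd J X c e * bE (pt J X c t) (bD e (fhat sf α A s)) -
      ∑ e, pd J X c e * bE (pt J X c t) (Qe sf α A s e)| ≤
      c ^ 2 * D * s * Fintype.card J / 2 := by
    rw [← Finset.sum_sub_distrib]
    refine (Finset.abs_sum_le_sum_abs _ _).trans ?_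
    have hb : ∀ e ∈ (Finset.univ : Finset ((J × X) × (J × X))),
        |pd J X c e * bE (pt J X c t) (bD e (fhat sf α A s)) -
        pd J X c e * bE (pt J X c t) (Qe sf α A s e)| ≤
        c / (2 * Fintype.card X) * (2 * D * s) * pt J X c t e := by
      intro e _
      rw [← mul_sub, abs_mul, ← bE_sub, mul_assoc]
      refine mul_le_mul (pd_abs_le hc e) ?_ (abs_nonneg _) (by positivity)
      refine (abs_bE_le hp0 hp1 _).trans ?_
      refine (bE_mono hp0 hp1 (fun ω => bD_fhat_sub hα hA1 hA2 hs e ω)).trans (le_of_eq ?_)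
      rw [bE_mul_left, bE_indicator]
    refine (Finset.sum_le_sum hb).trans (le_of_eq ?_)
    rw [← Finset.mul_sum, sum_pt]
    field_simp
  have a2 : |∑ e, pd J X c e * bE (pt J X c t) (Qe sf α A s e)| ≤
      c * Fintype.card J / 2 * (k * S * Real.exp (2 * D)) +
      c / (2 * Fintype.card J) * (Fintype.card J ^ 2 * (K + 1 : ℝ) ^ k * (1 / h *
        (s * (4 * D * Real.sqrt (1 + c * (Fintype.card J * Fintype.card X) / 2)) +
        2 * Fintype.card X * (h ^ 2 * Real.exp (4 * D) * S)))) +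
      s * (c * Fintype.card J * Fintype.card X * (2 * Real.exp (2 * D) / K)) := by
    have e1 : ∑ e, pd J X c e * bE (pt J X c t) (Qe sf α A s e) =
        bE (pt J X c t) (fun ω => ∑ e, pd J X c e * Qe sf α A s e ω) := by
      rw [bE_sum]
      exact Finset.sum_congr rfl fun e _ => (bE_mul_left _ _ _).symm
    rw [e1]
    refine (abs_bE_le hp0 hp1 _).trans ?_
    refine (bE_mono hp0 hp1 (fun ω => sum_Qe_bound H hαW hD hA1 hA2 hc hK hs ω)).trans ?_
    rw [bE_add, bE_add, bE_const, bE_const, bE_mul_left, bE_sum]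
    refine add_le_add (add_le_add le_rfl (mul_le_mul_of_nonneg_left ?_ (by positivity))) le_rfl
    have hterm : ∀ (j j' : J) (τ : Fin k → Fin (K + 1)), bE (pt J X c t) (fun ω =>
        ∫ l in (0 : ℝ)..s, |mU sf α (thW 𝓦 D K τ) A ω (blk X j) l -
          mU sf α (thW 𝓦 D K τ) A ω (blk X j') l|) ≤ 1 / h *
        (s * (4 * D * Real.sqrt (1 + c * (Fintype.card J * Fintype.card X) / 2)) +
        2 * Fintype.card X * (h ^ 2 * Real.exp (4 * D) * S)) := fun j j' τ =>
      bE_mU_diff H hαW (thW_mem H.one D K τ) hD (thW_ge hD.le K τ) (thW_le hD.le K τ) hA1 hA2 hc hcX ht0 ht1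
        hs h0 h1 j j'
    simp only [bE_sum]
    refine (Finset.sum_le_sum fun j _ => Finset.sum_le_sum fun j' _ =>
      Finset.sum_le_sum fun τ _ => hterm j j' τ).trans (le_of_eq ?_)
    simp only [Finset.sum_const, Finset.card_univ, nsmul_eq_mul, Fintype.card_pi,
      Fintype.card_fin, Finset.prod_const]
    push_cast
    ring
  have e3 : ∑ e, pd J X c e * bE (pt J X c t) (bD e (fhat sf α A s)) =
      (∑ e, pd J X c e * bE (pt J X c t) (bD e (fhat sf α A s)) -
      ∑ e, pd J X c e * bE (pt J X c t) (Qe sf α A s e)) +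
      ∑ e, pd J X c e * bE (pt J X c t) (Qe sf α A s e) := by ring
  rw [e3]
  refine (abs_add_le _ _).trans ?_
  unfold errB
  linarith

/-- comparison of the homogeneous and the block diagonal models (integrated over the field) -/
lemma interp_fhat [Nonempty J] [Nonempty X] {α : Fin k → ℝ} {A : Fin k → Fin k → ℝ}
    (H : Assoc 𝓦 A sf S) (hαW : α ∈ 𝓦)
    {D : ℝ} (hD : 0 < D) (hA1 : ∀ i j, Real.exp (-D) ≤ A i j)
    (hA2 : ∀ i j, A i j ≤ Real.exp D) {c : ℝ} (hc : 0 ≤ c)
    (hcX : c ≤ 2 * Fintype.card X) {K : ℕ} (hK : 1 ≤ K)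
    {s h : ℝ} (hs : 0 ≤ s) (h0 : 0 < h) (h1 : h ≤ 1) :
    |bE (pt J X c 1) (fhat sf α A s) - bE (pt J X c 0) (fhat sf α A s)| ≤
      errB D c s h S k K (Fintype.card J) (Fintype.card X) := by
  have hder : ∀ t ∈ Set.Icc (0 : ℝ) 1, HasDerivWithinAt
      (fun t : ℝ => bE (pt J X c t) (fhat sf α A s))
      (∑ e, pd J X c e * bE (pt J X c t) (bD e (fhat sf α A s))) (Set.Icc 0 1) t := by
    intro t _
    exact (hasDerivAt_bE (p := fun t => pt J X c t) (p' := pd J X c)
      (t := t) (fun e => hasDerivAt_pt c t e) (fhat sf α A s)).hasDerivWithinAt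
  have := norm_image_sub_le_of_norm_deriv_le_segment' hder
    (C := errB D c s h S k K (Fintype.card J) (Fintype.card X)) (fun t ht => by
      rw [Real.norm_eq_abs]
      exact deriv_bound H hαW hD hA1 hA2 hc hcX ht.1 ht.2.le hK hs h0 h1) 1 (by simp)
  simpa using this

end main

end Pool.Agent.Lib.MP_7587db
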