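import Mathlib

set_option autoImplicit false
set_option linter.unusedSectionVars false

namespace Pool.Agent.Lib.MP_7587db

open Finset Function

/-- weight of a bit under Bernoulli(p) -/
noncomputable def bw (p : ℝ) (b : Bool) : ℝ := cond b p (1 - p)

@[simp] lemma bw_true (p : ℝ) : bw p true = p := rfl
@[simp] lemma bw_false (p : ℝ) : bw p false = 1 - p := rfl

lemma bw_nonneg {p : ℝ} (h0 : 0 ≤ p) (h1 : p ≤ 1) (b : Bool) : 0 ≤ bw p b := by
  cases b <;> simp [h0, h1]

variable {ι κ : Type*} [Fintype ι] [DecidableEq ι] [Fintype κ] [DecidableEq κ]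

/-- product Bernoulli weight of a configuration -/
noncomputable def bP (p : ι → ℝ) (ω : ι → Bool) : ℝ := ∏ i, bw (p i) (ω i)

/-- expectation of a function of independent Bernoulli bits -/
noncomputable def bE (p : ι → ℝ) (f : (ι → Bool) → ℝ) : ℝ := ∑ ω, bP p ω * f ω

lemma bP_nonneg {p : ι → ℝ} (h0 : ∀ i, 0 ≤ p i) (h1 : ∀ i, p i ≤ 1) (ω : ι → Bool) :
    0 ≤ bP p ω := prod_nonneg fun i _ => bw_nonneg (h0 i) (h1 i) _

lemma sum_bP (p : ι → ℝ) : ∑ ω, bP p ω = 1 := by
  unfold bP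
  rw [← Fintype.prod_sum]
  simp

lemma bE_const (p : ι → ℝ) (c : ℝ) : bE p (fun _ => c) = c := by
  simp [bE, ← Finset.sum_mul, sum_bP]

lemma bE_add (p : ι → ℝ) (f g : (ι → Bool) → ℝ) :
    bE p (fun ω => f ω + g ω) = bE p f + bE p g := by
  simp [bE, mul_add, Finset.sum_add_distrib]

lemma bE_sub (p : ι → ℝ) (f g : (ι → Bool) → ℝ) :
    bE p (fun ω => f ω - g ω) = bE p f - bE p g := by
  simp [bE, mul_sub, Finset.sum_sub_distrib]

lemma bE_neg (p : ι → ℝ) (f : (ι → Bool) → ℝ) :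
    bE p (fun ω => - f ω) = - bE p f := by
  simp [bE]

lemma bE_mul_left (p : ι → ℝ) (c : ℝ) (f : (ι → Bool) → ℝ) :
    bE p (fun ω => c * f ω) = c * bE p f := by
  simp only [bE, Finset.mul_sum]
  exact Finset.sum_congr rfl fun ω _ => by ring

lemma bE_mul_right (p : ι → ℝ) (c : ℝ) (f : (ι → Bool) → ℝ) :
    bE p (fun ω => f ω * c) = bE p f * c := by
  simp only [bE, Finset.sum_mul]
  exact Finset.sum_congr rfl fun ω _ => by ring

lemma bE_sum {β : Type*} (p : ι → ℝ) (s : Finset β) (f : β → (ι → Bool) → ℝ) :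
    bE p (fun ω => ∑ b ∈ s, f b ω) = ∑ b ∈ s, bE p (f b) := by
  simp only [bE, Finset.mul_sum]
  rw [Finset.sum_comm]

lemma bE_mono {p : ι → ℝ} (h0 : ∀ i, 0 ≤ p i) (h1 : ∀ i, p i ≤ 1) {f g : (ι → Bool) → ℝ}
    (h : ∀ ω, f ω ≤ g ω) : bE p f ≤ bE p g :=
  Finset.sum_le_sum fun ω _ => mul_le_mul_of_nonneg_left (h ω) (bP_nonneg h0 h1 ω)

lemma bE_nonneg {p : ι → ℝ} (h0 : ∀ i, 0 ≤ p i) (h1 : ∀ i, p i ≤ 1) {f : (ι → Bool) → ℝ}
    (h : ∀ ω, 0 ≤ f ω) : 0 ≤ bE p f :=
  Finset.sum_nonneg fun ω _ => mul_nonneg (bP_nonneg h0 h1 ω) (h ω)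

lemma abs_bE_le {p : ι → ℝ} (h0 : ∀ i, 0 ≤ p i) (h1 : ∀ i, p i ≤ 1) (f : (ι → Bool) → ℝ) :
    |bE p f| ≤ bE p (fun ω => |f ω|) := by
  unfold bE
  refine (Finset.abs_sum_le_sum_abs _ _).trans (le_of_eq ?_)
  exact Finset.sum_congr rfl fun ω _ => by rw [abs_mul, abs_of_nonneg (bP_nonneg h0 h1 ω)]

lemma bE_le_of_le {p : ι → ℝ} (h0 : ∀ i, 0 ≤ p i) (h1 : ∀ i, p i ≤ 1) {f : (ι → Bool) → ℝ} {c : ℝ}
    (h : ∀ ω, f ω ≤ c) : bE p f ≤ c := by
  have := bE_mono h0 h1 (f := f) (g := fun _ => c) h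
  rwa [bE_const] at this

lemma le_bE_of_le {p : ι → ℝ} (h0 : ∀ i, 0 ≤ p i) (h1 : ∀ i, p i ≤ 1) {f : (ι → Bool) → ℝ} {c : ℝ}
    (h : ∀ ω, c ≤ f ω) : c ≤ bE p f := by
  have := bE_mono h0 h1 (f := fun _ => c) (g := f) h
  rwa [bE_const] at this

/-- only configurations compatible with the zero probabilities matter -/
lemma bE_congr_supp {p : ι → ℝ} {f g : (ι → Bool) → ℝ}
    (h : ∀ ω, (∀ i, p i = 0 → ω i = false) → f ω = g ω) : bE p f = bE p g := by
  refine Finset.sum_congr rfl fun ω _ => ?_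
  by_cases hω : ∀ i, p i = 0 → ω i = false
  · rw [h ω hω]
  · push Not at hω
    obtain ⟨i, hi, hωi⟩ := hω
    have : bP p ω = 0 := by
      refine Finset.prod_eq_zero (Finset.mem_univ i) ?_
      cases hb : ω i
      · exact absurd hb hωi
      · simpa using hi
    rw [this]; simp

lemma bE_mono_supp {p : ι → ℝ} (h0 : ∀ i, 0 ≤ p i) (h1 : ∀ i, p i ≤ 1) {f g : (ι → Bool) → ℝ}
    (h : ∀ ω, (∀ i, p i = 0 → ω i = false) → f ω ≤ g ω) : bE p f ≤ bE p g := by
  refine Finset.sum_le_sum fun ω _ => ?_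
  by_cases hω : ∀ i, p i = 0 → ω i = false
  · exact mul_le_mul_of_nonneg_left (h ω hω) (bP_nonneg h0 h1 ω)
  · push Not at hω
    obtain ⟨i, hi, hωi⟩ := hω
    have : bP p ω = 0 := by
      refine Finset.prod_eq_zero (Finset.mem_univ i) ?_
      cases hb : ω i
      · exact absurd hb hωi
      · simpa using hi
    rw [this]; simp

/-- flipping the `i`-th bit is a bijection -/
lemma sum_flip (i : ι) (F : (ι → Bool) → ℝ) :
    ∑ ω, F (update ω i (!ω i)) = ∑ ω, F ω := by
  have hinv : Function.Involutive (fun ω : ι → Bool => update ω i (!ω i)) := by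
    intro ω
    funext j
    by_cases hj : j = i
    · subst hj; simp
    · simp [hj]
  exact Equiv.sum_comp hinv.toPerm F

lemma sum_pair (i : ι) (F : (ι → Bool) → ℝ) :
    2 * ∑ ω, F ω = ∑ ω, (F (update ω i true) + F (update ω i false)) := by
  have h : ∀ ω : ι → Bool, F (update ω i true) + F (update ω i false) = F ω + F (update ω i (!ω i)) := by
    intro ω
    cases hb : ω i
    · have h1 : update ω i false = ω := by rw [← hb]; exact update_eq_self i ω
      rw [h1, Bool.not_false]; ring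
    · have h1 : update ω i true = ω := by rw [← hb]; exact update_eq_self i ω
      rw [h1, Bool.not_true]
  simp only [h, Finset.sum_add_distrib, sum_flip]
  ring

/-- product of the weights of all bits except the `i`-th -/
noncomputable def bR (p : ι → ℝ) (i : ι) (ω : ι → Bool) : ℝ := ∏ j ∈ univ.erase i, bw (p j) (ω j)

lemma bP_eq (p : ι → ℝ) (i : ι) (ω : ι → Bool) : bP p ω = bw (p i) (ω i) * bR p i ω := by
  unfold bP bR
  rw [Finset.mul_prod_erase _ (fun j => bw (p j) (ω j)) (Finset.mem_univ i)]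

lemma bR_update (p : ι → ℝ) (i : ι) (ω : ι → Bool) (b : Bool) :
    bR p i (update ω i b) = bR p i ω := by
  unfold bR
  refine Finset.prod_congr rfl fun j hj => ?_
  rw [update_of_ne (Finset.ne_of_mem_erase hj)]

lemma two_bE_eq (p : ι → ℝ) (i : ι) (f : (ι → Bool) → ℝ) :
    2 * bE p f = ∑ ω, bR p i ω * (p i * f (update ω i true) + (1 - p i) * f (update ω i false)) := by
  unfold bE
  rw [sum_pair i]
  refine Finset.sum_congr rfl fun ω _ => ?_
  rw [bP_eq p i, bP_eq p i (update ω i false)]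
  simp only [update_self, bR_update, bw_true, bw_false]
  ring

/-- conditioning on the `i`-th bit -/
lemma bE_split (p : ι → ℝ) (i : ι) (f : (ι → Bool) → ℝ) :
    bE p f = bE p (fun ω => p i * f (update ω i true) + (1 - p i) * f (update ω i false)) := by
  have h1 := two_bE_eq p i f
  have h2 := two_bE_eq p i (fun ω => p i * f (update ω i true) + (1 - p i) * f (update ω i false))
  simp only [update_idem] at h2
  have h3 : ∀ ω : ι → Bool,
      bR p i ω * (p i * (p i * f (update ω i true) + (1 - p i) * f (update ω i false)) +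
        (1 - p i) * (p i * f (update ω i true) + (1 - p i) * f (update ω i false))) =
      bR p i ω * (p i * f (update ω i true) + (1 - p i) * f (update ω i false)) := by
    intro ω; ring
  simp only [h3] at h2
  linarith

/-- discrete derivative in the direction of the `i`-th bit -/
def bD (i : ι) (f : (ι → Bool) → ℝ) (ω : ι → Bool) : ℝ := f (update ω i true) - f (update ω i false)

lemma two_bE_bD (p : ι → ℝ) (i : ι) (f : (ι → Bool) → ℝ) :
    2 * bE p (bD i f) = ∑ ω, bR p i ω * bD i f ω := by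
  rw [two_bE_eq p i]
  refine Finset.sum_congr rfl fun ω _ => ?_
  simp only [bD, update_idem]
  ring

lemma bE_deriv_aux (p : ι → ℝ) (i : ι) (f : (ι → Bool) → ℝ) :
    ∑ ω, bR p i ω * ((cond (ω i) 1 (-1) : ℝ)) * f ω = bE p (bD i f) := by
  have h := sum_pair i (fun ω => bR p i ω * ((cond (ω i) 1 (-1) : ℝ)) * f ω)
  have h2 := two_bE_bD p i f
  have h3 : ∀ ω : ι → Bool, (bR p i (update ω i true) * ((cond (update ω i true i) 1 (-1) : ℝ)) *
      f (update ω i true) + bR p i (update ω i false) * ((cond (update ω i false i) 1 (-1) : ℝ)) *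
      f (update ω i false)) = bR p i ω * bD i f ω := by
    intro ω
    simp only [update_self, bR_update, bD, cond_true, cond_false]
    ring
  simp only [h3] at h
  linarith

/-- derivative of an expectation along a path of probabilities -/
lemma hasDerivAt_bE {p : ℝ → ι → ℝ} {p' : ι → ℝ} {t : ℝ}
    (hp : ∀ i, HasDerivAt (fun t => p t i) (p' i) t) (f : (ι → Bool) → ℝ) :
    HasDerivAt (fun t => bE (p t) f) (∑ i, p' i * bE (p t) (bD i f)) t := by
  have h1 : ∀ (i : ι) (b : Bool), HasDerivAt (fun t => bw (p t i) b) (p' i * cond b 1 (-1)) t := by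
    intro i b
    cases b
    · simpa using (hp i).const_sub 1
    · simpa using hp i
  have h2 : ∀ ω : ι → Bool, HasDerivAt (fun t => bP (p t) ω)
      (∑ i, bR (p t) i ω * (p' i * cond (ω i) 1 (-1))) t := by
    intro ω
    have := HasDerivAt.fun_finsetProd (u := (Finset.univ : Finset ι))
      (f := fun i t => bw (p t i) (ω i)) (f' := fun i => p' i * cond (ω i) 1 (-1)) (x := t)
      (fun i _ => h1 i (ω i))
    simpa [bP, bR, smul_eq_mul] using this
  have h3 : HasDerivAt (fun t => ∑ ω, bP (p t) ω * f ω)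
      (∑ ω, (∑ i, bR (p t) i ω * (p' i * cond (ω i) 1 (-1))) * f ω) t :=
    HasDerivAt.fun_sum fun ω _ => (h2 ω).mul_const (f ω)
  have h4 : (∑ ω, (∑ i, bR (p t) i ω * (p' i * cond (ω i) 1 (-1))) * f ω) =
      ∑ i, p' i * bE (p t) (bD i f) := by
    simp only [Finset.sum_mul]
    rw [Finset.sum_comm]
    refine Finset.sum_congr rfl fun i _ => ?_
    rw [← bE_deriv_aux, Finset.mul_sum]
    refine Finset.sum_congr rfl fun ω _ => ?_
    ring
  rw [h4] at h3
  exact h3


/-- reindexing -/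
lemma bE_equiv (e : κ ≃ ι) (p : ι → ℝ) (f : (ι → Bool) → ℝ) :
    bE p f = bE (p ∘ e) (fun ω => f (ω ∘ e.symm)) := by
  unfold bE
  rw [← Equiv.sum_comp (e.arrowCongr (Equiv.refl Bool))]
  refine Finset.sum_congr rfl fun ω _ => ?_
  have h1 : (e.arrowCongr (Equiv.refl Bool)) ω = ω ∘ e.symm := by
    funext j; simp [Equiv.arrowCongr]
  rw [h1]
  congr 1
  unfold bP
  rw [← Equiv.prod_comp e]
  simp

/-- Fubini for a disjoint union of index sets -/
lemma bE_sumElim (p : ι → ℝ) (q : κ → ℝ) (f : (ι ⊕ κ → Bool) → ℝ) :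
    bE (Sum.elim p q) f = bE p (fun ω => bE q (fun ξ => f (Sum.elim ω ξ))) := by
  unfold bE
  rw [← Equiv.sum_comp (Equiv.sumArrowEquivProdArrow ι κ Bool).symm, Fintype.sum_prod_type]
  refine Finset.sum_congr rfl fun ω _ => ?_
  rw [Finset.mul_sum]
  refine Finset.sum_congr rfl fun ξ _ => ?_
  have h1 : (Equiv.sumArrowEquivProdArrow ι κ Bool).symm (ω, ξ) = Sum.elim ω ξ := rfl
  rw [h1, ← mul_assoc]
  congr 1
  unfold bP
  rw [Fintype.prod_sum_type]
  simp

/-- marginals of a product measure -/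
lemma bE_marginal (e : κ → ι) (he : Function.Injective e) (p : ι → ℝ) (F : (κ → Bool) → ℝ) :
    bE p (fun ω => F (ω ∘ e)) = bE (p ∘ e) F := by
  classical
  let g : κ ⊕ ((Set.range e)ᶜ : Set ι) ≃ ι :=
    (Equiv.sumCongr (Equiv.ofInjective e he) (Equiv.refl _)).trans (Equiv.Set.sumCompl (Set.range e))
  have hg1 : ∀ j, g (Sum.inl j) = e j := by
    intro j
    simp [g]
  rw [bE_equiv g p]
  have h2 : p ∘ g = Sum.elim (p ∘ e) (fun x : ((Set.range e)ᶜ : Set ι) => p x) := by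
    funext x
    rcases x with j | x
    · simp [hg1]
    · simp [g]
  rw [h2, bE_sumElim]
  refine Finset.sum_congr rfl fun ω _ => ?_
  congr 1
  have h3 : ∀ ξ : ((Set.range e)ᶜ : Set ι) → Bool,
      F ((Sum.elim ω ξ ∘ g.symm) ∘ e) = F ω := by
    intro ξ
    congr 1
    funext j
    have : g.symm (e j) = Sum.inl j := by rw [← hg1 j]; simp
    simp [this]
  simp only [h3]
  exact bE_const _ _

/-- if the `i`-th bit is off, giving it probability `h` -/
lemma bE_update (p : ι → ℝ) (i : ι) (hi : p i = 0) (h : ℝ) (f : (ι → Bool) → ℝ) :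
    bE (update p i h) f = bE p (fun ω => f ω + h * bD i f ω) := by
  have h1 := two_bE_eq (update p i h) i f
  have h2 := two_bE_eq p i (fun ω => f ω + h * bD i f ω)
  have h3 : ∀ ω, bR (update p i h) i ω = bR p i ω := by
    intro ω
    unfold bR
    refine Finset.prod_congr rfl fun j hj => ?_
    rw [update_of_ne (Finset.ne_of_mem_erase hj)]
  have h4 : ∑ ω, bR (update p i h) i ω * (update p i h i * f (update ω i true) +
      (1 - update p i h i) * f (update ω i false)) = ∑ ω, bR p i ω * (p i * (f (update ω i true) +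
        h * bD i f (update ω i true)) + (1 - p i) * (f (update ω i false) +
        h * bD i f (update ω i false))) := by
    refine Finset.sum_congr rfl fun ω _ => ?_
    rw [h3, hi]
    simp only [bD, update_self, update_idem]
    ring
  linarith

lemma bE_indicator (p : ι → ℝ) (i : ι) : bE p (fun ω => cond (ω i) (1 : ℝ) 0) = p i := by
  rw [bE_split p i]
  simp [bE_const]

/-- bounded differences with constant `D` -/
def BDiff (D : ℝ) (f : (ι → Bool) → ℝ) : Prop := ∀ i ω, |bD i f ω| ≤ D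

lemma abs_bE_bD_le {p : ι → ℝ} (h0 : ∀ i, 0 ≤ p i) (h1 : ∀ i, p i ≤ 1) {D : ℝ}
    {f : (ι → Bool) → ℝ} (hf : BDiff D f) (i : ι) : |bE p (bD i f)| ≤ D :=
  (abs_bE_le h0 h1 _).trans (bE_le_of_le h0 h1 fun ω => hf i ω)

/-- expectations are Lipschitz in the probabilities -/
lemma bE_lipschitz {p q : ι → ℝ} (hp0 : ∀ i, 0 ≤ p i) (hp1 : ∀ i, p i ≤ 1)
    (hq0 : ∀ i, 0 ≤ q i) (hq1 : ∀ i, q i ≤ 1) {D : ℝ} {f : (ι → Bool) → ℝ} (hf : BDiff D f) :
    |bE q f - bE p f| ≤ D * ∑ i, |q i - p i| := by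
  have hder : ∀ t ∈ Set.Icc (0 : ℝ) 1, HasDerivWithinAt
      (fun t : ℝ => bE (fun i => p i + t * (q i - p i)) f)
      (∑ i, (q i - p i) * bE (fun i => p i + t * (q i - p i)) (bD i f)) (Set.Icc 0 1) t := by
    intro t _
    refine (hasDerivAt_bE (p := fun t i => p i + t * (q i - p i)) (p' := fun i => q i - p i)
      (t := t) ?_ f).hasDerivWithinAt
    intro i
    simpa using ((hasDerivAt_id t).mul_const (q i - p i)).const_add (p i)
  have hbound : ∀ t ∈ Set.Ico (0 : ℝ) 1,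
      ‖∑ i, (q i - p i) * bE (fun i => p i + t * (q i - p i)) (bD i f)‖ ≤ D * ∑ i, |q i - p i| := by
    intro t ht
    have ht0 := ht.1
    have ht1 := ht.2.le
    have hb0 : ∀ i, 0 ≤ p i + t * (q i - p i) := by
      intro i
      have := hp0 i; have := hq0 i
      nlinarith [mul_nonneg ht0 (hq0 i), mul_nonneg (sub_nonneg.2 ht1) (hp0 i)]
    have hb1 : ∀ i, p i + t * (q i - p i) ≤ 1 := by
      intro i
      nlinarith [mul_nonneg ht0 (sub_nonneg.2 (hq1 i)), mul_nonneg (sub_nonneg.2 ht1) (sub_nonneg.2 (hp1 i))]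
    rw [Real.norm_eq_abs, Finset.mul_sum]
    refine (Finset.abs_sum_le_sum_abs _ _).trans (Finset.sum_le_sum fun i _ => ?_)
    rw [abs_mul, mul_comm]
    exact mul_le_mul_of_nonneg_right (abs_bE_bD_le hb0 hb1 hf i) (abs_nonneg _)
  have := norm_image_sub_le_of_norm_deriv_le_segment' hder hbound 1 (by simp)
  simpa using this

/-- integrating out the bits in `s` -/
noncomputable def bT (p : ι → ℝ) (s : Finset ι) (f : (ι → Bool) → ℝ) (ω : ι → Bool) : ℝ :=
  bE p (fun ω' => f (fun j => if j ∈ s then ω' j else ω j))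

lemma bT_empty (p : ι → ℝ) (f : (ι → Bool) → ℝ) : bT p ∅ f = f := by
  funext ω
  simp [bT, bE_const]

lemma bT_univ (p : ι → ℝ) (f : (ι → Bool) → ℝ) (ω : ι → Bool) : bT p univ f ω = bE p f := by
  simp [bT]

lemma mix_update_mem (s : Finset ι) (i : ι) (hi : i ∈ s) (ω' ω : ι → Bool) (b : Bool) :
    (fun j => if j ∈ s then ω' j else update ω i b j) = (fun j => if j ∈ s then ω' j else ω j) := by
  funext j
  by_cases hj : j ∈ s
  · simp [hj]
  · have : j ≠ i := fun h => hj (h ▸ hi)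
    simp [hj, this]

lemma mix_update_notMem (s : Finset ι) (i : ι) (hi : i ∉ s) (ω' ω : ι → Bool) (b : Bool) :
    (fun j => if j ∈ s then ω' j else update ω i b j) =
      update (fun j => if j ∈ s then ω' j else ω j) i b := by
  funext j
  by_cases hj : j = i
  · subst hj; simp [hi]
  · simp [hj]

lemma bT_insert (p : ι → ℝ) (s : Finset ι) (i : ι) (hi : i ∉ s) (f : (ι → Bool) → ℝ) (ω : ι → Bool) :
    bT p (insert i s) f ω =
      p i * bT p s f (update ω i true) + (1 - p i) * bT p s f (update ω i false) := by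
  unfold bT
  rw [bE_split p i, bE_add, bE_mul_left, bE_mul_left]
  have key : ∀ b : Bool, ∀ ω' : ι → Bool,
      (fun j => if j ∈ insert i s then update ω' i b j else ω j) =
      (fun j => if j ∈ s then ω' j else update ω i b j) := by
    intro b ω'
    funext j
    by_cases hj : j = i
    · subst hj; simp [hi]
    · by_cases hjs : j ∈ s <;> simp [hj, hjs]
  simp only [key]

lemma BDiff.bT {p : ι → ℝ} (h0 : ∀ i, 0 ≤ p i) (h1 : ∀ i, p i ≤ 1) {D : ℝ} (hD : 0 ≤ D)
    {f : (ι → Bool) → ℝ} (hf : BDiff D f) (s : Finset ι) : BDiff D (bT p s f) := by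
  intro i ω
  by_cases hi : i ∈ s
  · have : bD i (MP_7587db.bT p s f) ω = 0 := by
      simp only [bD, MP_7587db.bT, mix_update_mem s i hi, sub_self]
    rw [this]; simpa using hD
  · have : bD i (MP_7587db.bT p s f) ω =
        bE p (fun ω' => bD i f (fun j => if j ∈ s then ω' j else ω j)) := by
      simp only [bD, MP_7587db.bT, mix_update_notMem s i hi, ← bE_sub]
    rw [this]
    exact (abs_bE_le h0 h1 _).trans (bE_le_of_le h0 h1 fun ω' => hf i _)

lemma two_point_mgf {p y : ℝ} (h0 : 0 ≤ p) (hy : |y| ≤ 1) :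
    p * Real.exp y + (1 - p) ≤ Real.exp (p * y + p * y ^ 2) := by
  have h1 : Real.exp y - 1 ≤ y + y ^ 2 := by
    have := Real.abs_exp_sub_one_sub_id_le hy
    have := (abs_le.1 this).2
    linarith
  have h2 : p * Real.exp y + (1 - p) = p * (Real.exp y - 1) + 1 := by ring
  rw [h2]
  refine le_trans ?_ (Real.add_one_le_exp _)
  nlinarith

lemma mgf_step {p : ι → ℝ} (h0 : ∀ i, 0 ≤ p i) (h1 : ∀ i, p i ≤ 1) {D θ : ℝ}
    (hθ : |θ| * D ≤ 1) {g : (ι → Bool) → ℝ} (hg : BDiff D g) (i : ι) :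
    bE p (fun ω => Real.exp (θ * g ω)) ≤ Real.exp (θ ^ 2 * D ^ 2 * p i) *
      bE p (fun ω => Real.exp (θ * (p i * g (update ω i true) + (1 - p i) * g (update ω i false)))) := by
  rw [bE_split p i, ← bE_mul_left]
  refine bE_mono h0 h1 fun ω => ?_
  set x1 := g (update ω i true)
  set x0 := g (update ω i false)
  have hx : |x1 - x0| ≤ D := hg i ω
  set y := θ * (x1 - x0) with hy
  have hyD : |y| ≤ |θ| * D := by
    rw [hy, abs_mul]; exact mul_le_mul_of_nonneg_left hx (abs_nonneg _)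
  have hy1 : |y| ≤ 1 := hyD.trans hθ
  have hy2 : y ^ 2 ≤ θ ^ 2 * D ^ 2 := by
    have h7 : |y| ^ 2 ≤ (|θ| * D) ^ 2 := pow_le_pow_left₀ (abs_nonneg _) hyD 2
    have h8 : |y| ^ 2 = y ^ 2 := sq_abs y
    have h9 : (|θ| * D) ^ 2 = θ ^ 2 * D ^ 2 := by rw [mul_pow, sq_abs]
    rwa [h8, h9] at h7
  have e1 : Real.exp (θ * x1) = Real.exp (θ * x0) * Real.exp y := by
    rw [← Real.exp_add]; congr 1; rw [hy]; ring
  rw [e1]
  have h2 := two_point_mgf (h0 i) hy1
  have h3 : p i * (Real.exp (θ * x0) * Real.exp y) + (1 - p i) * Real.exp (θ * x0) =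
      Real.exp (θ * x0) * (p i * Real.exp y + (1 - p i)) := by ring
  rw [h3, ← Real.exp_add]
  refine (mul_le_mul_of_nonneg_left h2 (Real.exp_pos _).le).trans ?_
  rw [← Real.exp_add]
  apply Real.exp_le_exp.2
  have : p i * y ^ 2 ≤ θ ^ 2 * D ^ 2 * p i := by
    rw [mul_comm]; exact mul_le_mul_of_nonneg_right hy2 (h0 i)
  have h5 : p i * y = θ * (p i * x1) - θ * (p i * x0) := by rw [hy]; ring
  nlinarith

lemma mgf_bound_aux {p : ι → ℝ} (h0 : ∀ i, 0 ≤ p i) (h1 : ∀ i, p i ≤ 1) {D θ : ℝ} (hD : 0 ≤ D)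
    (hθ : |θ| * D ≤ 1) {f : (ι → Bool) → ℝ} (hf : BDiff D f) (s : Finset ι) :
    bE p (fun ω => Real.exp (θ * f ω)) ≤ Real.exp (θ ^ 2 * D ^ 2 * ∑ i ∈ s, p i) *
      bE p (fun ω => Real.exp (θ * bT p s f ω)) := by
  induction s using Finset.induction_on with
  | empty => simp [bT_empty]
  | insert i s hi ih =>
    refine ih.trans ?_
    have := mgf_step h0 h1 hθ (hf.bT h0 h1 hD s) i
    rw [Finset.sum_insert hi]
    have h2 : Real.exp (θ ^ 2 * D ^ 2 * (p i + ∑ x ∈ s, p x)) =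
        Real.exp (θ ^ 2 * D ^ 2 * ∑ x ∈ s, p x) * Real.exp (θ ^ 2 * D ^ 2 * p i) := by
      rw [← Real.exp_add]; congr 1; ring
    have h3 : bE p (fun ω => Real.exp (θ * bT p s f ω)) ≤ Real.exp (θ ^ 2 * D ^ 2 * p i) *
        bE p (fun ω => Real.exp (θ * bT p (insert i s) f ω)) := by
      simpa only [bT_insert p s i hi f] using this
    rw [h2, mul_assoc (Real.exp (θ ^ 2 * D ^ 2 * ∑ x ∈ s, p x))]
    exact mul_le_mul_of_nonneg_left h3 (Real.exp_pos _).le

/-- exponential moment bound for a function with bounded differences -/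
lemma mgf_bound {p : ι → ℝ} (h0 : ∀ i, 0 ≤ p i) (h1 : ∀ i, p i ≤ 1) {D θ : ℝ} (hD : 0 ≤ D)
    (hθ : |θ| * D ≤ 1) {f : (ι → Bool) → ℝ} (hf : BDiff D f) :
    bE p (fun ω => Real.exp (θ * (f ω - bE p f))) ≤ Real.exp (θ ^ 2 * D ^ 2 * ∑ i, p i) := by
  have h := mgf_bound_aux h0 h1 hD hθ hf Finset.univ
  simp only [bT_univ, bE_const] at h
  have h2 : ∀ ω, Real.exp (θ * (f ω - bE p f)) = Real.exp (-(θ * bE p f)) * Real.exp (θ * f ω) := by
    intro ω; rw [← Real.exp_add]; congr 1; ring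
  simp only [h2, bE_mul_left]
  calc Real.exp (-(θ * bE p f)) * bE p (fun ω => Real.exp (θ * f ω))
      ≤ Real.exp (-(θ * bE p f)) * (Real.exp (θ ^ 2 * D ^ 2 * ∑ i, p i) * Real.exp (θ * bE p f)) :=
        mul_le_mul_of_nonneg_left h (Real.exp_pos _).le
    _ = Real.exp (θ ^ 2 * D ^ 2 * ∑ i, p i) := by
        rw [mul_comm, mul_assoc, ← Real.exp_add]; simp

/-- L1 concentration -/
lemma l1_concentration {p : ι → ℝ} (h0 : ∀ i, 0 ≤ p i) (h1 : ∀ i, p i ≤ 1) {D P : ℝ} (hD : 0 < D)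
    (hP1 : 1 ≤ P) (hP : ∑ i, p i ≤ P) {f : (ι → Bool) → ℝ} (hf : BDiff D f) :
    bE p (fun ω => |f ω - bE p f|) ≤ 2 * D * Real.sqrt P := by
  have hsP : 1 ≤ Real.sqrt P := Real.one_le_sqrt.2 hP1
  have hsP0 : 0 < Real.sqrt P := by linarith
  set θ : ℝ := 1 / (D * Real.sqrt P) with hθdef
  have hθpos : 0 < θ := by positivity
  have hθD : |θ| * D ≤ 1 := by
    rw [abs_of_pos hθpos, hθdef, div_mul_eq_mul_div, one_mul, div_le_one (by positivity)]
    nlinarith
  have hθD' : |(-θ)| * D ≤ 1 := by rwa [abs_neg]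
  set m := bE p (fun ω => |f ω - bE p f|) with hm
  have hq : θ ^ 2 * D ^ 2 * ∑ i, p i ≤ 1 := by
    have hs : Real.sqrt P ^ 2 = P := Real.sq_sqrt (by linarith)
    have : θ ^ 2 * D ^ 2 = 1 / P := by
      rw [hθdef, div_pow, mul_pow, hs, one_pow]
      field_simp
    rw [this, div_mul_eq_mul_div, one_mul, div_le_one (by linarith)]
    exact hP
  have e1 : bE p (fun ω => Real.exp (θ * (f ω - bE p f))) ≤ Real.exp 1 :=
    (mgf_bound h0 h1 hD.le hθD hf).trans (Real.exp_le_exp.2 hq)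
  have e2 : bE p (fun ω => Real.exp (-θ * (f ω - bE p f))) ≤ Real.exp 1 := by
    refine (mgf_bound h0 h1 hD.le hθD' hf).trans (Real.exp_le_exp.2 ?_)
    rw [neg_sq]; exact hq
  have e3 : bE p (fun ω => 1 + θ * (|f ω - bE p f| - m)) ≤
      bE p (fun ω => Real.exp (-(θ * m)) * (Real.exp (θ * (f ω - bE p f)) +
        Real.exp (-θ * (f ω - bE p f)))) := by
    refine bE_mono h0 h1 fun ω => ?_
    have a1 : 1 + θ * (|f ω - bE p f| - m) ≤ Real.exp (θ * (|f ω - bE p f| - m)) := by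
      have := Real.add_one_le_exp (θ * (|f ω - bE p f| - m)); linarith
    have a2 : Real.exp (θ * (|f ω - bE p f| - m)) =
        Real.exp (-(θ * m)) * Real.exp (θ * |f ω - bE p f|) := by
      rw [← Real.exp_add]; congr 1; ring
    rw [a2] at a1
    refine a1.trans (mul_le_mul_of_nonneg_left ?_ (Real.exp_pos _).le)
    rcases abs_cases (f ω - bE p f) with h | h
    · rw [h.1]; linarith [Real.exp_pos (-θ * (f ω - bE p f))]
    · rw [h.1]
      have : θ * -(f ω - bE p f) = -θ * (f ω - bE p f) := by ring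
      rw [this]; linarith [Real.exp_pos (θ * (f ω - bE p f))]
  have e4 : bE p (fun ω => 1 + θ * (|f ω - bE p f| - m)) = 1 := by
    rw [bE_add, bE_const, bE_mul_left, bE_sub, bE_const, ← hm]; ring
  rw [e4, bE_mul_left, bE_add] at e3
  have e5 : Real.exp (θ * m) ≤ Real.exp 1 + Real.exp 1 := by
    have : 1 ≤ Real.exp (-(θ * m)) * (Real.exp 1 + Real.exp 1) :=
      e3.trans (mul_le_mul_of_nonneg_left (add_le_add e1 e2) (Real.exp_pos _).le)
    calc Real.exp (θ * m) = Real.exp (θ * m) * 1 := by ring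
      _ ≤ Real.exp (θ * m) * (Real.exp (-(θ * m)) * (Real.exp 1 + Real.exp 1)) :=
        mul_le_mul_of_nonneg_left this (Real.exp_pos _).le
      _ = Real.exp 1 + Real.exp 1 := by
        rw [← mul_assoc, ← Real.exp_add]; simp
  have e6 : θ * m ≤ 2 := by
    have : Real.exp 1 + Real.exp 1 ≤ Real.exp 2 := by
      have h2 : Real.exp 2 = Real.exp 1 * Real.exp 1 := by rw [← Real.exp_add]; norm_num
      have h3 : (2 : ℝ) ≤ Real.exp 1 := by
        have := Real.add_one_le_exp (1 : ℝ); linarith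
      rw [h2]; nlinarith [Real.exp_pos 1]
    exact Real.exp_le_exp.1 (e5.trans this)
  have e7 : m = (θ * m) * (D * Real.sqrt P) := by
    rw [hθdef]; field_simp
  rw [e7]
  have : 0 < D * Real.sqrt P := by positivity
  nlinarith

end Pool.Agent.Lib.MP_7587db
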