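import Pool.Agent.Lib.MP_7587db.Potts2

set_option autoImplicit false
set_option linter.unusedSectionVars false
set_option linter.unusedVariables false

namespace Pool.Agent.Lib.MP_7587db

open Finset Function

section potts3

variable {V : Type*} [Fintype V] [DecidableEq V] {k : ℕ} [NeZero k]

/-- Potts-type edge weights -/
def PA (g θ : Fin k → ℝ) (i j : Fin k) : ℝ := g i * g j * (1 + if i = j then θ i else 0)

lemma PA_pos {g θ : Fin k → ℝ} (hg : g ∈ MW k) (hθ : θ ∈ MW k) (i j : Fin k) :
    0 < PA g θ i j := by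
  unfold PA
  have h1 := hg.1 i
  have h2 := hg.1 j
  have h3 := hθ.1 i
  split_ifs <;> positivity

/-- site weights absorbing the factors `g` -/
noncomputable def at_ (a : V → Fin k → ℝ) (g : Fin k → ℝ) (ω : V × V → Bool) (u : V)
    (i : Fin k) : ℝ :=
  a u i * ∏ e : {e : V × V // ω e = true},
    ((if e.1.1 = u then g i else 1) * (if e.1.2 = u then g i else 1))

lemma MW_prod {ι : Type*} (s : Finset ι) (F : ι → Fin k → ℝ) (h : ∀ e ∈ s, F e ∈ MW k) :
    (fun i => ∏ e ∈ s, F e i) ∈ MW k := by
  classical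
  induction s using Finset.induction_on with
  | empty => simpa using MW_one (k := k)
  | insert e s he ih =>
    have h1 := h e (Finset.mem_insert_self e s)
    have h2 := ih fun e' he' => h e' (Finset.mem_insert_of_mem he')
    have : (fun i => ∏ e ∈ insert e s, F e i) = fun i => F e i * ∏ e ∈ s, F e i := by
      funext i; rw [Finset.prod_insert he]
    rw [this]
    exact MW_mul h1 h2

lemma at_mem {a : V → Fin k → ℝ} (ha : ∀ u, a u ∈ MW k) {g : Fin k → ℝ} (hg : g ∈ MW k)
    (ω : V × V → Bool) (u : V) : at_ a g ω u ∈ MW k := by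
  unfold at_
  refine MW_mul (ha u) ?_
  refine MW_prod _ (fun (e : {e : V × V // ω e = true}) i =>
    ((if e.1.1 = u then g i else 1) * (if e.1.2 = u then g i else 1))) fun e _ => ?_
  refine MW_mul (w := fun i => if e.1.1 = u then g i else 1)
    (w' := fun i => if e.1.2 = u then g i else 1) ?_ ?_
  · by_cases h : e.1.1 = u
    · simpa [h] using hg
    · simpa [h] using MW_one (k := k)
  · by_cases h : e.1.2 = u
    · simpa [h] using hg
    · simpa [h] using MW_one (k := k)

lemma PW_eq_mixW (a : V → Fin k → ℝ) (g θ : Fin k → ℝ) (ω : V × V → Bool) :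
    PW a (PA g θ) ω = mixW (at_ a g ω) θ (fun e : {e : V × V // ω e = true} => e.1) := by
  funext σ
  unfold PW mixW at_
  have h1 : ∏ e : V × V, cond (ω e) (PA g θ (σ e.1) (σ e.2)) 1 =
      ∏ e : {e : V × V // ω e = true}, PA g θ (σ e.1.1) (σ e.1.2) := by
    rw [← Finset.prod_subtype (univ.filter (fun e : V × V => ω e = true)) (by simp)
      (fun e => PA g θ (σ e.1) (σ e.2)), Finset.prod_filter]
    refine Finset.prod_congr rfl fun e _ => ?_
    cases ω e <;> simp
  have h2 : ∏ u, (a u (σ u) * ∏ e : {e : V × V // ω e = true},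
      ((if e.1.1 = u then g (σ u) else 1) * (if e.1.2 = u then g (σ u) else 1))) =
      (∏ u, a u (σ u)) * ∏ e : {e : V × V // ω e = true}, (g (σ e.1.1) * g (σ e.1.2)) := by
    rw [Finset.prod_mul_distrib, Finset.prod_comm]
    congr 1
    refine Finset.prod_congr rfl fun e _ => ?_
    rw [Finset.prod_mul_distrib]
    simp
  rw [h1, h2, mul_assoc, ← Finset.prod_mul_distrib]
  congr 1

/-- Potts-type models with comonotone weights are associated -/
theorem assoc_potts {g θ : Fin k → ℝ} (hg : g ∈ MW k) (hθ : θ ∈ MW k) :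
    Assoc (MW k) (PA g θ) (s0 k) k where
  posA := PA_pos hg hθ
  pos := fun w hw => hw.1
  mul := fun w hw w' hw' => MW_mul hw hw'
  field := fun l hl => ⟨fun i => Real.exp_pos _, fun i j hij =>
    Real.exp_le_exp.2 (mul_le_mul_of_nonneg_left (s0_mono hij) hl)⟩
  s_nonneg := sL_nonneg _
  s_le := sL_le _
  decor := fun V _ _ a ω ha => by
    rw [PW_eq_mixW]
    exact mixW_dec (at_mem ha hg ω) hθ _
  msg := fun V _ _ a ω v ha => by
    have hW : ∀ σ : V → Fin k, 0 < PW a (PA g θ) ω σ :=
      PW_pos (fun u => (ha u).1) (PA_pos hg hθ) ω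
    have hpos := sum_W_pos hW
    refine ⟨fun i => gE_pos hW fun σ => PA_pos hg hθ _ _, ?_⟩
    have hr : ∀ i, gE (PW a (PA g θ) ω) (fun σ => PA g θ i (σ v)) =
        g i * (gE (PW a (PA g θ) ω) (fun σ => g (σ v)) + θ i * g i *
          gE (PW a (PA g θ) ω) (fun σ => if σ v = i then 1 else 0)) := by
      intro i
      rw [← gE_mul_left, ← gE_add, ← gE_mul_left]
      refine gE_congr _ fun σ => ?_
      unfold PA
      by_cases h : i = σ v
      · subst h; simp; ring
      · rw [if_neg h, if_neg (fun h' => h h'.symm)]; ring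
    have hP : ∀ i j : Fin k, i ≤ j →
        gE (PW a (PA g θ) ω) (fun σ => if σ v = i then (1 : ℝ) else 0) ≤
        gE (PW a (PA g θ) ω) (fun σ => if σ v = j then (1 : ℝ) else 0) := by
      intro i j hij
      unfold gE
      refine div_le_div_of_nonneg_right ?_ hpos.le
      rw [PW_eq_mixW]
      exact mixW_mono_state (at_mem ha hg ω) hθ _ v hij
    intro i j hij
    simp only [hr]
    have g1 := hg.1 i
    have g2 := hg.2 hij
    have t1 := hθ.1 i
    have t2 := hθ.2 hij
    have q1 : 0 ≤ gE (PW a (PA g θ) ω) (fun σ => if σ v = i then (1 : ℝ) else 0) :=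
      gE_nonneg hW fun σ => by split_ifs <;> norm_num
    have q2 := hP i j hij
    have q3 : 0 < gE (PW a (PA g θ) ω) (fun σ => g (σ v)) := gE_pos hW fun σ => hg.1 _
    have m1 : θ i * g i ≤ θ j * g j := mul_le_mul t2 g2 g1.le (hθ.1 j).le
    have m2 : θ i * g i * gE (PW a (PA g θ) ω) (fun σ => if σ v = i then (1 : ℝ) else 0) ≤
        θ j * g j * gE (PW a (PA g θ) ω) (fun σ => if σ v = j then (1 : ℝ) else 0) :=
      mul_le_mul m1 q2 q1 (mul_pos (hθ.1 j) (hg.1 j)).le
    have m3 : 0 ≤ θ i * g i * gE (PW a (PA g θ) ω) (fun σ => if σ v = i then (1 : ℝ) else 0) :=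
      mul_nonneg (mul_pos t1 g1).le q1
    exact mul_le_mul g2 (by linarith) (by linarith) (hg.1 j).le

end potts3

end Pool.Agent.Lib.MP_7587db
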