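import Pool.Agent.Lib.MP_7587db.Transfer
import Pool.Agent.Lib.MP_7587db.AntiMain
import Pool.Agent.Lib.MP_7587db.Potts3

set_option autoImplicit false
set_option linter.unusedSectionVars false
set_option linter.unusedVariables false

namespace Pool.Agent.Lib.MP_7587db

open Finset Function Filter

section classes

variable {k : ℕ} [NeZero k]

/-- log-supermodular targets are good -/
theorem good_lattice {c : ℝ} (hc : 0 ≤ c) {L : Type} [DistribLattice L] [Fintype L]
    (e : Fin k ≃ L) {α : Fin k → ℝ} {A : Fin k → Fin k → ℝ} (hα : ∀ i, 0 < α i)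
    (hA : ∀ i j, 0 < A i j) (hs : ∀ i j, A i j = A j i) (h1 : LSM1 e α) (h2 : LSM2 e A) :
    (α, A) ∈ Good c k := by
  obtain ⟨D, hD, hA1, hA2⟩ := exists_D hA
  exact ⟨⟨hα, hA⟩, hs, (assoc_lattice e hA h2).conv_aN (α := α) ⟨hα, h1⟩ hD hA1 hA2 hc⟩

/-- an edge matrix which is negative semidefinite on a hyperplane: factorisation -/
lemma anti_factor {A : Fin k → Fin k → ℝ} (hA : ∀ i j, 0 < A i j)
    (hs : ∀ i j, A i j = A j i) (g0 : Fin k → ℝ)
    (h0 : ∀ x : Fin k → ℝ, ∑ i, g0 i * x i = 0 → ∑ i, ∑ j, x i * A i j * x j ≤ 0) :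
    ∃ (g : Fin k → ℝ) (b : Fin k → Fin k → ℝ), (∀ i, 0 < g i) ∧
      ∀ i j, A i j = g i * g j * (1 - ∑ l, b l i * b l j) := by
  -- total weight
  set a := ∑ i, ∑ j, A i j with ha
  have ha0 : 0 < a := Finset.sum_pos (fun i _ => Finset.sum_pos (fun j _ => hA i j)
    Finset.univ_nonempty) Finset.univ_nonempty
  let r : Fin k → ℝ := fun i => ∑ j, A i j
  have hr0 : ∀ i, 0 < r i := fun i => Finset.sum_pos (fun j _ => hA i j) Finset.univ_nonempty
  set S := ∑ i, g0 i with hS
  have hS0 : S ≠ 0 := by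
    intro h
    have := h0 (fun _ => 1) (by simpa using h)
    simp only [one_mul, mul_one] at this
    linarith
  -- reverse Cauchy-Schwarz
  have hrcs : ∀ x : Fin k → ℝ, a * ∑ i, ∑ j, x i * A i j * x j ≤ (∑ i, r i * x i) ^ 2 := by
    intro x
    set t := (∑ i, g0 i * x i) / S with ht
    have hz : ∑ i, g0 i * (x i - t) = 0 := by
      have : ∑ i, g0 i * (x i - t) = (∑ i, g0 i * x i) - S * t := by
        rw [hS, Finset.sum_mul, ← Finset.sum_sub_distrib]
        exact Finset.sum_congr rfl fun i _ => by ring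
      rw [this, ht]; field_simp; ring
    have hq := h0 (fun i => x i - t) hz
    set Q := ∑ i, ∑ j, x i * A i j * x j with hQ
    set R := ∑ i, r i * x i with hR
    have e1 : ∑ i, ∑ j, (x i - t) * A i j * (x j - t) = Q - 2 * t * R + t ^ 2 * a := by
      have c1 : ∑ i, ∑ j, x i * A i j = R := by
        rw [hR]
        refine Finset.sum_congr rfl fun i _ => ?_
        simp only [r]
        rw [Finset.sum_mul]
        exact Finset.sum_congr rfl fun j _ => by ring
      have c2 : ∑ i, ∑ j, A i j * x j = R := by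
        rw [Finset.sum_comm, ← c1]
        refine Finset.sum_congr rfl fun i _ => Finset.sum_congr rfl fun j _ => ?_
        rw [hs j i]; ring
      have c3 : ∀ i, ∑ j, (x i - t) * A i j * (x j - t) =
          ∑ j, x i * A i j * x j - t * ∑ j, x i * A i j - t * ∑ j, A i j * x j +
            t ^ 2 * ∑ j, A i j := by
        intro i
        rw [Finset.mul_sum, Finset.mul_sum, Finset.mul_sum, ← Finset.sum_sub_distrib,
          ← Finset.sum_sub_distrib, ← Finset.sum_add_distrib]
        exact Finset.sum_congr rfl fun j _ => by ring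
      rw [Finset.sum_congr rfl fun i _ => c3 i, Finset.sum_add_distrib, Finset.sum_sub_distrib,
        Finset.sum_sub_distrib, ← Finset.mul_sum, ← Finset.mul_sum, ← Finset.mul_sum, c1, c2]
      have c4 : ∑ i, ∑ j, A i j = a := rfl
      rw [c4, ← hQ]; ring
    rw [e1] at hq
    nlinarith [sq_nonneg (R - t * a), mul_le_mul_of_nonneg_left hq ha0.le]
  set w := Real.sqrt a with hw
  have hw0 : 0 < w := Real.sqrt_pos.2 ha0
  have hw2 : w * w = a := Real.mul_self_sqrt ha0.le
  set g : Fin k → ℝ := fun i => r i / w with hg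
  have hg0 : ∀ i, 0 < g i := fun i => div_pos (hr0 i) hw0
  let B : Matrix (Fin k) (Fin k) ℝ := fun i j => g i * g j - A i j
  have hB : B.PosSemidef := by
    refine Matrix.PosSemidef.of_dotProduct_mulVec_nonneg ?_ ?_
    · refine Matrix.IsHermitian.ext fun i j => ?_
      simp only [star_trivial, B]
      rw [hs i j]; ring
    · intro x
      have e1 : star x ⬝ᵥ B.mulVec x = (∑ i, g i * x i) ^ 2 - ∑ i, ∑ j, x i * A i j * x j := by
        simp only [dotProduct, Matrix.mulVec, star_trivial, B]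
        rw [sq, Finset.sum_mul_sum, ← Finset.sum_sub_distrib]
        refine Finset.sum_congr rfl fun i _ => ?_
        rw [Finset.mul_sum, ← Finset.sum_sub_distrib]
        exact Finset.sum_congr rfl fun j _ => by ring
      rw [e1]
      have h1 := hrcs x
      have h2 : (∑ i, r i * x i) ^ 2 = a * (∑ i, g i * x i) ^ 2 := by
        have : ∑ i, r i * x i = w * ∑ i, g i * x i := by
          rw [Finset.mul_sum]
          refine Finset.sum_congr rfl fun i _ => ?_
          simp only [hg]; field_simp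
        rw [this, mul_pow, sq w, hw2]
      rw [h2] at h1
      have := le_of_mul_le_mul_left h1 ha0
      linarith
  obtain ⟨b, hb⟩ := exists_gram B hB
  refine ⟨g, fun l i => b l i / g i, hg0, fun i j => ?_⟩
  have h1 := hb i j
  simp only [B] at h1
  have h2 : ∑ l, b l i / g i * (b l j / g j) = (∑ l, b l i * b l j) / (g i * g j) := by
    rw [Finset.sum_div]
    refine Finset.sum_congr rfl fun l _ => ?_
    have := (hg0 i).ne'
    have := (hg0 j).ne'
    field_simp
  rw [h2, ← h1]
  have := (hg0 i).ne'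
  have := (hg0 j).ne'
  field_simp
  ring

/-- targets whose edge matrix is negative semidefinite on a hyperplane are good -/
theorem good_anti {c : ℝ} (hc : 0 ≤ c) {α : Fin k → ℝ} {A : Fin k → Fin k → ℝ}
    (hα : ∀ i, 0 < α i) (hA : ∀ i j, 0 < A i j) (hs : ∀ i j, A i j = A j i)
    (h : ∃ g0 : Fin k → ℝ, ∀ x : Fin k → ℝ, ∑ i, g0 i * x i = 0 →
      ∑ i, ∑ j, x i * A i j * x j ≤ 0) : (α, A) ∈ Good c k := by
  obtain ⟨g0, h0⟩ := h
  obtain ⟨g, b, hg, hAg⟩ := anti_factor hA hs g0 h0
  obtain ⟨D, hD, hA1, hA2⟩ := exists_D hA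
  obtain ⟨D', hD', hg1, hg2⟩ := exists_D (A := fun i _ : Fin k => g i) (fun i _ => hg i)
  have H : AntiHyp α g A b (D + D') :=
    { hα := hα
      hD := by linarith
      hA1 := fun i j => (Real.exp_le_exp.2 (by linarith)).trans (hA1 i j)
      hA2 := fun i j => (hA2 i j).trans (Real.exp_le_exp.2 (by linarith))
      hg1 := fun i => (Real.exp_le_exp.2 (by linarith)).trans (hg1 i 0)
      hg2 := fun i => (hg2 i 0).trans (Real.exp_le_exp.2 (by linarith))
      hAg := hAg }
  exact ⟨⟨hα, hA⟩, hs, H.conv_aN hc⟩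

lemma lZ_state {V : Type*} [Fintype V] [DecidableEq V] (π : Equiv.Perm (Fin k))
    (α : Fin k → ℝ) (A : Fin k → Fin k → ℝ) (ω : V × V → Bool) :
    lZ (fun _ i => α (π i)) (fun i j => A (π i) (π j)) ω = lZ (fun _ i => α i) A ω := by
  unfold lZ
  congr 1
  have h := Equiv.sum_comp (Equiv.arrowCongr (Equiv.refl V) π)
    (fun σ => PW (fun _ i => α i) A ω σ)
  rw [← h]
  refine Finset.sum_congr rfl fun σ _ => ?_
  rfl

lemma Good_perm {c : ℝ} (π : Equiv.Perm (Fin k)) {α : Fin k → ℝ} {A : Fin k → Fin k → ℝ}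
    (h : ((fun i => α (π i)), (fun i j => A (π i) (π j))) ∈ Good c k) : (α, A) ∈ Good c k := by
  obtain ⟨⟨h1, h2⟩, h3, l, hl'⟩ := h
  refine ⟨⟨fun i => ?_, fun i j => ?_⟩, fun i j => ?_, l, ?_⟩
  · have := h1 (π.symm i); simpa using this
  · have := h2 (π.symm i) (π.symm j); simpa using this
  · have := h3 (π.symm i) (π.symm j); simpa using this
  · refine hl'.congr fun n => ?_
    unfold Phi
    congr 2
    funext ω
    exact lZ_state π α A ω

/-- Potts-type targets with comonotone weights are limits of good targets -/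
theorem good_potts {c : ℝ} (hc : 0 ≤ c) {α : Fin k → ℝ} {A : Fin k → Fin k → ℝ}
    (hα : ∀ i, 0 < α i) (hA : ∀ i j, 0 < A i j) (hs : ∀ i j, A i j = A j i)
    (h : ∃ (π : Equiv.Perm (Fin k)) (g θ : Fin k → ℝ), (∀ i, 0 < g i) ∧ (∀ i, 0 ≤ θ i) ∧
      Monotone (α ∘ π) ∧ Monotone (g ∘ π) ∧ Monotone (θ ∘ π) ∧
      ∀ i j, A i j = g i * g j * (1 + if i = j then θ i else 0)) :
    (α, A) ∈ closure (Good c k) := by
  obtain ⟨π, g, θ, hg, hθ, mα, mg, mθ, hAeq⟩ := h
  let Am : ℕ → Fin k → Fin k → ℝ := fun m i j =>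
    g i * g j * (1 + if i = j then θ i + 1 / ((m : ℝ) + 1) else 0)
  have hgood : ∀ m, (α, Am m) ∈ Good c k := by
    intro m
    refine Good_perm π ?_
    have hgM : (fun i => g (π i)) ∈ MW k := ⟨fun i => hg _, mg⟩
    have hθM : (fun i => θ (π i) + 1 / ((m : ℝ) + 1)) ∈ MW k :=
      ⟨fun i => by have := hθ (π i); positivity, fun i j hij => by
        have := mθ hij
        simp only [Function.comp_apply] at this
        simp only
        linarith⟩
    have hαM : (fun i => α (π i)) ∈ MW k := ⟨fun i => hα _, mα⟩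
    have hAe : (fun i j => Am m (π i) (π j)) =
        PA (fun i => g (π i)) (fun i => θ (π i) + 1 / ((m : ℝ) + 1)) := by
      funext i j
      simp only [Am, PA, EmbeddingLike.apply_eq_iff_eq]
    have hpos : ∀ i j, 0 < (fun i j => Am m (π i) (π j)) i j := by
      rw [hAe]; exact PA_pos hgM hθM
    obtain ⟨D, hD, hA1, hA2⟩ := exists_D hpos
    refine ⟨⟨fun i => hα _, hpos⟩, fun i j => ?_, ?_⟩
    · simp only [Am, EmbeddingLike.apply_eq_iff_eq]
      by_cases hij : i = j
      · subst hij; rfl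
      · rw [if_neg hij, if_neg (fun h => hij h.symm)]; ring
    · have hassoc := assoc_potts hgM hθM
      rw [← hAe] at hassoc
      exact hassoc.conv_aN hαM hD hA1 hA2 hc
  refine mem_closure_of_tendsto (f := fun m => (α, Am m)) (b := atTop) ?_
    (Eventually.of_forall hgood)
  refine Tendsto.prodMk_nhds tendsto_const_nhds ?_
  rw [tendsto_pi_nhds]
  intro i
  rw [tendsto_pi_nhds]
  intro j
  rw [hAeq i j]
  simp only [Am]
  refine Tendsto.const_mul _ (tendsto_const_nhds.add ?_)
  by_cases hij : i = j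
  · simp only [hij, if_true]
    have := (tendsto_one_div_add_atTop_nhds_zero_nat (𝕜 := ℝ)).const_add (θ j)
    simpa using this
  · simp only [hij, if_false]
    exact tendsto_const_nhds

end classes

end Pool.Agent.Lib.MP_7587db
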