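import Pool.Agent.Lib.MP_7587db.Phi

set_option autoImplicit false
set_option linter.unusedSectionVars false
set_option linter.unusedVariables false

namespace Pool.Agent.Lib.MP_7587db

open Finset Function

section coupling

variable {k : ℕ} [NeZero k] {V : Type*} [Fintype V] [DecidableEq V] [LinearOrder V]

/-- edge probabilities of the undirected model, with each pair listed once -/
noncomputable def pU (V : Type*) [Fintype V] [LinearOrder V] (c : ℝ) (e : V × V) : ℝ :=
  if e.1 < e.2 then c / Fintype.card V else 0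

/-- the edge term -/
noncomputable def EE (α : Fin k → ℝ) (A : Fin k → Fin k → ℝ) (e : V × V) (ω : V × V → Bool) : ℝ :=
  Real.log (gE (PW (fun _ i => α i) A ω) (fun σ => A (σ e.1) (σ e.2)))

lemma EE_swap {α : Fin k → ℝ} {A : Fin k → Fin k → ℝ} (hs : ∀ i j, A i j = A j i) (e : V × V)
    (ω : V × V → Bool) : EE α A e.swap ω = EE α A e ω := by
  unfold EE
  congr 1
  exact gE_congr _ fun σ => hs _ _

lemma bD_EE {α : Fin k → ℝ} {A : Fin k → Fin k → ℝ} (hα : ∀ i, 0 < α i)
    (hA : ∀ i j, 0 < A i j) (e : V × V) (ω : V × V → Bool) :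
    bD e (lZ (fun _ i => α i) A) ω = EE α A e (update ω e false) := by
  unfold bD
  exact lZ_bD (fun _ => hα) hA ω e

lemma bD_sub_EE {α : Fin k → ℝ} {A : Fin k → Fin k → ℝ} (hα : ∀ i, 0 < α i)
    {D : ℝ} (hA1 : ∀ i j, Real.exp (-D) ≤ A i j) (hA2 : ∀ i j, A i j ≤ Real.exp D)
    (e : V × V) (ω : V × V → Bool) :
    |bD e (lZ (fun _ i => α i) A) ω - EE α A e ω| ≤ 2 * D * cond (ω e) (1 : ℝ) 0 := by
  have hA : ∀ i j, 0 < A i j := fun i j => (Real.exp_pos _).trans_le (hA1 i j)
  have hb : ∀ ω : V × V → Bool, |EE α A e ω| ≤ D := fun ω =>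
    abs_log_gE_le (PW_pos (fun _ => hα) hA ω) (fun σ => hA1 _ _) (fun σ => hA2 _ _)
  rw [bD_EE hα hA]
  cases hω : ω e
  · have : update ω e false = ω := by rw [← hω]; exact update_eq_self e ω
    rw [this]; simp
  · have a1 := hb (update ω e false)
    have a2 := hb ω
    have a3 := abs_sub (EE α A e (update ω e false)) (EE α A e ω)
    simp only [cond_true, mul_one]
    linarith

/-- comparison of the directed and the undirected models -/
lemma coupling [Nonempty V] {α : Fin k → ℝ} {A : Fin k → Fin k → ℝ} (hα : ∀ i, 0 < α i)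
    (hs : ∀ i j, A i j = A j i) {D : ℝ} (hD : 0 ≤ D)
    (hA1 : ∀ i j, Real.exp (-D) ≤ A i j) (hA2 : ∀ i j, A i j ≤ Real.exp D)
    {c : ℝ} (hc : 0 ≤ c) (hcV : c ≤ Fintype.card V) :
    |Phi V c α A - bE (pU V c) (lZ (fun _ i => α i) A)| ≤ (c ^ 2 + c) * D / 2 := by
  have hA : ∀ i j, 0 < A i j := fun i j => (Real.exp_pos _).trans_le (hA1 i j)
  have hN : (0 : ℝ) < Fintype.card V := by exact_mod_cast Fintype.card_pos
  set N : ℝ := (Fintype.card V : ℝ) with hNdef
  set F : (V × V → Bool) → ℝ := lZ (fun _ i => α i) A with hF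
  set q : V × V → ℝ := fun _ => c / (2 * N) with hq
  let P : ℝ → V × V → ℝ := fun t e => pU V c e + t * (q e - pU V c e)
  have hpU0 : ∀ e, 0 ≤ pU V c e := fun e => by unfold pU; split_ifs <;> positivity
  have hpU1 : ∀ e, pU V c e ≤ 1 := fun e => by
    unfold pU; split_ifs
    · rw [div_le_one hN]; exact hcV
    · exact zero_le_one
  have hq0 : ∀ e, 0 ≤ q e := fun e => by simp only [hq]; positivity
  have hq1 : ∀ e, q e ≤ 1 := fun e => by
    simp only [hq]; rw [div_le_one (by positivity)]; linarith
  have hP0 : ∀ t, 0 ≤ t → t ≤ 1 → ∀ e, 0 ≤ P t e := by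
    intro t ht0 ht1 e
    have h1 := mul_nonneg ht0 (hq0 e)
    have h2 := mul_nonneg (sub_nonneg.2 ht1) (hpU0 e)
    simp only [P]; nlinarith
  have hP1 : ∀ t, 0 ≤ t → t ≤ 1 → ∀ e, P t e ≤ 1 := by
    intro t ht0 ht1 e
    have h1 := mul_nonneg ht0 (sub_nonneg.2 (hq1 e))
    have h2 := mul_nonneg (sub_nonneg.2 ht1) (sub_nonneg.2 (hpU1 e))
    simp only [P]; nlinarith
  have hder : ∀ t : ℝ, HasDerivAt (fun t => bE (P t) F)
      (∑ e, (q e - pU V c e) * bE (P t) (bD e F)) t := by
    intro t
    refine hasDerivAt_bE (p := P) (p' := fun e => q e - pU V c e) (t := t) (fun e => ?_) F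
    have := ((hasDerivAt_id t).mul_const (q e - pU V c e)).const_add (pU V c e)
    rw [one_mul] at this
    exact this
  have hbound : ∀ t : ℝ, 0 ≤ t → t ≤ 1 →
      |∑ e, (q e - pU V c e) * bE (P t) (bD e F)| ≤ (c ^ 2 + c) * D / 2 := by
    intro t ht0 ht1
    set g : V × V → ℝ := fun e => bE (P t) (bD e F) with hg
    have hgD : ∀ e, |g e| ≤ D := fun e =>
      abs_bE_bD_le (hP0 t ht0 ht1) (hP1 t ht0 ht1) (lZ_BDiff (fun _ => hα) hA1 hA2) e
    have hsw : ∀ e : V × V, e.1 ≠ e.2 → |g e - g e.swap| ≤ 2 * D * (c / N) := by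
      intro e he
      have h1 : ∀ e : V × V, |g e - bE (P t) (EE α A e)| ≤ 2 * D * P t e := by
        intro e
        rw [hg]; simp only
        rw [← bE_sub]
        refine (abs_bE_le (hP0 t ht0 ht1) (hP1 t ht0 ht1) _).trans ?_
        refine (bE_mono (hP0 t ht0 ht1) (hP1 t ht0 ht1)
          (fun ω => bD_sub_EE hα hA1 hA2 e ω)).trans (le_of_eq ?_)
        rw [bE_mul_left, bE_indicator]
      have h2 : bE (P t) (EE α A e.swap) = bE (P t) (EE α A e) := by
        congr 1; funext ω; exact EE_swap hs e ω
      have h3 : P t e + P t e.swap = c / N := by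
        simp only [P, hq, pU, Prod.fst_swap, Prod.snd_swap]
        rcases lt_or_gt_of_ne he with h | h
        · rw [if_pos h, if_neg (not_lt_of_gt h)]
          field_simp; ring
        · rw [if_neg (not_lt_of_gt h), if_pos h]
          field_simp; ring
      have a1 := abs_le.1 (h1 e)
      have a2 := abs_le.1 (h1 e.swap)
      rw [h2] at a2
      have : 2 * D * (c / N) = 2 * D * P t e + 2 * D * P t e.swap := by rw [← h3]; ring
      rw [this, abs_le]
      constructor <;> linarith [a1.1, a1.2, a2.1, a2.2]
    have hsym : ∑ e : V × V, (q e - pU V c e) * g e =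
        (1 / 2) * ∑ e : V × V, ((q e - pU V c e) * g e + (q e.swap - pU V c e.swap) * g e.swap) := by
      rw [Finset.sum_add_distrib]
      have : ∑ e : V × V, (q e.swap - pU V c e.swap) * g e.swap =
          ∑ e : V × V, (q e - pU V c e) * g e :=
        Equiv.sum_comp (Equiv.prodComm V V) (fun e => (q e - pU V c e) * g e)
      rw [this]; ring
    rw [hsym, abs_mul, abs_of_pos (by norm_num : (0 : ℝ) < 1 / 2)]
    have hterm : ∀ e : V × V,
        |(q e - pU V c e) * g e + (q e.swap - pU V c e.swap) * g e.swap| ≤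
        c ^ 2 * D / N ^ 2 + (if e.1 = e.2 then c * D / N else 0) := by
      intro e
      by_cases he : e.1 = e.2
      · have hse : e.swap = e := Prod.ext he.symm he
        rw [hse, if_pos he]
        have hpe : pU V c e = 0 := by unfold pU; rw [if_neg (by rw [he]; exact lt_irrefl _)]
        rw [hpe, sub_zero]
        have : q e * g e + q e * g e = c / N * g e := by simp only [hq]; field_simp; ring
        rw [this, abs_mul, abs_of_nonneg (by positivity)]
        have h1 : c / N * |g e| ≤ c / N * D := mul_le_mul_of_nonneg_left (hgD e) (by positivity)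
        have h2 : 0 ≤ c ^ 2 * D / N ^ 2 := by positivity
        have h3 : c / N * D = c * D / N := by ring
        linarith
      · rw [if_neg he, add_zero]
        have hmain : |(q e - pU V c e) * g e + (q e.swap - pU V c e.swap) * g e.swap| ≤
            c / (2 * N) * |g e - g e.swap| := by
          simp only [hq, pU, Prod.fst_swap, Prod.snd_swap]
          rcases lt_or_gt_of_ne he with h | h
          · rw [if_pos h, if_neg (not_lt_of_gt h)]
            have : (c / (2 * N) - c / Fintype.card V) * g e + (c / (2 * N) - 0) * g e.swap =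
                -(c / (2 * N) * (g e - g e.swap)) := by
              rw [← hNdef]; field_simp; ring
            rw [this, abs_neg, abs_mul, abs_of_nonneg (by positivity)]
          · rw [if_neg (not_lt_of_gt h), if_pos h]
            have : (c / (2 * N) - 0) * g e + (c / (2 * N) - c / Fintype.card V) * g e.swap =
                (c / (2 * N) * (g e - g e.swap)) := by
              rw [← hNdef]; field_simp; ring
            rw [this, abs_mul, abs_of_nonneg (by positivity)]
        refine hmain.trans ?_
        calc c / (2 * N) * |g e - g e.swap| ≤ c / (2 * N) * (2 * D * (c / N)) :=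
              mul_le_mul_of_nonneg_left (hsw e he) (by positivity)
          _ = c ^ 2 * D / N ^ 2 := by field_simp
    have hsum := (Finset.abs_sum_le_sum_abs (fun e : V × V => (q e - pU V c e) * g e +
      (q e.swap - pU V c e.swap) * g e.swap) univ).trans (Finset.sum_le_sum fun e _ => hterm e)
    have htot : ∑ e : V × V, (c ^ 2 * D / N ^ 2 + (if e.1 = e.2 then c * D / N else 0)) =
        c ^ 2 * D + c * D := by
      rw [Finset.sum_add_distrib, Fintype.sum_prod_type (f := fun e : V × V =>
        (if e.1 = e.2 then c * D / N else 0))]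
      simp only [Finset.sum_const, Finset.card_univ, Fintype.card_prod, nsmul_eq_mul,
        Finset.sum_ite_eq, Finset.mem_univ, if_true]
      push_cast
      rw [← hNdef]
      field_simp
    rw [htot] at hsum
    linarith
  have hmv := norm_image_sub_le_of_norm_deriv_le_segment' (f := fun t => bE (P t) F)
    (f' := fun t => ∑ e, (q e - pU V c e) * bE (P t) (bD e F)) (a := 0) (b := 1)
    (C := (c ^ 2 + c) * D / 2) (fun t _ => (hder t).hasDerivWithinAt)
    (fun t ht => by rw [Real.norm_eq_abs]; exact hbound t ht.1 ht.2.le) 1 (by simp)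
  have e1 : P 1 = q := by funext e; simp [P]
  have e0 : P 0 = pU V c := by funext e; simp [P]
  simp only [e1, e0, Real.norm_eq_abs, sub_zero, mul_one] at hmv
  exact hmv

end coupling

end Pool.Agent.Lib.MP_7587db
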