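import Pool.Agent.Lib.MP_7587db.Classes

set_option autoImplicit false

namespace Pool.Agent.Lib.MP_7587db

open Finset Function Filter MeasureTheory ProbabilityTheory

/-- almost sure convergence for log-supermodular targets -/
theorem final_lattice :
  ∀ c : ℝ, 0 < c →
  ∀ (Ω : Type) [MeasurableSpace Ω] (μ : MeasureTheory.Measure Ω) [MeasureTheory.IsProbabilityMeasure μ]
    (X : (Σ n : ℕ, Fin n × Fin n) → Ω → Bool),
    (∀ i, Measurable (X i)) →
    ProbabilityTheory.iIndepFun X μ →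
    (∀ i, μ {ω | X i ω = true} = ENNReal.ofReal (min 1 (c / (i.1 : ℝ)))) →
    ∀ᵐ ω ∂μ, ∀ (k : ℕ) (α : Fin k → ℝ) (A : Matrix (Fin k) (Fin k) ℝ),
      (∀ i, 0 < α i) → A.IsSymm → (∀ i j, 0 < A i j) →
      (∃ (S : Type) (_ : DistribLattice S) (e : Fin k ≃ S),
        (∀ i j, α i * α j ≤ α (e.symm (e i ⊓ e j)) * α (e.symm (e i ⊔ e j))) ∧
        ∀ i j i' j', A i j * A i' j' ≤
          A (e.symm (e i ⊓ e i')) (e.symm (e j ⊓ e j')) *
          A (e.symm (e i ⊔ e i')) (e.symm (e j ⊔ e j'))) →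
      ∃ L : ℝ, Filter.Tendsto
        (fun n : ℕ => -(1 / (n : ℝ)) * Real.log
          (∑ σ : Fin n → Fin k, (∏ u, α (σ u)) *
            ∏ p ∈ Finset.univ.filter (fun p : Fin n × Fin n => p.1 < p.2 ∧ X ⟨n, p⟩ ω = true),
              A (σ p.1) (σ p.2)))
        Filter.atTop (nhds L) := by
  intro c hc Ω _ μ _ X hm hi hp
  have h := ae_final hc hi hm hp
    (fun k α A => ∃ (S : Type) (_ : DistribLattice S) (e : Fin k ≃ S),
        (∀ i j, α i * α j ≤ α (e.symm (e i ⊓ e j)) * α (e.symm (e i ⊔ e j))) ∧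
        ∀ i j i' j', A i j * A i' j' ≤
          A (e.symm (e i ⊓ e i')) (e.symm (e j ⊓ e j')) *
          A (e.symm (e i ⊔ e i')) (e.symm (e j ⊔ e j')))
    (fun k _ α A hα hA hs hP => by
      obtain ⟨S, _, e, h1, h2⟩ := hP
      have : Fintype S := Fintype.ofEquiv (Fin k) e
      exact subset_closure (good_lattice hc.le e hα hA hs h1 h2))
  filter_upwards [h] with ω hω
  intro k α A hα hs hA hP
  exact hω k α A hα hA (fun i j => hs.apply j i) hP

/-- almost sure convergence for targets negative semidefinite on a hyperplane -/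
theorem final_anti :
  ∀ c : ℝ, 0 < c →
  ∀ (Ω : Type) [MeasurableSpace Ω] (μ : MeasureTheory.Measure Ω) [MeasureTheory.IsProbabilityMeasure μ]
    (X : (Σ n : ℕ, Fin n × Fin n) → Ω → Bool),
    (∀ i, Measurable (X i)) →
    ProbabilityTheory.iIndepFun X μ →
    (∀ i, μ {ω | X i ω = true} = ENNReal.ofReal (min 1 (c / (i.1 : ℝ)))) →
    ∀ᵐ ω ∂μ, ∀ (k : ℕ) (α : Fin k → ℝ) (A : Matrix (Fin k) (Fin k) ℝ),
      (∀ i, 0 < α i) → A.IsSymm → (∀ i j, 0 < A i j) →
      (∃ v : Fin k → ℝ, ∀ x : Fin k → ℝ, ∑ i, v i * x i = 0 →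
        ∑ i, ∑ j, x i * A i j * x j ≤ 0) →
      ∃ L : ℝ, Filter.Tendsto
        (fun n : ℕ => -(1 / (n : ℝ)) * Real.log
          (∑ σ : Fin n → Fin k, (∏ u, α (σ u)) *
            ∏ p ∈ Finset.univ.filter (fun p : Fin n × Fin n => p.1 < p.2 ∧ X ⟨n, p⟩ ω = true),
              A (σ p.1) (σ p.2)))
        Filter.atTop (nhds L) := by
  intro c hc Ω _ μ _ X hm hi hp
  have h := ae_final hc hi hm hp
    (fun k α A => ∃ v : Fin k → ℝ, ∀ x : Fin k → ℝ, ∑ i, v i * x i = 0 →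
        ∑ i, ∑ j, x i * A i j * x j ≤ 0)
    (fun k _ α A hα hA hs hP => subset_closure (good_anti hc.le hα hA hs hP))
  filter_upwards [h] with ω hω
  intro k α A hα hs hA hP
  exact hω k α A hα hA (fun i j => hs.apply j i) hP

/-- almost sure convergence for Potts-type targets with comonotone weights -/
theorem final_potts :
  ∀ c : ℝ, 0 < c →
  ∀ (Ω : Type) [MeasurableSpace Ω] (μ : MeasureTheory.Measure Ω) [MeasureTheory.IsProbabilityMeasure μ]
    (X : (Σ n : ℕ, Fin n × Fin n) → Ω → Bool),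
    (∀ i, Measurable (X i)) →
    ProbabilityTheory.iIndepFun X μ →
    (∀ i, μ {ω | X i ω = true} = ENNReal.ofReal (min 1 (c / (i.1 : ℝ)))) →
    ∀ᵐ ω ∂μ, ∀ (k : ℕ) (α : Fin k → ℝ) (A : Matrix (Fin k) (Fin k) ℝ),
      (∀ i, 0 < α i) → A.IsSymm → (∀ i j, 0 < A i j) →
      (∃ (π : Equiv.Perm (Fin k)) (g θ : Fin k → ℝ), (∀ i, 0 < g i) ∧ (∀ i, 0 ≤ θ i) ∧
        Monotone (α ∘ π) ∧ Monotone (g ∘ π) ∧ Monotone (θ ∘ π) ∧
        ∀ i j, A i j = g i * g j * (1 + if i = j then θ i else 0)) →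
      ∃ L : ℝ, Filter.Tendsto
        (fun n : ℕ => -(1 / (n : ℝ)) * Real.log
          (∑ σ : Fin n → Fin k, (∏ u, α (σ u)) *
            ∏ p ∈ Finset.univ.filter (fun p : Fin n × Fin n => p.1 < p.2 ∧ X ⟨n, p⟩ ω = true),
              A (σ p.1) (σ p.2)))
        Filter.atTop (nhds L) := by
  intro c hc Ω _ μ _ X hm hi hp
  have h := ae_final hc hi hm hp
    (fun k α A => ∃ (π : Equiv.Perm (Fin k)) (g θ : Fin k → ℝ), (∀ i, 0 < g i) ∧
        (∀ i, 0 ≤ θ i) ∧ Monotone (α ∘ π) ∧ Monotone (g ∘ π) ∧ Monotone (θ ∘ π) ∧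
        ∀ i j, A i j = g i * g j * (1 + if i = j then θ i else 0))
    (fun k _ α A hα hA hs hP => good_potts hc.le hα hA hs hP)
  filter_upwards [h] with ω hω
  intro k α A hα hs hA hP
  exact hω k α A hα hA (fun i j => hs.apply j i) hP

end Pool.Agent.Lib.MP_7587db
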