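import Pool.Agent.Lib.MP_7587db.Model

set_option autoImplicit false
set_option linter.unusedSectionVars false
set_option linter.unusedVariables false

namespace Pool.Agent.Lib.MP_7587db

open Finset Function

section lattice

variable {k : ℕ} {L : Type} [DistribLattice L] [Fintype L]

/-- meet of two states, for the lattice structure transported along `e` -/
def mt (e : Fin k ≃ L) (i j : Fin k) : Fin k := e.symm (e i ⊓ e j)

/-- join of two states, for the lattice structure transported along `e` -/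
def jn (e : Fin k ≃ L) (i j : Fin k) : Fin k := e.symm (e i ⊔ e j)

/-- log-supermodular site weights -/
def LSM1 (e : Fin k ≃ L) (w : Fin k → ℝ) : Prop :=
  ∀ i j, w i * w j ≤ w (mt e i j) * w (jn e i j)

/-- log-supermodular edge weights -/
def LSM2 (e : Fin k ≃ L) (A : Fin k → Fin k → ℝ) : Prop :=
  ∀ i j i' j', A i j * A i' j' ≤ A (mt e i i') (mt e j j') * A (jn e i i') (jn e j j')

variable {V : Type*} [Fintype V] [DecidableEq V]

/-- log-supermodular weights of configurations -/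
def LSMV (e : Fin k ≃ L) (W : (V → Fin k) → ℝ) : Prop :=
  ∀ σ τ, W σ * W τ ≤ W (fun u => mt e (σ u) (τ u)) * W (fun u => jn e (σ u) (τ u))

lemma sum_transport (e : Fin k ≃ L) (f : (V → Fin k) → ℝ) :
    ∑ τ : V → L, f (fun u => e.symm (τ u)) = ∑ σ, f σ := by
  have := Equiv.sum_comp (Equiv.arrowCongr (Equiv.refl V) e.symm) f
  rw [← this]
  rfl

lemma four_e (e : Fin k ≃ L) {f₁ f₂ f₃ f₄ : (V → Fin k) → ℝ} (h₁ : ∀ σ, 0 ≤ f₁ σ)
    (h₂ : ∀ σ, 0 ≤ f₂ σ) (h₃ : ∀ σ, 0 ≤ f₃ σ) (h₄ : ∀ σ, 0 ≤ f₄ σ)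
    (h : ∀ σ τ, f₁ σ * f₂ τ ≤ f₃ (fun u => mt e (σ u) (τ u)) * f₄ (fun u => jn e (σ u) (τ u))) :
    (∑ σ, f₁ σ) * ∑ σ, f₂ σ ≤ (∑ σ, f₃ σ) * ∑ σ, f₄ σ := by
  have := four_functions_theorem_univ (α := V → L) (β := ℝ)
    (fun τ => f₁ (fun u => e.symm (τ u))) (fun τ => f₂ (fun u => e.symm (τ u)))
    (fun τ => f₃ (fun u => e.symm (τ u))) (fun τ => f₄ (fun u => e.symm (τ u)))
    (fun τ => h₁ _) (fun τ => h₂ _) (fun τ => h₃ _) (fun τ => h₄ _) (fun a b => by
      have := h (fun u => e.symm (a u)) (fun u => e.symm (b u))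
      simpa [mt, jn] using this)
  simpa only [sum_transport] using this

/-- increasing functions of the configuration -/
def MonoE (e : Fin k ≃ L) (f : (V → Fin k) → ℝ) : Prop :=
  ∀ σ τ : V → Fin k, (∀ u, e (σ u) ≤ e (τ u)) → f σ ≤ f τ

lemma fkg_cov_nonneg [NeZero k] (e : Fin k ≃ L) {W : (V → Fin k) → ℝ} (hW : ∀ σ, 0 < W σ)
    (hL : LSMV e W) {f g : (V → Fin k) → ℝ} (hf : MonoE e f) (hg : MonoE e g) :
    0 ≤ cov W f g := by
  set cf := ∑ τ, |f τ| with hcf
  set cg := ∑ τ, |g τ| with hcg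
  have hf0 : ∀ σ, 0 ≤ f σ + cf := by
    intro σ
    have : |f σ| ≤ cf :=
      Finset.single_le_sum (f := fun τ => |f τ|) (fun τ _ => abs_nonneg _) (Finset.mem_univ σ)
    linarith [neg_abs_le (f σ)]
  have hg0 : ∀ σ, 0 ≤ g σ + cg := by
    intro σ
    have : |g σ| ≤ cg :=
      Finset.single_le_sum (f := fun τ => |g τ|) (fun τ _ => abs_nonneg _) (Finset.mem_univ σ)
    linarith [neg_abs_le (g σ)]
  have hle1 : ∀ i j : Fin k, e i ≤ e (jn e i j) := fun i j => by simp [jn]
  have hle2 : ∀ i j : Fin k, e j ≤ e (jn e i j) := fun i j => by simp [jn]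
  have key : 0 ≤ cov W (fun σ => f σ + cf) (fun σ => g σ + cg) := by
    have h := four_e e (f₁ := fun σ => W σ * (f σ + cf)) (f₂ := fun σ => W σ * (g σ + cg))
      (f₃ := W) (f₄ := fun σ => W σ * ((f σ + cf) * (g σ + cg)))
      (fun σ => mul_nonneg (hW σ).le (hf0 σ)) (fun σ => mul_nonneg (hW σ).le (hg0 σ))
      (fun σ => (hW σ).le) (fun σ => mul_nonneg (hW σ).le (mul_nonneg (hf0 σ) (hg0 σ)))
      (fun σ τ => by
        set ρ : V → Fin k := fun u => jn e (σ u) (τ u) with hρ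
        have h1 : f σ + cf ≤ f ρ + cf := by
          have := hf σ ρ (fun u => hle1 _ _); linarith
        have h2 : g τ + cg ≤ g ρ + cg := by
          have := hg τ ρ (fun u => hle2 _ _); linarith
        calc W σ * (f σ + cf) * (W τ * (g τ + cg))
            = (W σ * W τ) * ((f σ + cf) * (g τ + cg)) := by ring
          _ ≤ (W (fun u => mt e (σ u) (τ u)) * W ρ) * ((f ρ + cf) * (g ρ + cg)) := by
              refine mul_le_mul (hL σ τ) ?_ (mul_nonneg (hf0 σ) (hg0 τ))
                (mul_nonneg (hW _).le (hW _).le)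
              exact mul_le_mul h1 h2 (hg0 τ) (hf0 ρ)
          _ = _ := by ring)
    unfold cov gE
    have hpos := sum_W_pos hW
    rw [sub_nonneg, div_mul_div_comm, div_le_div_iff₀ (mul_pos hpos hpos) hpos]
    calc _ = ((∑ a, W a * (f a + cf)) * ∑ a, W a * (g a + cg)) * ∑ σ, W σ := by ring
      _ ≤ ((∑ a, W a) * ∑ a, W a * ((f a + cf) * (g a + cg))) * ∑ σ, W σ :=
          mul_le_mul_of_nonneg_right h hpos.le
      _ = _ := by ring
  have e1 : cov W (fun σ => f σ + cf) (fun σ => g σ + cg) = cov W f g := by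
    rw [cov_add_left, cov_const_left hW, cov_add_right, cov_comm W f (fun _ => cg),
      cov_const_left hW]
    ring
  rwa [e1] at key

/-- the scale: size of the principal down-set -/
noncomputable def sL (e : Fin k ≃ L) (i : Fin k) : ℝ := by
  classical
  exact ((univ.filter (fun j => e j ≤ e i)).card : ℝ)

lemma sL_nonneg (e : Fin k ≃ L) (i : Fin k) : 0 ≤ sL e i := by
  unfold sL; positivity

lemma sL_le (e : Fin k ≃ L) (i : Fin k) : sL e i ≤ k := by
  classical
  unfold sL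
  have := Finset.card_le_univ (univ.filter (fun j => e j ≤ e i))
  rw [Fintype.card_fin] at this
  exact_mod_cast this

lemma sL_lt (e : Fin k ≃ L) {i j : Fin k} (h : e i < e j) : sL e i + 1 ≤ sL e j := by
  classical
  unfold sL
  have : (univ.filter (fun l => e l ≤ e i)).card < (univ.filter (fun l => e l ≤ e j)).card := by
    refine Finset.card_lt_card ?_
    rw [Finset.ssubset_iff_of_subset]
    · exact ⟨j, by simp, by simpa using not_le_of_gt h⟩
    · intro l hl
      simp only [Finset.mem_filter, Finset.mem_univ, true_and] at hl ⊢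
      exact hl.trans h.le
  exact_mod_cast this

lemma sL_super (e : Fin k ≃ L) (i j : Fin k) :
    sL e i + sL e j ≤ sL e (mt e i j) + sL e (jn e i j) := by
  classical
  unfold sL
  have h1 : (univ.filter (fun l => e l ≤ e (mt e i j))) =
      (univ.filter (fun l => e l ≤ e i)) ∩ (univ.filter (fun l => e l ≤ e j)) := by
    ext l; simp [mt]
  have h2 : (univ.filter (fun l => e l ≤ e i)) ∪ (univ.filter (fun l => e l ≤ e j)) ⊆
      (univ.filter (fun l => e l ≤ e (jn e i j))) := by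
    intro l hl
    simp only [Finset.mem_union, Finset.mem_filter, Finset.mem_univ, true_and, jn,
      Equiv.apply_symm_apply] at hl ⊢
    rcases hl with hl | hl
    · exact hl.trans le_sup_left
    · exact hl.trans le_sup_right
  have h3 := Finset.card_union_add_card_inter (univ.filter (fun l => e l ≤ e i))
    (univ.filter (fun l => e l ≤ e j))
  have h4 := Finset.card_le_card h2
  rw [h1]
  have h5 : (univ.filter (fun l => e l ≤ e i)).card + (univ.filter (fun l => e l ≤ e j)).card ≤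
      ((univ.filter (fun l => e l ≤ e i)) ∩ (univ.filter (fun l => e l ≤ e j))).card +
      (univ.filter (fun l => e l ≤ e (jn e i j))).card := by omega
  exact_mod_cast h5

lemma LSMV.dec [NeZero k] {e : Fin k ≃ L} {W : (V → Fin k) → ℝ} (hW : ∀ σ, 0 < W σ)
    (hL : LSMV e W) : Dec (sL e) W := by
  intro u v φ ψ M M' hφ hψ
  have hmon : ∀ (x : V) (χ : Fin k → ℝ) (K : ℝ), (∀ i j, |χ i - χ j| ≤ K) →
      MonoE e (fun σ : V → Fin k => K * sv (sL e) x σ + χ (σ x)) := by
    intro x χ K hK σ τ h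
    have hx : e (σ x) ≤ e (τ x) := h x
    have hK0 : 0 ≤ K := (abs_nonneg _).trans (hK 0 0)
    simp only [sv]
    rcases hx.eq_or_lt with heq | hlt
    · rw [e.injective heq]
    · have h1 := sL_lt e hlt
      have h2 := (abs_le.1 (hK (σ x) (τ x))).2
      nlinarith
  have hneg : ∀ (χ : Fin k → ℝ) (K : ℝ), (∀ i j, |χ i - χ j| ≤ K) →
      (∀ i j, |(fun i => -χ i) i - (fun i => -χ i) j| ≤ K) := by
    intro χ K hK i j
    have := hK j i
    simpa [neg_add_eq_sub] using this
  have p1 := fkg_cov_nonneg e hW hL (hmon u φ M hφ) (hmon v ψ M' hψ)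
  have p2 := fkg_cov_nonneg e hW hL (hmon u (fun i => -φ i) M (hneg φ M hφ))
    (hmon v (fun i => -ψ i) M' (hneg ψ M' hψ))
  have p3 := fkg_cov_nonneg e hW hL (hmon u φ M hφ) (hmon v (fun i => -ψ i) M' (hneg ψ M' hψ))
  have p4 := fkg_cov_nonneg e hW hL (hmon u (fun i => -φ i) M (hneg φ M hφ)) (hmon v ψ M' hψ)
  have en : ∀ (f g : (V → Fin k) → ℝ), cov W (fun σ => - f σ) g = - cov W f g := by
    intro f g
    have := cov_mul_left W (-1) f g
    simpa using this
  have en' : ∀ (f g : (V → Fin k) → ℝ), cov W f (fun σ => - g σ) = - cov W f g := by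
    intro f g
    rw [cov_comm, en, cov_comm]
  simp only [cov_add_left, cov_add_right, cov_mul_left, cov_mul_right, en, en'] at p1 p2 p3 p4
  rw [abs_le]
  constructor <;> linarith

lemma PW_LSMV {e : Fin k ≃ L} {a : V → Fin k → ℝ} {A : Fin k → Fin k → ℝ}
    (ha : ∀ u i, 0 < a u i) (ha2 : ∀ u, LSM1 e (a u)) (hA : ∀ i j, 0 < A i j)
    (hA2 : LSM2 e A) (ω : V × V → Bool) : LSMV e (PW a A ω) := by
  intro σ τ
  unfold PW
  have h1 : (∏ u, a u (σ u)) * (∏ u, a u (τ u)) ≤
      (∏ u, a u (mt e (σ u) (τ u))) * (∏ u, a u (jn e (σ u) (τ u))) := by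
    rw [← Finset.prod_mul_distrib, ← Finset.prod_mul_distrib]
    exact Finset.prod_le_prod (fun u _ => (mul_pos (ha _ _) (ha _ _)).le) fun u _ => ha2 u _ _
  have h2 : (∏ e' : V × V, cond (ω e') (A (σ e'.1) (σ e'.2)) 1) *
      (∏ e' : V × V, cond (ω e') (A (τ e'.1) (τ e'.2)) 1) ≤
      (∏ e' : V × V, cond (ω e') (A (mt e (σ e'.1) (τ e'.1)) (mt e (σ e'.2) (τ e'.2))) 1) *
      (∏ e' : V × V, cond (ω e') (A (jn e (σ e'.1) (τ e'.1)) (jn e (σ e'.2) (τ e'.2))) 1) := by
    rw [← Finset.prod_mul_distrib, ← Finset.prod_mul_distrib]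
    refine Finset.prod_le_prod (fun e' _ => ?_) fun e' _ => ?_
    · cases ω e'
      · simp
      · exact (mul_pos (hA _ _) (hA _ _)).le
    · cases ω e'
      · simp
      · exact hA2 _ _ _ _
  have h0 : 0 ≤ (∏ u, a u (mt e (σ u) (τ u))) * (∏ u, a u (jn e (σ u) (τ u))) :=
    mul_nonneg (Finset.prod_nonneg fun u _ => (ha u _).le) (Finset.prod_nonneg fun u _ => (ha u _).le)
  have h00 : 0 ≤ (∏ e' : V × V, cond (ω e') (A (σ e'.1) (σ e'.2)) 1) *
      (∏ e' : V × V, cond (ω e') (A (τ e'.1) (τ e'.2)) 1) := by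
    rw [← Finset.prod_mul_distrib]
    refine Finset.prod_nonneg fun e' _ => ?_
    cases ω e'
    · simp
    · exact (mul_pos (hA _ _) (hA _ _)).le
  calc _ = ((∏ u, a u (σ u)) * (∏ u, a u (τ u))) *
      ((∏ e' : V × V, cond (ω e') (A (σ e'.1) (σ e'.2)) 1) *
      (∏ e' : V × V, cond (ω e') (A (τ e'.1) (τ e'.2)) 1)) := by ring
    _ ≤ ((∏ u, a u (mt e (σ u) (τ u))) * (∏ u, a u (jn e (σ u) (τ u)))) *
      ((∏ e' : V × V, cond (ω e') (A (mt e (σ e'.1) (τ e'.1)) (mt e (σ e'.2) (τ e'.2))) 1) *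
      (∏ e' : V × V, cond (ω e') (A (jn e (σ e'.1) (τ e'.1)) (jn e (σ e'.2) (τ e'.2))) 1)) :=
        mul_le_mul h1 h2 h00 h0
    _ = _ := by ring

/-- the class of positive log-supermodular site weights -/
def WL (e : Fin k ≃ L) : Set (Fin k → ℝ) := {w | (∀ i, 0 < w i) ∧ LSM1 e w}

/-- log-supermodular models are associated -/
theorem assoc_lattice [NeZero k] (e : Fin k ≃ L) {A : Fin k → Fin k → ℝ}
    (hA : ∀ i j, 0 < A i j) (hA2 : LSM2 e A) : Assoc (WL e) A (sL e) k where
  posA := hA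
  pos := fun w hw => hw.1
  mul := fun w hw w' hw' => ⟨fun i => mul_pos (hw.1 i) (hw'.1 i), fun i j => by
    calc w i * w' i * (w j * w' j) = (w i * w j) * (w' i * w' j) := by ring
      _ ≤ (w (mt e i j) * w (jn e i j)) * (w' (mt e i j) * w' (jn e i j)) :=
          mul_le_mul (hw.2 i j) (hw'.2 i j) (mul_pos (hw'.1 _) (hw'.1 _)).le
            (mul_pos (hw.1 _) (hw.1 _)).le
      _ = _ := by ring⟩
  field := fun l hl => ⟨fun i => Real.exp_pos _, fun i j => by
    rw [← Real.exp_add, ← Real.exp_add, ← mul_add, ← mul_add]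
    exact Real.exp_le_exp.2 (mul_le_mul_of_nonneg_left (sL_super e i j) hl)⟩
  s_nonneg := sL_nonneg e
  s_le := sL_le e
  decor := fun V _ _ a ω ha => LSMV.dec (PW_pos (fun u => (ha u).1) hA ω)
    (PW_LSMV (fun u => (ha u).1) (fun u => (ha u).2) hA hA2 ω)
  msg := fun V _ _ a ω v ha => by
    have hW := PW_pos (fun u => (ha u).1) hA ω
    have hL := PW_LSMV (fun u => (ha u).1) (fun u => (ha u).2) hA hA2 ω
    refine ⟨fun i => gE_pos hW fun σ => hA _ _, fun i j => ?_⟩
    have h := four_e e (f₁ := fun σ : V → Fin k => PW a A ω σ * A i (σ v))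
      (f₂ := fun σ => PW a A ω σ * A j (σ v))
      (f₃ := fun σ => PW a A ω σ * A (mt e i j) (σ v))
      (f₄ := fun σ => PW a A ω σ * A (jn e i j) (σ v))
      (fun σ => (mul_pos (hW σ) (hA _ _)).le) (fun σ => (mul_pos (hW σ) (hA _ _)).le)
      (fun σ => (mul_pos (hW σ) (hA _ _)).le) (fun σ => (mul_pos (hW σ) (hA _ _)).le)
      (fun σ τ => by
        calc PW a A ω σ * A i (σ v) * (PW a A ω τ * A j (τ v))
            = (PW a A ω σ * PW a A ω τ) * (A i (σ v) * A j (τ v)) := by ring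
          _ ≤ (PW a A ω (fun u => mt e (σ u) (τ u)) * PW a A ω (fun u => jn e (σ u) (τ u))) *
              (A (mt e i j) (mt e (σ v) (τ v)) * A (jn e i j) (jn e (σ v) (τ v))) :=
              mul_le_mul (hL σ τ) (hA2 _ _ _ _) (mul_pos (hA _ _) (hA _ _)).le
                (mul_pos (hW _) (hW _)).le
          _ = _ := by ring)
    have hpos := sum_W_pos hW
    unfold gE
    rw [div_mul_div_comm, div_mul_div_comm]
    exact div_le_div_of_nonneg_right h (mul_pos hpos hpos).le

end lattice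

end Pool.Agent.Lib.MP_7587db
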