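import Mathlib

set_option autoImplicit false
set_option linter.unusedSectionVars false

namespace Pool.Agent.Lib.MP_7587db

open Finset

variable {S : Type*} [Fintype S] [Nonempty S]

/-- Gibbs expectation of `f` for the weight `W` -/
noncomputable def gE (W : S → ℝ) (f : S → ℝ) : ℝ := (∑ σ, W σ * f σ) / ∑ σ, W σ

lemma sum_W_pos {W : S → ℝ} (hW : ∀ σ, 0 < W σ) : 0 < ∑ σ, W σ :=
  Finset.sum_pos (fun σ _ => hW σ) Finset.univ_nonempty

lemma gE_const {W : S → ℝ} (hW : ∀ σ, 0 < W σ) (c : ℝ) : gE W (fun _ => c) = c := by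
  unfold gE
  rw [← Finset.sum_mul, mul_div_assoc, mul_div_cancel₀]
  exact (sum_W_pos hW).ne'

lemma gE_add (W : S → ℝ) (f g : S → ℝ) : gE W (fun σ => f σ + g σ) = gE W f + gE W g := by
  unfold gE
  simp only [mul_add, Finset.sum_add_distrib, add_div]

lemma gE_sub (W : S → ℝ) (f g : S → ℝ) : gE W (fun σ => f σ - g σ) = gE W f - gE W g := by
  unfold gE
  simp only [mul_sub, Finset.sum_sub_distrib, sub_div]

lemma gE_mul_left (W : S → ℝ) (c : ℝ) (f : S → ℝ) : gE W (fun σ => c * f σ) = c * gE W f := by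
  unfold gE
  rw [← mul_div_assoc, Finset.mul_sum]
  congr 1
  exact Finset.sum_congr rfl fun σ _ => by ring

lemma gE_mul_right (W : S → ℝ) (c : ℝ) (f : S → ℝ) : gE W (fun σ => f σ * c) = gE W f * c := by
  rw [mul_comm, ← gE_mul_left]
  simp only [mul_comm]

lemma gE_sum {β : Type*} (W : S → ℝ) (s : Finset β) (f : β → S → ℝ) :
    gE W (fun σ => ∑ b ∈ s, f b σ) = ∑ b ∈ s, gE W (f b) := by
  unfold gE
  simp only [Finset.mul_sum]
  rw [Finset.sum_comm, Finset.sum_div]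

lemma gE_mono {W : S → ℝ} (hW : ∀ σ, 0 < W σ) {f g : S → ℝ} (h : ∀ σ, f σ ≤ g σ) :
    gE W f ≤ gE W g := by
  unfold gE
  refine div_le_div_of_nonneg_right ?_ (sum_W_pos hW).le
  exact Finset.sum_le_sum fun σ _ => mul_le_mul_of_nonneg_left (h σ) (hW σ).le

lemma gE_le {W : S → ℝ} (hW : ∀ σ, 0 < W σ) {f : S → ℝ} {c : ℝ} (h : ∀ σ, f σ ≤ c) :
    gE W f ≤ c := by
  have := gE_mono hW (f := f) (g := fun _ => c) h
  rwa [gE_const hW] at this

lemma le_gE {W : S → ℝ} (hW : ∀ σ, 0 < W σ) {f : S → ℝ} {c : ℝ} (h : ∀ σ, c ≤ f σ) :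
    c ≤ gE W f := by
  have := gE_mono hW (f := fun _ => c) (g := f) h
  rwa [gE_const hW] at this

lemma gE_nonneg {W : S → ℝ} (hW : ∀ σ, 0 < W σ) {f : S → ℝ} (h : ∀ σ, 0 ≤ f σ) :
    0 ≤ gE W f := le_gE hW h

lemma gE_pos {W : S → ℝ} (hW : ∀ σ, 0 < W σ) {f : S → ℝ} (h : ∀ σ, 0 < f σ) :
    0 < gE W f := by
  unfold gE
  exact div_pos (Finset.sum_pos (fun σ _ => mul_pos (hW σ) (h σ)) Finset.univ_nonempty)
    (sum_W_pos hW)

lemma gE_congr (W : S → ℝ) {f g : S → ℝ} (h : ∀ σ, f σ = g σ) : gE W f = gE W g := by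
  have : f = g := funext h
  rw [this]

/-- expectation under a tilted weight -/
lemma gE_tilt {W φ : S → ℝ} (hW : ∀ σ, 0 < W σ) (hφ : ∀ σ, 0 < φ σ) (f : S → ℝ) :
    gE (fun σ => W σ * φ σ) f = gE W (fun σ => φ σ * f σ) / gE W φ := by
  unfold gE
  have h1 := (sum_W_pos hW).ne'
  have h2 : (∑ σ, W σ * φ σ) ≠ 0 := (sum_W_pos (fun σ => mul_pos (hW σ) (hφ σ))).ne'
  have h3 : ∑ σ, W σ * φ σ * f σ = ∑ σ, W σ * (φ σ * f σ) :=
    Finset.sum_congr rfl fun σ _ => by ring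
  rw [h3]
  field_simp

/-- the log-partition function increases by the log of a Gibbs expectation -/
lemma log_sum_tilt {W φ : S → ℝ} (hW : ∀ σ, 0 < W σ) (hφ : ∀ σ, 0 < φ σ) :
    Real.log (∑ σ, W σ * φ σ) - Real.log (∑ σ, W σ) = Real.log (gE W φ) := by
  unfold gE
  rw [Real.log_div (sum_W_pos (fun σ => mul_pos (hW σ) (hφ σ))).ne' (sum_W_pos hW).ne']

lemma abs_log_gE_le {W φ : S → ℝ} (hW : ∀ σ, 0 < W σ) {D : ℝ}
    (h1 : ∀ σ, Real.exp (-D) ≤ φ σ) (h2 : ∀ σ, φ σ ≤ Real.exp D) :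
    |Real.log (gE W φ)| ≤ D := by
  have ha : Real.exp (-D) ≤ gE W φ := le_gE hW h1
  have hb : gE W φ ≤ Real.exp D := gE_le hW h2
  have hpos : 0 < gE W φ := (Real.exp_pos _).trans_le ha
  rw [abs_le]
  constructor
  · rw [← Real.log_exp (-D)]; exact Real.log_le_log (Real.exp_pos _) ha
  · rw [← Real.log_exp D]; exact Real.log_le_log hpos hb

/-- truncated correlation -/
noncomputable def cov (W : S → ℝ) (f g : S → ℝ) : ℝ := gE W (fun σ => f σ * g σ) - gE W f * gE W g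

lemma cov_comm (W : S → ℝ) (f g : S → ℝ) : cov W f g = cov W g f := by
  unfold cov
  rw [mul_comm (gE W f)]
  congr 1
  exact gE_congr W fun σ => mul_comm _ _

lemma cov_add_left (W : S → ℝ) (f f' g : S → ℝ) :
    cov W (fun σ => f σ + f' σ) g = cov W f g + cov W f' g := by
  unfold cov
  rw [gE_add, gE_congr W (fun σ => add_mul (f σ) (f' σ) (g σ)), gE_add]
  ring

lemma cov_mul_left (W : S → ℝ) (c : ℝ) (f g : S → ℝ) :
    cov W (fun σ => c * f σ) g = c * cov W f g := by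
  unfold cov
  rw [gE_mul_left, gE_congr W (fun σ => mul_assoc c (f σ) (g σ)), gE_mul_left]
  ring

lemma cov_sub_left (W : S → ℝ) (f f' g : S → ℝ) :
    cov W (fun σ => f σ - f' σ) g = cov W f g - cov W f' g := by
  unfold cov
  rw [gE_sub, gE_congr W (fun σ => sub_mul (f σ) (f' σ) (g σ)), gE_sub]
  ring

lemma cov_const_left {W : S → ℝ} (hW : ∀ σ, 0 < W σ) (c : ℝ) (g : S → ℝ) :
    cov W (fun _ => c) g = 0 := by
  unfold cov
  rw [gE_const hW, gE_mul_left]
  ring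

lemma cov_sum_left {β : Type*} (W : S → ℝ) (s : Finset β) (f : β → S → ℝ) (g : S → ℝ) :
    cov W (fun σ => ∑ b ∈ s, f b σ) g = ∑ b ∈ s, cov W (f b) g := by
  unfold cov
  rw [gE_sum, gE_congr W (fun σ => Finset.sum_mul s (fun b => f b σ) (g σ)), gE_sum,
    Finset.sum_mul, ← Finset.sum_sub_distrib]

lemma cov_add_right (W : S → ℝ) (f g g' : S → ℝ) :
    cov W f (fun σ => g σ + g' σ) = cov W f g + cov W f g' := by
  rw [cov_comm, cov_add_left, cov_comm W g, cov_comm W g']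

lemma cov_sub_right (W : S → ℝ) (f g g' : S → ℝ) :
    cov W f (fun σ => g σ - g' σ) = cov W f g - cov W f g' := by
  rw [cov_comm, cov_sub_left, cov_comm W g, cov_comm W g']

lemma cov_mul_right (W : S → ℝ) (c : ℝ) (f g : S → ℝ) :
    cov W f (fun σ => c * g σ) = c * cov W f g := by
  rw [cov_comm, cov_mul_left, cov_comm W g]

lemma cov_sum_right {β : Type*} (W : S → ℝ) (s : Finset β) (f : β → S → ℝ) (g : S → ℝ) :
    cov W g (fun σ => ∑ b ∈ s, f b σ) = ∑ b ∈ s, cov W g (f b) := by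
  rw [cov_comm, cov_sum_left]
  exact Finset.sum_congr rfl fun b _ => cov_comm _ _ _

/-- derivative of the log-partition function in an external field -/
lemma hasDerivAt_log_sum {W M : S → ℝ} (hW : ∀ σ, 0 < W σ) (l : ℝ) :
    HasDerivAt (fun l => Real.log (∑ σ, W σ * Real.exp (l * M σ)))
      (gE (fun σ => W σ * Real.exp (l * M σ)) M) l := by
  have h1 : ∀ σ, HasDerivAt (fun l => W σ * Real.exp (l * M σ))
      (W σ * (Real.exp (l * M σ) * M σ)) l := by
    intro σ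
    have := (((hasDerivAt_id l).mul_const (M σ)).exp).const_mul (W σ)
    simpa using this
  have h2 : HasDerivAt (fun l => ∑ σ, W σ * Real.exp (l * M σ))
      (∑ σ, W σ * (Real.exp (l * M σ) * M σ)) l := HasDerivAt.fun_sum fun σ _ => h1 σ
  have hpos : 0 < ∑ σ, W σ * Real.exp (l * M σ) :=
    sum_W_pos fun σ => mul_pos (hW σ) (Real.exp_pos _)
  have h3 := h2.log hpos.ne'
  have h4 : (∑ σ, W σ * (Real.exp (l * M σ) * M σ)) / (∑ σ, W σ * Real.exp (l * M σ)) =
      gE (fun σ => W σ * Real.exp (l * M σ)) M := by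
    unfold gE
    congr 1
    exact Finset.sum_congr rfl fun σ _ => by ring
  rwa [h4] at h3

/-- derivative of a Gibbs expectation in an external field -/
lemma hasDerivAt_gE {W M f : S → ℝ} (hW : ∀ σ, 0 < W σ) (l : ℝ) :
    HasDerivAt (fun l => gE (fun σ => W σ * Real.exp (l * M σ)) f)
      (cov (fun σ => W σ * Real.exp (l * M σ)) f M) l := by
  have h1 : ∀ σ, HasDerivAt (fun l => W σ * Real.exp (l * M σ))
      (W σ * (Real.exp (l * M σ) * M σ)) l := by
    intro σ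
    have := (((hasDerivAt_id l).mul_const (M σ)).exp).const_mul (W σ)
    simpa using this
  have h2 : HasDerivAt (fun l => ∑ σ, W σ * Real.exp (l * M σ))
      (∑ σ, W σ * (Real.exp (l * M σ) * M σ)) l := HasDerivAt.fun_sum fun σ _ => h1 σ
  have h2' : HasDerivAt (fun l => ∑ σ, W σ * Real.exp (l * M σ) * f σ)
      (∑ σ, W σ * (Real.exp (l * M σ) * M σ) * f σ) l :=
    HasDerivAt.fun_sum fun σ _ => (h1 σ).mul_const (f σ)
  have hpos : 0 < ∑ σ, W σ * Real.exp (l * M σ) :=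
    sum_W_pos fun σ => mul_pos (hW σ) (Real.exp_pos _)
  have h3 := h2'.div h2 hpos.ne'
  have h4 : cov (fun σ => W σ * Real.exp (l * M σ)) f M =
      ((∑ σ, W σ * (Real.exp (l * M σ) * M σ) * f σ) * (∑ σ, W σ * Real.exp (l * M σ)) -
        (∑ σ, W σ * Real.exp (l * M σ) * f σ) * (∑ σ, W σ * (Real.exp (l * M σ) * M σ))) /
        (∑ σ, W σ * Real.exp (l * M σ)) ^ 2 := by
    unfold cov gE
    have e1 : ∑ σ, W σ * Real.exp (l * M σ) * (f σ * M σ) =
        ∑ σ, W σ * (Real.exp (l * M σ) * M σ) * f σ := Finset.sum_congr rfl fun σ _ => by ring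
    have e2 : ∑ σ, W σ * Real.exp (l * M σ) * M σ = ∑ σ, W σ * (Real.exp (l * M σ) * M σ) :=
      Finset.sum_congr rfl fun σ _ => by ring
    rw [e1, e2]
    field_simp
  rw [h4]
  exact h3

lemma continuous_log_sum {W M : S → ℝ} (hW : ∀ σ, 0 < W σ) :
    Continuous (fun l => Real.log (∑ σ, W σ * Real.exp (l * M σ))) :=
  continuous_iff_continuousAt.2 fun l => (hasDerivAt_log_sum hW l).continuousAt

lemma continuous_gE {W M f : S → ℝ} (hW : ∀ σ, 0 < W σ) :
    Continuous (fun l => gE (fun σ => W σ * Real.exp (l * M σ)) f) :=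
  continuous_iff_continuousAt.2 fun l => (hasDerivAt_gE hW l).continuousAt

lemma continuous_cov {W M f g : S → ℝ} (hW : ∀ σ, 0 < W σ) :
    Continuous (fun l => cov (fun σ => W σ * Real.exp (l * M σ)) f g) :=
  (continuous_gE hW).sub ((continuous_gE hW).mul (continuous_gE hW))

/-- integrated correlations with the conjugate observable are bounded -/
lemma integral_cov {W M f : S → ℝ} (hW : ∀ σ, 0 < W σ) (s : ℝ) :
    ∫ l in (0 : ℝ)..s, cov (fun σ => W σ * Real.exp (l * M σ)) f M =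
      gE (fun σ => W σ * Real.exp (s * M σ)) f - gE (fun σ => W σ * Real.exp (0 * M σ)) f :=
  intervalIntegral.integral_eq_sub_of_hasDerivAt (fun l _ => hasDerivAt_gE hW l)
    ((continuous_cov hW).intervalIntegrable _ _)

end Pool.Agent.Lib.MP_7587db
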