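import Pool.Agent.Lib.MP_7587db.Bern
import Pool.Agent.Lib.MP_7587db.Gibbs

set_option autoImplicit false
set_option linter.unusedSectionVars false

namespace Pool.Agent.Lib.MP_7587db

open Finset Function

section model

variable {V : Type*} [Fintype V] [DecidableEq V] {k : ℕ}

/-- weight of a spin configuration: site weights `a` and edge weights `A` on the edges of `ω` -/
noncomputable def PW (a : V → Fin k → ℝ) (A : Fin k → Fin k → ℝ) (ω : V × V → Bool)
    (σ : V → Fin k) : ℝ :=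
  (∏ u, a u (σ u)) * ∏ e : V × V, cond (ω e) (A (σ e.1) (σ e.2)) 1

/-- log-partition function -/
noncomputable def lZ (a : V → Fin k → ℝ) (A : Fin k → Fin k → ℝ) (ω : V × V → Bool) : ℝ :=
  Real.log (∑ σ, PW a A ω σ)

lemma PW_pos {a : V → Fin k → ℝ} {A : Fin k → Fin k → ℝ} (ha : ∀ u i, 0 < a u i)
    (hA : ∀ i j, 0 < A i j) (ω : V × V → Bool) (σ : V → Fin k) : 0 < PW a A ω σ := by
  unfold PW
  refine mul_pos (Finset.prod_pos fun u _ => ha u _) (Finset.prod_pos fun e _ => ?_)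
  cases ω e
  · simp
  · exact hA _ _

lemma PW_mul_site (a b : V → Fin k → ℝ) (A : Fin k → Fin k → ℝ) (ω : V × V → Bool)
    (σ : V → Fin k) :
    PW (fun u i => a u i * b u i) A ω σ = PW a A ω σ * ∏ u, b u (σ u) := by
  unfold PW
  rw [Finset.prod_mul_distrib]
  ring

lemma PW_update (a : V → Fin k → ℝ) (A : Fin k → Fin k → ℝ) (ω : V × V → Bool) (e : V × V)
    (σ : V → Fin k) :
    PW a A (update ω e true) σ = PW a A (update ω e false) σ * A (σ e.1) (σ e.2) := by
  unfold PW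
  rw [← Finset.mul_prod_erase Finset.univ _ (Finset.mem_univ e),
    ← Finset.mul_prod_erase Finset.univ (fun e_1 => cond (update ω e false e_1)
      (A (σ e_1.1) (σ e_1.2)) 1) (Finset.mem_univ e)]
  have h : ∏ x ∈ univ.erase e, cond (update ω e true x) (A (σ x.1) (σ x.2)) 1 =
      ∏ x ∈ univ.erase e, cond (update ω e false x) (A (σ x.1) (σ x.2)) 1 := by
    refine Finset.prod_congr rfl fun x hx => ?_
    rw [update_of_ne (Finset.ne_of_mem_erase hx), update_of_ne (Finset.ne_of_mem_erase hx)]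
  rw [h]
  simp only [update_self, cond_true, cond_false]
  ring

variable [NeZero k]

lemma lZ_bD {a : V → Fin k → ℝ} {A : Fin k → Fin k → ℝ} (ha : ∀ u i, 0 < a u i)
    (hA : ∀ i j, 0 < A i j) (ω : V × V → Bool) (e : V × V) :
    bD e (lZ a A) ω = Real.log (gE (PW a A (update ω e false)) (fun σ => A (σ e.1) (σ e.2))) := by
  unfold bD lZ
  simp only [PW_update]
  exact log_sum_tilt (PW_pos ha hA _) (fun σ => hA _ _)

lemma lZ_BDiff {a : V → Fin k → ℝ} {A : Fin k → Fin k → ℝ} (ha : ∀ u i, 0 < a u i)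
    {D : ℝ} (hA1 : ∀ i j, Real.exp (-D) ≤ A i j) (hA2 : ∀ i j, A i j ≤ Real.exp D) :
    BDiff D (lZ a A) := by
  intro e ω
  have hA : ∀ i j, 0 < A i j := fun i j => (Real.exp_pos _).trans_le (hA1 i j)
  rw [lZ_bD ha hA]
  exact abs_log_gE_le (PW_pos ha hA _) (fun σ => hA1 _ _) (fun σ => hA2 _ _)

/-- invariance of the partition function under relabelling the vertices -/
lemma lZ_relabel {V' : Type*} [Fintype V'] [DecidableEq V'] (π : V ≃ V')
    (a : V' → Fin k → ℝ) (A : Fin k → Fin k → ℝ) (ω : V' × V' → Bool) :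
    lZ (fun u => a (π u)) A (fun e : V × V => ω (π e.1, π e.2)) = lZ a A ω := by
  unfold lZ
  congr 1
  rw [← Equiv.sum_comp (π.arrowCongr (Equiv.refl (Fin k)))]
  refine Finset.sum_congr rfl fun σ _ => ?_
  have h1 : (π.arrowCongr (Equiv.refl (Fin k))) σ = fun v => σ (π.symm v) := by
    funext j; simp [Equiv.arrowCongr]
  rw [h1]
  unfold PW
  congr 1
  · rw [← Equiv.prod_comp π]
    simp
  · rw [← Equiv.prod_comp (Equiv.prodCongr π π)]
    simp
    rfl

/-- the value of the spin at `u` under the scale `s` -/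
def sv (s : Fin k → ℝ) (u : V) (σ : V → Fin k) : ℝ := s (σ u)

/-- all two-point covariances are dominated by the one of the scale `s` -/
def Dec (s : Fin k → ℝ) (W : (V → Fin k) → ℝ) : Prop :=
  ∀ (u v : V) (φ ψ : Fin k → ℝ) (L L' : ℝ), (∀ i j, |φ i - φ j| ≤ L) →
    (∀ i j, |ψ i - ψ j| ≤ L') →
    |cov W (fun σ => φ (σ u)) (fun σ => ψ (σ v))| ≤ L * L' * cov W (sv s u) (sv s v)

lemma Dec.cov_nonneg {s : Fin k → ℝ} {W : (V → Fin k) → ℝ} (hd : Dec s W) (u v : V) :
    0 ≤ cov W (sv s u) (sv s v) := by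
  have h := hd u v (fun _ => 0) (fun _ => 0) 1 1 (by simp) (by simp)
  rw [one_mul, one_mul] at h
  exact (abs_nonneg _).trans h

/-- A class `𝓦` of site weights under which the model with edge weight `A` is associated,
with respect to the scale `s`. -/
structure Assoc (𝓦 : Set (Fin k → ℝ)) (A : Fin k → Fin k → ℝ) (s : Fin k → ℝ) (S : ℝ) :
    Prop where
  posA : ∀ i j, 0 < A i j
  pos : ∀ w ∈ 𝓦, ∀ i, 0 < w i
  mul : ∀ w ∈ 𝓦, ∀ w' ∈ 𝓦, (fun i => w i * w' i) ∈ 𝓦
  field : ∀ l : ℝ, 0 ≤ l → (fun i => Real.exp (l * s i)) ∈ 𝓦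
  s_nonneg : ∀ i, 0 ≤ s i
  s_le : ∀ i, s i ≤ S
  decor : ∀ (V : Type) [Fintype V] [DecidableEq V] (a : V → Fin k → ℝ) (ω : V × V → Bool),
    (∀ u, a u ∈ 𝓦) → Dec s (PW a A ω)
  msg : ∀ (V : Type) [Fintype V] [DecidableEq V] (a : V → Fin k → ℝ) (ω : V × V → Bool) (v : V),
    (∀ u, a u ∈ 𝓦) → (fun i => gE (PW a A ω) (fun σ => A i (σ v))) ∈ 𝓦

lemma abs_log_sub_log_le {x y m : ℝ} (hm : 0 < m) (hx : m ≤ x) (hy : m ≤ y) :
    |Real.log x - Real.log y| ≤ |x - y| / m := by
  have hx0 : 0 < x := hm.trans_le hx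
  have hy0 : 0 < y := hm.trans_le hy
  have h : ∀ a b : ℝ, m ≤ a → m ≤ b → 0 < a → 0 < b → Real.log a - Real.log b ≤ |a - b| / m := by
    intro a b ha hb ha0 hb0
    rw [← Real.log_div ha0.ne' hb0.ne']
    have h1 : Real.log (a / b) ≤ a / b - 1 := Real.log_le_sub_one_of_pos (div_pos ha0 hb0)
    have h2 : a / b - 1 = (a - b) / b := by field_simp
    rw [h2] at h1
    refine h1.trans ?_
    refine (div_le_div_of_nonneg_right (le_abs_self _) hb0.le).trans ?_
    exact div_le_div_of_nonneg_left (abs_nonneg _) hm hb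
  rw [abs_le]
  constructor
  · have := h y x hy hx hy0 hx0
    rw [abs_sub_comm] at this
    linarith
  · exact h x y hx hy hx0 hy0

lemma osc_of_bounds {D : ℝ} {χ : Fin k → ℝ} (h1 : ∀ i, Real.exp (-D) ≤ χ i)
    (h2 : ∀ i, χ i ≤ Real.exp D) (i j : Fin k) : |χ i - χ j| ≤ Real.exp D := by
  have := Real.exp_pos (-D)
  rw [abs_le]
  constructor <;> linarith [h1 i, h1 j, h2 i, h2 j]

/-- the averaged edge weight seen through a neighbour at `v` -/
noncomputable def rv (A : Fin k → Fin k → ℝ) (W : (V → Fin k) → ℝ) (v : V) (i : Fin k) : ℝ :=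
  gE W (fun σ => A i (σ v))

/-- replica symmetric approximation of an edge expectation -/
lemma edge_approx {W : (V → Fin k) → ℝ} (hW : ∀ σ, 0 < W σ) {s : Fin k → ℝ} (hd : Dec s W)
    {A : Fin k → Fin k → ℝ} {D : ℝ} (hA1 : ∀ i j, Real.exp (-D) ≤ A i j)
    (hA2 : ∀ i j, A i j ≤ Real.exp D) (u v : V) :
    |Real.log (gE W (fun σ => A (σ u) (σ v))) - Real.log (gE W (fun σ => rv A W v (σ u)))| ≤
      k * Real.exp (2 * D) * cov W (sv s u) (sv s v) := by
  have hr1 : ∀ i, Real.exp (-D) ≤ rv A W v i := fun i => le_gE hW fun σ => hA1 _ _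
  have e1 : gE W (fun σ => A (σ u) (σ v)) =
      ∑ i, gE W (fun σ => (if σ u = i then (1 : ℝ) else 0) * A i (σ v)) := by
    rw [← gE_sum]
    refine gE_congr W fun σ => ?_
    simp
  have e2 : gE W (fun σ => rv A W v (σ u)) =
      ∑ i, gE W (fun σ => (if σ u = i then (1 : ℝ) else 0)) * gE W (fun σ => A i (σ v)) := by
    have : ∀ i, gE W (fun σ => (if σ u = i then (1 : ℝ) else 0)) * gE W (fun σ => A i (σ v)) =
        gE W (fun σ => (if σ u = i then (1 : ℝ) else 0) * rv A W v i) := by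
      intro i
      rw [gE_mul_right]; rfl
    simp only [this]
    rw [← gE_sum]
    refine gE_congr W fun σ => ?_
    simp
  have e3 : |gE W (fun σ => A (σ u) (σ v)) - gE W (fun σ => rv A W v (σ u))| ≤
      k * Real.exp D * cov W (sv s u) (sv s v) := by
    rw [e1, e2, ← Finset.sum_sub_distrib]
    refine (Finset.abs_sum_le_sum_abs _ _).trans ?_
    have : ∀ i ∈ (Finset.univ : Finset (Fin k)),
        |gE W (fun σ => (if σ u = i then (1 : ℝ) else 0) * A i (σ v)) -
          gE W (fun σ => (if σ u = i then (1 : ℝ) else 0)) * gE W (fun σ => A i (σ v))| ≤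
        Real.exp D * cov W (sv s u) (sv s v) := by
      intro i _
      have := hd u v (φ := fun x => if x = i then (1 : ℝ) else 0)
        (ψ := fun x => A i x) (L := 1) (L' := Real.exp D)
        (fun a b => by by_cases ha : a = i <;> by_cases hb : b = i <;> simp [ha, hb])
        (osc_of_bounds (fun j => hA1 i j) (fun j => hA2 i j))
      rw [one_mul] at this
      exact this
    refine (Finset.sum_le_sum this).trans ?_
    rw [Finset.sum_const, Finset.card_univ, Fintype.card_fin, nsmul_eq_mul]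
    exact le_of_eq (by ring)
  refine (abs_log_sub_log_le (Real.exp_pos (-D)) (le_gE hW fun σ => hA1 _ _)
    (le_gE hW fun σ => hr1 _)).trans ?_
  rw [div_le_iff₀ (Real.exp_pos _)]
  refine e3.trans (le_of_eq ?_)
  have : Real.exp (2 * D) * Real.exp (-D) = Real.exp D := by
    rw [← Real.exp_add]; congr 1; ring
  calc (k : ℝ) * Real.exp D * cov W (sv s u) (sv s v)
      = k * (Real.exp (2 * D) * Real.exp (-D)) * cov W (sv s u) (sv s v) := by rw [this]
    _ = _ := by ring

/-- two-site correction -/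
lemma pair_approx {W : (V → Fin k) → ℝ} (hW : ∀ σ, 0 < W σ) {s : Fin k → ℝ} (hd : Dec s W)
    {w : Fin k → ℝ} {D : ℝ} (hw1 : ∀ i, Real.exp (-D) ≤ w i)
    (hw2 : ∀ i, w i ≤ Real.exp D) (u v : V) :
    |Real.log (gE W (fun σ => w (σ v) * w (σ u))) - Real.log (gE W (fun σ => w (σ v))) -
      Real.log (gE W (fun σ => w (σ u)))| ≤ Real.exp (4 * D) * cov W (sv s v) (sv s u) := by
  have h1 : Real.exp (-D) ≤ gE W (fun σ => w (σ v)) := le_gE hW fun σ => hw1 _
  have h2 : Real.exp (-D) ≤ gE W (fun σ => w (σ u)) := le_gE hW fun σ => hw1 _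
  have hee : Real.exp (-(2 * D)) = Real.exp (-D) * Real.exp (-D) := by
    rw [← Real.exp_add]; congr 1; ring
  have h3 : Real.exp (-(2 * D)) ≤ gE W (fun σ => w (σ v)) * gE W (fun σ => w (σ u)) := by
    rw [hee]; exact mul_le_mul h1 h2 (Real.exp_pos _).le ((Real.exp_pos _).le.trans h1)
  have h4 : Real.exp (-(2 * D)) ≤ gE W (fun σ => w (σ v) * w (σ u)) := by
    refine le_gE hW fun σ => ?_
    rw [hee]; exact mul_le_mul (hw1 _) (hw1 _) (Real.exp_pos _).le ((Real.exp_pos _).le.trans (hw1 _))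
  have h5 : Real.log (gE W (fun σ => w (σ v) * w (σ u))) - Real.log (gE W (fun σ => w (σ v))) -
      Real.log (gE W (fun σ => w (σ u))) = Real.log (gE W (fun σ => w (σ v) * w (σ u))) -
      Real.log (gE W (fun σ => w (σ v)) * gE W (fun σ => w (σ u))) := by
    rw [Real.log_mul ((Real.exp_pos _).trans_le h1).ne' ((Real.exp_pos _).trans_le h2).ne']
    ring
  rw [h5]
  refine (abs_log_sub_log_le (Real.exp_pos _) h4 h3).trans ?_
  rw [div_le_iff₀ (Real.exp_pos _)]
  have h6 := hd v u w w _ _ (osc_of_bounds hw1 hw2) (osc_of_bounds hw1 hw2)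
  refine h6.trans (le_of_eq ?_)
  have : Real.exp (4 * D) * Real.exp (-(2 * D)) = Real.exp D * Real.exp D := by
    rw [← Real.exp_add, ← Real.exp_add]; congr 1; ring
  calc Real.exp D * Real.exp D * cov W (sv s v) (sv s u)
      = Real.exp (4 * D) * Real.exp (-(2 * D)) * cov W (sv s v) (sv s u) := by rw [this]
    _ = _ := by ring

end model

end Pool.Agent.Lib.MP_7587db
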