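import Pool.Agent.Lib.MP_7587db.Fkg

set_option autoImplicit false
set_option linter.unusedSectionVars false
set_option linter.unusedVariables false

namespace Pool.Agent.Lib.MP_7587db

open Finset Function

section potts

variable {V : Type*} [Fintype V] [DecidableEq V] {k : ℕ}

/-- positive increasing site weights -/
def MW (k : ℕ) : Set (Fin k → ℝ) := {w | (∀ i, 0 < w i) ∧ Monotone w}

lemma MW_mul {w w' : Fin k → ℝ} (hw : w ∈ MW k) (hw' : w' ∈ MW k) :
    (fun i => w i * w' i) ∈ MW k :=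
  ⟨fun i => mul_pos (hw.1 i) (hw'.1 i), fun i j hij =>
    mul_le_mul (hw.2 hij) (hw'.2 hij) (hw'.1 i).le (hw.1 j).le⟩

lemma MW_one : (fun _ : Fin k => (1 : ℝ)) ∈ MW k := ⟨fun _ => one_pos, monotone_const⟩

/-- equality weight of a pair of vertices -/
def bq (θ : Fin k → ℝ) (x y : V) (σ : V → Fin k) : ℝ := if σ x = σ y then θ (σ x) else 0

lemma bq_comm (θ : Fin k → ℝ) (x y : V) (σ : V → Fin k) : bq θ x y σ = bq θ y x σ := by
  unfold bq
  by_cases h : σ x = σ y
  · rw [if_pos h, if_pos h.symm, h]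
  · rw [if_neg h, if_neg (fun h' => h h'.symm)]

lemma bq_self (θ : Fin k → ℝ) (x : V) (σ : V → Fin k) : bq θ x x σ = θ (σ x) := by simp [bq]

lemma bq_nonneg {θ : Fin k → ℝ} (hθ : θ ∈ MW k) (x y : V) (σ : V → Fin k) :
    0 ≤ bq θ x y σ := by
  unfold bq; split_ifs
  · exact (hθ.1 _).le
  · exact le_rfl

/-- weight of a configuration under equality constraints `B` -/
noncomputable def cw (a : V → Fin k → ℝ) (θ : Fin k → ℝ) (B : List (V × V))
    (σ : V → Fin k) : ℝ := (∏ u, a u (σ u)) * (B.map (fun e => bq θ e.1 e.2 σ)).prod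

/-- unnormalised expectation -/
noncomputable def NN (a : V → Fin k → ℝ) (θ : Fin k → ℝ) (B : List (V × V))
    (φ : (V → Fin k) → ℝ) : ℝ := ∑ σ, cw a θ B σ * φ σ

/-- averaging over one coordinate -/
lemma sum_avg (x : V) (F : (V → Fin k) → ℝ) :
    (k : ℝ) * ∑ σ, F σ = ∑ σ, ∑ i, F (update σ x i) := by
  let T : (V → Fin k) × Fin k → (V → Fin k) × Fin k := fun p => (update p.1 x p.2, p.1 x)
  have hT : Function.Involutive T := by
    rintro ⟨σ, i⟩
    simp [T]
  have h1 : ∑ σ, ∑ i, F (update σ x i) = ∑ p : (V → Fin k) × Fin k, F (T p).1 := by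
    rw [Fintype.sum_prod_type]
  have h2 : ∑ p : (V → Fin k) × Fin k, F (T p).1 = ∑ p : (V → Fin k) × Fin k, F p.1 :=
    Equiv.sum_comp hT.toPerm (fun p => F p.1)
  rw [h1, h2, Fintype.sum_prod_type]
  simp [Finset.mul_sum]

/-- substitution of the vertex `y` for the vertex `x` -/
def sb (x y u : V) : V := if u = x then y else u

/-- site weights after contraction of the pair `x, y` -/
noncomputable def ac (a : V → Fin k → ℝ) (θ : Fin k → ℝ) (x y u : V) (i : Fin k) : ℝ :=
  if u = x then 1 else if u = y then a x i * a y i * θ i else a u i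

lemma ac_mem {a : V → Fin k → ℝ} (ha : ∀ u, a u ∈ MW k) {θ : Fin k → ℝ} (hθ : θ ∈ MW k)
    (x y u : V) : ac a θ x y u ∈ MW k := by
  by_cases h1 : u = x
  · have : ac a θ x y u = fun _ => 1 := by funext i; simp [ac, h1]
    rw [this]; exact MW_one
  · by_cases h2 : u = y
    · have : ac a θ x y u = fun i => a x i * a y i * θ i := by funext i; simp [ac, h1, h2]; intro h; exact absurd (h2.trans h) h1
      rw [this]; exact MW_mul (MW_mul (ha x) (ha y)) hθ
    · have : ac a θ x y u = a u := by funext i; simp [ac, h1, h2]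
      rw [this]; exact ha u

lemma update_eq_sb (σ : V → Fin k) (x y : V) :
    update σ x (σ y) = fun u => σ (sb x y u) := by
  funext u
  by_cases h : u = x
  · subst h; simp [sb]
  · simp [sb, h]

lemma contract {x y : V} (hxy : x ≠ y) (a : V → Fin k → ℝ) (θ : Fin k → ℝ)
    (G : (V → Fin k) → ℝ) :
    (k : ℝ) * ∑ σ : V → Fin k, (∏ u, a u (σ u)) * bq θ x y σ * G σ =
      ∑ σ : V → Fin k, (∏ u, ac a θ x y u (σ u)) * G (fun u => σ (sb x y u)) := by
  rw [sum_avg x]
  refine Finset.sum_congr rfl fun σ _ => ?_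
  rw [Finset.sum_eq_single (σ y)]
  · rw [update_eq_sb]
    have hb : bq θ x y (fun u => σ (sb x y u)) = θ (σ y) := by
      have h1 : sb x y x = y := by simp [sb]
      have h2 : sb x y y = y := by simp [sb]
      simp [bq, h1, h2]
    rw [hb]
    congr 1
    have hy : y ∈ (univ : Finset V).erase x := Finset.mem_erase.2 ⟨hxy.symm, Finset.mem_univ _⟩
    rw [← Finset.mul_prod_erase univ (fun u => a u (σ (sb x y u))) (Finset.mem_univ x),
      ← Finset.mul_prod_erase (univ.erase x) (fun u => a u (σ (sb x y u))) hy,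
      ← Finset.mul_prod_erase univ (fun u => ac a θ x y u (σ u)) (Finset.mem_univ x),
      ← Finset.mul_prod_erase (univ.erase x) (fun u => ac a θ x y u (σ u)) hy]
    have h1 : sb x y x = y := by simp [sb]
    have h2 : sb x y y = y := by simp [sb]
    have h3 : ac a θ x y x (σ x) = 1 := by simp [ac]
    have h4 : ac a θ x y y (σ y) = a x (σ y) * a y (σ y) * θ (σ y) := by simp [ac, hxy.symm]
    have h5 : ∏ u ∈ (univ.erase x).erase y, a u (σ (sb x y u)) =
        ∏ u ∈ (univ.erase x).erase y, ac a θ x y u (σ u) := by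
      refine Finset.prod_congr rfl fun u hu => ?_
      have hu1 : u ≠ y := Finset.ne_of_mem_erase hu
      have hu2 : u ≠ x := Finset.ne_of_mem_erase (Finset.mem_of_mem_erase hu)
      simp [sb, ac, hu1, hu2]
    rw [h1, h2, h3, h4, h5]
    ring
  · intro i _ hi
    have : bq θ x y (update σ x i) = 0 := by
      unfold bq
      rw [update_self, update_of_ne hxy.symm, if_neg hi]
    rw [this]; ring
  · intro h; exact absurd (Finset.mem_univ _) h

lemma NN_cons_ne {x y : V} (hxy : x ≠ y) (a : V → Fin k → ℝ) (θ : Fin k → ℝ)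
    (B : List (V × V)) (φ : (V → Fin k) → ℝ) :
    (k : ℝ) * NN a θ ((x, y) :: B) φ =
      NN (ac a θ x y) θ (B.map (Prod.map (sb x y) (sb x y))) (fun σ => φ (fun u => σ (sb x y u))) := by
  have h := contract hxy a θ (fun σ => (B.map (fun e => bq θ e.1 e.2 σ)).prod * φ σ)
  unfold NN cw
  have e1 : ∀ σ : V → Fin k, (∏ u, a u (σ u)) *
      (((x, y) :: B).map (fun e => bq θ e.1 e.2 σ)).prod * φ σ =
      (∏ u, a u (σ u)) * bq θ x y σ * ((B.map (fun e => bq θ e.1 e.2 σ)).prod * φ σ) := by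
    intro σ
    rw [List.map_cons, List.prod_cons]; ring
  simp only [e1]
  rw [h]
  refine Finset.sum_congr rfl fun σ _ => ?_
  have e2 : (B.map (fun e => bq θ e.1 e.2 (fun u => σ (sb x y u)))).prod =
      ((B.map (Prod.map (sb x y) (sb x y))).map (fun e => bq θ e.1 e.2 σ)).prod := by
    rw [List.map_map]; rfl
  rw [e2]; ring

lemma NN_cons_eq (x : V) (a : V → Fin k → ℝ) (θ : Fin k → ℝ)
    (B : List (V × V)) (φ : (V → Fin k) → ℝ) :
    NN a θ ((x, x) :: B) φ = NN (update a x (fun i => a x i * θ i)) θ B φ := by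
  unfold NN cw
  refine Finset.sum_congr rfl fun σ _ => ?_
  rw [List.map_cons, List.prod_cons, bq_self]
  have : ∏ u, update a x (fun i => a x i * θ i) u (σ u) = (∏ u, a u (σ u)) * θ (σ x) := by
    rw [← Finset.mul_prod_erase univ (fun u => update a x (fun i => a x i * θ i) u (σ u))
      (Finset.mem_univ x), ← Finset.mul_prod_erase univ (fun u => a u (σ u)) (Finset.mem_univ x)]
    have h5 : ∏ u ∈ univ.erase x, update a x (fun i => a x i * θ i) u (σ u) =
        ∏ u ∈ univ.erase x, a u (σ u) := by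
      refine Finset.prod_congr rfl fun u hu => ?_
      rw [update_of_ne (Finset.ne_of_mem_erase hu)]
    rw [h5, update_self]
    ring
  rw [this]; ring

lemma update_mem {a : V → Fin k → ℝ} (ha : ∀ u, a u ∈ MW k) {w : Fin k → ℝ} (hw : w ∈ MW k)
    (x u : V) : update a x w u ∈ MW k := by
  by_cases h : u = x
  · subst h; simpa using hw
  · rw [update_of_ne h]; exact ha u

variable [NeZero k]

lemma cw_nil_pos {a : V → Fin k → ℝ} (ha : ∀ u, a u ∈ MW k) (θ : Fin k → ℝ) (σ : V → Fin k) :
    0 < cw a θ [] σ := by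
  unfold cw
  simp only [List.map_nil, List.prod_nil, mul_one]
  exact Finset.prod_pos fun u _ => (ha u).1 _

lemma cw_nonneg {a : V → Fin k → ℝ} (ha : ∀ u, a u ∈ MW k) {θ : Fin k → ℝ} (hθ : θ ∈ MW k)
    (B : List (V × V)) (σ : V → Fin k) : 0 ≤ cw a θ B σ := by
  unfold cw
  refine mul_nonneg (Finset.prod_nonneg fun u _ => ((ha u).1 _).le) (List.prod_nonneg ?_)
  intro r hr
  rw [List.mem_map] at hr
  obtain ⟨e, _, rfl⟩ := hr
  exact bq_nonneg hθ _ _ _

/-- the partition function is positive -/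
lemma NN_one_pos : ∀ (n : ℕ) (B : List (V × V)), B.length = n → ∀ (a : V → Fin k → ℝ),
    (∀ u, a u ∈ MW k) → ∀ {θ : Fin k → ℝ}, θ ∈ MW k → 0 < NN a θ B (fun _ => 1) := by
  intro n B hB a ha θ hθ
  unfold NN
  have hterm : 0 < cw a θ B (fun _ => 0) * 1 := by
    rw [mul_one]
    unfold cw
    refine mul_pos (Finset.prod_pos fun u _ => (ha u).1 _) (List.prod_pos ?_)
    intro r hr
    rw [List.mem_map] at hr
    obtain ⟨e, _, rfl⟩ := hr
    simp only [bq, if_true]
    exact hθ.1 _
  refine lt_of_lt_of_le hterm ?_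
  exact Finset.single_le_sum (f := fun σ => cw a θ B σ * 1)
    (fun σ _ => by rw [mul_one]; exact cw_nonneg ha hθ B σ) (Finset.mem_univ _)

/-- positive correlation of two functions under the constrained weights -/
def PC (a : V → Fin k → ℝ) (θ : Fin k → ℝ) (B : List (V × V)) (φ ψ : (V → Fin k) → ℝ) : Prop :=
  NN a θ B φ * NN a θ B ψ ≤ NN a θ B (fun _ => 1) * NN a θ B (fun σ => φ σ * ψ σ)

lemma PC_comm {a : V → Fin k → ℝ} {θ : Fin k → ℝ} {B : List (V × V)} {φ ψ : (V → Fin k) → ℝ}
    (h : PC a θ B φ ψ) : PC a θ B ψ φ := by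
  unfold PC at *
  rw [mul_comm (NN a θ B ψ)]
  have : (fun σ => ψ σ * φ σ) = fun σ : V → Fin k => φ σ * ψ σ := by funext σ; ring
  rw [this]; exact h

lemma kpos : (0 : ℝ) < k := by exact_mod_cast Nat.pos_of_ne_zero (NeZero.ne k)

/-- contraction principle for positive correlation -/
lemma PC_cons_ne {x y : V} (hxy : x ≠ y) {a : V → Fin k → ℝ} {θ : Fin k → ℝ}
    {B : List (V × V)} {φ ψ : (V → Fin k) → ℝ}
    (h : PC (ac a θ x y) θ (B.map (Prod.map (sb x y) (sb x y)))
      (fun σ => φ (fun u => σ (sb x y u))) (fun σ => ψ (fun u => σ (sb x y u)))) :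
    PC a θ ((x, y) :: B) φ ψ := by
  unfold PC at *
  rw [← NN_cons_ne hxy a θ B φ, ← NN_cons_ne hxy a θ B ψ, ← NN_cons_ne hxy a θ B (fun _ => 1),
    ← NN_cons_ne hxy a θ B (fun σ => φ σ * ψ σ)] at h
  have hk := kpos (k := k)
  have hk2 : 0 < (k : ℝ) * k := mul_pos hk hk
  have h2 : ((k : ℝ) * k) * (NN a θ ((x, y) :: B) φ * NN a θ ((x, y) :: B) ψ) ≤
      ((k : ℝ) * k) * (NN a θ ((x, y) :: B) (fun _ => 1) *
        NN a θ ((x, y) :: B) (fun σ => φ σ * ψ σ)) := by
    calc _ = (k : ℝ) * NN a θ ((x, y) :: B) φ * ((k : ℝ) * NN a θ ((x, y) :: B) ψ) := by ring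
      _ ≤ _ := h
      _ = _ := by ring
  exact le_of_mul_le_mul_left h2 hk2

lemma PC_cons_eq {x : V} {a : V → Fin k → ℝ} {θ : Fin k → ℝ}
    {B : List (V × V)} {φ ψ : (V → Fin k) → ℝ}
    (h : PC (update a x (fun i => a x i * θ i)) θ B φ ψ) :
    PC a θ ((x, x) :: B) φ ψ := by
  unfold PC at *
  rw [NN_cons_eq, NN_cons_eq, NN_cons_eq, NN_cons_eq]
  exact h

/-- product weights are log-supermodular for the total order -/
lemma cw_nil_LSMV (a : V → Fin k → ℝ) (θ : Fin k → ℝ) :
    LSMV (Equiv.refl (Fin k)) (cw a θ []) := by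
  intro σ τ
  unfold cw
  simp only [List.map_nil, List.prod_nil, mul_one, mt, jn, Equiv.refl_apply, Equiv.refl_symm]
  rw [← Finset.prod_mul_distrib, ← Finset.prod_mul_distrib]
  refine le_of_eq (Finset.prod_congr rfl fun u _ => ?_)
  rcases le_total (σ u) (τ u) with h | h
  · simp [h]
  · simp [h, mul_comm]

lemma PC_nil_of_cov {a : V → Fin k → ℝ} (ha : ∀ u, a u ∈ MW k) {θ : Fin k → ℝ}
    {φ ψ : (V → Fin k) → ℝ} (h : 0 ≤ cov (cw a θ []) φ ψ) : PC a θ [] φ ψ := by
  unfold PC NN
  unfold cov gE at h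
  have hpos := sum_W_pos (cw_nil_pos ha θ)
  rw [sub_nonneg, div_mul_div_comm, div_le_div_iff₀ (mul_pos hpos hpos) hpos] at h
  have h2 : (∑ σ, cw a θ [] σ) * ((∑ σ, cw a θ [] σ * φ σ) * ∑ σ, cw a θ [] σ * ψ σ) ≤
      (∑ σ, cw a θ [] σ) * ((∑ σ, cw a θ [] σ) * ∑ σ, cw a θ [] σ * (φ σ * ψ σ)) := by
    calc _ = (∑ σ, cw a θ [] σ * φ σ) * (∑ σ, cw a θ [] σ * ψ σ) * ∑ σ, cw a θ [] σ := by ring
      _ ≤ _ := h
      _ = _ := by ring
  have h3 := le_of_mul_le_mul_left h2 hpos
  simpa using h3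

/-- site functions are positively correlated under product weights -/
lemma PC_SS {a : V → Fin k → ℝ} (ha : ∀ u, a u ∈ MW k) (θ : Fin k → ℝ) (u v : V)
    {f h : Fin k → ℝ} (hf : Monotone f) (hh : Monotone h) :
    PC a θ [] (fun σ => f (σ u)) (fun σ => h (σ v)) := by
  refine PC_nil_of_cov ha ?_
  exact fkg_cov_nonneg (Equiv.refl (Fin k)) (cw_nil_pos ha θ) (cw_nil_LSMV a θ)
    (fun σ τ hst => hf (hst u)) (fun σ τ hst => hh (hst v))

/-- integrating out the vertex `p` of the pair `p, q` -/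
lemma integrate_out {p q : V} (hpq : p ≠ q) (a : V → Fin k → ℝ) (θ : Fin k → ℝ)
    (ψ : (V → Fin k) → ℝ) (hψ : ∀ σ i, ψ (update σ p i) = ψ σ) :
    (∑ i, a p i) * NN a θ [] (fun σ => bq θ p q σ * ψ σ) =
      NN a θ [] (fun σ => a p (σ q) * θ (σ q) * ψ σ) := by
  have hR : ∀ (σ : V → Fin k) (i : Fin k), ∏ u, a u (update σ p i u) =
      a p i * ∏ u ∈ univ.erase p, a u (σ u) := by
    intro σ i
    rw [← Finset.mul_prod_erase univ (fun u => a u (update σ p i u)) (Finset.mem_univ p)]
    have h5 : ∏ u ∈ univ.erase p, a u (update σ p i u) = ∏ u ∈ univ.erase p, a u (σ u) := by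
      refine Finset.prod_congr rfl fun u hu => ?_
      rw [update_of_ne (Finset.ne_of_mem_erase hu)]
    rw [h5, update_self]
  have h1 : (k : ℝ) * NN a θ [] (fun σ => bq θ p q σ * ψ σ) =
      ∑ σ : V → Fin k, (∏ u ∈ univ.erase p, a u (σ u)) * (a p (σ q) * θ (σ q) * ψ σ) := by
    unfold NN
    rw [sum_avg p]
    refine Finset.sum_congr rfl fun σ _ => ?_
    unfold cw
    simp only [List.map_nil, List.prod_nil, mul_one, hR, hψ]
    rw [Finset.sum_eq_single (σ q)]
    · have : bq θ p q (update σ p (σ q)) = θ (σ q) := by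
        unfold bq
        rw [update_self, update_of_ne hpq.symm, if_pos rfl]
      rw [this]; ring
    · intro i _ hi
      have : bq θ p q (update σ p i) = 0 := by
        unfold bq
        rw [update_self, update_of_ne hpq.symm, if_neg hi]
      rw [this]; ring
    · intro h; exact absurd (Finset.mem_univ _) h
  have h2 : (k : ℝ) * NN a θ [] (fun σ => a p (σ q) * θ (σ q) * ψ σ) =
      ∑ σ : V → Fin k, (∏ u ∈ univ.erase p, a u (σ u)) *
        ((∑ i, a p i) * (a p (σ q) * θ (σ q) * ψ σ)) := by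
    unfold NN
    rw [sum_avg p]
    refine Finset.sum_congr rfl fun σ _ => ?_
    unfold cw
    simp only [List.map_nil, List.prod_nil, mul_one, hR, hψ, update_of_ne hpq.symm]
    rw [← Finset.sum_mul, ← Finset.sum_mul]
    ring
  have hk := kpos (k := k)
  have h3 : (k : ℝ) * ((∑ i, a p i) * NN a θ [] (fun σ => bq θ p q σ * ψ σ)) =
      (k : ℝ) * NN a θ [] (fun σ => a p (σ q) * θ (σ q) * ψ σ) := by
    rw [h2]
    calc (k : ℝ) * ((∑ i, a p i) * NN a θ [] (fun σ => bq θ p q σ * ψ σ))
        = (∑ i, a p i) * ((k : ℝ) * NN a θ [] (fun σ => bq θ p q σ * ψ σ)) := by ring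
      _ = _ := by
          rw [h1, Finset.mul_sum]
          refine Finset.sum_congr rfl fun σ _ => ?_
          ring
  exact mul_left_cancel₀ hk.ne' h3

lemma PC_out {p q : V} (hpq : p ≠ q) {a : V → Fin k → ℝ} (ha : ∀ u, a u ∈ MW k)
    {θ : Fin k → ℝ} (ψ : (V → Fin k) → ℝ) (hψ : ∀ σ i, ψ (update σ p i) = ψ σ)
    (h : PC a θ [] (fun σ => a p (σ q) * θ (σ q)) ψ) : PC a θ [] (bq θ p q) ψ := by
  unfold PC at *
  have i1 := integrate_out hpq a θ ψ hψ
  have i2 := integrate_out hpq a θ (fun _ => 1) (fun _ _ => rfl)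
  simp only [mul_one] at i2
  rw [← i1, ← i2] at h
  have hZ : 0 < ∑ i, a p i := Finset.sum_pos (fun i _ => (ha p).1 i) Finset.univ_nonempty
  have h2 : (∑ i, a p i) * (NN a θ [] (fun σ => bq θ p q σ) * NN a θ [] ψ) ≤
      (∑ i, a p i) * (NN a θ [] (fun _ => 1) * NN a θ [] (fun σ => bq θ p q σ * ψ σ)) := by
    calc _ = (∑ i, a p i) * NN a θ [] (fun σ => bq θ p q σ) * NN a θ [] ψ := by ring
      _ ≤ _ := h
      _ = _ := by ring
  exact le_of_mul_le_mul_left h2 hZ

/-- a site function and an equality weight are positively correlated under product weights -/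
lemma PC_SE {a : V → Fin k → ℝ} (ha : ∀ u, a u ∈ MW k) {θ : Fin k → ℝ} (hθ : θ ∈ MW k)
    (u p q : V) {f : Fin k → ℝ} (hf : Monotone f) :
    PC a θ [] (bq θ p q) (fun σ => f (σ u)) := by
  by_cases hpq : p = q
  · subst hpq
    have : bq θ p p = fun σ : V → Fin k => θ (σ p) := by funext σ; exact bq_self θ p σ
    rw [this]
    exact PC_SS ha θ p u hθ.2 hf
  · by_cases hu : u = p
    · subst hu
      have : bq θ u q = bq θ q u := by funext σ; exact bq_comm θ u q σ
      rw [this]
      refine PC_out (Ne.symm hpq) ha (fun σ => f (σ u)) (fun σ i => ?_) ?_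
      · simp only [update_of_ne hpq]
      · exact PC_SS ha θ u u (MW_mul (ha q) hθ).2 hf
    · refine PC_out hpq ha (fun σ => f (σ u)) (fun σ i => ?_) ?_
      · simp only [update_of_ne hu]
      · exact PC_SS ha θ q u (MW_mul (ha p) hθ).2 hf

/-- two equality weights are positively correlated under product weights -/
lemma PC_EE {a : V → Fin k → ℝ} (ha : ∀ u, a u ∈ MW k) {θ : Fin k → ℝ} (hθ : θ ∈ MW k)
    (x y p q : V) : PC a θ [] (bq θ x y) (bq θ p q) := by
  have loopcase : ∀ (x p q : V), PC a θ [] (bq θ x x) (bq θ p q) := by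
    intro x p q
    have : bq θ x x = fun σ : V → Fin k => θ (σ x) := by funext σ; exact bq_self θ x σ
    rw [this]
    exact PC_comm (PC_SE ha hθ x p q hθ.2)
  have outcase : ∀ (x y p q : V), x ≠ y → x ≠ p → x ≠ q → PC a θ [] (bq θ x y) (bq θ p q) := by
    intro x y p q hxy hxp hxq
    refine PC_out hxy ha _ (fun σ i => ?_) ?_
    · simp only [bq, update_of_ne hxp.symm, update_of_ne hxq.symm]
    · exact PC_comm (PC_SE ha hθ y p q (MW_mul (ha x) hθ).2)
  by_cases hxy : x = y
  · subst hxy; exact loopcase x p q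
  by_cases hpq : p = q
  · subst hpq; exact PC_comm (loopcase p x y)
  by_cases h1 : x = p ∨ x = q
  · by_cases h2 : y = p ∨ y = q
    · -- same pair
      have hsame : bq θ x y = bq θ p q := by
        rcases h1 with h1 | h1 <;> rcases h2 with h2 | h2
        · exact absurd (h1.trans h2.symm) hxy
        · rw [h1, h2]
        · funext σ; rw [h1, h2]; exact bq_comm θ q p σ
        · exact absurd (h1.trans h2.symm) hxy
      rw [← hsame]
      unfold PC NN
      have hcs := Finset.sum_mul_sq_le_sq_mul_sq univ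
        (fun σ : V → Fin k => Real.sqrt (cw a θ [] σ))
        (fun σ => Real.sqrt (cw a θ [] σ) * bq θ x y σ)
      have hs : ∀ σ : V → Fin k, Real.sqrt (cw a θ [] σ) * Real.sqrt (cw a θ [] σ) =
          cw a θ [] σ := fun σ => Real.mul_self_sqrt (cw_nil_pos ha θ σ).le
      have e1 : ∀ σ : V → Fin k, Real.sqrt (cw a θ [] σ) *
          (Real.sqrt (cw a θ [] σ) * bq θ x y σ) = cw a θ [] σ * bq θ x y σ := by
        intro σ; rw [← mul_assoc, hs]
      have e2 : ∀ σ : V → Fin k, Real.sqrt (cw a θ [] σ) ^ 2 = cw a θ [] σ * 1 := by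
        intro σ; rw [sq, hs, mul_one]
      have e3 : ∀ σ : V → Fin k, (Real.sqrt (cw a θ [] σ) * bq θ x y σ) ^ 2 =
          cw a θ [] σ * (bq θ x y σ * bq θ x y σ) := by
        intro σ
        calc _ = (Real.sqrt (cw a θ [] σ) * Real.sqrt (cw a θ [] σ)) *
            (bq θ x y σ * bq θ x y σ) := by ring
          _ = _ := by rw [hs]
      simp only [e1, e2, e3] at hcs
      rw [sq] at hcs
      exact hcs
    · push Not at h2
      have : bq θ x y = bq θ y x := by funext σ; exact bq_comm θ x y σ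
      rw [this]
      exact outcase y x p q (Ne.symm hxy) h2.1 h2.2
  · push Not at h1
    exact outcase x y p q hxy h1.1 h1.2

/-- an equality weight and an increasing site function are positively correlated -/
lemma PC_edge_site : ∀ (n : ℕ) (B : List (V × V)), B.length = n → ∀ (a : V → Fin k → ℝ),
    (∀ u, a u ∈ MW k) → ∀ {θ : Fin k → ℝ}, θ ∈ MW k → ∀ (x y u : V) {f : Fin k → ℝ},
    Monotone f → PC a θ B (bq θ x y) (fun σ => f (σ u)) := by
  intro n
  induction n with
  | zero =>
    intro B hB a ha θ hθ x y u f hf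
    rw [List.length_eq_zero_iff.1 hB]
    exact PC_SE ha hθ u x y hf
  | succ n ih =>
    intro B hB a ha θ hθ x y u f hf
    match B, hB with
    | (p, q) :: B', hB =>
      have hB' : B'.length = n := by simpa using hB
      by_cases hpq : p = q
      · subst hpq
        exact PC_cons_eq (ih B' hB' _ (fun v => update_mem ha (MW_mul (ha p) hθ) p v) hθ x y u hf)
      · refine PC_cons_ne hpq ?_
        exact ih _ (by rw [List.length_map]; exact hB') _ (fun v => ac_mem ha hθ p q v) hθ
          (sb p q x) (sb p q y) (sb p q u) hf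

/-- two equality weights are positively correlated -/
lemma PC_edge_edge : ∀ (n : ℕ) (B : List (V × V)), B.length = n → ∀ (a : V → Fin k → ℝ),
    (∀ u, a u ∈ MW k) → ∀ {θ : Fin k → ℝ}, θ ∈ MW k → ∀ (x y z t : V),
    PC a θ B (bq θ x y) (bq θ z t) := by
  intro n
  induction n with
  | zero =>
    intro B hB a ha θ hθ x y z t
    rw [List.length_eq_zero_iff.1 hB]
    exact PC_EE ha hθ x y z t
  | succ n ih =>
    intro B hB a ha θ hθ x y z t
    match B, hB with
    | (p, q) :: B', hB =>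
      have hB' : B'.length = n := by simpa using hB
      by_cases hpq : p = q
      · subst hpq
        exact PC_cons_eq (ih B' hB' _ (fun v => update_mem ha (MW_mul (ha p) hθ) p v) hθ x y z t)
      · refine PC_cons_ne hpq ?_
        exact ih _ (by rw [List.length_map]; exact hB') _ (fun v => ac_mem ha hθ p q v) hθ
          (sb p q x) (sb p q y) (sb p q z) (sb p q t)

/-- higher states are more likely -/
lemma NN_mono_state : ∀ (n : ℕ) (B : List (V × V)), B.length = n → ∀ (a : V → Fin k → ℝ),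
    (∀ u, a u ∈ MW k) → ∀ {θ : Fin k → ℝ}, θ ∈ MW k → ∀ (v : V) {i j : Fin k}, i ≤ j →
    NN a θ B (fun σ => if σ v = i then 1 else 0) ≤ NN a θ B (fun σ => if σ v = j then 1 else 0) := by
  intro n
  induction n with
  | zero =>
    intro B hB a ha θ hθ v i j hij
    rw [List.length_eq_zero_iff.1 hB]
    have hR : ∀ (σ : V → Fin k) (l : Fin k), ∏ u, a u (update σ v l u) =
        a v l * ∏ u ∈ univ.erase v, a u (σ u) := by
      intro σ l
      rw [← Finset.mul_prod_erase univ (fun u => a u (update σ v l u)) (Finset.mem_univ v)]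
      have h5 : ∏ u ∈ univ.erase v, a u (update σ v l u) = ∏ u ∈ univ.erase v, a u (σ u) := by
        refine Finset.prod_congr rfl fun u hu => ?_
        rw [update_of_ne (Finset.ne_of_mem_erase hu)]
      rw [h5, update_self]
    have h1 : ∀ l : Fin k, (k : ℝ) * NN a θ [] (fun σ => if σ v = l then 1 else 0) =
        a v l * ∑ σ : V → Fin k, ∏ u ∈ univ.erase v, a u (σ u) := by
      intro l
      unfold NN
      rw [sum_avg v, Finset.mul_sum]
      refine Finset.sum_congr rfl fun σ _ => ?_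
      unfold cw
      simp only [List.map_nil, List.prod_nil, mul_one, hR, update_self]
      simp
    have hk := kpos (k := k)
    have h2 : (k : ℝ) * NN a θ [] (fun σ => if σ v = i then 1 else 0) ≤
        (k : ℝ) * NN a θ [] (fun σ => if σ v = j then 1 else 0) := by
      rw [h1, h1]
      refine mul_le_mul_of_nonneg_right ((ha v).2 hij) ?_
      exact Finset.sum_nonneg fun σ _ => Finset.prod_nonneg fun u _ => ((ha u).1 _).le
    exact le_of_mul_le_mul_left h2 hk
  | succ n ih =>
    intro B hB a ha θ hθ v i j hij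
    match B, hB with
    | (p, q) :: B', hB =>
      have hB' : B'.length = n := by simpa using hB
      by_cases hpq : p = q
      · subst hpq
        rw [NN_cons_eq, NN_cons_eq]
        exact ih B' hB' _ (fun v => update_mem ha (MW_mul (ha p) hθ) p v) hθ v hij
      · have hk := kpos (k := k)
        refine le_of_mul_le_mul_left ?_ hk
        rw [NN_cons_ne hpq, NN_cons_ne hpq]
        exact ih _ (by rw [List.length_map]; exact hB') _ (fun v => ac_mem ha hθ p q v) hθ
          (sb p q v) hij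

end potts

end Pool.Agent.Lib.MP_7587db
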