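import Pool.Agent.Lib.MP_7587db.Potts

set_option autoImplicit false
set_option linter.unusedSectionVars false
set_option linter.unusedVariables false

namespace Pool.Agent.Lib.MP_7587db

open Finset Function

section potts2

variable {V : Type*} [Fintype V] [DecidableEq V] {k : ℕ} [NeZero k]
  {ι : Type*} [Fintype ι] [DecidableEq ι]

/-- weight of a configuration under the equality constraints indexed by `T` -/
noncomputable def cwF (a : V → Fin k → ℝ) (θ : Fin k → ℝ) (ev : ι → V × V) (T : Finset ι)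
    (σ : V → Fin k) : ℝ := (∏ u, a u (σ u)) * ∏ i ∈ T, bq θ (ev i).1 (ev i).2 σ

lemma cwF_eq (a : V → Fin k → ℝ) (θ : Fin k → ℝ) (ev : ι → V × V) (T : Finset ι) :
    cwF a θ ev T = cw a θ (T.toList.map ev) := by
  funext σ
  unfold cwF cw
  rw [List.map_map]
  congr 1
  rw [← Finset.prod_map_toList]
  rfl

/-- unnormalised expectations -/
noncomputable def NF (a : V → Fin k → ℝ) (θ : Fin k → ℝ) (ev : ι → V × V) (T : Finset ι)
    (φ : (V → Fin k) → ℝ) : ℝ := ∑ σ, cwF a θ ev T σ * φ σ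

lemma NF_eq (a : V → Fin k → ℝ) (θ : Fin k → ℝ) (ev : ι → V × V) (T : Finset ι)
    (φ : (V → Fin k) → ℝ) : NF a θ ev T φ = NN a θ (T.toList.map ev) φ := by
  unfold NF NN
  rw [cwF_eq]

lemma NF_insert (a : V → Fin k → ℝ) (θ : Fin k → ℝ) (ev : ι → V × V) {T : Finset ι} {i : ι}
    (hi : i ∉ T) (φ : (V → Fin k) → ℝ) :
    NF a θ ev (insert i T) φ = NF a θ ev T (fun σ => bq θ (ev i).1 (ev i).2 σ * φ σ) := by
  unfold NF cwF
  refine Finset.sum_congr rfl fun σ _ => ?_
  rw [Finset.prod_insert hi]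
  ring

variable {a : V → Fin k → ℝ} {θ : Fin k → ℝ}

lemma NF_pos (ha : ∀ u, a u ∈ MW k) (hθ : θ ∈ MW k) (ev : ι → V × V) (T : Finset ι) :
    0 < NF a θ ev T (fun _ => 1) := by
  rw [NF_eq]; exact NN_one_pos _ _ rfl a ha hθ

/-- conditional expectation given the constraints -/
noncomputable def mF (a : V → Fin k → ℝ) (θ : Fin k → ℝ) (ev : ι → V × V)
    (φ : (V → Fin k) → ℝ) (T : Finset ι) : ℝ := NF a θ ev T φ / NF a θ ev T (fun _ => 1)

lemma mF_mono_of_PC (ha : ∀ u, a u ∈ MW k) (hθ : θ ∈ MW k) (ev : ι → V × V)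
    {φ : (V → Fin k) → ℝ}
    (h : ∀ (T : Finset ι) (i : ι), PC a θ (T.toList.map ev) (bq θ (ev i).1 (ev i).2) φ) :
    Monotone (mF a θ ev φ) := by
  rw [Finset.monotone_iff_forall_le_insert]
  intro T i hi
  unfold mF
  rw [div_le_div_iff₀ (NF_pos ha hθ ev T) (NF_pos ha hθ ev _), NF_insert a θ ev hi,
    NF_insert a θ ev hi]
  have := h T i
  unfold PC at this
  simp only [NF_eq, mul_one]
  linarith

lemma mF_site_mono (ha : ∀ u, a u ∈ MW k) (hθ : θ ∈ MW k) (ev : ι → V × V) (u : V)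
    {f : Fin k → ℝ} (hf : Monotone f) : Monotone (mF a θ ev (fun σ => f (σ u))) :=
  mF_mono_of_PC ha hθ ev fun T i => PC_edge_site _ _ rfl a ha hθ _ _ u hf

lemma mF_edge_mono (ha : ∀ u, a u ∈ MW k) (hθ : θ ∈ MW k) (ev : ι → V × V) (i : ι) :
    Monotone (mF a θ ev (bq θ (ev i).1 (ev i).2)) :=
  mF_mono_of_PC ha hθ ev fun T j => PC_edge_edge _ _ rfl a ha hθ _ _ _ _

lemma theta_ratio (ha : ∀ u, a u ∈ MW k) (hθ : θ ∈ MW k) (ev : ι → V × V) {T T' : Finset ι}
    (hTT : T ⊆ T') (S : Finset ι) : Disjoint S T' →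
    NF a θ ev (T ∪ S) (fun _ => 1) * NF a θ ev T' (fun _ => 1) ≤
      NF a θ ev T (fun _ => 1) * NF a θ ev (T' ∪ S) (fun _ => 1) := by
  induction S using Finset.induction_on with
  | empty => intro _; simp
  | insert i S hi ih =>
    intro hd
    rw [Finset.disjoint_insert_left] at hd
    have ih' := ih hd.2
    have hiT' : i ∉ T' := hd.1
    have hiT : i ∉ T := fun h => hiT' (hTT h)
    have e1 : T ∪ insert i S = insert i (T ∪ S) := by
      ext x; simp only [Finset.mem_union, Finset.mem_insert]; tauto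
    have e2 : T' ∪ insert i S = insert i (T' ∪ S) := by
      ext x; simp only [Finset.mem_union, Finset.mem_insert]; tauto
    have n1 : i ∉ T ∪ S := by simp [hiT, hi]
    have n2 : i ∉ T' ∪ S := by simp [hiT', hi]
    rw [e1, e2, NF_insert a θ ev n1, NF_insert a θ ev n2]
    simp only [mul_one]
    have p1 := NF_pos ha hθ ev (T ∪ S)
    have p2 := NF_pos ha hθ ev (T' ∪ S)
    have p3 := NF_pos ha hθ ev T
    have p4 := NF_pos ha hθ ev T'
    have hm := mF_edge_mono ha hθ ev i (Finset.union_subset_union_left (t := S) hTT :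
      T ∪ S ≤ T' ∪ S)
    unfold mF at hm
    set X := NF a θ ev (T ∪ S) (fun σ => bq θ (ev i).1 (ev i).2 σ) with hX
    set Y := NF a θ ev (T' ∪ S) (fun σ => bq θ (ev i).1 (ev i).2 σ) with hY
    have hm' : X / NF a θ ev (T ∪ S) (fun _ => 1) ≤ Y / NF a θ ev (T' ∪ S) (fun _ => 1) := hm
    have hX' : X = X / NF a θ ev (T ∪ S) (fun _ => 1) * NF a θ ev (T ∪ S) (fun _ => 1) := by
      field_simp
    have hY' : Y = Y / NF a θ ev (T' ∪ S) (fun _ => 1) * NF a θ ev (T' ∪ S) (fun _ => 1) := by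
      field_simp
    have hYn : 0 ≤ Y / NF a θ ev (T' ∪ S) (fun _ => 1) := by
      refine div_nonneg ?_ p2.le
      rw [hY]; unfold NF
      refine Finset.sum_nonneg fun σ _ => mul_nonneg ?_ (bq_nonneg hθ _ _ _)
      rw [cwF_eq]; exact cw_nonneg ha hθ _ _
    rw [hX', hY']
    calc X / NF a θ ev (T ∪ S) (fun _ => 1) * NF a θ ev (T ∪ S) (fun _ => 1) *
        NF a θ ev T' (fun _ => 1)
        = X / NF a θ ev (T ∪ S) (fun _ => 1) * (NF a θ ev (T ∪ S) (fun _ => 1) *
          NF a θ ev T' (fun _ => 1)) := by ring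
      _ ≤ Y / NF a θ ev (T' ∪ S) (fun _ => 1) * (NF a θ ev T (fun _ => 1) *
          NF a θ ev (T' ∪ S) (fun _ => 1)) :=
          mul_le_mul hm' ih' (mul_pos p1 p4).le hYn
      _ = _ := by ring

lemma theta_LSM (ha : ∀ u, a u ∈ MW k) (hθ : θ ∈ MW k) (ev : ι → V × V) (T T' : Finset ι) :
    NF a θ ev T (fun _ => 1) * NF a θ ev T' (fun _ => 1) ≤
      NF a θ ev (T ⊓ T') (fun _ => 1) * NF a θ ev (T ⊔ T') (fun _ => 1) := by
  have h := theta_ratio ha hθ ev (T := T ∩ T') (T' := T') Finset.inter_subset_right (T \ T')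
    (Finset.sdiff_disjoint)
  have e1 : T ∩ T' ∪ T \ T' = T := by
    ext x; simp only [Finset.mem_union, Finset.mem_inter, Finset.mem_sdiff]; tauto
  have e2 : T' ∪ T \ T' = T ∪ T' := by
    ext x; simp only [Finset.mem_union, Finset.mem_sdiff]; tauto
  rw [e1, e2] at h
  exact h

/-- positive correlation in the constraint variables -/
lemma cov_theta_nonneg (ha : ∀ u, a u ∈ MW k) (hθ : θ ∈ MW k) (ev : ι → V × V)
    {F G : Finset ι → ℝ} (hF : Monotone F) (hG : Monotone G) :
    0 ≤ cov (fun T => NF a θ ev T (fun _ => 1)) F G := by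
  set W : Finset ι → ℝ := fun T => NF a θ ev T (fun _ => 1) with hWdef
  have hW : ∀ T, 0 < W T := fun T => NF_pos ha hθ ev T
  set cf := ∑ τ, |F τ| with hcf
  set cg := ∑ τ, |G τ| with hcg
  have hf0 : ∀ σ, 0 ≤ F σ + cf := by
    intro σ
    have : |F σ| ≤ cf :=
      Finset.single_le_sum (f := fun τ => |F τ|) (fun τ _ => abs_nonneg _) (Finset.mem_univ σ)
    linarith [neg_abs_le (F σ)]
  have hg0 : ∀ σ, 0 ≤ G σ + cg := by
    intro σ
    have : |G σ| ≤ cg :=
      Finset.single_le_sum (f := fun τ => |G τ|) (fun τ _ => abs_nonneg _) (Finset.mem_univ σ)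
    linarith [neg_abs_le (G σ)]
  have key : 0 ≤ cov W (fun σ => F σ + cf) (fun σ => G σ + cg) := by
    have h := fkg (α := Finset ι) (β := ℝ) (μ := W) (f := fun σ => F σ + cf)
      (g := fun σ => G σ + cg) (fun σ => (hW σ).le) hf0 hg0
      (fun x y hab => by simpa using hF hab) (fun x y hab => by simpa using hG hab)
      (fun x y => theta_LSM ha hθ ev x y)
    unfold cov gE
    have hpos := sum_W_pos hW
    rw [sub_nonneg, div_mul_div_comm, div_le_div_iff₀ (mul_pos hpos hpos) hpos]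
    calc _ = ((∑ a, W a * (F a + cf)) * ∑ a, W a * (G a + cg)) * ∑ σ, W σ := by ring
      _ ≤ ((∑ a, W a) * ∑ a, W a * ((F a + cf) * (G a + cg))) * ∑ σ, W σ :=
          mul_le_mul_of_nonneg_right h hpos.le
      _ = _ := by ring
  have e1 : cov W (fun σ => F σ + cf) (fun σ => G σ + cg) = cov W F G := by
    rw [cov_add_left, cov_const_left hW, cov_add_right, cov_comm W F (fun _ => cg),
      cov_const_left hW]
    ring
  rwa [e1] at key

/-- the scale of the total order -/
noncomputable def s0 (k : ℕ) : Fin k → ℝ := sL (Equiv.refl (Fin k))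

lemma s0_mono : Monotone (s0 k) := by
  intro i j hij
  rcases hij.eq_or_lt with h | h
  · rw [h]
  · have := sL_lt (Equiv.refl (Fin k)) (i := i) (j := j) h
    unfold s0; linarith

lemma s0_gap {i j : Fin k} (h : i < j) : s0 k i + 1 ≤ s0 k j :=
  sL_lt (Equiv.refl (Fin k)) (i := i) (j := j) h

/-- domination of covariances at fixed constraints -/
lemma cw_dec : ∀ (n : ℕ) (B : List (V × V)), B.length = n → ∀ (a : V → Fin k → ℝ),
    (∀ u, a u ∈ MW k) → ∀ {θ : Fin k → ℝ}, θ ∈ MW k → Dec (s0 k) (cw a θ B) := by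
  intro n
  induction n with
  | zero =>
    intro B hB a ha θ hθ
    rw [List.length_eq_zero_iff.1 hB]
    exact LSMV.dec (cw_nil_pos ha θ) (cw_nil_LSMV a θ)
  | succ n ih =>
    intro B hB a ha θ hθ
    match B, hB with
    | (p, q) :: B', hB =>
      have hB' : B'.length = n := by simpa using hB
      by_cases hpq : p = q
      · subst hpq
        have e : cw a θ ((p, p) :: B') = cw (update a p (fun i => a p i * θ i)) θ B' := by
          funext σ
          have h1 := NN_cons_eq p a θ B' (fun τ => if τ = σ then 1 else 0)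
          unfold NN at h1
          simpa using h1
        rw [e]
        exact ih B' hB' _ (fun v => update_mem ha (MW_mul (ha p) hθ) p v) hθ
      · have ih' := ih (B'.map (Prod.map (sb p q) (sb p q))) (by rw [List.length_map]; exact hB')
          (ac a θ p q) (fun v => ac_mem ha hθ p q v) hθ
        have hk := kpos (k := k)
        have hg : ∀ φ : (V → Fin k) → ℝ, gE (cw a θ ((p, q) :: B')) φ =
            gE (cw (ac a θ p q) θ (B'.map (Prod.map (sb p q) (sb p q))))
              (fun σ => φ (fun u => σ (sb p q u))) := by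
          intro φ
          have h1 := NN_cons_ne hpq a θ B' φ
          have h2 := NN_cons_ne hpq a θ B' (fun _ => 1)
          unfold NN at h1 h2
          unfold gE
          rw [← h1]
          simp only [mul_one] at h2
          rw [← h2, mul_div_mul_left _ _ hk.ne']
        intro u v φ ψ L L' hφ hψ
        have h3 := ih' (sb p q u) (sb p q v) φ ψ L L' hφ hψ
        unfold cov at h3 ⊢
        rw [hg, hg, hg, hg, hg, hg]
        exact h3

/-- the mixture of constrained weights -/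
noncomputable def mixW (a : V → Fin k → ℝ) (θ : Fin k → ℝ) (ev : ι → V × V)
    (σ : V → Fin k) : ℝ := (∏ u, a u (σ u)) * ∏ i, (1 + bq θ (ev i).1 (ev i).2 σ)

lemma mixW_eq (a : V → Fin k → ℝ) (θ : Fin k → ℝ) (ev : ι → V × V) (σ : V → Fin k) :
    mixW a θ ev σ = ∑ T : Finset ι, cwF a θ ev T σ := by
  unfold mixW cwF
  rw [Finset.prod_one_add, Finset.powerset_univ, Finset.mul_sum]

lemma sum_mixW (a : V → Fin k → ℝ) (θ : Fin k → ℝ) (ev : ι → V × V) (φ : (V → Fin k) → ℝ) :
    ∑ σ, mixW a θ ev σ * φ σ = ∑ T : Finset ι, NF a θ ev T φ := by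
  simp only [mixW_eq, NF, Finset.sum_mul]
  rw [Finset.sum_comm]

lemma gE_mixW (ha : ∀ u, a u ∈ MW k) (hθ : θ ∈ MW k) (ev : ι → V × V)
    (φ : (V → Fin k) → ℝ) :
    gE (mixW a θ ev) φ = gE (fun T => NF a θ ev T (fun _ => 1)) (mF a θ ev φ) := by
  unfold gE
  rw [sum_mixW]
  have h1 : ∑ σ, mixW a θ ev σ = ∑ T : Finset ι, NF a θ ev T (fun _ => 1) := by
    rw [← sum_mixW]; simp
  rw [h1]
  congr 1
  refine Finset.sum_congr rfl fun T _ => ?_
  unfold mF
  have := (NF_pos ha hθ ev T).ne'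
  field_simp

lemma mF_eq_gE (ev : ι → V × V) (φ : (V → Fin k) → ℝ) (T : Finset ι) :
    mF a θ ev φ T = gE (cwF a θ ev T) φ := by
  unfold mF NF gE
  simp

/-- the mixture is associated -/
lemma mixW_dec (ha : ∀ u, a u ∈ MW k) (hθ : θ ∈ MW k) (ev : ι → V × V) :
    Dec (s0 k) (mixW a θ ev) := by
  set W : Finset ι → ℝ := fun T => NF a θ ev T (fun _ => 1) with hWdef
  have hW : ∀ T, 0 < W T := fun T => NF_pos ha hθ ev T
  -- decomposition of the covariance
  have hdecomp : ∀ f g : (V → Fin k) → ℝ, cov (mixW a θ ev) f g =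
      gE W (fun T => cov (cwF a θ ev T) f g) + cov W (mF a θ ev f) (mF a θ ev g) := by
    intro f g
    have e1 : cov (mixW a θ ev) f g = gE W (mF a θ ev (fun σ => f σ * g σ)) -
        gE W (mF a θ ev f) * gE W (mF a θ ev g) := by
      unfold cov
      rw [gE_mixW ha hθ, gE_mixW ha hθ, gE_mixW ha hθ]
    have e2 : (fun T => cov (cwF a θ ev T) f g) = fun T =>
        mF a θ ev (fun σ => f σ * g σ) T - mF a θ ev f T * mF a θ ev g T := by
      funext T
      unfold cov
      rw [mF_eq_gE, mF_eq_gE, mF_eq_gE]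
    rw [e1, e2, gE_sub]
    unfold cov
    ring
  intro u v φ ψ L L' hφ hψ
  have hL0 : 0 ≤ L := (abs_nonneg _).trans (hφ 0 0)
  have hL0' : 0 ≤ L' := (abs_nonneg _).trans (hψ 0 0)
  rw [hdecomp, hdecomp (sv (s0 k) u) (sv (s0 k) v), mul_add]
  refine (abs_add_le _ _).trans (add_le_add ?_ ?_)
  · -- conditional part
    have h1 : ∀ T, |cov (cwF a θ ev T) (fun σ => φ (σ u)) (fun σ => ψ (σ v))| ≤
        L * L' * cov (cwF a θ ev T) (sv (s0 k) u) (sv (s0 k) v) := by
      intro T
      rw [cwF_eq]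
      exact cw_dec _ _ rfl a ha hθ u v φ ψ L L' hφ hψ
    have hlo : gE W (fun T => (-1) * (L * L' * cov (cwF a θ ev T) (sv (s0 k) u) (sv (s0 k) v))) ≤
        gE W (fun T => cov (cwF a θ ev T) (fun σ => φ (σ u)) (fun σ => ψ (σ v))) :=
      gE_mono hW fun T => by linarith [(abs_le.1 (h1 T)).1]
    have hup : gE W (fun T => cov (cwF a θ ev T) (fun σ => φ (σ u)) (fun σ => ψ (σ v))) ≤
        gE W (fun T => L * L' * cov (cwF a θ ev T) (sv (s0 k) u) (sv (s0 k) v)) :=
      gE_mono hW fun T => (abs_le.1 (h1 T)).2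
    rw [gE_mul_left W (-1), gE_mul_left W (L * L')] at hlo
    rw [gE_mul_left W (L * L')] at hup
    rw [abs_le]
    constructor <;> linarith
  · -- constraint part
    have hmon : ∀ (χ : Fin k → ℝ) (K : ℝ), (∀ i j, |χ i - χ j| ≤ K) →
        Monotone (fun i => K * s0 k i + χ i) := by
      intro χ K hK i j hij
      have hK0 : 0 ≤ K := (abs_nonneg _).trans (hK 0 0)
      rcases hij.eq_or_lt with heq | hlt
      · rw [heq]
      · have h1 := s0_gap hlt
        have h2 := (abs_le.1 (hK i j)).2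
        simp only
        nlinarith
    have hneg : ∀ (χ : Fin k → ℝ) (K : ℝ), (∀ i j, |χ i - χ j| ≤ K) →
        (∀ i j, |(fun i => -χ i) i - (fun i => -χ i) j| ≤ K) := by
      intro χ K hK i j
      have := hK j i
      simpa [neg_add_eq_sub] using this
    have hlin : ∀ (x : V) (K : ℝ) (χ : Fin k → ℝ),
        mF a θ ev (fun σ => K * s0 k (σ x) + χ (σ x)) =
        fun T => K * mF a θ ev (sv (s0 k) x) T + mF a θ ev (fun σ => χ (σ x)) T := by
      intro x K χ
      funext T
      rw [mF_eq_gE, mF_eq_gE, mF_eq_gE, gE_add, gE_mul_left]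
      rfl
    have hlin2 : ∀ (x : V) (K : ℝ) (χ : Fin k → ℝ),
        mF a θ ev (fun σ => K * s0 k (σ x) + -χ (σ x)) =
        fun T => K * mF a θ ev (sv (s0 k) x) T + - mF a θ ev (fun σ => χ (σ x)) T := by
      intro x K χ
      funext T
      rw [mF_eq_gE, mF_eq_gE, mF_eq_gE, gE_add, gE_mul_left]
      have : (fun σ : V → Fin k => -χ (σ x)) = fun σ => (-1) * χ (σ x) := by funext σ; ring
      rw [this, gE_mul_left, neg_one_mul]
      rfl
    have p1 := cov_theta_nonneg ha hθ ev (mF_site_mono ha hθ ev u (hmon φ L hφ))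
      (mF_site_mono ha hθ ev v (hmon ψ L' hψ))
    have p2 := cov_theta_nonneg ha hθ ev
      (mF_site_mono ha hθ ev u (hmon (fun i => -φ i) L (hneg φ L hφ)))
      (mF_site_mono ha hθ ev v (hmon (fun i => -ψ i) L' (hneg ψ L' hψ)))
    have p3 := cov_theta_nonneg ha hθ ev (mF_site_mono ha hθ ev u (hmon φ L hφ))
      (mF_site_mono ha hθ ev v (hmon (fun i => -ψ i) L' (hneg ψ L' hψ)))
    have p4 := cov_theta_nonneg ha hθ ev
      (mF_site_mono ha hθ ev u (hmon (fun i => -φ i) L (hneg φ L hφ)))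
      (mF_site_mono ha hθ ev v (hmon ψ L' hψ))
    have en : ∀ (f g : Finset ι → ℝ), cov W (fun σ => - f σ) g = - cov W f g := by
      intro f g
      have := cov_mul_left W (-1) f g
      simpa using this
    have en' : ∀ (f g : Finset ι → ℝ), cov W f (fun σ => - g σ) = - cov W f g := by
      intro f g
      rw [cov_comm, en, cov_comm]
    simp only [hlin, hlin2] at p1 p2 p3 p4
    change 0 ≤ cov W _ _ at p1
    change 0 ≤ cov W _ _ at p2
    change 0 ≤ cov W _ _ at p3
    change 0 ≤ cov W _ _ at p4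
    simp only [cov_add_left, cov_add_right, cov_mul_left, cov_mul_right, en, en'] at p1 p2 p3 p4
    rw [abs_le]
    constructor <;> linarith

lemma mixW_mono_state (ha : ∀ u, a u ∈ MW k) (hθ : θ ∈ MW k) (ev : ι → V × V) (v : V)
    {i j : Fin k} (hij : i ≤ j) :
    ∑ σ : V → Fin k, mixW a θ ev σ * (if σ v = i then 1 else 0) ≤
      ∑ σ : V → Fin k, mixW a θ ev σ * (if σ v = j then 1 else 0) := by
  rw [sum_mixW, sum_mixW]
  refine Finset.sum_le_sum fun T _ => ?_
  rw [NF_eq, NF_eq]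
  exact NN_mono_state _ _ rfl a ha hθ v hij

end potts2

end Pool.Agent.Lib.MP_7587db
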