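import Pool.Agent.Lib.MP_7587db.AlmostSure

set_option autoImplicit false
set_option linter.unusedSectionVars false
set_option linter.unusedVariables false

namespace Pool.Agent.Lib.MP_7587db

open Finset Function Filter MeasureTheory ProbabilityTheory

section transfer

variable {k : ℕ}

/-- the logarithm of the number of weighted homomorphisms -/
noncomputable def hl (n : ℕ) (α : Fin k → ℝ) (A : Fin k → Fin k → ℝ)
    (x : Fin n × Fin n → Bool) : ℝ :=
  Real.log (∑ σ : Fin n → Fin k, (∏ u, α (σ u)) *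
    ∏ p ∈ Finset.univ.filter (fun p : Fin n × Fin n => p.1 < p.2 ∧ x p = true),
      A (σ p.1) (σ p.2))

/-- the pairs listed in increasing order -/
def Sm (n : ℕ) : Fin n × Fin n → Bool := fun p => decide (p.1 < p.2)

lemma hl_eq (n : ℕ) (α : Fin k → ℝ) (A : Fin k → Fin k → ℝ) (x : Fin n × Fin n → Bool) :
    hl n α A x = lZ (fun _ i => α i) A (mask (Sm n) x) := by
  unfold hl lZ
  congr 1
  refine Finset.sum_congr rfl fun σ _ => ?_
  unfold PW
  congr 1
  rw [Finset.prod_filter]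
  refine Finset.prod_congr rfl fun p _ => ?_
  by_cases h1 : p.1 < p.2
  · cases h2 : x p <;> simp [mask, Sm, h1, h2]
  · simp [mask, Sm, h1]

lemma bE_hl (c : ℝ) (n : ℕ) (hcn : c ≤ n) (hn : 1 ≤ n) (α : Fin k → ℝ)
    (A : Fin k → Fin k → ℝ) :
    bE (fun _ => pn c n) (hl n α A) = bE (pU (Fin n) c) (lZ (fun _ i => α i) A) := by
  have h1 : hl n α A = fun x => lZ (fun _ i => α i) A (mask (Sm n) x) := by
    funext x; exact hl_eq n α A x
  rw [h1, bE_mask]
  congr 1
  funext p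
  have hn0 : (0 : ℝ) < n := by exact_mod_cast hn
  have h2 : pn c n = c / n := by
    unfold pn
    rw [min_eq_right]
    rw [div_le_one hn0]; exact hcn
  by_cases h : p.1 < p.2
  · simp [Sm, pU, h, h2]
  · simp [Sm, pU, h]

lemma exists_D [NeZero k] {A : Fin k → Fin k → ℝ} (hA : ∀ i j, 0 < A i j) :
    ∃ D : ℝ, 0 < D ∧ (∀ i j, Real.exp (-D) ≤ A i j) ∧ ∀ i j, A i j ≤ Real.exp D := by
  set S := ∑ i, ∑ j, |Real.log (A i j)| with hS
  have hS0 : 0 ≤ S := Finset.sum_nonneg fun i _ => Finset.sum_nonneg fun j _ => abs_nonneg _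
  have hle : ∀ i j, |Real.log (A i j)| ≤ S := by
    intro i j
    have h1 : |Real.log (A i j)| ≤ ∑ j, |Real.log (A i j)| :=
      Finset.single_le_sum (f := fun j => |Real.log (A i j)|) (fun j _ => abs_nonneg _)
        (Finset.mem_univ j)
    have h2 : ∑ j, |Real.log (A i j)| ≤ S :=
      Finset.single_le_sum (f := fun i => ∑ j, |Real.log (A i j)|)
        (fun i _ => Finset.sum_nonneg fun j _ => abs_nonneg _) (Finset.mem_univ i)
    exact h1.trans h2
  refine ⟨S + 1, by linarith, fun i j => ?_, fun i j => ?_⟩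
  · rw [← Real.exp_log (hA i j)]
    refine Real.exp_le_exp.2 ?_
    have := (abs_le.1 (hle i j)).1
    linarith
  · rw [← Real.exp_log (hA i j)]
    refine Real.exp_le_exp.2 ?_
    have := (abs_le.1 (hle i j)).2
    linarith

/-- closeness in the logarithmic sense -/
def near (ε : ℝ) (H H' : (Fin k → ℝ) × (Fin k → Fin k → ℝ)) : Prop :=
  (∀ i, |Real.log (H.1 i) - Real.log (H'.1 i)| ≤ ε) ∧
    ∀ i j, |Real.log (H.2 i j) - Real.log (H'.2 i j)| ≤ ε

lemma near_symm {ε : ℝ} {H H' : (Fin k → ℝ) × (Fin k → Fin k → ℝ)} (h : near ε H H') :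
    near ε H' H :=
  ⟨fun i => by rw [abs_sub_comm]; exact h.1 i, fun i j => by rw [abs_sub_comm]; exact h.2 i j⟩

/-- positivity of a target -/
def posH (H : (Fin k → ℝ) × (Fin k → Fin k → ℝ)) : Prop :=
  (∀ i, 0 < H.1 i) ∧ ∀ i j, 0 < H.2 i j

lemma lZ_lip {V : Type*} [Fintype V] [DecidableEq V] [NeZero k]
    {H H' : (Fin k → ℝ) × (Fin k → Fin k → ℝ)} (hH : posH H) (hH' : posH H')
    {ε : ℝ} (hε : 0 ≤ ε) (h : near ε H H') (ω : V × V → Bool) :
    lZ (fun _ i => H.1 i) H.2 ω ≤ lZ (fun _ i => H'.1 i) H'.2 ω +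
      ε * (Fintype.card V + ∑ e, cond (ω e) (1 : ℝ) 0) := by
  have hexp : ∀ {x y : ℝ}, 0 < x → 0 < y → |Real.log x - Real.log y| ≤ ε →
      x ≤ y * Real.exp ε := by
    intro x y hx hy hxy
    have h1 : Real.log x ≤ Real.log y + ε := by linarith [(abs_le.1 hxy).2]
    calc x = Real.exp (Real.log x) := (Real.exp_log hx).symm
      _ ≤ Real.exp (Real.log y + ε) := Real.exp_le_exp.2 h1
      _ = y * Real.exp ε := by rw [Real.exp_add, Real.exp_log hy]
  set E := ε * (Fintype.card V + ∑ e, cond (ω e) (1 : ℝ) 0) with hE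
  have hEexp : Real.exp E = (∏ _ : V, Real.exp ε) * ∏ e : V × V, cond (ω e) (Real.exp ε) 1 := by
    rw [← Real.exp_sum]
    have : ∏ e : V × V, cond (ω e) (Real.exp ε) 1 =
        Real.exp (∑ e : V × V, ε * cond (ω e) (1 : ℝ) 0) := by
      rw [Real.exp_sum]
      refine Finset.prod_congr rfl fun e _ => ?_
      cases ω e <;> simp
    rw [this, ← Real.exp_add]
    congr 1
    rw [hE, ← Finset.mul_sum]
    simp
    ring
  have hterm : ∀ σ : V → Fin k, PW (fun _ i => H.1 i) H.2 ω σ ≤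
      PW (fun _ i => H'.1 i) H'.2 ω σ * Real.exp E := by
    intro σ
    rw [hEexp]
    unfold PW
    have e1 : (∏ u, H'.1 (σ u)) * (∏ e : V × V, cond (ω e) (H'.2 (σ e.1) (σ e.2)) 1) *
        ((∏ _ : V, Real.exp ε) * ∏ e : V × V, cond (ω e) (Real.exp ε) 1) =
        (∏ u, H'.1 (σ u) * Real.exp ε) *
        ∏ e : V × V, (cond (ω e) (H'.2 (σ e.1) (σ e.2)) 1 * cond (ω e) (Real.exp ε) 1) := by
      rw [Finset.prod_mul_distrib, Finset.prod_mul_distrib]; ring
    rw [e1]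
    refine mul_le_mul ?_ ?_ ?_ ?_
    · exact Finset.prod_le_prod (fun u _ => (hH.1 _).le) fun u _ =>
        hexp (hH.1 _) (hH'.1 _) (h.1 _)
    · refine Finset.prod_le_prod (fun e _ => ?_) fun e _ => ?_
      · cases ω e
        · simp
        · exact (hH.2 _ _).le
      · cases ω e
        · simp
        · exact hexp (hH.2 _ _) (hH'.2 _ _) (h.2 _ _)
    · refine Finset.prod_nonneg fun e _ => ?_
      cases ω e
      · simp
      · exact (hH.2 _ _).le
    · exact Finset.prod_nonneg fun u _ => (mul_pos (hH'.1 _) (Real.exp_pos _)).le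
  have hp1 := sum_W_pos (PW_pos (fun _ => hH.1) hH.2 ω)
  have hp2 := sum_W_pos (PW_pos (fun _ => hH'.1) hH'.2 ω)
  unfold lZ
  have hlog : Real.log (∑ σ, PW (fun _ i => H'.1 i) H'.2 ω σ) + E =
      Real.log ((∑ σ, PW (fun _ i => H'.1 i) H'.2 ω σ) * Real.exp E) := by
    rw [Real.log_mul hp2.ne' (Real.exp_pos _).ne', Real.log_exp]
  rw [hlog]
  refine Real.log_le_log hp1 ?_
  rw [Finset.sum_mul]
  exact Finset.sum_le_sum fun σ _ => hterm σ

lemma abs_hl_sub_le [NeZero k] {n : ℕ}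
    {H H' : (Fin k → ℝ) × (Fin k → Fin k → ℝ)} (hH : posH H) (hH' : posH H')
    {ε : ℝ} (hε : 0 ≤ ε) (h : near ε H H') (x : Fin n × Fin n → Bool) :
    |hl n H.1 H.2 x - hl n H'.1 H'.2 x| ≤ ε * (n + ∑ e, cond (x e) (1 : ℝ) 0) := by
  rw [hl_eq, hl_eq]
  have h1 := lZ_lip hH hH' hε h (mask (Sm n) x)
  have h2 := lZ_lip hH' hH hε (near_symm h) (mask (Sm n) x)
  have h3 : ∑ e, cond (mask (Sm n) x e) (1 : ℝ) 0 ≤ ∑ e, cond (x e) (1 : ℝ) 0 := by
    refine Finset.sum_le_sum fun e _ => ?_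
    unfold mask
    cases x e <;> cases Sm n e <;> simp
  have h4 : ε * ((Fintype.card (Fin n) : ℝ) + ∑ e, cond (mask (Sm n) x e) (1 : ℝ) 0) ≤
      ε * (n + ∑ e, cond (x e) (1 : ℝ) 0) := by
    refine mul_le_mul_of_nonneg_left ?_ hε
    rw [Fintype.card_fin]; linarith
  rw [abs_le]
  constructor <;> linarith

/-- targets for which the mean free energy of the directed model converges -/
def Good (c : ℝ) (k : ℕ) [NeZero k] : Set ((Fin k → ℝ) × (Fin k → Fin k → ℝ)) :=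
  {H | posH H ∧ (∀ i j, H.2 i j = H.2 j i) ∧
    ∃ l, Tendsto (fun n : ℕ => Phi (Fin n) c H.1 H.2 / n) atTop (nhds l)}

variable {Ω : Type} [MeasurableSpace Ω] {μ : Measure Ω} [IsProbabilityMeasure μ]
  {X : (Σ n : ℕ, Fin n × Fin n) → Ω → Bool} {c : ℝ}

/-- almost sure convergence for a single good target -/
lemma ae_single [NeZero k] (hc : 0 < c) (hi : iIndepFun X μ) (hm : ∀ i, Measurable (X i))
    (hp : ∀ i, μ {ω | X i ω = true} = ENNReal.ofReal (min 1 (c / (i.1 : ℝ))))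
    {H : (Fin k → ℝ) × (Fin k → Fin k → ℝ)} (hH : H ∈ Good c k) :
    ∀ᵐ ω ∂μ, ∃ l, Tendsto (fun n : ℕ => hl n H.1 H.2 (cf X n ω) / (n : ℝ)) atTop (nhds l) := by
  obtain ⟨hpos, hsym, l, hl'⟩ := hH
  obtain ⟨D, hD, hA1, hA2⟩ := exists_D hpos.2
  have hconc := conc_ae hc hi hm hp hD (fun n => hl n H.1 H.2) (fun n => by
    have h1 : hl n H.1 H.2 = fun x => lZ (fun _ i => H.1 i) H.2 (mask (Sm n) x) := by
      funext x; exact hl_eq n H.1 H.2 x
    rw [h1]
    exact BDiff_mask hD.le (lZ_BDiff (fun _ => hpos.1) hA1 hA2) (Sm n))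
  have hcpl : Tendsto (fun n : ℕ => (bE (fun _ => pn c n) (hl n H.1 H.2) -
      Phi (Fin n) c H.1 H.2) / (n : ℝ)) atTop (nhds 0) := by
    obtain ⟨n₀, hn₀⟩ := exists_nat_ge c
    have hb : ∀ᶠ n : ℕ in atTop, ‖(bE (fun _ => pn c n) (hl n H.1 H.2) -
        Phi (Fin n) c H.1 H.2) / (n : ℝ)‖ ≤ ((c ^ 2 + c) * D / 2) / n := by
      filter_upwards [eventually_ge_atTop (max n₀ 1)] with n hn
      have hn1 : 1 ≤ n := (le_max_right _ _).trans hn
      have hcn : c ≤ n := hn₀.trans (by exact_mod_cast (le_max_left _ _).trans hn)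
      have : Nonempty (Fin n) := ⟨⟨0, hn1⟩⟩
      have hcp := coupling (V := Fin n) hpos.1 hsym hD.le hA1 hA2 hc.le (by simpa using hcn)
      rw [bE_hl c n hcn hn1, Real.norm_eq_abs, abs_div, abs_sub_comm,
        abs_of_nonneg (Nat.cast_nonneg n : (0 : ℝ) ≤ n)]
      exact div_le_div_of_nonneg_right hcp (Nat.cast_nonneg n)
    refine squeeze_zero_norm' hb ?_
    exact tendsto_const_nhds.div_atTop tendsto_natCast_atTop_atTop
  filter_upwards [hconc] with ω hω
  refine ⟨0 + 0 + l, ?_⟩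
  refine ((hω.add hcpl).add hl').congr fun n => ?_
  rcases Nat.eq_zero_or_pos n with h | h
  · subst h; simp
  · have hn0 : (n : ℝ) ≠ 0 := by exact_mod_cast h.ne'
    field_simp
    ring

/-- the number of edges is almost surely at most linear -/
lemma ae_edges (hc : 0 < c) (hi : iIndepFun X μ) (hm : ∀ i, Measurable (X i))
    (hp : ∀ i, μ {ω | X i ω = true} = ENNReal.ofReal (min 1 (c / (i.1 : ℝ)))) :
    ∀ᵐ ω ∂μ, ∀ᶠ n : ℕ in atTop, ∑ e, cond (cf X n ω e) (1 : ℝ) 0 ≤ (c + 1) * n := by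
  have hconc := conc_ae hc hi hm hp one_pos (fun n x => ∑ e, cond (x e) (1 : ℝ) 0) (fun n => by
    intro i x
    have : bD i (fun x : Fin n × Fin n → Bool => ∑ e, cond (x e) (1 : ℝ) 0) x = 1 := by
      simp only [bD]
      rw [← Finset.sum_sub_distrib, Finset.sum_eq_single i]
      · simp
      · intro j _ hj
        simp [hj]
      · intro h; exact absurd (Finset.mem_univ _) h
    rw [this, abs_one])
  filter_upwards [hconc] with ω hω
  have h1 := (hω.eventually_le_const (u := 1) one_pos)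
  filter_upwards [h1, eventually_ge_atTop 1] with n hn hn1
  have hn0 : (0 : ℝ) < n := by exact_mod_cast hn1
  have h2 : bE (fun _ => pn c n) (fun x : Fin n × Fin n → Bool => ∑ e, cond (x e) (1 : ℝ) 0) ≤
      c * n := by
    rw [bE_sum]
    refine le_trans (le_of_eq ?_) (sum_pn_le hc.le n)
    exact Finset.sum_congr rfl fun e _ => bE_indicator _ e
  rw [div_le_one hn0] at hn
  linarith

lemma exists_near [NeZero k] {S : Set ((Fin k → ℝ) × (Fin k → Fin k → ℝ))}
    {H : (Fin k → ℝ) × (Fin k → Fin k → ℝ)} (hH : posH H) (hcl : H ∈ closure S)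
    {ε : ℝ} (hε : 0 < ε) : ∃ H' ∈ S, near ε H H' := by
  have hU : ∀ᶠ H' in nhds H, near ε H H' := by
    have h1 : ∀ i, ∀ᶠ H' : (Fin k → ℝ) × (Fin k → Fin k → ℝ) in nhds H,
        |Real.log (H.1 i) - Real.log (H'.1 i)| ≤ ε := by
      intro i
      have hc : ContinuousAt (fun H' : (Fin k → ℝ) × (Fin k → Fin k → ℝ) =>
          |Real.log (H.1 i) - Real.log (H'.1 i)|) H := by
        have : ContinuousAt (fun H' : (Fin k → ℝ) × (Fin k → Fin k → ℝ) => H'.1 i) H := by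
          fun_prop
        exact (continuousAt_const.sub (this.log (hH.1 i).ne')).abs
      have h0 : |Real.log (H.1 i) - Real.log (H.1 i)| < ε := by simpa using hε
      exact (hc.eventually_lt continuousAt_const h0).mono fun _ h => h.le
    have h2 : ∀ i j, ∀ᶠ H' : (Fin k → ℝ) × (Fin k → Fin k → ℝ) in nhds H,
        |Real.log (H.2 i j) - Real.log (H'.2 i j)| ≤ ε := by
      intro i j
      have hc : ContinuousAt (fun H' : (Fin k → ℝ) × (Fin k → Fin k → ℝ) =>
          |Real.log (H.2 i j) - Real.log (H'.2 i j)|) H := by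
        have : ContinuousAt (fun H' : (Fin k → ℝ) × (Fin k → Fin k → ℝ) => H'.2 i j) H := by
          fun_prop
        exact (continuousAt_const.sub (this.log (hH.2 i j).ne')).abs
      have h0 : |Real.log (H.2 i j) - Real.log (H.2 i j)| < ε := by simpa using hε
      exact (hc.eventually_lt continuousAt_const h0).mono fun _ h => h.le
    have h1' := Filter.eventually_all.2 h1
    have h2' := Filter.eventually_all.2 fun i => Filter.eventually_all.2 (h2 i)
    filter_upwards [h1', h2'] with H' a b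
    exact ⟨a, b⟩
  obtain ⟨H', hn, hS⟩ := mem_closure_iff_nhds.1 hcl _ hU
  exact ⟨H', hS, hn⟩

/-- convergence passes to limits of targets -/
lemma conv_of_near [NeZero k] {x : ∀ n : ℕ, Fin n × Fin n → Bool} {K : ℝ}
    (hx : ∀ᶠ n : ℕ in atTop, ∑ e, cond (x n e) (1 : ℝ) 0 ≤ K * n)
    {H : (Fin k → ℝ) × (Fin k → Fin k → ℝ)} (hH : posH H)
    (h : ∀ ε > 0, ∃ H' : (Fin k → ℝ) × (Fin k → Fin k → ℝ), posH H' ∧ near ε H H' ∧
      ∃ l, Tendsto (fun n : ℕ => hl n H'.1 H'.2 (x n) / (n : ℝ)) atTop (nhds l)) :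
    ∃ l, Tendsto (fun n : ℕ => hl n H.1 H.2 (x n) / (n : ℝ)) atTop (nhds l) := by
  refine cauchySeq_tendsto_of_complete ?_
  rw [Metric.cauchySeq_iff']
  intro ε hε
  set K' := |K| + 1 with hK'
  have hK'0 : 0 < K' + 1 := by positivity
  obtain ⟨H', hH', hnear, l, hl'⟩ := h (ε / (4 * (K' + 1))) (by positivity)
  have hclose : ∀ᶠ n : ℕ in atTop, |hl n H.1 H.2 (x n) / (n : ℝ) -
      hl n H'.1 H'.2 (x n) / (n : ℝ)| ≤ ε / 4 := by
    filter_upwards [hx, eventually_ge_atTop 1] with n hn hn1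
    have hn0 : (0 : ℝ) < n := by exact_mod_cast hn1
    have h1 := abs_hl_sub_le hH hH' (by positivity) hnear (x n)
    rw [← sub_div, abs_div, abs_of_pos hn0, div_le_iff₀ hn0]
    refine h1.trans ?_
    have h2 : (n : ℝ) + ∑ e, cond (x n e) (1 : ℝ) 0 ≤ (K' + 1) * n := by
      have : K * n ≤ K' * n := mul_le_mul_of_nonneg_right
        ((le_abs_self K).trans (by rw [hK']; linarith)) hn0.le
      linarith
    calc ε / (4 * (K' + 1)) * (n + ∑ e, cond (x n e) (1 : ℝ) 0)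
        ≤ ε / (4 * (K' + 1)) * ((K' + 1) * n) := mul_le_mul_of_nonneg_left h2 (by positivity)
      _ = ε / 4 * n := by field_simp
  have hcau := hl'.cauchySeq
  rw [Metric.cauchySeq_iff'] at hcau
  obtain ⟨N₁, hN₁⟩ := hcau (ε / 4) (by linarith)
  obtain ⟨N₂, hN₂⟩ := hclose.exists_forall_of_atTop
  refine ⟨max N₁ N₂, fun n hn => ?_⟩
  have a1 := hN₁ n ((le_max_left _ _).trans hn)
  have a1' := hN₁ (max N₁ N₂) (le_max_left _ _)
  have a2 := hN₂ n ((le_max_right _ _).trans hn)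
  have a3 := hN₂ (max N₁ N₂) (le_max_right _ _)
  rw [Real.dist_eq] at a1 a1' ⊢
  have b1 := abs_lt.1 a1
  have b1' := abs_lt.1 a1'
  have b2 := abs_le.1 a2
  have b3 := abs_le.1 a3
  rw [abs_lt]
  constructor <;> linarith [b1.1, b1.2, b1'.1, b1'.2, b2.1, b2.2, b3.1, b3.2]

/-- almost sure simultaneous convergence for all limits of good targets -/
theorem ae_all (hc : 0 < c) (hi : iIndepFun X μ) (hm : ∀ i, Measurable (X i))
    (hp : ∀ i, μ {ω | X i ω = true} = ENNReal.ofReal (min 1 (c / (i.1 : ℝ)))) (k : ℕ) [NeZero k] :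
    ∀ᵐ ω ∂μ, ∀ H : (Fin k → ℝ) × (Fin k → Fin k → ℝ), posH H → H ∈ closure (Good c k) →
      ∃ l, Tendsto (fun n : ℕ => hl n H.1 H.2 (cf X n ω) / (n : ℝ)) atTop (nhds l) := by
  obtain ⟨T, hTG, hTc, hTd⟩ :=
    (TopologicalSpace.IsSeparable.of_separableSpace (Good c k)).exists_countable_dense_subset
  have h1 : ∀ᵐ ω ∂μ, ∀ H ∈ T, ∃ l, Tendsto (fun n : ℕ => hl n H.1 H.2 (cf X n ω) / (n : ℝ))
      atTop (nhds l) := (ae_ball_iff hTc).2 fun H hH => ae_single hc hi hm hp (hTG hH)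
  filter_upwards [h1, ae_edges hc hi hm hp] with ω hω hedge
  intro H hH hcl
  have hcl' : H ∈ closure T := by
    have := closure_mono hTd hcl
    rwa [closure_closure] at this
  refine conv_of_near hedge hH fun ε hε => ?_
  obtain ⟨H', hT', hnear⟩ := exists_near hH hcl' hε
  exact ⟨H', (hTG hT').1, hnear, hω H' hT'⟩

/-- the final form of the transfer -/
theorem ae_final (hc : 0 < c) (hi : iIndepFun X μ) (hm : ∀ i, Measurable (X i))
    (hp : ∀ i, μ {ω | X i ω = true} = ENNReal.ofReal (min 1 (c / (i.1 : ℝ))))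
    (P : ∀ k : ℕ, (Fin k → ℝ) → (Fin k → Fin k → ℝ) → Prop)
    (hP : ∀ (k : ℕ) [NeZero k] (α : Fin k → ℝ) (A : Fin k → Fin k → ℝ), (∀ i, 0 < α i) →
      (∀ i j, 0 < A i j) → (∀ i j, A i j = A j i) → P k α A → (α, A) ∈ closure (Good c k)) :
    ∀ᵐ ω ∂μ, ∀ (k : ℕ) (α : Fin k → ℝ) (A : Fin k → Fin k → ℝ), (∀ i, 0 < α i) →
      (∀ i j, 0 < A i j) → (∀ i j, A i j = A j i) → P k α A →
      ∃ L, Tendsto (fun n : ℕ => -(1 / (n : ℝ)) * hl n α A (cf X n ω)) atTop (nhds L) := by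
  have h1 : ∀ᵐ ω ∂μ, ∀ k : ℕ, ∀ (α : Fin (k + 1) → ℝ) (A : Fin (k + 1) → Fin (k + 1) → ℝ),
      (∀ i, 0 < α i) → (∀ i j, 0 < A i j) → (∀ i j, A i j = A j i) → P (k + 1) α A →
      ∃ l, Tendsto (fun n : ℕ => hl n α A (cf X n ω) / (n : ℝ)) atTop (nhds l) := by
    rw [ae_all_iff]
    intro k
    filter_upwards [ae_all hc hi hm hp (k + 1)] with ω hω
    intro α A hα hA hs hPk
    exact hω (α, A) ⟨hα, hA⟩ (hP (k + 1) α A hα hA hs hPk)
  filter_upwards [h1] with ω hω
  intro k α A hα hA hs hPk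
  cases k with
  | zero =>
    refine ⟨0, tendsto_const_nhds.congr' ?_⟩
    filter_upwards [eventually_ge_atTop 1] with n hn
    have : Nonempty (Fin n) := ⟨⟨0, hn⟩⟩
    have he : IsEmpty (Fin n → Fin 0) := ⟨fun f => (f ⟨0, hn⟩).elim0⟩
    unfold hl
    simp
  | succ k =>
    obtain ⟨l, hl'⟩ := hω k α A hα hA hs hPk
    refine ⟨-l, hl'.neg.congr fun n => ?_⟩
    ring

end transfer

end Pool.Agent.Lib.MP_7587db
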