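import Pool.Agent.Lib.MP_7587db.Model

set_option autoImplicit false
set_option linter.unusedSectionVars false

namespace Pool.Agent.Lib.MP_7587db

open Finset Function

section virtual

variable {V : Type*} [Fintype V] [DecidableEq V] {k : ℕ} [NeZero k]

/-- site weights: field `l`, and an extra weight `w` at the marked sites -/
noncomputable def aP (sf α w : Fin k → ℝ) (l : ℝ) (ξ : V → Bool) : V → Fin k → ℝ :=
  fun u i => α i * cond (ξ u) (w i) 1 * Real.exp (l * sf i)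

/-- the corresponding weight of a configuration -/
noncomputable def GW (sf α w : Fin k → ℝ) (A : Fin k → Fin k → ℝ) (ω : V × V → Bool)
    (ξ : V → Bool) (l : ℝ) : (V → Fin k) → ℝ := PW (aP sf α w l ξ) A ω

/-- sum of the spins -/
def Msum (sf : Fin k → ℝ) (σ : V → Fin k) : ℝ := ∑ u, sv sf u σ

lemma aP_pos {sf α w : Fin k → ℝ} (hα : ∀ i, 0 < α i) (hw : ∀ i, 0 < w i) (l : ℝ) (ξ : V → Bool)
    (u : V) (i : Fin k) : 0 < aP sf α w l ξ u i := by
  unfold aP
  refine mul_pos (mul_pos (hα i) ?_) (Real.exp_pos _)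
  cases ξ u
  · simp
  · exact hw i

lemma GW_pos {sf α w : Fin k → ℝ} {A : Fin k → Fin k → ℝ} (hα : ∀ i, 0 < α i) (hw : ∀ i, 0 < w i)
    (hA : ∀ i j, 0 < A i j) (ω : V × V → Bool) (ξ : V → Bool) (l : ℝ) (σ : V → Fin k) :
    0 < GW sf α w A ω ξ l σ := PW_pos (aP_pos hα hw l ξ) hA ω σ

lemma Assoc.one {𝓦 : Set (Fin k → ℝ)} {A : Fin k → Fin k → ℝ} {sf : Fin k → ℝ} {S : ℝ}
    (H : Assoc 𝓦 A sf S) : (fun _ : Fin k => (1 : ℝ)) ∈ 𝓦 := by
  simpa using H.field 0 le_rfl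

lemma Assoc.aP_mem {𝓦 : Set (Fin k → ℝ)} {A : Fin k → Fin k → ℝ} {sf : Fin k → ℝ} {S : ℝ}
    (H : Assoc 𝓦 A sf S) {α w : Fin k → ℝ} (hα : α ∈ 𝓦) (hw : w ∈ 𝓦) {l : ℝ} (hl : 0 ≤ l)
    (ξ : V → Bool) (u : V) : aP sf α w l ξ u ∈ 𝓦 := by
  unfold aP
  refine H.mul (fun i => α i * cond (ξ u) (w i) 1) ?_ (fun i => Real.exp (l * sf i)) (H.field l hl)
  refine H.mul α hα (fun i => cond (ξ u) (w i) 1) ?_
  cases ξ u
  · exact H.one
  · exact hw

lemma Assoc.GW_Dec {V : Type} [Fintype V] [DecidableEq V]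
    {𝓦 : Set (Fin k → ℝ)} {A : Fin k → Fin k → ℝ} {sf : Fin k → ℝ} {S : ℝ}
    (H : Assoc 𝓦 A sf S) {α w : Fin k → ℝ} (hα : α ∈ 𝓦) (hw : w ∈ 𝓦)
    (ω : V × V → Bool) (ξ : V → Bool) {l : ℝ} (hl : 0 ≤ l) :
    Dec sf (GW sf α w A ω ξ l) := H.decor V _ ω (H.aP_mem hα hw hl ξ)

lemma GW_exp (sf α w : Fin k → ℝ) (A : Fin k → Fin k → ℝ) (ω : V × V → Bool)
    (ξ : V → Bool) (l : ℝ) :
    GW sf α w A ω ξ l = fun σ => GW sf α w A ω ξ 0 σ * Real.exp (l * Msum sf σ) := by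
  funext σ
  unfold GW
  have h : aP sf α w l ξ = fun u i => aP sf α w 0 ξ u i * Real.exp (l * sf i) := by
    funext u i
    simp [aP]
  rw [h, PW_mul_site]
  congr 1
  rw [← Real.exp_sum]
  congr 1
  simp [Msum, sv, Finset.mul_sum]

lemma GW_update (sf α w : Fin k → ℝ) (A : Fin k → Fin k → ℝ) (ω : V × V → Bool)
    (ξ : V → Bool) (u : V) (l : ℝ) (σ : V → Fin k) :
    GW sf α w A ω (update ξ u true) l σ = GW sf α w A ω (update ξ u false) l σ * w (σ u) := by
  unfold GW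
  have h : aP sf α w l (update ξ u true) = fun v i => aP sf α w l (update ξ u false) v i *
      (if v = u then w i else 1) := by
    funext v i
    by_cases hv : v = u
    · subst hv; simp [aP]; ring
    · simp [aP, hv]
  rw [h, PW_mul_site]
  congr 1
  simp

/-- log-partition function with marks -/
noncomputable def FF (sf α w : Fin k → ℝ) (A : Fin k → Fin k → ℝ) (l : ℝ) (ω : V × V → Bool)
    (ξ : V → Bool) : ℝ := lZ (aP sf α w l ξ) A ω

lemma FF_eq (sf α w : Fin k → ℝ) (A : Fin k → Fin k → ℝ) (l : ℝ) (ω : V × V → Bool)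
    (ξ : V → Bool) : FF sf α w A l ω ξ = Real.log (∑ σ, GW sf α w A ω ξ l σ) := rfl

lemma continuous_FF {sf α w : Fin k → ℝ} {A : Fin k → Fin k → ℝ} (hα : ∀ i, 0 < α i)
    (hw : ∀ i, 0 < w i) (hA : ∀ i j, 0 < A i j) (ω : V × V → Bool) (ξ : V → Bool) :
    Continuous (fun l => FF sf α w A l ω ξ) := by
  simp only [FF_eq]
  have : ∀ l, (∑ σ, GW sf α w A ω ξ l σ) = ∑ σ, GW sf α w A ω ξ 0 σ * Real.exp (l * Msum sf σ) := by
    intro l; rw [GW_exp]
  simp only [this]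
  exact continuous_log_sum (GW_pos hα hw hA ω ξ 0)

lemma continuous_gE_GW {sf α w : Fin k → ℝ} {A : Fin k → Fin k → ℝ} (hα : ∀ i, 0 < α i)
    (hw : ∀ i, 0 < w i) (hA : ∀ i j, 0 < A i j) (ω : V × V → Bool) (ξ : V → Bool)
    (f : (V → Fin k) → ℝ) :
    Continuous (fun l => gE (GW sf α w A ω ξ l) f) := by
  have : ∀ l, gE (GW sf α w A ω ξ l) f = gE (fun σ => GW sf α w A ω ξ 0 σ * Real.exp (l * Msum sf σ)) f := by
    intro l; rw [GW_exp]
  simp only [this]
  exact continuous_gE (GW_pos hα hw hA ω ξ 0)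

lemma continuous_cov_GW {sf α w : Fin k → ℝ} {A : Fin k → Fin k → ℝ} (hα : ∀ i, 0 < α i)
    (hw : ∀ i, 0 < w i) (hA : ∀ i j, 0 < A i j) (ω : V × V → Bool) (ξ : V → Bool)
    (f g : (V → Fin k) → ℝ) :
    Continuous (fun l => cov (GW sf α w A ω ξ l) f g) :=
  (continuous_gE_GW hα hw hA ω ξ _).sub
    ((continuous_gE_GW hα hw hA ω ξ _).mul (continuous_gE_GW hα hw hA ω ξ _))

lemma continuous_log_gE_GW {sf α w : Fin k → ℝ} {A : Fin k → Fin k → ℝ} (hα : ∀ i, 0 < α i)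
    (hw : ∀ i, 0 < w i) (hA : ∀ i j, 0 < A i j) (ω : V × V → Bool) (ξ : V → Bool)
    {f : (V → Fin k) → ℝ} (hf : ∀ σ, 0 < f σ) :
    Continuous (fun l => Real.log (gE (GW sf α w A ω ξ l) f)) :=
  (continuous_gE_GW hα hw hA ω ξ f).log fun l => (gE_pos (GW_pos hα hw hA ω ξ l) hf).ne'

lemma integral_cov_GW {sf α w : Fin k → ℝ} {A : Fin k → Fin k → ℝ} (hα : ∀ i, 0 < α i)
    (hw : ∀ i, 0 < w i) (hA : ∀ i j, 0 < A i j) {S : ℝ} (hs0 : ∀ i, 0 ≤ sf i)
    (hs1 : ∀ i, sf i ≤ S) (ω : V × V → Bool) (ξ : V → Bool) (v : V) (s : ℝ) :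
    ∫ l in (0 : ℝ)..s, cov (GW sf α w A ω ξ l) (sv sf v) (Msum sf) ≤ S := by
  have : ∀ l, cov (GW sf α w A ω ξ l) (sv sf v) (Msum sf) =
      cov (fun σ => GW sf α w A ω ξ 0 σ * Real.exp (l * Msum sf σ)) (sv sf v) (Msum sf) := by
    intro l; rw [GW_exp]
  simp only [this]
  rw [integral_cov (GW_pos hα hw hA ω ξ 0)]
  have h1 : gE (fun σ => GW sf α w A ω ξ 0 σ * Real.exp (s * Msum sf σ)) (sv sf v) ≤ S :=
    gE_le (fun σ => mul_pos (GW_pos hα hw hA ω ξ 0 σ) (Real.exp_pos _)) (fun σ => hs1 _)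
  have h2 : 0 ≤ gE (fun σ => GW sf α w A ω ξ 0 σ * Real.exp (0 * Msum sf σ)) (sv sf v) :=
    gE_nonneg (fun σ => mul_pos (GW_pos hα hw hA ω ξ 0 σ) (Real.exp_pos _)) (fun σ => hs0 _)
  linarith

lemma FF_bD {sf α w : Fin k → ℝ} {A : Fin k → Fin k → ℝ} (hα : ∀ i, 0 < α i) (hw : ∀ i, 0 < w i)
    (hA : ∀ i j, 0 < A i j) (l : ℝ) (ω : V × V → Bool) (ξ : V → Bool) (u : V) :
    bD u (FF sf α w A l ω) ξ = Real.log (gE (GW sf α w A ω (update ξ u false) l) (fun σ => w (σ u))) := by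
  unfold bD
  simp only [FF_eq, GW_update]
  exact log_sum_tilt (GW_pos hα hw hA ω _ l) (fun σ => hw _)

lemma FF_bD_bD {V : Type} [Fintype V] [DecidableEq V]
    {𝓦 : Set (Fin k → ℝ)} {A : Fin k → Fin k → ℝ} {sf α w : Fin k → ℝ} {S : ℝ}
    (H : Assoc 𝓦 A sf S) (hα : α ∈ 𝓦) (hw : w ∈ 𝓦)
    {D : ℝ} (hw1 : ∀ i, Real.exp (-D) ≤ w i) (hw2 : ∀ i, w i ≤ Real.exp D)
    {l : ℝ} (hl : 0 ≤ l) (ω : V × V → Bool) (ξ : V → Bool) {u v : V}
    (huv : u ≠ v) (hu : ξ u = false) (hv : ξ v = false) :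
    |bD v (bD u (FF sf α w A l ω)) ξ| ≤
      Real.exp (4 * D) * cov (GW sf α w A ω ξ l) (sv sf v) (sv sf u) := by
  have hα' := H.pos α hα
  have hw' := H.pos w hw
  have hA := H.posA
  have hWpos := GW_pos (sf := sf) hα' hw' hA ω ξ l
  have e1 : update ξ u false = ξ := by rw [← hu]; exact update_eq_self u ξ
  have e2 : update ξ v false = ξ := by rw [← hv]; exact update_eq_self v ξ
  have h1 : bD v (bD u (FF sf α w A l ω)) ξ =
      Real.log (gE (GW sf α w A ω (update (update ξ v true) u false) l) (fun σ => w (σ u))) -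
      Real.log (gE (GW sf α w A ω ξ l) (fun σ => w (σ u))) := by
    have h2 : bD v (bD u (FF sf α w A l ω)) ξ = bD u (FF sf α w A l ω) (update ξ v true) -
      bD u (FF sf α w A l ω) (update ξ v false) := rfl
    rw [h2, FF_bD hα' hw' hA, FF_bD hα' hw' hA, e2, e1]
  have h3 : update (update ξ v true) u false = update ξ v true := by
    rw [update_comm huv.symm, e1]
  have h4 : GW sf α w A ω (update ξ v true) l = fun σ => GW sf α w A ω ξ l σ * w (σ v) := by
    funext σ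
    rw [GW_update, e2]
  rw [h1, h3, h4, gE_tilt hWpos (fun σ => hw' (σ v)),
    Real.log_div (gE_pos hWpos (fun σ => mul_pos (hw' _) (hw' _))).ne'
      (gE_pos hWpos (fun σ => hw' _)).ne']
  exact pair_approx hWpos (H.GW_Dec hα hw ω ξ hl) hw1 hw2 u v

/-- marking probabilities: `h` on `T`, zero elsewhere -/
noncomputable def PT (h : ℝ) (T : Finset V) : V → ℝ := fun u => if u ∈ T then h else 0

lemma PT_nonneg {h : ℝ} (h0 : 0 ≤ h) (T : Finset V) (u : V) : 0 ≤ PT h T u := by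
  unfold PT; split_ifs <;> simp [h0]

lemma PT_le_one {h : ℝ} (h1 : h ≤ 1) (T : Finset V) (u : V) : PT h T u ≤ 1 := by
  unfold PT; split_ifs <;> simp [h1]

lemma PT_insert (h : ℝ) (T : Finset V) (v : V) : PT h (insert v T) = update (PT h T) v h := by
  funext u
  by_cases hu : u = v
  · subst hu; simp [PT]
  · simp [PT, hu]

lemma PT_notMem {h : ℝ} {T : Finset V} {v : V} (hv : v ∉ T) : PT h T v = 0 := by simp [PT, hv]

/-- interpolation quantity for the virtual marks -/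
noncomputable def Psi (sf α w : Fin k → ℝ) (A : Fin k → Fin k → ℝ) (ω : V × V → Bool) (h : ℝ)
    (U T : Finset V) (l : ℝ) : ℝ :=
  bE (PT h T) (fun ξ => FF sf α w A l ω ξ + h * ∑ u ∈ U \ T, bD u (FF sf α w A l ω) ξ)

lemma continuous_bE {ι : Type*} [Fintype ι] [DecidableEq ι] (p : ι → ℝ)
    {f : ℝ → (ι → Bool) → ℝ} (hf : ∀ ω, Continuous (fun l => f l ω)) :
    Continuous (fun l => bE p (f l)) := by
  unfold bE
  exact continuous_finsetSum _ fun ω _ => continuous_const.mul (hf ω)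

lemma integral_bE {ι : Type*} [Fintype ι] [DecidableEq ι] (p : ι → ℝ)
    {f : ℝ → (ι → Bool) → ℝ} (hf : ∀ ω, Continuous (fun l => f l ω)) (a b : ℝ) :
    ∫ l in a..b, bE p (f l) = bE p (fun ω => ∫ l in a..b, f l ω) := by
  unfold bE
  rw [intervalIntegral.integral_finsetSum]
  · refine Finset.sum_congr rfl fun ω _ => ?_
    rw [intervalIntegral.integral_const_mul]
  · intro ω _
    exact (continuous_const.mul (hf ω)).intervalIntegrable _ _

lemma continuous_bD_FF {sf α w : Fin k → ℝ} {A : Fin k → Fin k → ℝ} (hα : ∀ i, 0 < α i)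
    (hw : ∀ i, 0 < w i) (hA : ∀ i j, 0 < A i j) (ω : V × V → Bool) (ξ : V → Bool) (u : V) :
    Continuous (fun l => bD u (FF sf α w A l ω) ξ) :=
  (continuous_FF hα hw hA ω _).sub (continuous_FF hα hw hA ω _)

lemma continuous_Psi {sf α w : Fin k → ℝ} {A : Fin k → Fin k → ℝ} (hα : ∀ i, 0 < α i)
    (hw : ∀ i, 0 < w i) (hA : ∀ i j, 0 < A i j) (ω : V × V → Bool) (h : ℝ) (U T : Finset V) :
    Continuous (fun l => Psi sf α w A ω h U T l) := by
  unfold Psi
  refine continuous_bE _ fun ξ => ?_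
  refine (continuous_FF hα hw hA ω ξ).add (continuous_const.mul ?_)
  exact continuous_finsetSum _ fun u _ => continuous_bD_FF hα hw hA ω ξ u

lemma bD_add {ι : Type*} [DecidableEq ι] (i : ι) (f g : (ι → Bool) → ℝ) (ω : ι → Bool) :
    bD i (fun ω => f ω + g ω) ω = bD i f ω + bD i g ω := by
  simp only [bD]; ring

lemma bD_mul {ι : Type*} [DecidableEq ι] (i : ι) (c : ℝ) (g : (ι → Bool) → ℝ) (ω : ι → Bool) :
    bD i (fun ω => c * g ω) ω = c * bD i g ω := by
  simp only [bD]; ring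

lemma bD_sum {ι β : Type*} [DecidableEq ι] (i : ι) (s : Finset β) (g : β → (ι → Bool) → ℝ)
    (ω : ι → Bool) :
    bD i (fun ω => ∑ b ∈ s, g b ω) ω = ∑ b ∈ s, bD i (g b) ω := by
  simp only [bD, Finset.sum_sub_distrib]

lemma Psi_step (sf α w : Fin k → ℝ) (A : Fin k → Fin k → ℝ) (ω : V × V → Bool) (h : ℝ)
    (U T : Finset V) (v : V) (hvU : v ∈ U) (hvT : v ∉ T) (l : ℝ) :
    Psi sf α w A ω h U (insert v T) l - Psi sf α w A ω h U T l =
      h ^ 2 * bE (PT h T) (fun ξ => ∑ u ∈ U \ insert v T, bD v (bD u (FF sf α w A l ω)) ξ) := by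
  unfold Psi
  rw [PT_insert, bE_update _ _ (PT_notMem hvT), ← bE_sub, ← bE_mul_left]
  refine congrArg (bE (PT h T)) (funext fun ξ => ?_)
  have h1 : U \ T = insert v (U \ insert v T) := by
    ext x
    simp only [Finset.mem_sdiff, Finset.mem_insert, not_or]
    constructor
    · rintro ⟨hx1, hx2⟩
      by_cases hx : x = v
      · exact Or.inl hx
      · exact Or.inr ⟨hx1, hx, hx2⟩
    · rintro (rfl | ⟨hx1, _, hx2⟩)
      · exact ⟨hvU, hvT⟩
      · exact ⟨hx1, hx2⟩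
  have h2 : v ∉ U \ insert v T := by simp
  rw [h1, Finset.sum_insert h2]
  rw [bD_add, bD_mul, bD_sum]
  ring

lemma Psi_step_abs {V : Type} [Fintype V] [DecidableEq V]
    {𝓦 : Set (Fin k → ℝ)} {A : Fin k → Fin k → ℝ} {sf α w : Fin k → ℝ} {S : ℝ}
    (H : Assoc 𝓦 A sf S) (hα : α ∈ 𝓦) (hw : w ∈ 𝓦)
    {D : ℝ} (hw1 : ∀ i, Real.exp (-D) ≤ w i) (hw2 : ∀ i, w i ≤ Real.exp D)
    (ω : V × V → Bool) {h : ℝ} (h0 : 0 ≤ h) (h1 : h ≤ 1)
    (U T : Finset V) (v : V) (hvU : v ∈ U) (hvT : v ∉ T) {l : ℝ} (hl : 0 ≤ l) :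
    |Psi sf α w A ω h U (insert v T) l - Psi sf α w A ω h U T l| ≤
      h ^ 2 * Real.exp (4 * D) *
        bE (PT h T) (fun ξ => cov (GW sf α w A ω ξ l) (sv sf v) (Msum sf)) := by
  rw [Psi_step sf α w A ω h U T v hvU hvT, abs_mul, abs_of_nonneg (sq_nonneg h), mul_assoc]
  refine mul_le_mul_of_nonneg_left ?_ (sq_nonneg h)
  rw [← bE_mul_left]
  refine (abs_bE_le (PT_nonneg h0 T) (PT_le_one h1 T) _).trans ?_
  refine bE_mono_supp (PT_nonneg h0 T) (PT_le_one h1 T) fun ξ hξ => ?_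
  have hξv : ξ v = false := hξ v (PT_notMem hvT)
  refine (Finset.abs_sum_le_sum_abs _ _).trans ?_
  have hb : ∀ u ∈ U \ insert v T, |bD v (bD u (FF sf α w A l ω)) ξ| ≤
      Real.exp (4 * D) * cov (GW sf α w A ω ξ l) (sv sf v) (sv sf u) := by
    intro u hu
    simp only [Finset.mem_sdiff, Finset.mem_insert, not_or] at hu
    exact FF_bD_bD H hα hw hw1 hw2 hl ω ξ hu.2.1 (hξ u (PT_notMem hu.2.2)) hξv
  refine (Finset.sum_le_sum hb).trans ?_
  rw [← Finset.mul_sum]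
  refine mul_le_mul_of_nonneg_left ?_ (Real.exp_pos _).le
  have : cov (GW sf α w A ω ξ l) (sv sf v) (Msum sf) =
      ∑ u, cov (GW sf α w A ω ξ l) (sv sf v) (sv sf u) := by
    have : (Msum sf : (V → Fin k) → ℝ) = fun σ => ∑ u, sv sf u σ := rfl
    rw [this, cov_sum_right]
  rw [this]
  refine Finset.sum_le_sum_of_subset_of_nonneg (Finset.subset_univ _) fun u _ _ => ?_
  exact (H.GW_Dec hα hw ω ξ hl).cov_nonneg v u

lemma Psi_total {V : Type} [Fintype V] [DecidableEq V]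
    {𝓦 : Set (Fin k → ℝ)} {A : Fin k → Fin k → ℝ} {sf α w : Fin k → ℝ} {S : ℝ}
    (H : Assoc 𝓦 A sf S) (hα : α ∈ 𝓦) (hw : w ∈ 𝓦)
    {D : ℝ} (hw1 : ∀ i, Real.exp (-D) ≤ w i) (hw2 : ∀ i, w i ≤ Real.exp D)
    (ω : V × V → Bool) {h : ℝ} (h0 : 0 ≤ h) (h1 : h ≤ 1)
    {s : ℝ} (hs : 0 ≤ s) (U T : Finset V) (hT : T ⊆ U) :
    ∫ l in (0 : ℝ)..s, |Psi sf α w A ω h U T l - Psi sf α w A ω h U ∅ l| ≤
      T.card * (h ^ 2 * Real.exp (4 * D) * S) := by
  have hα' := H.pos α hα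
  have hw' := H.pos w hw
  have hA := H.posA
  induction T using Finset.induction_on with
  | empty => simp
  | insert v T hv ih =>
    have hvU : v ∈ U := hT (Finset.mem_insert_self v T)
    have ih' := ih ((Finset.subset_insert v T).trans hT)
    have c1 : Continuous (fun l => |Psi sf α w A ω h U (insert v T) l - Psi sf α w A ω h U ∅ l|) :=
      ((continuous_Psi hα' hw' hA ω h U _).sub (continuous_Psi hα' hw' hA ω h U _)).abs
    have c2 : Continuous (fun l => |Psi sf α w A ω h U T l - Psi sf α w A ω h U ∅ l|) :=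
      ((continuous_Psi hα' hw' hA ω h U _).sub (continuous_Psi hα' hw' hA ω h U _)).abs
    have c3 : ∀ ξ : V → Bool, Continuous (fun l => cov (GW sf α w A ω ξ l) (sv sf v) (Msum sf)) :=
      fun ξ => continuous_cov_GW hα' hw' hA ω ξ _ _
    have c4 : Continuous (fun l => h ^ 2 * Real.exp (4 * D) *
        bE (PT h T) (fun ξ => cov (GW sf α w A ω ξ l) (sv sf v) (Msum sf))) :=
      continuous_const.mul (continuous_bE _ c3)
    have step : ∫ l in (0 : ℝ)..s, |Psi sf α w A ω h U (insert v T) l - Psi sf α w A ω h U ∅ l| ≤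
        ∫ l in (0 : ℝ)..s, (|Psi sf α w A ω h U T l - Psi sf α w A ω h U ∅ l| +
          h ^ 2 * Real.exp (4 * D) *
            bE (PT h T) (fun ξ => cov (GW sf α w A ω ξ l) (sv sf v) (Msum sf))) := by
      refine intervalIntegral.integral_mono_on hs (c1.intervalIntegrable _ _)
        ((c2.add c4).intervalIntegrable _ _) fun l hl => ?_
      have := Psi_step_abs H hα hw hw1 hw2 ω h0 h1 U T v hvU hv hl.1
      calc |Psi sf α w A ω h U (insert v T) l - Psi sf α w A ω h U ∅ l|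
          = |(Psi sf α w A ω h U T l - Psi sf α w A ω h U ∅ l) +
            (Psi sf α w A ω h U (insert v T) l - Psi sf α w A ω h U T l)| := by congr 1; ring
        _ ≤ _ := (abs_add_le _ _).trans (add_le_add le_rfl this)
    refine step.trans ?_
    rw [intervalIntegral.integral_add (c2.intervalIntegrable _ _) (c4.intervalIntegrable _ _),
      intervalIntegral.integral_const_mul, integral_bE _ c3, Finset.card_insert_of_notMem hv]
    have hb : bE (PT h T) (fun ξ => ∫ l in (0 : ℝ)..s,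
        cov (GW sf α w A ω ξ l) (sv sf v) (Msum sf)) ≤ S :=
      bE_le_of_le (PT_nonneg h0 T) (PT_le_one h1 T) fun ξ =>
        integral_cov_GW hα' hw' hA H.s_nonneg H.s_le ω ξ v s
    have hb2 : h ^ 2 * Real.exp (4 * D) *
        bE (PT h T) (fun ξ => ∫ l in (0 : ℝ)..s, cov (GW sf α w A ω ξ l) (sv sf v) (Msum sf)) ≤
        h ^ 2 * Real.exp (4 * D) * S := mul_le_mul_of_nonneg_left hb (by positivity)
    push_cast
    linarith

/-- sum over `U` of the log-expectations of a site weight -/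
noncomputable def mU (sf α w : Fin k → ℝ) (A : Fin k → Fin k → ℝ) (ω : V × V → Bool) (U : Finset V)
    (l : ℝ) : ℝ := ∑ u ∈ U, Real.log (gE (GW sf α w A ω (fun _ => false) l) (fun σ => w (σ u)))

lemma GW_false_eq (sf α w w' : Fin k → ℝ) (A : Fin k → Fin k → ℝ) (ω : V × V → Bool) (l : ℝ) :
    GW sf α w A ω (fun _ => false) l = GW sf α w' A ω (fun _ => false) l := by
  unfold GW
  congr 1

lemma bE_zero {ι : Type*} [Fintype ι] [DecidableEq ι] (p : ι → ℝ) (hp : ∀ i, p i = 0)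
    (f : (ι → Bool) → ℝ) : bE p f = f (fun _ => false) := by
  have : bE p f = bE p (fun _ => f (fun _ => false)) := by
    refine bE_congr_supp fun ω hω => ?_
    congr 1
    funext i
    exact hω i (hp i)
  rw [this, bE_const]

lemma Psi_empty {sf α w : Fin k → ℝ} {A : Fin k → Fin k → ℝ} (hα : ∀ i, 0 < α i)
    (hw : ∀ i, 0 < w i) (hA : ∀ i j, 0 < A i j) (ω : V × V → Bool) (h : ℝ) (U : Finset V) (l : ℝ) :
    Psi sf α w A ω h U ∅ l = FF sf α w A l ω (fun _ => false) + h * mU sf α w A ω U l := by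
  unfold Psi
  rw [bE_zero _ (fun i => by simp [PT])]
  congr 2
  rw [Finset.sdiff_empty]
  unfold mU
  refine Finset.sum_congr rfl fun u _ => ?_
  rw [FF_bD hα hw hA]
  congr 3
  funext x
  by_cases hx : x = u
  · subst hx; simp
  · simp [hx]

lemma Psi_full (sf α w : Fin k → ℝ) (A : Fin k → Fin k → ℝ) (ω : V × V → Bool) (h : ℝ)
    (U : Finset V) (l : ℝ) : Psi sf α w A ω h U U l = bE (PT h U) (FF sf α w A l ω) := by
  unfold Psi
  simp

/-- comparing two blocks of vertices -/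
lemma mU_compare {V : Type} [Fintype V] [DecidableEq V]
    {𝓦 : Set (Fin k → ℝ)} {A : Fin k → Fin k → ℝ} {sf α w : Fin k → ℝ} {S : ℝ}
    (H : Assoc 𝓦 A sf S) (hαW : α ∈ 𝓦) (hwW : w ∈ 𝓦)
    {D : ℝ} (hw1 : ∀ i, Real.exp (-D) ≤ w i) (hw2 : ∀ i, w i ≤ Real.exp D)
    (ω : V × V → Bool) {h : ℝ} (h0 : 0 < h) (h1 : h ≤ 1)
    {s : ℝ} (hs : 0 ≤ s) (U U' : Finset V) {n : ℕ} (hU : U.card = n) (hU' : U'.card = n) :
    h * ∫ l in (0 : ℝ)..s, |mU sf α w A ω U l - mU sf α w A ω U' l| ≤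
      (∫ l in (0 : ℝ)..s, |bE (PT h U) (FF sf α w A l ω) - bE (PT h U') (FF sf α w A l ω)|) +
      2 * n * (h ^ 2 * Real.exp (4 * D) * S) := by
  have hα := H.pos α hαW
  have hw := H.pos w hwW
  have hA := H.posA
  have t1 := Psi_total H hαW hwW hw1 hw2 ω h0.le h1 hs U U (Finset.Subset.refl _)
  have t2 := Psi_total H hαW hwW hw1 hw2 ω h0.le h1 hs U' U' (Finset.Subset.refl _)
  simp only [Psi_full, Psi_empty hα hw hA] at t1 t2
  rw [hU] at t1
  rw [hU'] at t2
  have cm : ∀ U : Finset V, Continuous (fun l => mU sf α w A ω U l) := fun U =>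
    continuous_finsetSum _ fun u _ => continuous_log_gE_GW hα hw hA ω _ (fun σ => hw _)
  have cb : ∀ U : Finset V, Continuous (fun l => bE (PT h U) (FF sf α w A l ω)) := fun U =>
    continuous_bE _ fun ξ => continuous_FF hα hw hA ω ξ
  have cF : Continuous (fun l => FF sf α w A l ω (fun _ => false)) := continuous_FF hα hw hA ω _
  have c1 : ∀ U : Finset V, Continuous (fun l => |bE (PT h U) (FF sf α w A l ω) -
      (FF sf α w A l ω (fun _ => false) + h * mU sf α w A ω U l)|) := fun U =>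
    ((cb U).sub (cF.add (continuous_const.mul (cm U)))).abs
  have c2 : Continuous (fun l => |bE (PT h U) (FF sf α w A l ω) - bE (PT h U') (FF sf α w A l ω)|) :=
    ((cb U).sub (cb U')).abs
  have c3 : Continuous (fun l => h * |mU sf α w A ω U l - mU sf α w A ω U' l|) :=
    continuous_const.mul ((cm U).sub (cm U')).abs
  have key : ∫ l in (0 : ℝ)..s, h * |mU sf α w A ω U l - mU sf α w A ω U' l| ≤
      ∫ l in (0 : ℝ)..s, (|bE (PT h U) (FF sf α w A l ω) - bE (PT h U') (FF sf α w A l ω)| +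
        (|bE (PT h U) (FF sf α w A l ω) - (FF sf α w A l ω (fun _ => false) + h * mU sf α w A ω U l)| +
        |bE (PT h U') (FF sf α w A l ω) - (FF sf α w A l ω (fun _ => false) + h * mU sf α w A ω U' l)|)) := by
    refine intervalIntegral.integral_mono_on hs (c3.intervalIntegrable _ _)
      ((c2.add ((c1 U).add (c1 U'))).intervalIntegrable _ _) fun l _ => ?_
    have e : h * |mU sf α w A ω U l - mU sf α w A ω U' l| =
        |(bE (PT h U) (FF sf α w A l ω) - bE (PT h U') (FF sf α w A l ω)) -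
        (bE (PT h U) (FF sf α w A l ω) - (FF sf α w A l ω (fun _ => false) + h * mU sf α w A ω U l)) +
        (bE (PT h U') (FF sf α w A l ω) - (FF sf α w A l ω (fun _ => false) + h * mU sf α w A ω U' l))| := by
      rw [← abs_of_pos h0, ← abs_mul, abs_of_pos h0]
      congr 1; ring
    rw [e]
    refine (abs_add_le _ _).trans ?_
    have := abs_sub (bE (PT h U) (FF sf α w A l ω) - bE (PT h U') (FF sf α w A l ω))
      (bE (PT h U) (FF sf α w A l ω) - (FF sf α w A l ω (fun _ => false) + h * mU sf α w A ω U l))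
    linarith
  rw [intervalIntegral.integral_const_mul] at key
  refine key.trans ?_
  have c12 : Continuous (fun l =>
      |bE (PT h U) (FF sf α w A l ω) - (FF sf α w A l ω (fun _ => false) + h * mU sf α w A ω U l)| +
      |bE (PT h U') (FF sf α w A l ω) - (FF sf α w A l ω (fun _ => false) + h * mU sf α w A ω U' l)|) :=
    (c1 U).add (c1 U')
  rw [intervalIntegral.integral_add (c2.intervalIntegrable _ _) (c12.intervalIntegrable _ _),
    intervalIntegral.integral_add ((c1 U).intervalIntegrable _ _) ((c1 U').intervalIntegrable _ _)]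
  linarith

end virtual

end Pool.Agent.Lib.MP_7587db
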